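import Mathlib
import Pool.Agent.Work.MP_f1a024_nt.OddG.Conc

set_option autoImplicit false

/-!
Definitions for the theorem HP of note HOME LOG 2 (helper48): small integer linear forms in the
odd Genocchi-type numbers `G n = 4 n! lam n / pi ^ n`, `n` odd in a short window.
`lam`, `G` are those of `OddG.Core`.
-/

namespace Pool.Agent.Work.MP_f1a024_nt.HP

open Real Polynomial MeasureTheory Finset Filter Topology
open scoped Nat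

/-- `lcm(1, .., r)`. -/
def dd (r : ℕ) : ℕ := Nat.lcmUpto r

/-- `b_j = (-1)^(r-j) C(r,j)`; `r!/prod_(j<=r)(t-j) = sum_j b_j/(t-j)`. -/
def bb (r j : ℕ) : ℤ := (-1) ^ (r - j) * (r.choose j : ℤ)

/-- Weighted `l1` norm of an integer array (`i <= r`, `s < A`), weight `d^s`. -/
def wnorm (d r A : ℕ) (e : ℕ → ℕ → ℤ) : ℤ :=
  ∑ i ∈ range (r + 1), ∑ s ∈ range A, |e i s| * (d : ℤ) ^ s

/-- `Psi(t) = (r!/prod_(i<=r)(t-i))^A`. -/
noncomputable def Psi (r A : ℕ) (t : ℝ) : ℝ :=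
  ((r ! : ℝ) / ∏ i ∈ range (r + 1), (t - i)) ^ A

/-- `c` is the array of partial fraction coefficients of `d^(A-1) Psi`. -/
structure PF (r A : ℕ) (c : ℕ → ℕ → ℤ) : Prop where
  rat : ∀ t : ℝ, (∀ i ∈ range (r + 1), t ≠ (i : ℝ)) →
    (dd r : ℝ) ^ (A - 1) * Psi r A t =
      ∑ i ∈ range (r + 1), ∑ s ∈ range A, (c i s : ℝ) / (t - i) ^ (s + 1)
  mom : ∀ b : ℕ, b + 1 < (r + 1) * A →
    ∑ i ∈ range (r + 1), ∑ s ∈ range A, c i s * (b.choose s : ℤ) * (i : ℤ) ^ (b - s) = 0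
  nrm : ∑ i ∈ range (r + 1), ∑ s ∈ range A, |c i s| ≤
    (dd r : ℤ) ^ (A - 1) * ((2 : ℤ) ^ r) ^ A * (A ! : ℤ)

/-- `E_i(x) = sum_s C(n,s) c_is (i-x)^(n-s)` (used with `A <= n`). -/
noncomputable def Ez (A n : ℕ) (c : ℕ → ℕ → ℤ) (i : ℕ) : ℤ[X] :=
  ∑ s ∈ range A, C ((n.choose s : ℤ) * c i s) * (C (i : ℤ) - X) ^ (n - s)

/-- An integer polynomial evaluated at a real number. -/
noncomputable def evr (p : ℤ[X]) (x : ℝ) : ℝ := (p.map (Int.castRingHom ℝ)).eval x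

/-- `JJ(g) = sum_(i<=r) int_0^i E_i g`. -/
noncomputable def JJ (r A n : ℕ) (c : ℕ → ℕ → ℤ) (g : ℝ → ℝ) : ℝ :=
  ∑ i ∈ range (r + 1), ∫ x in (0 : ℝ)..(i : ℝ), evr (Ez A n c i) x * g x

/-- `H(z) = int_z^oo (y-z)^n Psi(y) dy`. -/
noncomputable def HH (r A n : ℕ) (z : ℝ) : ℝ :=
  ∫ y in Set.Ioi z, (y - z) ^ n * Psi r A y

/-- `Q(x) = prod_(j=-K..r+K) (x-j)`, degree `r+2K+1`. -/
noncomputable def Qz (r K : ℕ) : ℤ[X] :=
  ∏ j ∈ range (r + 2 * K + 1), (X + C (K : ℤ) - C (j : ℤ))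

/-- `a_m = Q(m) H(m)`. -/
noncomputable def aa (r A n K : ℕ) (m : ℕ) : ℝ :=
  evr (Qz r K) (m : ℝ) * HH r A n (m : ℝ)

/-- `SS(M) = sum_(R <= m <= M) (-1)^m a_m`, `R = r+K+1`. -/
noncomputable def SS (r A n K M : ℕ) : ℝ :=
  ∑ m ∈ Ico (r + K + 1) (M + 1), (-1 : ℝ) ^ m * aa r A n K m

/-- The small number `F = JJ(Q pi/sin(pi x))`. -/
noncomputable def FF (r A n K : ℕ) (c : ℕ → ℕ → ℤ) : ℝ :=
  JJ r A n c (fun x => evr (Qz r K) x * (π / sin (π * x)))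

/-- The integer coefficients of the linear form:
`p_j = - sum_(i<=r) (-1)^i (coefficient of (x-i)^(2j) in Q E_i)`. -/
noncomputable def pp (r A n K : ℕ) (c : ℕ → ℕ → ℤ) (j : ℕ) : ℤ :=
  - ∑ i ∈ range (r + 1), (-1) ^ i *
      (hasseDeriv (2 * j) (Qz r K * Ez A n c i)).eval (i : ℤ)

/-- The upper bound for `|p_j|`. -/
noncomputable def PB (r A n K : ℕ) : ℝ :=
  (r + K + 1 : ℝ) ^ (r + 2 * K + 1) * 2 ^ n * ((dd r : ℝ) ^ (A - 1) * ((2 : ℝ) ^ r) ^ A * (A ! : ℝ))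

/-- The upper bound for `|F|/2`. -/
noncomputable def FB (r A n K : ℕ) : ℝ :=
  (dd r : ℝ) ^ (A - 1) * (((r + 2 * K + 1)! : ℝ) * (r + K + 1 : ℝ) ^ (n + 1) *
    ((r : ℝ) / (r + K + 1)) ^ (r * A))

end Pool.Agent.Work.MP_f1a024_nt.HP
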