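import Mathlib
import Pool.Agent.Work.MP_f1a024_nt.HP.Defs

set_option autoImplicit false

/-!
Statements of the items of the block [f1a024 HP] (helper48). Paper proof: note HOME LOG 2 on
MP_f1a024_nt; each docstring contains the proof of its item. An item may use any other statement
as a hypothesis, if it is earlier in this file (say which ones in the name line).
-/

namespace Pool.Agent.Work.MP_f1a024_nt.HP

open Real Polynomial MeasureTheory Finset Filter Topology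
open scoped Nat

/-! ### Partial fractions -/

/-- EX1. In every commutative ring with elements `h_i` (`i <= r`) and `h_i h_j = m_ij (h_i - h_j)`
for `i != j`, `m_ij` integers of absolute value `<= d`, the product `h_i^(s+1) h_j` is an integer
combination of the `h_a^(b+1)`, `b <= s+1`, the coefficients not depending on the ring, with
weighted norm `<= (s+2) d^(s+1)`.
Proof. `i = j`: trivial. `i != j`: put `T_u = h_i^u h_j`; `T_0 = h_j`,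
`T_(u+1) = m_ij (h_i^(u+1) - T_u)`; induction on `u`: `T_u` has weighted norm `<= (u+1) d^u`. -/
def S_EX1 : Prop :=
  ∀ (r d : ℕ) (m : ℕ → ℕ → ℤ), 1 ≤ d → (∀ i j, |m i j| ≤ (d : ℤ)) →
    ∀ i j s : ℕ, i ≤ r → j ≤ r → ∃ e : ℕ → ℕ → ℤ,
      wnorm d r (s + 2) e ≤ ((s : ℤ) + 2) * (d : ℤ) ^ (s + 1) ∧
      ∀ (R : Type) [CommRing R] (h : ℕ → R),
        (∀ i j, i ≤ r → j ≤ r → i ≠ j → h i * h j = (m i j : R) * (h i - h j)) →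
        h i ^ (s + 1) * h j =
          ∑ a ∈ range (r + 1), ∑ b ∈ range (s + 2), (e a b : R) * h a ^ (b + 1)

/-- EX2. Powers of `sum_j b_j h_j`. Proof from EX1: induction on `A` (base `A = 1`: `e i 0 = b i`);
step: expand `e i s h_i^(s+1) b_j h_j` by EX1 (`s + 2 <= A + 1`), weighted norm
`<= sum |e i s| |b_j| (s+2) d^(s+1) <= (A+1) d (sum |b_j|) wnorm`. -/
def S_EX2 : Prop :=
  ∀ (r d : ℕ) (m : ℕ → ℕ → ℤ) (b : ℕ → ℤ), 1 ≤ d → (∀ i j, |m i j| ≤ (d : ℤ)) →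
    ∀ A : ℕ, 1 ≤ A → ∃ e : ℕ → ℕ → ℤ,
      wnorm d r A e ≤ (∑ j ∈ range (r + 1), |b j|) ^ A * (A ! : ℤ) * (d : ℤ) ^ (A - 1) ∧
      ∀ (R : Type) [CommRing R] (h : ℕ → R),
        (∀ i j, i ≤ r → j ≤ r → i ≠ j → h i * h j = (m i j : R) * (h i - h j)) →
        (∑ j ∈ range (r + 1), (b j : R) * h j) ^ A =
          ∑ i ∈ range (r + 1), ∑ s ∈ range A, (e i s : R) * h i ^ (s + 1)

/-- BAS. `r!/prod_(i<=r)(t-i) = sum_j (-1)^(r-j) C(r,j)/(t-j)`. Induction on `r`, or Lagrange. -/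
def S_BAS : Prop :=
  ∀ (r : ℕ) (t : ℝ), (∀ i ∈ range (r + 1), t ≠ (i : ℝ)) →
    (r ! : ℝ) / ∏ i ∈ range (r + 1), (t - i) = ∑ j ∈ range (r + 1), (bb r j : ℝ) / (t - j)

/-- BAM. `sum_j (-1)^(r-j) C(r,j) j^b = 0` for `b < r` (finite differences of `x^b`). -/
def S_BAM : Prop :=
  ∀ r b : ℕ, b < r → ∑ j ∈ range (r + 1), bb r j * (j : ℤ) ^ b = 0

/-- PFX. Existence of the array `c`. Proof: EX2 with `d = dd r`, `m_ij = d/(i-j)` (exact division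
since `|i-j| <= r`), `b_j = bb r j` (`sum |b_j| = 2^r`), `c i s := e i s * d^s`. (rat): `R = ℝ`,
`h_i = d/(t-i)`, BAS, divide by `d`. (mom): `R = PowerSeries ℤ`,
`h_i = d X (1 + iX + i^2 X^2 + ..)` (`h_i h_j = m_ij (h_i - h_j)`); by BAM `sum b_j h_j` is
divisible by `X^(r+1)`, so its `A`-th power by `X^((r+1)A)`; compare the coefficients of
`X^(b+1)`: `h_i^(s+1)` has the coefficient `d^(s+1) C(b,s) i^(b-s)`
(`PowerSeries.mk_one_pow_eq_mk_choose_add`, `PowerSeries.rescale`). (nrm): `sum |e i s| d^s`. -/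
def S_PFX : Prop := ∀ r A : ℕ, 1 ≤ r → 1 ≤ A → ∃ c : ℕ → ℕ → ℤ, PF r A c

/-! ### The kernel -/

/-- EZ0. The polynomials `E_i` add up to 0: the coefficient of `x^a` is
`(-1)^a C(n,a) sum_is c_is C(n-a,s) i^(n-a-s)`, which is 0 by (mom). -/
def S_EZ0 : Prop :=
  ∀ (r A n : ℕ) (c : ℕ → ℕ → ℤ), PF r A c → A ≤ n → n + 1 < (r + 1) * A →
    ∑ i ∈ range (r + 1), Ez A n c i = 0

/-- JP. `JJ` kills polynomials of degree `<= (r+1)A - n - 3`. Proof: for `p = x^a`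
`int_0^i (i-x)^(n-s) x^a dx = i^(n-s+a+1) (n-s)! a!/(n-s+a+1)!` (Beta integral; induction), so
`JJ(x^a) = n! a!/(n+a+1)! sum_is c_is C(n+a+1,s) i^(n+a+1-s) = 0` by (mom). -/
def S_JP : Prop :=
  ∀ (r A n : ℕ) (c : ℕ → ℕ → ℤ), PF r A c → A ≤ n → ∀ p : ℝ[X],
    n + p.natDegree + 2 < (r + 1) * A → JJ r A n c (fun x => p.eval x) = 0

/-- JK. `JJ(1/(t-x)^(n+2)) = d^(A-1) Psi(t)/(n+1)` for real `t` outside `[0,r]`. Proof: Taylor's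
formula with integral remainder at 0 for the `s`-th derivative of `f(x) = 1/(t-x)`
(`f^(a)(x) = a!/(t-x)^(a+1)`):
`s!/(t-i)^(s+1) = sum_(a<=n-s) (s+a)! i^a/(a! t^(s+a+1)) + int_0^i (i-x)^(n-s)/(n-s)! (n+1)!/(t-x)^(n+2) dx`
(`taylor_integral_remainder`, or induction on `n-s` by parts). Multiply by `c_is/s!` and add up:
the finite sums give `sum_(b<=n) t^(-b-1) sum_is c_is C(b,s) i^(b-s) = 0` by (mom). -/
def S_JK : Prop :=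
  ∀ (r A n : ℕ) (c : ℕ → ℕ → ℤ), PF r A c → A ≤ n → n + 1 < (r + 1) * A →
    ∀ t : ℝ, (t < 0 ∨ (r : ℝ) < t) →
      JJ r A n c (fun x => 1 / (t - x) ^ (n + 2)) = (dd r : ℝ) ^ (A - 1) * Psi r A t / (n + 1)

/-- PSB. Elementary bounds for `Psi` on `t >= r+1`: `0 < Psi(t) <= (r/t)^(rA)`
(each `(t-i)/(r-i) >= t/r` for `i < r`, and `t-r >= 1`). -/
def S_PSB : Prop :=
  ∀ r A : ℕ, 1 ≤ r → ∀ t : ℝ, (r : ℝ) + 1 ≤ t →
    0 < Psi r A t ∧ Psi r A t ≤ ((r : ℝ) / t) ^ (r * A)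

/-- HIN. The integral `H(z)` converges for `z > r` (integrand continuous on `[z, oo)` and
`O(y^(n-(r+1)A))`, exponent `<= -2`), and `Psi(r-t) = (-1)^((r+1)A) Psi(t)` for all `t`. -/
def S_HIN : Prop :=
  ∀ r A n : ℕ, 1 ≤ r → n + 2 ≤ (r + 1) * A →
    (∀ z : ℝ, (r : ℝ) < z → IntegrableOn (fun y => (y - z) ^ n * Psi r A y) (Set.Ioi z)) ∧
    (∀ t : ℝ, Psi r A (r - t) = (-1) ^ ((r + 1) * A) * Psi r A t)

/-- JHR. `JJ(1/(t-x)) = d^(A-1) H(t)` for `t > r`. Proof from JK, HIN: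
`1/(t-x) = (n+1) int_t^oo (y-t)^n/(y-x)^(n+2) dy` for `x < t` (`u = (y-t)/(y-x)`:
`du = (t-x)/(y-x)^2 dy`, `int_0^1 u^n du`), Fubini on `[0,i] x (t,oo)`. -/
def S_JHR : Prop :=
  ∀ (r A n : ℕ) (c : ℕ → ℕ → ℤ), PF r A c → 1 ≤ r → A ≤ n → n + 2 ≤ (r + 1) * A →
    ∀ t : ℝ, (r : ℝ) < t →
      JJ r A n c (fun x => 1 / (t - x)) = (dd r : ℝ) ^ (A - 1) * HH r A n t

/-- JHL. `JJ(1/(x-t)) = (-1)^(n+(r+1)A) d^(A-1) H(r-t)` for `t < 0`. Proof from JK, HIN: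
`1/(x-t) = (n+1) int_(-oo)^t (t-y)^n/(x-y)^(n+2) dy`, Fubini,
`1/(x-y)^(n+2) = (-1)^n/(y-x)^(n+2)`, and the substitution `y -> r-y` with
`Psi(r-y) = (-1)^((r+1)A) Psi(y)`. -/
def S_JHL : Prop :=
  ∀ (r A n : ℕ) (c : ℕ → ℕ → ℤ), PF r A c → 1 ≤ r → A ≤ n → n + 2 ≤ (r + 1) * A →
    ∀ t : ℝ, t < 0 →
      JJ r A n c (fun x => 1 / (x - t)) =
        (-1) ^ (n + (r + 1) * A) * ((dd r : ℝ) ^ (A - 1) * HH r A n (r - t))

/-- RAT. `H(z) > 0`, `H(z+1) <= (z/(z+1))^e H(z)`, `e = (r+1)A-n-1`, and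
`H(z) <= z^(n+1) (r/z)^(rA)`, for `z >= r+1`. Proof: substitution `y = z w`:
`H(z) = z^(n+1) int_1^oo (w-1)^n Psi(zw) dw`, and `Psi((z+1)w) <= (z/(z+1))^((r+1)A) Psi(zw)` because
`(zw-i)/((z+1)w-i) <= z/(z+1)`. Last bound: PSB and `int_z^oo y^n (r/y)^(rA) dy`. -/
def S_RAT : Prop :=
  ∀ r A n : ℕ, 1 ≤ r → n + 2 ≤ r * A → ∀ z : ℝ, (r : ℝ) + 1 ≤ z →
    0 < HH r A n z ∧
    HH r A n (z + 1) ≤ (z / (z + 1)) ^ ((r + 1) * A - n - 1) * HH r A n z ∧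
    HH r A n z ≤ z ^ (n + 1) * ((r : ℝ) / z) ^ (r * A)

/-! ### The polynomial Q -/

/-- QEV. Values of `Q` at integers, degree, and reflection. -/
def S_QEV : Prop :=
  ∀ r K : ℕ, (Qz r K).natDegree = r + 2 * K + 1 ∧
    (∀ m : ℤ, -(K : ℤ) ≤ m → m ≤ r + K → (Qz r K).eval m = 0) ∧
    (∀ m : ℕ, r + K + 1 ≤ m → (Qz r K).eval (m : ℤ) = ((m + K).descFactorial (r + 2 * K + 1) : ℤ)) ∧
    (∀ m : ℤ, (Qz r K).eval ((r : ℤ) - m) = (-1) ^ (r + 1) * (Qz r K).eval m)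

/-- DEC. `a_m` is positive, strictly decreasing from `R = r+K+1` on, tends to 0, and
`a_R <= (r+2K+1)! R^(n+1) (r/R)^(rA)`. Proof (RAT, QEV): `Q(m) = (m+K)!/(m-r-K-1)!`, so with
`m = R+p-1` `Q(m+1)/Q(m) = (p+q)/p`, `q = r+2K+1`; `(1+1/m)^e >= 1+e/m > 1+q/p` because
`e p >= (qR+1)p > q(R+p-1)`. Limit: `a_m <= (2m)^q m^(n+1) (r/m)^(rA)` for large `m`. -/
def S_DEC : Prop :=
  ∀ r A n K : ℕ, 1 ≤ r → n + (r + 2 * K + 1) + 2 ≤ r * A →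
    (r + 2 * K + 1) * (r + K + 1) + n + 2 ≤ (r + 1) * A →
    (∀ m : ℕ, r + K + 1 ≤ m → 0 < aa r A n K m ∧ aa r A n K (m + 1) < aa r A n K m) ∧
    Tendsto (aa r A n K) atTop (𝓝 0) ∧
    aa r A n K (r + K + 1) ≤ ((r + 2 * K + 1)! : ℝ) * (r + K + 1 : ℝ) ^ (n + 1) *
      ((r : ℝ) / (r + K + 1)) ^ (r * A)

/-- ALT. Alternating sums of a strictly decreasing null sequence. -/
def S_ALT : Prop :=
  ∀ (a : ℕ → ℝ) (R : ℕ), (∀ m : ℕ, R ≤ m → 0 < a m ∧ a (m + 1) < a m) →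
    Tendsto a atTop (𝓝 0) →
    ∃ S : ℝ, Tendsto (fun M : ℕ => ∑ m ∈ Ico R (M + 1), (-1 : ℝ) ^ m * a m) atTop (𝓝 S) ∧
      S ≠ 0 ∧ |S| ≤ a R

/-! ### Expansion of F -/

/-- SPF. Partial fractions of `pi/sin(pi x)` with error bound:
`pi/sin(pi x) = 1/x + sum_(m>=1) (-1)^m (1/(x-m) + 1/(x+m))`, tail
`<= sum_(m>M) 2|x|/(m^2-x^2) <= (8/3)|x| sum_(m>M) 1/m^2 <= 3|x|/M` for `2|x| <= M`.
(`1/sin y = cot(y/2) - cot y` and the cotangent series of Mathlib.) -/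
def S_SPF : Prop :=
  ∀ (x : ℝ) (M : ℕ), 1 ≤ M → 2 * |x| ≤ M → (∀ k : ℤ, x ≠ (k : ℝ)) →
    |π / sin (π * x) - (1 / x + ∑ m ∈ range M,
      (-1 : ℝ) ^ (m + 1) * (1 / (x - (m + 1)) + 1 / (x + (m + 1))))| ≤ 3 * |x| / M

/-- TRM. One term of the expansion: `JJ(Q(x)/(x-m))` for an integer `m`: 0 for `-K <= m <= r+K`,
`-Q(m) d^(A-1) H(m)` for `m > r+K`, and for `m < -K`
`Q(m) (-1)^(n+(r+1)A) d^(A-1) H(r-m)`. Proof (JP, JHR, JHL, QEV):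
`Q(x) = Q(m) + (x-m) P(x)`, `deg P = r+2K`, `JJ(P) = 0` by JP; the integrands only have to agree
almost everywhere. -/
def S_TRM : Prop :=
  ∀ (r A n K : ℕ) (c : ℕ → ℕ → ℤ), PF r A c → 1 ≤ r → A ≤ n →
    n + (r + 2 * K + 1) + 2 ≤ r * A →
    (∀ m : ℤ, -(K : ℤ) ≤ m → m ≤ r + K → JJ r A n c (fun x => evr (Qz r K) x / (x - m)) = 0) ∧
    (∀ m : ℕ, r + K < m → JJ r A n c (fun x => evr (Qz r K) x / (x - m)) =
      -((dd r : ℝ) ^ (A - 1) * aa r A n K m)) ∧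
    (∀ m : ℕ, K < m → JJ r A n c (fun x => evr (Qz r K) x / (x + m)) =
      (-1) ^ (r + 1 + n + (r + 1) * A) * ((dd r : ℝ) ^ (A - 1) * aa r A n K (r + m)))

/-- FEX. `F = lim - d^(A-1) (SS(M) + SS(M+r))`. Proof (SPF, TRM): `Q(x) pi/sin(pi x)` is
integrable on `[0,i]` (bounded: `Q` vanishes at the integers `0..r`), and the partial sums times
`Q` converge to it uniformly on `[0,r]` minus the integers, so `JJ` of the partial sums tends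
to `F`; the terms with `|m| <= M` give `-(-1)^m d^(A-1) a_m` (`R <= m <= M`) and, with
`m -> r+m` (parity: `n + (r+1)A` even), `-(-1)^(r+m) d^(A-1) a_(r+m)` (`K < m <= M`). -/
def S_FEX : Prop :=
  ∀ (r A n K : ℕ) (c : ℕ → ℕ → ℤ), PF r A c → 1 ≤ r → A ≤ n → Even n → Even A →
    n + (r + 2 * K + 1) + 2 ≤ r * A →
    Tendsto (fun M : ℕ => -((dd r : ℝ) ^ (A - 1) * (SS r A n K M + SS r A n K (M + r)))) atTop
      (𝓝 (FF r A n K c))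

/-- FNZ. `F != 0` and `|F| <= 2 FB`. Proof: FEX, ALT, DEC. -/
def S_FNZ : Prop :=
  ∀ (r A n K : ℕ) (c : ℕ → ℕ → ℤ), PF r A c → 1 ≤ r → 1 ≤ A → A ≤ n → Even n → Even A →
    n + (r + 2 * K + 1) + 2 ≤ r * A →
    (r + 2 * K + 1) * (r + K + 1) + n + 2 ≤ (r + 1) * A →
    FF r A n K c ≠ 0 ∧ |FF r A n K c| ≤ 2 * FB r A n K

/-! ### The linear form -/

/-- FOU. Fourier expansion: for a real polynomial `P` vanishing at the integers `0..i`.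
Proof: as `identity` in `OddG/Core.lean` on the interval `[0,i]`: `kernel`, Riemann-Lebesgue
(`Real.tendsto_integral_exp_smul_cocompact`), and integration by parts with
`sin(l i) = 0`, `cos(l i) = (-1)^i`, `l = (2k+1) pi`. -/
def S_FOU : Prop :=
  ∀ (P : ℝ[X]) (i N : ℕ), (∀ u : ℕ, u ≤ i → P.eval (u : ℝ) = 0) → derivative^[2 * N] P = 0 →
    ∫ x in (0 : ℝ)..(i : ℝ), P.eval x / sin (π * x) =
      ∑ j ∈ range N, (-1) ^ j * ((derivative^[2 * j] P).eval 0 -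
        (-1) ^ i * (derivative^[2 * j] P).eval (i : ℝ)) *
        (2 * OddG.lam (2 * j + 1) / π ^ (2 * j + 1))

/-- FRM. `F = pi sum_j (-1)^j p_j G_(2j+1)/(2(2j+1))`. Proof (FOU, EZ0, QEV): apply FOU to
`R_i = Q E_i`, add over `i = 1..r`, use `sum_i R_i = 0` for the values at 0, and
`derivative^[2j] R_i = (2j)! hasseDeriv (2j) R_i`. -/
def S_FRM : Prop :=
  ∀ (r A n K : ℕ) (c : ℕ → ℕ → ℤ), PF r A c → 1 ≤ r → A ≤ n →
    n + (r + 2 * K + 1) + 2 ≤ r * A →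
    FF r A n K c = π * ∑ j ∈ range (n + (r + 2 * K + 1) + 1),
      (-1) ^ j * (pp r A n K c j : ℝ) * (OddG.G (2 * j + 1) / (2 * (2 * j + 1)))

/-- PPW. The integers `p_j` vanish outside `n-A+3 <= 2j+1 <= n+q+1` and `|p_j| <= PB`.
Proof: `E_i = sum_s +-C(n,s) c_is (x-i)^(n-s)`, `Q(i) = 0`; the Taylor coefficients of `Q` at `i` have absolute
values adding up to at most `prod_j (1+|i+K-j|) <= R^q`. -/
def S_PPW : Prop :=
  ∀ (r A n K : ℕ) (c : ℕ → ℕ → ℤ), PF r A c → 1 ≤ A → A ≤ n → ∀ j : ℕ,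
    (2 * j + 1 + A < n + 3 → pp r A n K c j = 0) ∧
    (n + (r + 2 * K + 1) + 1 < 2 * j + 1 → pp r A n K c j = 0) ∧
    |(pp r A n K c j : ℝ)| ≤ PB r A n K

/-- GBD. `0 < G_k <= 8 k!` for `k >= 2`. -/
def S_GBD : Prop := ∀ k : ℕ, 2 ≤ k → 0 < OddG.G k ∧ OddG.G k ≤ 8 * (k ! : ℝ)

/-! ### Liouville's inequality for sums of square roots, parameters, theorem -/

/-- LIO. Let `beta = sum_I x_I sqrt(prod_(i in I) s_i) != 0` with integers `x_I` and all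
components of absolute value `<= Y`, `Y >= 1`. Then `|beta| (4^c Y)^(2^c-1) >= 1`. Proof by
induction on `c` (`c = 0`: a non-zero integer). Split off the last index: `beta = u + v`,
`v = sqrt(s) v'`, `beta' = u - v`. If `beta' != 0`: `beta beta' = u^2 - s v'^2` has components
`<= 2^c Y^2` (`2^(c-1)` products each, twice) and `|beta'| <= 2^c Y`; induction gives
`|beta| >= (4^(c-1) 2^c Y^2)^-(2^(c-1)-1) (2^c Y)^-1 >= (4^c Y)^-(2^c-1)`. If `beta' = 0`: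
`beta = 2u` with components `<= 2Y`. -/
def S_LIO : Prop :=
  ∀ (c : ℕ) (s : Fin c → ℕ) (x : Finset (Fin c) → ℤ) (Y : ℝ), 1 ≤ Y →
    (∀ I : Finset (Fin c), |(x I : ℝ) * √(∏ i ∈ I, (s i : ℝ))| ≤ Y) →
    (∑ I : Finset (Fin c), (x I : ℝ) * √(∏ i ∈ I, (s i : ℝ))) ≠ 0 →
    1 ≤ |∑ I : Finset (Fin c), (x I : ℝ) * √(∏ i ∈ I, (s i : ℝ))| *
      ((4 : ℝ) ^ c * Y) ^ (2 ^ c - 1)

/-- NUM. Choice of the parameters (see step 7 of the note). `T = 64(1+x)^2`, `r = L/T`, `K = xr`,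
`A = 2(L/4)`, `n = 2((N-q-1)/2)`, `x = ceil(exp(7*2^c))`, `kappa = 1/(48*2^c T)`, `C` large;
`log (dd r) <= 6 r` (`Chebyshev.psi_le_const_mul_self`). The last inequality in logarithms:
`rA(6 - log(1+x) + 7(2^c-1)) + 3*2^c kappa L^2 + C_1 N log N < 0`. -/
def S_NUM : Prop :=
  ∀ c : ℕ, ∃ κ C : ℝ, 0 < κ ∧ 0 < C ∧ ∀ N L : ℕ, 2 ≤ N → L ≤ N →
    C * (N * Real.log N) ≤ (L : ℝ) ^ 2 →
    ∃ r A n K : ℕ, 1 ≤ r ∧ 1 ≤ A ∧ A ≤ n ∧ Even n ∧ Even A ∧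
      n + (r + 2 * K + 1) + 2 ≤ r * A ∧
      (r + 2 * K + 1) * (r + K + 1) + n + 2 ≤ (r + 1) * A ∧
      n + (r + 2 * K + 1) + 1 ≤ N ∧ N + A ≤ n + 3 + L ∧
      2 * FB r A n K * ((2 * N : ℝ) ^ L * Real.exp (3 * κ * L ^ 2)) *
        ((4 : ℝ) ^ c * (8 * (N : ℝ) ^ (N + 1) * PB r A n K *
          ((2 * N : ℝ) ^ L * Real.exp (3 * κ * L ^ 2)))) ^ (2 ^ c - 1) < 1

/-- MAIN. Proof (FNZ, FRM, PPW, GBD, LIO, NUM, PFX): suppose that for every odd `k >= 3`,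
`N-L <= k <= N`, there are `I_k, a_k, b_k` with equality. Take the parameters of NUM and the array
of PFX; `D = prod 2 k b_k` over these `k` (at most `L` of them), `D <= (2N)^L exp(kappa L^2)`,
`Z = D M^N/delta <= (2N)^L exp(3 kappa L^2)`. By FRM and PPW
`beta := F Z/pi = sum_(k = 2j+1) +-p_j (D/(2 k b_k)) M^(N-k) a_k sqrt(prod_(I_k) s_i)` is of the form
of LIO with components `<= sum_k |p_j| Z G_k <= Y := 8 N^(N+1) PB (2N)^L exp(3 kappa L^2)`, not 0 and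
`|beta| <= 2 FB Z`. LIO contradicts NUM. -/
def S_MAIN : Prop :=
  ∀ c : ℕ, ∃ κ C : ℝ, 0 < κ ∧ 0 < C ∧ ∀ N L : ℕ, 2 ≤ N → L ≤ N →
    C * (N * Real.log N) ≤ (L : ℝ) ^ 2 → ∀ M : ℕ, 1 ≤ M →
    N * Real.log M ≤ κ * (L : ℝ) ^ 2 → ∀ δ : ℝ, Real.exp (-(κ * (L : ℝ) ^ 2)) ≤ δ →
    ∀ s : Fin c → ℕ, ∃ n : ℕ, Odd n ∧ 3 ≤ n ∧ N ≤ n + L ∧ n ≤ N ∧
      ∀ (I : Finset (Fin c)) (a : ℤ) (b : ℕ), 1 ≤ b → (b : ℝ) ≤ Real.exp (κ * L) →
        (b : ℝ) * (M : ℝ) ^ n * OddG.G n ≠ δ * a * √(∏ i ∈ I, (s i : ℝ))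

/-- RES. The theorem for `t(n) = zeta(2n)/zeta(n)^2`. Proof from MAIN with
`OddG.link` (`t(n) C(2n,n) G_n^2 = 8 (2^n-1)^2 B_(2n)`, see `OddG.to_lattice`): an equality would give
`(delta a)^2 prod s_i = (b M^n G_n)^2`, i.e. `b M^n G_n = delta |a| sqrt(prod s_i)`. -/
def S_RES : Prop :=
  ∀ c : ℕ, ∃ κ C : ℝ, 0 < κ ∧ 0 < C ∧ ∀ N L : ℕ, 2 ≤ N → L ≤ N →
    C * (N * Real.log N) ≤ (L : ℝ) ^ 2 → ∀ M : ℕ, 1 ≤ M →
    N * Real.log M ≤ κ * (L : ℝ) ^ 2 → ∀ δ : ℝ, Real.exp (-(κ * (L : ℝ) ^ 2)) ≤ δ →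
    ∀ s : Fin c → ℕ, ∃ n : ℕ, Odd n ∧ 3 ≤ n ∧ N ≤ n + L ∧ n ≤ N ∧
      ∀ (I : Finset (Fin c)) (a : ℤ) (b : ℕ), 1 ≤ b → (b : ℝ) ≤ Real.exp (κ * L) →
        riemannZeta (2 * n) / riemannZeta n ^ 2 * ((2 * n).choose n : ℂ) *
          ((δ : ℂ) * a) ^ 2 * ∏ i ∈ I, (s i : ℂ) ≠
          2 * (bernoulli (2 * n) : ℂ) * (2 * (M : ℂ) ^ n * (2 ^ n - 1) * b) ^ 2

end Pool.Agent.Work.MP_f1a024_nt.HP
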