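import Mathlib
import Pool.Agent.Work.MP_f1a024_nt.HP.Stmts

set_option autoImplicit false

/-!
Second part of the block [f1a024 HP] (helper48): the dimension version. For every `m` the numbers
`M^n G_n`, `n` odd in a short window, do not lie in a `ℤ`-module with `m` generators (bounded
heights). One uses the linear forms of the first part for fixed `n, r, K` and all even `A` between
`A0` and `A0 + 2J`, and a linear independence criterion of Nesterenko type (item NES).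
-/

namespace Pool.Agent.Work.MP_f1a024_nt.HP

open Real Polynomial MeasureTheory Finset Filter Topology
open scoped Nat

/-- The lower bound for `|F|`. -/
noncomputable def FL (r A n K : ℕ) : ℝ :=
  ((r ! : ℝ) / (3 * (r + K + 1 : ℝ)) ^ (r + 1)) ^ A * (r + K + 1 : ℝ) ^ (n + 1) / 2

/-- HLB. `H(z) >= z^(n+1) (r!/(3z)^(r+1))^A` for `z >= r+1`. Proof: restrict the integral to
`[2z, 3z]`, where `(y-z)^n >= z^n` and `Psi(y) >= (r!/y^(r+1))^A >= (r!/(3z)^(r+1))^A`. -/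
def S_HLB : Prop :=
  ∀ r A n : ℕ, 1 ≤ r → n + 2 ≤ (r + 1) * A → ∀ z : ℝ, (r : ℝ) + 1 ≤ z →
    ((r ! : ℝ) / (3 * z) ^ (r + 1)) ^ A * z ^ (n + 1) ≤ HH r A n z

/-- AL2. Lower bound for an alternating sum of a strictly decreasing null sequence
(`|S| = a_R - a_(R+1) + (a_(R+2) - a_(R+3)) + ..`). -/
def S_AL2 : Prop :=
  ∀ (a : ℕ → ℝ) (R : ℕ) (S : ℝ), (∀ m : ℕ, R ≤ m → 0 < a m ∧ a (m + 1) < a m) →
    Tendsto (fun M : ℕ => ∑ m ∈ Ico R (M + 1), (-1 : ℝ) ^ m * a m) atTop (𝓝 S) →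
    a R - a (R + 1) ≤ |S|

/-- LOW. Lower bound for `|F|`. Proof (FEX, AL2, DEC, RAT, QEV, HLB): `F = -2 d^(A-1) S`, `d >= 1`,
`|S| >= a_R - a_(R+1)`, `R = r+K+1`; `a_(R+1)/a_R <= (1+q)/(1+1/R)^e <= (1+q)/(1+e/R)`,
`q = r+2K+1`, `e = (r+1)A-n-1 >= 2qR+1`, so this is `<= (1+q)/(1+2q) <= 2/3` (`q >= 1`; use
`Q(R+1) = (1+q) Q(R)`), hence `|F| >= (2/3) a_R >= a_R/2`, and `a_R = Q(R) H(R) >= H(R)` since
`Q(R)` is a positive integer. -/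
def S_LOW : Prop :=
  ∀ (r A n K : ℕ) (c : ℕ → ℕ → ℤ), PF r A c → 1 ≤ r → 1 ≤ A → A ≤ n → Even n → Even A →
    n + (r + 2 * K + 1) + 2 ≤ r * A →
    2 * ((r + 2 * K + 1) * (r + K + 1)) + n + 2 ≤ (r + 1) * A →
    FL r A n K ≤ |FF r A n K c|

/-- DIR. Simultaneous approximation in projective form. Proof: let `|ω i1|` be maximal,
`θ_i = ω i/ω i1`; by the pigeonhole principle (Dirichlet) there are `1 <= t <= Q^(m-1)` and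
integers `x_i` with `|t θ_i - x_i| <= 1/Q` (`x_(i1) = t`); put `lam = t/ω i1`. -/
def S_DIR : Prop :=
  ∀ (m Q : ℕ), 1 ≤ m → 1 ≤ Q → ∀ ω : Fin m → ℝ, (∃ i, ω i ≠ 0) →
    ∃ (x : Fin m → ℤ) (lam : ℝ), x ≠ 0 ∧ (∀ i, |(x i : ℝ) - lam * ω i| ≤ 1 / Q) ∧
      (∀ i, |lam * ω i| ≤ (Q : ℝ) ^ (m - 1))

/-- RED. Reduction to full rank. If there is a real relation `sum_i x_i a_ki = 0` for all `k`, with
`x_(i0) != 0`, then the coordinate `i0` can be dropped, `ω'_i = ω_i - (x_i/x_(i0)) ω_(i0)`.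
Induction on `m` (for `m = 0` all `g k` would be 0; `Fin.succAbove i0` to drop a coordinate). -/
def S_RED : Prop :=
  ∀ (m : ℕ) (W : Finset ℕ) (a : ℕ → Fin m → ℤ) (ω : Fin m → ℝ) (g : ℕ → ℝ) (B : ℝ),
    (∀ k ∈ W, g k = ∑ i, (a k i : ℝ) * ω i) → (∀ k ∈ W, ∀ i, |(a k i : ℝ)| ≤ B) →
    (∃ k ∈ W, g k ≠ 0) →
    ∃ m' : ℕ, 1 ≤ m' ∧ m' ≤ m ∧ ∃ (a' : ℕ → Fin m' → ℤ) (ω' : Fin m' → ℝ),
      (∀ k ∈ W, g k = ∑ i, (a' k i : ℝ) * ω' i) ∧ (∀ k ∈ W, ∀ i, |(a' k i : ℝ)| ≤ B) ∧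
      (∀ x : Fin m' → ℝ, (∀ k ∈ W, ∑ i, x i * (a' k i : ℝ) = 0) → x = 0)

/-- NES. The criterion. Proof (DIR). By DIR there are `x`, `lam` for `ω`. By full rank some
`a_k . x` is a non-zero integer, and `|a_k . x - lam g_k| <= m B/Q <= 1/2` (c0), so
`|lam| >= 1/(2 gM)`. Also `g_k <= m B max|ω_i|`, so `|lam| <= Q^(m-1) m B/gm`. Let
`β_j = sum_k P_jk g_k`; `Y_j = sum_k P_jk (a_k . x)` is an integer with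
`|Y_j - lam β_j| <= m B H_j/Q`. By (c1) `|lam β_J| < 1/2`; let `j` be minimal with
`|lam β_j| < 1/2`. If `j = 0`: `|lam β_0| >= |β_0|/(2 gM) > m B H_0/Q` by (c2). If `j >= 1`:
`|lam β_(j-1)| >= 1/2`, so `|lam β_j| >= |β_j|/(2 |β_(j-1)|) > m B H_j/Q` by (c3). So
`0 < |Y_j| < 1/2 + 1/2` by (c4), a contradiction. -/
def S_NES : Prop :=
  ∀ (m J Q : ℕ) (W : Finset ℕ) (a : ℕ → Fin m → ℤ) (ω : Fin m → ℝ) (g : ℕ → ℝ)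
    (P : ℕ → ℕ → ℤ) (H : ℕ → ℝ) (B gm gM : ℝ), 1 ≤ m → 1 ≤ Q → W.Nonempty →
    0 < gm → 0 < B →
    (∀ k ∈ W, g k = ∑ i, (a k i : ℝ) * ω i) → (∀ k ∈ W, ∀ i, |(a k i : ℝ)| ≤ B) →
    (∀ x : Fin m → ℝ, (∀ k ∈ W, ∑ i, x i * (a k i : ℝ) = 0) → x = 0) →
    (∀ k ∈ W, gm ≤ g k ∧ g k ≤ gM) →
    (∀ j ≤ J, ∑ k ∈ W, |(P j k : ℝ)| ≤ H j) →
    2 * (m * B) ≤ Q →
    m * B * (Q : ℝ) ^ (m - 1) * |∑ k ∈ W, (P J k : ℝ) * g k| < gm / 2 →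
    m * B * H 0 / Q * (2 * gM) < |∑ k ∈ W, (P 0 k : ℝ) * g k| →
    (∀ j, j + 1 ≤ J → m * B * H (j + 1) / Q * (2 * |∑ k ∈ W, (P j k : ℝ) * g k|) <
      |∑ k ∈ W, (P (j + 1) k : ℝ) * g k|) →
    (∀ j ≤ J, m * B * H j / Q ≤ 1 / 2) → False

/-- The bound for the common multiplier `D M^N`. -/
noncomputable def ZB (N L : ℕ) (κ : ℝ) : ℝ := (2 * N : ℝ) ^ L * Real.exp (2 * (κ * L ^ 2))

/-- NU2. Choice of the parameters. With `l = 7(3m+1)`, `x = ceil(exp l)`, `T = 1024 m (1+x)^2`: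
`r = L/T`, `K = x r`, `A1 = 2(L/4)`, `A0 = 2(A1/(16m))`, `J = (A1-A0)/2`, `q = r+2K+1`,
`n = 2((N-q-1)/2)`, `Q = ceil(exp(20 r A1))`; `κ = exp(-70m) <= 1/(400 m T)`. Put `E = N log N`,
`V = κL²`, `U_j = r(A0+2j)`, `U = U_J`. As in `I_NUM` (`FB_le`, `PB_le`, `Z_le`):
`FB <= exp(2E+(6-l)U_j)`, `PB <= exp(3E+7U_j)`, `ZB <= exp(2E+2V)`, `N <= exp E`, and
`FL >= exp(-2E-(l+3)U_j)` because `3e(r+K+1) <= exp(l+3) r`, `r! >= (r/e)^r`, `(3(r+K+1))^A <= exp E`.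
`U >= L²/(8T)`, so `E, V <= U/50`; `rA0 >= L²/(128mT) >= 2(N+1)`; `16(1+x)²·r <= A0`;
`A0 <= A1/(8m)`; `A1 >= 2l`. In logarithms the inequalities read:
(c0) `log(2m)+V <= 20U`; (c1) `log m+V+(m-1)(20U+1)+[2E+(6-l)U+log 2]+2E+2V < -E-log 2`
(main term `-(m+21)U`); (c2) `log m+V+[E+3E+7U_0+2E+2V]-20U+log 2+[log 8+E+2V] <
-2E-(l+3)U_0-log 4` (`U_0 <= U/(8m)`, `(l+10)/(8m) <= 5`); (c3)
`log m+V+[E+3E+7U_(j+1)+2E+2V]-20U+log 4+[2E+(6-l)U_j] < -2E-(l+3)U_(j+1)`, where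
`U_(j+1) = U_j+2r` (main term `16U_(j+1)+2rl-20U <= -3U`); (c4) similarly. -/
def S_NU2 : Prop :=
  ∀ (m N L : ℕ) (κ : ℝ), κ = Real.exp (-(70 * m)) → 1 ≤ m → 2 ≤ N → L ≤ N →
    N * Real.log N ≤ κ * (L : ℝ) ^ 2 →
    ∃ r A0 J n K Q : ℕ, 1 ≤ r ∧ 1 ≤ A0 ∧ A0 + 2 * J ≤ n ∧ Even n ∧ Even A0 ∧ 1 ≤ Q ∧
      n + (r + 2 * K + 1) + 2 ≤ r * A0 ∧
      2 * ((r + 2 * K + 1) * (r + K + 1)) + n + 2 ≤ (r + 1) * A0 ∧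
      n + (r + 2 * K + 1) + 1 ≤ N ∧ N + (A0 + 2 * J) ≤ n + 3 + L ∧
      2 * (m * Real.exp (κ * L ^ 2)) ≤ Q ∧
      m * Real.exp (κ * L ^ 2) * (Q : ℝ) ^ (m - 1) *
        (2 * FB r (A0 + 2 * J) n K * ZB N L κ) < 1 / (N : ℝ) ^ N / 2 ∧
      m * Real.exp (κ * L ^ 2) * (N * PB r A0 n K * ZB N L κ) / Q *
        (2 * (8 * (N : ℝ) ^ N * Real.exp (2 * (κ * L ^ 2)))) < FL r A0 n K / 4 ∧
      (∀ j, j + 1 ≤ J → m * Real.exp (κ * L ^ 2) *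
        (N * PB r (A0 + 2 * (j + 1)) n K * ZB N L κ) / Q *
          (2 * (2 * FB r (A0 + 2 * j) n K)) < FL r (A0 + 2 * (j + 1)) n K) ∧
      (∀ j ≤ J, m * Real.exp (κ * L ^ 2) *
        (N * PB r (A0 + 2 * j) n K * ZB N L κ) / Q ≤ 1 / 2)

/-- MA2. Proof (PFX, FNZ, LOW, FRM, PPW, GBD, RED, NES, NU2), as MAIN: if it fails, there are
`a_k`, `b_k` with `b_k M^k G_k = a_k . ω` for all odd `k >= 3` in the window; `g_k = b_k M^k G_k`,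
`D = prod 2 k b_k`, `P_jk = +-p_k D/(2 k b_k) M^(N-k)` for the form with `A = A0+2j`, so
`sum_k P_jk g_k = F_j D M^N/π`. (`pi < 4`, `G_k >= 4 π^-k >= N^-N`.) -/
def S_MA2 : Prop :=
  ∀ (m N L M : ℕ) (κ : ℝ), κ = Real.exp (-(70 * m)) → 1 ≤ m → 2 ≤ N → L ≤ N →
    N * Real.log N ≤ κ * (L : ℝ) ^ 2 → 1 ≤ M → N * Real.log M ≤ κ * (L : ℝ) ^ 2 →
    ∀ ω : Fin m → ℝ, ∃ n : ℕ, Odd n ∧ 3 ≤ n ∧ N ≤ n + L ∧ n ≤ N ∧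
      ∀ (a : Fin m → ℤ) (b : ℕ), (∀ i, |(a i : ℝ)| ≤ Real.exp (κ * (L : ℝ) ^ 2)) → 1 ≤ b →
        (b : ℝ) ≤ Real.exp (κ * L) →
        (b : ℝ) * (M : ℝ) ^ n * OddG.G n ≠ ∑ i, (a i : ℝ) * ω i

/-- RE2. For `t(n)`. Proof (MA2 with `M = 2`): `2^n G_n = 4 n! (2^n-1) ζ(n)/π^n`, and
`4 n! (2^n-1) |a_i| <= exp(4κL²)`, `4 exp(-72m) <= exp(-70m)`; Euler's formula for `ζ(2n)`. -/
def S_RE2 : Prop :=
  ∀ (m N L : ℕ) (κ : ℝ), κ = Real.exp (-(72 * m)) → 1 ≤ m → 2 ≤ N → L ≤ N →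
    N * Real.log N ≤ κ * (L : ℝ) ^ 2 →
    ∀ ω : Fin m → ℝ, ∃ n : ℕ, Odd n ∧ 3 ≤ n ∧ N ≤ n + L ∧ n ≤ N ∧
      ∀ (a : Fin m → ℤ) (b : ℕ), (∀ i, |(a i : ℝ)| ≤ Real.exp (κ * (L : ℝ) ^ 2)) → 1 ≤ b →
        (b : ℝ) ≤ Real.exp (κ * L) →
        riemannZeta (2 * n) / riemannZeta n ^ 2 * ((2 * n)! : ℂ) *
          (∑ i, (a i : ℂ) * (ω i : ℂ)) ^ 2 ≠ 2 ^ (2 * n - 1) * (bernoulli (2 * n) : ℂ) * b ^ 2

end Pool.Agent.Work.MP_f1a024_nt.HP
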