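import Mathlib
import Pool.Agent.Work.MP_f1a024_nt.HP.Stmts

set_option autoImplicit false

/-!
Item FOU of the block [f1a024 HP] (helper48).
-/

namespace Pool.Agent.Work.MP_f1a024_nt.HP

open Real Polynomial MeasureTheory Finset Filter Topology
open scoped Nat

namespace I_FOU

lemma factor01 (P : ℝ[X]) (h0 : P.eval 0 = 0) (h1 : P.eval 1 = 0) :
    ∃ R : ℝ[X], P = X * (1 - X) * R := by
  have d0 : (X : ℝ[X]) ∣ P := by
    have := dvd_iff_isRoot.mpr (show P.IsRoot 0 from h0)
    simpa using this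
  obtain ⟨Q, hQ⟩ := d0
  have q1 : Q.eval 1 = 0 := by
    rw [hQ] at h1
    simpa using h1
  have d1 := dvd_iff_isRoot.mpr (show Q.IsRoot 1 from q1)
  obtain ⟨R, hR⟩ := d1
  refine ⟨-R, ?_⟩
  rw [hQ, hR, C_1]
  ring

lemma integrable01 (P : ℝ[X]) (h0 : P.eval 0 = 0) (h1 : P.eval 1 = 0) :
    IntegrableOn (fun s => P.eval s / sin (π * s)) (Set.Ioc (0:ℝ) 1) := by
  obtain ⟨R, hR⟩ := factor01 P h0 h1
  have := OddG.integrable_quot (fun s => R.eval s) R.continuous 1
  refine this.congr_fun (fun s _ => ?_) measurableSet_Ioc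
  simp only [hR, pow_one, eval_mul, eval_X, eval_sub, eval_one]
  ring

/-- The case of the unit interval. -/
lemma unit (P : ℝ[X]) (N : ℕ) (hN : derivative^[2 * N] P = 0) (h0 : P.eval 0 = 0)
    (h1 : P.eval 1 = 0) :
    ∫ s in (0:ℝ)..1, P.eval s / sin (π * s) = ∑ j ∈ range N, (-1) ^ j *
      ((derivative^[2 * j] P).eval 0 + (derivative^[2 * j] P).eval 1) *
        (2 * OddG.lam (2 * j + 1) / π ^ (2 * j + 1)) := by
  have hsum : HasSum (fun k : ℕ => 2 * ∫ s in (0:ℝ)..1, P.eval s * sin ((2 * (k : ℝ) + 1) * π * s))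
      (∑ j ∈ range N, (-1) ^ j *
      ((derivative^[2 * j] P).eval 0 + (derivative^[2 * j] P).eval 1) *
        (2 * OddG.lam (2 * j + 1) / π ^ (2 * j + 1))) := by
    have e : (fun k : ℕ => 2 * ∫ s in (0:ℝ)..1, P.eval s * sin ((2 * (k : ℝ) + 1) * π * s)) =
        fun k : ℕ => ∑ j ∈ range N, ((-1) ^ j *
          ((derivative^[2 * j] P).eval 0 + (derivative^[2 * j] P).eval 1) *
          (2 / π ^ (2 * j + 1))) * (1 / (2 * (k : ℝ) + 1) ^ (2 * j + 1)) := by
      funext k
      have hk : (2 * (k : ℝ) + 1) ≠ 0 := by positivity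
      rw [OddG.J_formula _ (mul_ne_zero hk pi_ne_zero) (OddG.sin_odd k) (OddG.cos_odd k) N P hN,
        Finset.mul_sum]
      apply Finset.sum_congr rfl
      intro j _
      rw [mul_pow]
      have := pi_ne_zero
      field_simp
    rw [e]
    apply hasSum_sum
    intro j _
    rcases Nat.eq_zero_or_pos j with hj | hj
    · subst hj
      simp [h0, h1, hasSum_zero]
    · have hs := (OddG.summable_odd (2 * j + 1) (by omega)).hasSum.mul_left
        ((-1) ^ j * ((derivative^[2 * j] P).eval 0 + (derivative^[2 * j] P).eval 1) *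
          (2 / π ^ (2 * j + 1)))
      have e7 : (-1) ^ j * ((derivative^[2 * j] P).eval 0 + (derivative^[2 * j] P).eval 1) *
          (2 * OddG.lam (2 * j + 1) / π ^ (2 * j + 1)) =
          ((-1) ^ j * ((derivative^[2 * j] P).eval 0 + (derivative^[2 * j] P).eval 1) *
          (2 / π ^ (2 * j + 1))) * ∑' k : ℕ, 1 / (2 * (k : ℝ) + 1) ^ (2 * j + 1) := by
        unfold OddG.lam
        ring
      rw [e7]
      exact hs
  exact tendsto_nhds_unique (OddG.tendsto_kernel P (integrable01 P h0 h1)) hsum.tendsto_sum_nat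

lemma sin_shift (u : ℕ) (x : ℝ) : sin (π * (x + u)) = (-1) ^ u * sin (π * x) := by
  induction u with
  | zero => simp
  | succ u ih =>
    have : π * (x + ((u + 1 : ℕ) : ℝ)) = π * (x + u) + π := by push_cast; ring
    rw [this, sin_add_pi, ih, pow_succ]
    ring

lemma neg_one_pow_inv (u : ℕ) : ((-1 : ℝ) ^ u)⁻¹ = (-1) ^ u := by
  rcases neg_one_pow_eq_or ℝ u with h | h <;> rw [h] <;> norm_num

lemma shift_quot (P : ℝ[X]) (u : ℕ) (x : ℝ) :
    P.eval (x + u) / sin (π * (x + u)) =
      (-1) ^ u * ((P.comp (X + C (u : ℝ))).eval x / sin (π * x)) := by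
  rw [sin_shift, eval_comp, eval_add, eval_X, eval_C, div_eq_mul_inv, mul_inv, neg_one_pow_inv]
  ring

lemma iter_comp (P : ℝ[X]) (a : ℝ) (k : ℕ) :
    derivative^[k] (P.comp (X + C a)) = (derivative^[k] P).comp (X + C a) := by
  induction k generalizing P with
  | zero => rfl
  | succ k ih =>
    rw [Function.iterate_succ, Function.comp, derivative_comp]
    simp only [derivative_add, derivative_X, derivative_C, add_zero, one_mul]
    rw [ih]
    rfl

lemma intervalIntegrable_unit (P : ℝ[X]) (u : ℕ) (h0 : P.eval (u : ℝ) = 0)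
    (h1 : P.eval (u + 1 : ℝ) = 0) :
    IntervalIntegrable (fun s => P.eval s / sin (π * s)) volume (u : ℝ) (u + 1) := by
  have h := (intervalIntegrable_iff_integrableOn_Ioc_of_le zero_le_one).mpr
    (integrable01 (P.comp (X + C (u : ℝ))) (by simp [h0]) (by simpa [add_comm] using h1))
  have h2 := (h.const_mul ((-1) ^ u)).comp_sub_right (u : ℝ)
  simp only [zero_add] at h2
  rw [add_comm (1:ℝ) (u:ℝ)] at h2
  refine h2.congr ?_
  intro x _
  have := shift_quot P u (x - u)
  simp only [sub_add_cancel] at this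
  simp only
  exact this.symm

/-- One unit interval. -/
lemma unit_shift (P : ℝ[X]) (N u : ℕ) (hN : derivative^[2 * N] P = 0) (h0 : P.eval (u : ℝ) = 0)
    (h1 : P.eval (u + 1 : ℝ) = 0) :
    ∫ s in (u:ℝ)..(u + 1), P.eval s / sin (π * s) = ∑ j ∈ range N, (-1) ^ j *
      ((-1) ^ u * (derivative^[2 * j] P).eval (u : ℝ) -
        (-1) ^ (u + 1) * (derivative^[2 * j] P).eval (u + 1 : ℝ)) *
        (2 * OddG.lam (2 * j + 1) / π ^ (2 * j + 1)) := by
  have e1 : ∫ s in (u:ℝ)..(u + 1), P.eval s / sin (π * s) =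
      ∫ x in (0:ℝ)..1, P.eval (x + u) / sin (π * (x + u)) := by
    rw [intervalIntegral.integral_comp_add_right (fun s => P.eval s / sin (π * s)) (u : ℝ)]
    rw [zero_add, add_comm (1:ℝ)]
  rw [e1]
  simp_rw [shift_quot]
  rw [intervalIntegral.integral_const_mul, unit (P.comp (X + C (u : ℝ))) N
    (by rw [iter_comp, hN, zero_comp]) (by simp [h0]) (by simpa [add_comm] using h1),
    Finset.mul_sum]
  refine Finset.sum_congr rfl (fun j _ => ?_)
  rw [iter_comp]
  simp only [eval_comp, eval_add, eval_X, eval_C, zero_add]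
  rw [add_comm (1:ℝ) (u:ℝ), pow_succ]
  ring

end I_FOU

open I_FOU in
/-- FOU. -/
theorem FOU_pf : S_FOU := by
  intro P i N hz hN
  have key : ∀ m : ℕ, m ≤ i →
      IntervalIntegrable (fun s => P.eval s / sin (π * s)) volume 0 (m : ℝ) ∧
      ∫ x in (0 : ℝ)..(m : ℝ), P.eval x / sin (π * x) =
      ∑ j ∈ range N, (-1) ^ j * ((derivative^[2 * j] P).eval 0 -
        (-1) ^ m * (derivative^[2 * j] P).eval (m : ℝ)) *
        (2 * OddG.lam (2 * j + 1) / π ^ (2 * j + 1)) := by
    intro m
    induction m with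
    | zero =>
      intro _
      refine ⟨by simp, ?_⟩
      simp
    | succ m ih =>
      intro hm
      obtain ⟨i1, i2⟩ := ih (by omega)
      have z0 := hz m (by omega)
      have z1 := hz (m + 1) hm
      push_cast at z1
      have i3 := intervalIntegrable_unit P m z0 z1
      push_cast
      refine ⟨i1.trans i3, ?_⟩
      rw [← intervalIntegral.integral_add_adjacent_intervals i1 i3, i2,
        unit_shift P N m hN z0 z1, ← Finset.sum_add_distrib]
      refine Finset.sum_congr rfl (fun j _ => ?_)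
      ring
  exact (key i le_rfl).2

end Pool.Agent.Work.MP_f1a024_nt.HP
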