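import Mathlib
import Pool.Agent.Work.MP_f1a024_nt.HP.Stmts

/-!
Item QEV of the block HP: values of `Q` at the integers, degree and reflection.
-/

set_option autoImplicit false

namespace Pool.Agent.Work.MP_f1a024_nt.HP

open Real Polynomial MeasureTheory Finset Filter Topology
open scoped Nat

namespace I_QEV

lemma eval_Qz (r K : ℕ) (m : ℤ) :
    (Qz r K).eval m = ∏ j ∈ range (r + 2 * K + 1), (m + K - j) := by
  rw [Qz, Polynomial.eval_prod]
  apply Finset.prod_congr rfl
  intro j _
  simp

lemma factor_eq (K j : ℕ) :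
    (X + C (K : ℤ) - C (j : ℤ) : ℤ[X]) = X + C ((K : ℤ) - (j : ℤ)) := by
  rw [Polynomial.C_sub]
  ring

end I_QEV

open I_QEV in
/-- Values of `Q`. -/
theorem QEV_pf : S_QEV := by
  intro r K
  refine ⟨?_, ?_, ?_, ?_⟩
  · rw [Qz, Polynomial.natDegree_prod_of_monic]
    · rw [Finset.sum_congr rfl (fun j _ => ?_), Finset.sum_const, Finset.card_range, smul_eq_mul,
        mul_one]
      rw [factor_eq, Polynomial.natDegree_X_add_C]
    · intro j _
      rw [factor_eq]
      exact Polynomial.monic_X_add_C _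
  · intro m h1 h2
    rw [eval_Qz]
    apply Finset.prod_eq_zero (i := (m + K).toNat)
    · rw [Finset.mem_range]
      omega
    · omega
  · intro m hm
    rw [eval_Qz, Nat.descFactorial_eq_prod_range, Nat.cast_prod]
    apply Finset.prod_congr rfl
    intro j hj
    rw [Finset.mem_range] at hj
    rw [Nat.cast_sub (by omega), Nat.cast_add]
  · intro m
    rw [eval_Qz, eval_Qz, ← Finset.prod_range_reflect]
    have h1 : ((-1 : ℤ)) ^ (r + 1) = ∏ _j ∈ range (r + 2 * K + 1), (-1 : ℤ) := by
      rw [Finset.prod_const, Finset.card_range]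
      have : r + 2 * K + 1 = (r + 1) + 2 * K := by ring
      rw [this, pow_add (-1 : ℤ) (r + 1) (2 * K), pow_mul (-1 : ℤ) 2 K]
      simp
    rw [h1, ← Finset.prod_mul_distrib]
    apply Finset.prod_congr rfl
    intro j hj
    rw [Finset.mem_range] at hj
    have h2 : ((r + 2 * K + 1 - 1 - j : ℕ) : ℤ) = r + 2 * K - j := by omega
    rw [h2]
    ring

end Pool.Agent.Work.MP_f1a024_nt.HP
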