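import Mathlib
import Pool.Agent.Work.MP_f1a024_nt.HP.Stmts

set_option autoImplicit false

/-!
Item ALT: alternating sums of a strictly decreasing null sequence.
-/

namespace Pool.Agent.Work.MP_f1a024_nt.HP

open Real Polynomial MeasureTheory Finset Filter Topology
open scoped Nat

theorem ALT_pf : S_ALT := by
  intro a R ha ha0
  have hanti : Antitone (fun k : ℕ => a (R + k)) :=
    antitone_nat_of_succ_le fun k => (ha (R + k) (by omega)).2.le
  have hlim : Tendsto (fun k : ℕ => a (R + k)) atTop (𝓝 0) := by
    have h1 : Tendsto (fun k : ℕ => R + k) atTop atTop := by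
      simpa [Nat.add_comm] using tendsto_add_atTop_nat R
    exact ha0.comp h1
  obtain ⟨l, hl⟩ := hanti.tendsto_alternating_series_of_tendsto_zero hlim
  have hlo := hanti.alternating_series_le_tendsto hl 1
  have hup := hanti.tendsto_le_alternating_series hl 0
  have hlo' : a R - a (R + 1) ≤ l := by
    simpa [Finset.sum_range_succ, sub_eq_add_neg] using hlo
  have hup' : l ≤ a R := by simpa using hup
  have h0 : 0 < l := lt_of_lt_of_le (sub_pos.2 (ha R le_rfl).2) hlo'
  refine ⟨(-1) ^ R * l, ?_, ?_, ?_⟩
  · have h2 : Tendsto (fun M : ℕ => M + 1 - R) atTop atTop :=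
      (tendsto_sub_atTop_nat R).comp (tendsto_add_atTop_nat 1)
    have h3 := (hl.comp h2).const_mul ((-1 : ℝ) ^ R)
    refine h3.congr fun M => ?_
    simp only [Function.comp_apply]
    rw [Finset.sum_Ico_eq_sum_range, Finset.mul_sum]
    refine Finset.sum_congr rfl fun i _ => ?_
    rw [pow_add]
    ring
  · exact mul_ne_zero (pow_ne_zero _ (by norm_num)) h0.ne'
  · rw [abs_mul, abs_pow, abs_neg, abs_one, one_pow, one_mul, abs_of_pos h0]
    exact hup'

end Pool.Agent.Work.MP_f1a024_nt.HP
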