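import Mathlib
import Pool.Agent.Work.MP_f1a024_nt.HP.Stmts

set_option autoImplicit false

/-!
# Item BAM: alternating binomial sums of low powers vanish
-/

namespace Pool.Agent.Work.MP_f1a024_nt.HP

open Real Polynomial MeasureTheory Finset Filter Topology
open scoped Nat

theorem BAM_pf : S_BAM := by
  intro r b hb
  have h1 : (fwdDiff (1 : ℤ))^[r] (fun x : ℤ => x ^ b) 0 = 0 := by
    rw [fwdDiff_iter_pow_eq_zero_of_lt (R := ℤ) hb]
    rfl
  rw [fwdDiff_iter_eq_sum_shift] at h1
  rw [← h1]
  refine Finset.sum_congr rfl fun j _ => ?_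
  unfold bb
  simp

end Pool.Agent.Work.MP_f1a024_nt.HP
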