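import Mathlib
import Pool.Agent.Work.MP_f1a024_nt.HP.Stmts

set_option autoImplicit false

/-!
Item BAS of the block [f1a024 HP]: partial fractions of `r!/prod_(i<=r)(t-i)`.
-/

namespace Pool.Agent.Work.MP_f1a024_nt.HP

open Real Polynomial MeasureTheory Finset Filter Topology
open scoped Nat

namespace I_BAS

theorem bb_top (r : ℕ) : bb r (r + 1) = 0 := by
  unfold bb
  rw [Nat.choose_eq_zero_of_lt (Nat.lt_succ_self r)]
  simp

theorem bb_zero (r : ℕ) : bb (r + 1) 0 = -bb r 0 := by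
  unfold bb
  simp [pow_succ]

theorem bb_succ (r j : ℕ) (hj : j ≤ r) : bb (r + 1) (j + 1) = bb r j - bb r (j + 1) := by
  rcases Nat.lt_or_ge j r with h | h
  · unfold bb
    obtain ⟨k, rfl⟩ : ∃ k, r = j + 1 + k := ⟨r - (j + 1), by omega⟩
    have e1 : j + 1 + k + 1 - (j + 1) = k + 1 := by omega
    have e2 : j + 1 + k - j = k + 1 := by omega
    have e3 : j + 1 + k - (j + 1) = k := by omega
    rw [e1, e2, e3, Nat.choose_succ_succ (j + 1 + k) j]
    push_cast
    ring
  · have h' : j = r := le_antisymm hj h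
    subst h'
    rw [bb_top]
    unfold bb
    simp

theorem sum_step (r : ℕ) (t : ℝ) :
    ∑ j ∈ range (r + 2), (bb (r + 1) j : ℝ) / (t - j) =
      ∑ j ∈ range (r + 1), (bb r j : ℝ) / (t - 1 - j) -
        ∑ j ∈ range (r + 1), (bb r j : ℝ) / (t - j) := by
  have h1 : ∑ j ∈ range (r + 2), (bb r j : ℝ) / (t - j) =
      ∑ j ∈ range (r + 1), (bb r j : ℝ) / (t - j) := by
    rw [Finset.sum_range_succ, bb_top]
    simp
  rw [← h1, Finset.sum_range_succ', Finset.sum_range_succ' _ (r + 1), bb_zero]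
  have h2 : ∀ j ∈ range (r + 1), (bb (r + 1) (j + 1) : ℝ) / (t - ((j + 1 : ℕ) : ℝ)) =
      (bb r j : ℝ) / (t - 1 - j) - (bb r (j + 1) : ℝ) / (t - ((j + 1 : ℕ) : ℝ)) := by
    intro j hj
    rw [bb_succ r j (Nat.lt_succ_iff.mp (Finset.mem_range.mp hj))]
    have h3 : t - 1 - (j : ℝ) = t - ((j + 1 : ℕ) : ℝ) := by
      push_cast
      ring
    rw [h3]
    push_cast
    ring
  rw [Finset.sum_congr rfl h2, Finset.sum_sub_distrib]
  push_cast
  ring

end I_BAS

open I_BAS in
/-- Partial fractions of `r!/prod_(i<=r)(t-i)`. -/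
theorem BAS_pf : S_BAS := by
  intro r
  induction r with
  | zero =>
    intro t _
    simp [bb]
  | succ r ih =>
    intro t ht
    have ht0 : t ≠ 0 := by
      have := ht 0 (by simp)
      simpa using this
    have h0 : ∀ i ∈ range (r + 1), t ≠ (i : ℝ) := fun i hi =>
      ht i (Finset.mem_range.mpr (by have := Finset.mem_range.mp hi; omega))
    have h1 : ∀ i ∈ range (r + 1), t - 1 ≠ (i : ℝ) := fun i hi hh => by
      refine ht (i + 1) (Finset.mem_range.mpr (by have := Finset.mem_range.mp hi; omega)) ?_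
      push_cast
      linarith
    have htr : t - ((r : ℝ) + 1) ≠ 0 := by
      have := ht (r + 1) (by simp)
      push_cast at this
      exact sub_ne_zero.mpr this
    rw [sum_step, ← ih t h0, ← ih (t - 1) h1]
    have hP1 : ∏ i ∈ range (r + 1), (t - 1 - (i : ℝ)) ≠ 0 :=
      Finset.prod_ne_zero_iff.mpr fun i hi => sub_ne_zero.mpr (h1 i hi)
    have hP0 : ∏ i ∈ range (r + 1), (t - (i : ℝ)) ≠ 0 :=
      Finset.prod_ne_zero_iff.mpr fun i hi => sub_ne_zero.mpr (h0 i hi)
    have e1 : ∏ i ∈ range (r + 1 + 1), (t - (i : ℝ)) =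
        (∏ i ∈ range (r + 1), (t - 1 - (i : ℝ))) * t := by
      rw [Finset.prod_range_succ']
      congr 1
      · refine Finset.prod_congr rfl fun i _ => ?_
        push_cast
        ring
      · simp
    have e2 : ∏ i ∈ range (r + 1 + 1), (t - (i : ℝ)) =
        (∏ i ∈ range (r + 1), (t - (i : ℝ))) * (t - ((r : ℝ) + 1)) := by
      rw [Finset.prod_range_succ]
      push_cast
      rfl
    have e3 : (∏ i ∈ range (r + 1), (t - 1 - (i : ℝ))) * t =
        (∏ i ∈ range (r + 1), (t - (i : ℝ))) * (t - ((r : ℝ) + 1)) := by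
      rw [← e1, e2]
    rw [e1, Nat.factorial_succ]
    push_cast
    set P1 := ∏ i ∈ range (r + 1), (t - 1 - (i : ℝ)) with hp1
    set P0 := ∏ i ∈ range (r + 1), (t - (i : ℝ)) with hp0
    rw [div_sub_div _ _ hP1 hP0, div_eq_div_iff (mul_ne_zero hP1 ht0) (mul_ne_zero hP1 hP0)]
    have e4 : P1 * ((r : ℝ) + 1) * P0 = (P0 - P1) * (P1 * t) := by
      have : (P0 - P1) * (P1 * t) = P0 * (P1 * t) - P1 * (P1 * t) := by ring
      rw [this]
      nth_rewrite 2 [e3]
      ring
    linear_combination (r ! : ℝ) * e4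

end Pool.Agent.Work.MP_f1a024_nt.HP
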