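import Mathlib
import Pool.Agent.Work.MP_f1a024_nt.HP.Stmts

set_option autoImplicit false

namespace Pool.Agent.Work.MP_f1a024_nt.HP

open Real Polynomial MeasureTheory Finset Filter Topology
open scoped Nat

namespace I_DEC

lemma evQ (h2 : S_QEV) (r K m : ℕ) (hm : r + K + 1 ≤ m) :
    evr (Qz r K) (m : ℝ) = ((m + K).descFactorial (r + 2 * K + 1) : ℝ) := by
  have h := (h2 r K).2.2.1 m hm
  unfold evr
  rw [Polynomial.eval_natCast_map, h]
  simp

lemma step (q R e p : ℕ) (H H' D D' : ℝ) (hR : 1 ≤ R) (hp : 1 ≤ p) (he : q * R + 1 ≤ e)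
    (hH : 0 < H) (hD : 0 < D) (hD' : (p : ℝ) * D' = ((p : ℝ) + q) * D)
    (hH' : H' ≤ (((R + p - 1 : ℕ) : ℝ) / (((R + p - 1 : ℕ) : ℝ) + 1)) ^ e * H) :
    D' * H' < D * H := by
  set m : ℕ := R + p - 1 with hm
  have hm1 : 1 ≤ m := by omega
  have hm0 : (0 : ℝ) < m := by
    have : 0 < m := hm1
    exact_mod_cast this
  have hp0 : (0 : ℝ) < p := by
    have : 0 < p := hp
    exact_mod_cast this
  have hkey : (q : ℝ) * m < e * p := by
    have : q * m < e * p := by
      obtain ⟨R', rfl⟩ : ∃ R', R = R' + 1 := ⟨R - 1, by omega⟩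
      obtain ⟨p', rfl⟩ : ∃ p', p = p' + 1 := ⟨p - 1, by omega⟩
      have : m = R' + p' + 1 := by omega
      rw [this]
      nlinarith [Nat.zero_le (q * R' * p'), Nat.mul_le_mul_right (p' + 1) he]
    exact_mod_cast this
  have hbern : 1 + (e : ℝ) * (1 / m) ≤ (1 + 1 / (m : ℝ)) ^ e := by
    apply one_add_mul_le_pow
    have : (0 : ℝ) ≤ 1 / m := by positivity
    linarith
  have hlt : ((p : ℝ) + q) / p < (1 + 1 / (m : ℝ)) ^ e := by
    refine lt_of_lt_of_le ?_ hbern
    rw [add_div, div_self hp0.ne']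
    have : (q : ℝ) / p < e * (1 / m) := by
      rw [mul_one_div, div_lt_div_iff₀ hp0 hm0]
      exact hkey
    linarith
  have hx : (1 : ℝ) + 1 / m = ((m : ℝ) + 1) / m := by
    field_simp
  rw [hx] at hlt
  have hprod : ((m : ℝ) / (m + 1)) ^ e * (((m : ℝ) + 1) / m) ^ e = 1 := by
    rw [← mul_pow]
    have : (m : ℝ) / (m + 1) * (((m : ℝ) + 1) / m) = 1 := by
      field_simp
    rw [this, one_pow]
  have hpos : (0 : ℝ) < ((m : ℝ) / (m + 1)) ^ e := by positivity
  have h1 : ((p : ℝ) + q) / p * ((m : ℝ) / (m + 1)) ^ e < 1 := by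
    calc ((p : ℝ) + q) / p * ((m : ℝ) / (m + 1)) ^ e
        < (((m : ℝ) + 1) / m) ^ e * ((m : ℝ) / (m + 1)) ^ e :=
          mul_lt_mul_of_pos_right hlt hpos
      _ = 1 := by rw [mul_comm]; exact hprod
  have hD'e : D' = ((p : ℝ) + q) / p * D := by
    field_simp
    linarith
  have hD'0 : 0 < D' := by
    rw [hD'e]; positivity
  calc D' * H' ≤ D' * (((m : ℝ) / (m + 1)) ^ e * H) := mul_le_mul_of_nonneg_left hH' hD'0.le
    _ = (((p : ℝ) + q) / p * ((m : ℝ) / (m + 1)) ^ e) * (D * H) := by rw [hD'e]; ring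
    _ < 1 * (D * H) := mul_lt_mul_of_pos_right h1 (mul_pos hD hH)
    _ = D * H := one_mul _

end I_DEC

theorem DEC_pf (h1 : S_RAT) (h2 : S_QEV) : S_DEC := by
  intro r A n K hr hn hq
  have hn2 : n + 2 ≤ r * A := by omega
  have hrat := h1 r A n hr hn2
  have hz : ∀ m : ℕ, r + K + 1 ≤ m → (r : ℝ) + 1 ≤ m := by
    intro m hm
    have : r + 1 ≤ m := by omega
    exact_mod_cast this
  have hDpos : ∀ m : ℕ, r + K + 1 ≤ m → 0 < ((m + K).descFactorial (r + 2 * K + 1) : ℝ) := by
    intro m hm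
    have : 0 < (m + K).descFactorial (r + 2 * K + 1) :=
      Nat.descFactorial_pos.mpr (by omega)
    exact_mod_cast this
  refine ⟨?_, ?_, ?_⟩
  · intro m hm
    have e1 := I_DEC.evQ h2 r K m hm
    have e2 := I_DEC.evQ h2 r K (m + 1) (by omega)
    have hr1 := hrat m (hz m hm)
    constructor
    · unfold aa
      rw [e1]
      exact mul_pos (hDpos m hm) hr1.1
    · unfold aa
      rw [e1, e2]
      have hs := Nat.succ_descFactorial (m + K) (r + 2 * K + 1)
      have hp : m + K + 1 - (r + 2 * K + 1) = m - r - K := by omega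
      rw [hp] at hs
      have hs2 : (((m - r - K : ℕ) : ℝ)) * ((m + 1 + K).descFactorial (r + 2 * K + 1) : ℝ) =
          (((m - r - K : ℕ) : ℝ) + ((r + 2 * K + 1 : ℕ) : ℝ)) *
            ((m + K).descFactorial (r + 2 * K + 1) : ℝ) := by
        have e3 : m + 1 + K = m + K + 1 := by ring
        rw [e3]
        have e4 : m - r - K + (r + 2 * K + 1) = m + K + 1 := by omega
        rw [← e4] at hs
        rw [← e4]
        exact_mod_cast hs
      have hmm : r + K + 1 + (m - r - K) - 1 = m := by omega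
      have hst := I_DEC.step (r + 2 * K + 1) (r + K + 1) ((r + 1) * A - n - 1) (m - r - K)
        (HH r A n (m : ℝ)) (HH r A n ((m + 1 : ℕ) : ℝ))
        ((m + K).descFactorial (r + 2 * K + 1) : ℝ)
        ((m + 1 + K).descFactorial (r + 2 * K + 1) : ℝ) (by omega) (by omega) (by omega)
        hr1.1 (hDpos m hm) hs2 (by
          rw [hmm]
          have := hr1.2.1
          push_cast
          exact this)
      exact hst
  · -- limit
    have hC : Tendsto (fun m : ℕ => ((2 : ℝ) ^ (r + 2 * K + 1) * (r : ℝ) ^ (r * A)) * (1 / (m : ℝ)))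
        atTop (𝓝 0) := by
      have := tendsto_one_div_atTop_nhds_zero_nat (𝕜 := ℝ)
      simpa using this.const_mul ((2 : ℝ) ^ (r + 2 * K + 1) * (r : ℝ) ^ (r * A))
    refine squeeze_zero' ?_ ?_ hC
    · filter_upwards [eventually_ge_atTop (r + K + 1)] with m hm
      unfold aa
      rw [I_DEC.evQ h2 r K m hm]
      exact (mul_pos (hDpos m hm) (hrat m (hz m hm)).1).le
    · filter_upwards [eventually_ge_atTop (r + K + 1)] with m hm
      unfold aa
      rw [I_DEC.evQ h2 r K m hm]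
      have hm0 : (0 : ℝ) < m := by
        have : 0 < m := by omega
        exact_mod_cast this
      have hm1 : (1 : ℝ) ≤ m := by
        have : 1 ≤ m := by omega
        exact_mod_cast this
      have hD : ((m + K).descFactorial (r + 2 * K + 1) : ℝ) ≤ (2 * m) ^ (r + 2 * K + 1) := by
        have h3 : (m + K).descFactorial (r + 2 * K + 1) ≤ (m + K) ^ (r + 2 * K + 1) :=
          Nat.descFactorial_le_pow _ _
        have h4 : (m + K) ^ (r + 2 * K + 1) ≤ (2 * m) ^ (r + 2 * K + 1) :=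
          Nat.pow_le_pow_left (by omega) _
        exact_mod_cast h3.trans h4
      have hH := (hrat m (hz m hm)).2.2
      have hH0 := (hrat m (hz m hm)).1
      have hpow : (m : ℝ) ^ (r + 2 * K + 1 + (n + 1) + 1) ≤ (m : ℝ) ^ (r * A) :=
        pow_le_pow_right₀ hm1 (by omega)
      calc ((m + K).descFactorial (r + 2 * K + 1) : ℝ) * HH r A n m
          ≤ (2 * m) ^ (r + 2 * K + 1) * ((m : ℝ) ^ (n + 1) * ((r : ℝ) / m) ^ (r * A)) :=
            mul_le_mul hD hH hH0.le (by positivity)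
        _ = (2 ^ (r + 2 * K + 1) * (r : ℝ) ^ (r * A)) *
            ((m : ℝ) ^ (r + 2 * K + 1 + (n + 1)) / (m : ℝ) ^ (r * A)) := by
            rw [mul_pow, div_pow, pow_add]
            ring
        _ ≤ (2 ^ (r + 2 * K + 1) * (r : ℝ) ^ (r * A)) * (1 / (m : ℝ)) := by
            apply mul_le_mul_of_nonneg_left _ (by positivity)
            rw [div_le_div_iff₀ (by positivity) hm0, one_mul, ← pow_succ]
            exact hpow
  · have hR := hrat ((r + K + 1 : ℕ) : ℝ) (hz _ le_rfl)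
    unfold aa
    rw [I_DEC.evQ h2 r K (r + K + 1) le_rfl]
    have e1 : r + K + 1 + K = r + 2 * K + 1 := by ring
    rw [e1, Nat.descFactorial_self]
    have h3 := hR.2.2
    calc ((r + 2 * K + 1)! : ℝ) * HH r A n ((r + K + 1 : ℕ) : ℝ)
        ≤ ((r + 2 * K + 1)! : ℝ) * ((((r + K + 1 : ℕ) : ℝ)) ^ (n + 1) *
          ((r : ℝ) / ((r + K + 1 : ℕ) : ℝ)) ^ (r * A)) :=
          mul_le_mul_of_nonneg_left h3 (by positivity)
      _ = _ := by push_cast; ring

end Pool.Agent.Work.MP_f1a024_nt.HP
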