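import Mathlib
import Pool.Agent.Work.MP_f1a024_nt.HP.Stmts

set_option autoImplicit false

/-!
Item EX1 of the block HP of MP_f1a024_nt: products of partial fractions with integer
coefficients and their weighted norm.
-/

namespace Pool.Agent.Work.MP_f1a024_nt.HP

open Real Polynomial MeasureTheory Finset Filter Topology
open scoped Nat

namespace I_EX1

/-- The array with the single entry `1` at `(i, u)`. -/
def dl (i u a b : ℕ) : ℤ := if a = i then (if b = u then 1 else 0) else 0

theorem wnorm_dl (d r A i u : ℕ) (hi : i ≤ r) (hu : u < A) :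
    wnorm d r A (dl i u) = (d : ℤ) ^ u := by
  unfold wnorm
  rw [Finset.sum_eq_single i]
  · rw [Finset.sum_eq_single u]
    · simp [dl]
    · intro b _ hb
      simp [dl, hb]
    · intro h
      exact absurd (Finset.mem_range.mpr hu) h
  · intro a _ ha
    apply Finset.sum_eq_zero
    intro b _
    simp [dl, ha]
  · intro h
    exact absurd (Finset.mem_range.mpr (Nat.lt_succ_of_le hi)) h

theorem sum_dl {R : Type} [CommRing R] (h : ℕ → R) (r A i u : ℕ) (hi : i ≤ r) (hu : u < A) :
    ∑ a ∈ range (r + 1), ∑ b ∈ range A, (dl i u a b : R) * h a ^ (b + 1) = h i ^ (u + 1) := by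
  rw [Finset.sum_eq_single i]
  · rw [Finset.sum_eq_single u]
    · simp [dl]
    · intro b _ hb
      simp [dl, hb]
    · intro h'
      exact absurd (Finset.mem_range.mpr hu) h'
  · intro a _ ha
    apply Finset.sum_eq_zero
    intro b _
    simp [dl, ha]
  · intro h'
    exact absurd (Finset.mem_range.mpr (Nat.lt_succ_of_le hi)) h'

theorem wnorm_step (d r A : ℕ) (m : ℤ) (hm : |m| ≤ (d : ℤ)) (e f : ℕ → ℕ → ℤ) :
    wnorm d r A (fun a b => m * (e a b - f a b)) ≤
      (d : ℤ) * (wnorm d r A e + wnorm d r A f) := by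
  unfold wnorm
  rw [← Finset.sum_add_distrib, Finset.mul_sum]
  apply Finset.sum_le_sum
  intro a _
  rw [← Finset.sum_add_distrib, Finset.mul_sum]
  apply Finset.sum_le_sum
  intro b _
  rw [← add_mul, ← mul_assoc]
  apply mul_le_mul_of_nonneg_right _ (by positivity)
  rw [abs_mul]
  apply mul_le_mul hm _ (abs_nonneg _) (by positivity)
  exact abs_sub _ _

theorem key (r d : ℕ) (m : ℕ → ℕ → ℤ) (hm : ∀ i j, |m i j| ≤ (d : ℤ))
    (i j : ℕ) (hi : i ≤ r) (hj : j ≤ r) (hij : i ≠ j) (u : ℕ) :
    ∃ e : ℕ → ℕ → ℤ, ∀ A : ℕ, u + 1 ≤ A →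
      wnorm d r A e ≤ ((u : ℤ) + 1) * (d : ℤ) ^ u ∧
      ∀ (R : Type) [CommRing R] (h : ℕ → R),
        (∀ i j, i ≤ r → j ≤ r → i ≠ j → h i * h j = (m i j : R) * (h i - h j)) →
        h i ^ u * h j =
          ∑ a ∈ range (r + 1), ∑ b ∈ range A, (e a b : R) * h a ^ (b + 1) := by
  induction u with
  | zero =>
    refine ⟨dl j 0, ?_⟩
    intro A hA
    refine ⟨?_, ?_⟩
    · rw [wnorm_dl d r A j 0 hj (by omega)]
      simp
    · intro R _ h _
      rw [sum_dl h r A j 0 hj (by omega)]
      simp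
  | succ u ih =>
    obtain ⟨e, he⟩ := ih
    refine ⟨fun a b => m i j * (dl i u a b - e a b), ?_⟩
    intro A hA
    obtain ⟨h1, h2⟩ := he A (by omega)
    refine ⟨?_, ?_⟩
    · refine (wnorm_step d r A (m i j) (hm i j) (dl i u) e).trans ?_
      rw [wnorm_dl d r A i u hi (by omega)]
      have hd : (0 : ℤ) ≤ (d : ℤ) := by positivity
      calc (d : ℤ) * ((d : ℤ) ^ u + wnorm d r A e)
          ≤ (d : ℤ) * ((d : ℤ) ^ u + ((u : ℤ) + 1) * (d : ℤ) ^ u) := by
            apply mul_le_mul_of_nonneg_left _ hd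
            linarith
        _ = (((u + 1 : ℕ) : ℤ) + 1) * (d : ℤ) ^ (u + 1) := by
            push_cast
            ring
    · intro R _ h hh
      have h3 := h2 R h hh
      have h4 := sum_dl h r A i u hi (by omega)
      have h5 : h i ^ (u + 1) * h j = (m i j : R) * (h i ^ (u + 1) - h i ^ u * h j) := by
        calc h i ^ (u + 1) * h j = h i ^ u * (h i * h j) := by ring
          _ = h i ^ u * ((m i j : R) * (h i - h j)) := by rw [hh i j hi hj hij]
          _ = _ := by ring
      rw [h5, h3, ← h4, ← Finset.sum_sub_distrib, Finset.mul_sum]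
      apply Finset.sum_congr rfl
      intro a _
      rw [← Finset.sum_sub_distrib, Finset.mul_sum]
      apply Finset.sum_congr rfl
      intro b _
      push_cast
      ring

end I_EX1

theorem EX1_pf : S_EX1 := by
  intro r d m hd hm i j s hi hj
  by_cases hij : i = j
  · subst hij
    refine ⟨I_EX1.dl i (s + 1), ?_, ?_⟩
    · rw [I_EX1.wnorm_dl d r (s + 2) i (s + 1) hi (by omega)]
      have h1 : (0 : ℤ) ≤ (d : ℤ) ^ (s + 1) := by positivity
      have h2 : (0 : ℤ) ≤ (s : ℤ) := by positivity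
      nlinarith
    · intro R _ h _
      rw [I_EX1.sum_dl h r (s + 2) i (s + 1) hi (by omega)]
      ring
  · obtain ⟨e, he⟩ := I_EX1.key r d m hm i j hi hj hij (s + 1)
    obtain ⟨h1, h2⟩ := he (s + 2) (by omega)
    refine ⟨e, ?_, h2⟩
    refine h1.trans (le_of_eq ?_)
    push_cast
    ring

end Pool.Agent.Work.MP_f1a024_nt.HP
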