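import Mathlib
import Pool.Agent.Work.MP_f1a024_nt.HP.Stmts

set_option autoImplicit false

/-!
Item EX2 of the block [f1a024 HP]: powers of `∑ b_j h_j`.
-/

namespace Pool.Agent.Work.MP_f1a024_nt.HP

open Real Polynomial MeasureTheory Finset Filter Topology
open scoped Nat

namespace I_EX2

lemma wnorm_lin (d r B : ℕ) {ι : Type} (S : Finset ι) (c : ι → ℤ) (f : ι → ℕ → ℕ → ℤ) :
    wnorm d r B (fun a t => ∑ x ∈ S, c x * f x a t) ≤ ∑ x ∈ S, |c x| * wnorm d r B (f x) := by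
  unfold wnorm
  have h1 : ∀ a t : ℕ, |∑ x ∈ S, c x * f x a t| * (d : ℤ) ^ t ≤
      ∑ x ∈ S, |c x| * (|f x a t| * (d : ℤ) ^ t) := by
    intro a t
    have h2 : |∑ x ∈ S, c x * f x a t| ≤ ∑ x ∈ S, |c x| * |f x a t| := by
      refine (Finset.abs_sum_le_sum_abs _ _).trans (le_of_eq ?_)
      exact Finset.sum_congr rfl fun x _ => abs_mul _ _
    calc |∑ x ∈ S, c x * f x a t| * (d : ℤ) ^ t ≤ (∑ x ∈ S, |c x| * |f x a t|) * (d : ℤ) ^ t :=
          mul_le_mul_of_nonneg_right h2 (by positivity)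
      _ = ∑ x ∈ S, |c x| * (|f x a t| * (d : ℤ) ^ t) := by
          rw [Finset.sum_mul]
          exact Finset.sum_congr rfl fun x _ => by ring
  calc ∑ i ∈ range (r + 1), ∑ s ∈ range B, |∑ x ∈ S, c x * f x i s| * (d : ℤ) ^ s
      ≤ ∑ i ∈ range (r + 1), ∑ s ∈ range B, ∑ x ∈ S, |c x| * (|f x i s| * (d : ℤ) ^ s) :=
        Finset.sum_le_sum fun i _ => Finset.sum_le_sum fun s _ => h1 i s
    _ = ∑ i ∈ range (r + 1), ∑ x ∈ S, ∑ s ∈ range B, |c x| * (|f x i s| * (d : ℤ) ^ s) :=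
        Finset.sum_congr rfl fun i _ => Finset.sum_comm
    _ = ∑ x ∈ S, ∑ i ∈ range (r + 1), ∑ s ∈ range B, |c x| * (|f x i s| * (d : ℤ) ^ s) :=
        Finset.sum_comm
    _ = ∑ x ∈ S, |c x| * ∑ i ∈ range (r + 1), ∑ s ∈ range B, |f x i s| * (d : ℤ) ^ s := by
        refine Finset.sum_congr rfl fun x _ => ?_
        rw [Finset.mul_sum]
        refine Finset.sum_congr rfl fun i _ => ?_
        rw [Finset.mul_sum]

lemma range_filter {k B : ℕ} (h : k ≤ B) : (range B).filter (fun t => t < k) = range k := by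
  ext t
  simp only [mem_filter, mem_range]
  omega

lemma wnorm_ext (d r k B : ℕ) (h : k ≤ B) (f : ℕ → ℕ → ℤ) :
    wnorm d r B (fun a t => if t < k then f a t else 0) = wnorm d r k f := by
  unfold wnorm
  refine Finset.sum_congr rfl fun i _ => ?_
  rw [← range_filter h, Finset.sum_filter]
  refine Finset.sum_congr rfl fun s _ => ?_
  by_cases hs : s < k
  · simp only [if_pos hs]
  · simp only [if_neg hs, abs_zero, zero_mul]

lemma sum_ext {R : Type} [CommRing R] (r k B : ℕ) (h : k ≤ B) (f : ℕ → ℕ → ℤ) (g : ℕ → R) :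
    ∑ a ∈ range (r + 1), ∑ t ∈ range B, ((if t < k then f a t else 0 : ℤ) : R) * g a ^ (t + 1) =
      ∑ a ∈ range (r + 1), ∑ t ∈ range k, (f a t : R) * g a ^ (t + 1) := by
  refine Finset.sum_congr rfl fun i _ => ?_
  rw [← range_filter h, Finset.sum_filter]
  refine Finset.sum_congr rfl fun s _ => ?_
  split_ifs
  · rfl
  · simp

end I_EX2

open I_EX2

theorem EX2_pf (h1 : S_EX1) : S_EX2 := by
  intro r d m b hd hm A hA
  have hex : ∀ i j s : ℕ, ∃ e : ℕ → ℕ → ℤ, i ≤ r → j ≤ r →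
      (wnorm d r (s + 2) e ≤ ((s : ℤ) + 2) * (d : ℤ) ^ (s + 1) ∧
      ∀ (R : Type) [CommRing R] (h : ℕ → R),
        (∀ i j, i ≤ r → j ≤ r → i ≠ j → h i * h j = (m i j : R) * (h i - h j)) →
        h i ^ (s + 1) * h j =
          ∑ a ∈ range (r + 1), ∑ b ∈ range (s + 2), (e a b : R) * h a ^ (b + 1)) := by
    intro i j s
    by_cases hi : i ≤ r
    · by_cases hj : j ≤ r
      · obtain ⟨e, he⟩ := h1 r d m hd hm i j s hi hj
        exact ⟨e, fun _ _ => he⟩
      · exact ⟨fun _ _ => 0, fun _ h => absurd h hj⟩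
    · exact ⟨fun _ _ => 0, fun h => absurd h hi⟩
  choose e1 he1 using hex
  induction A, hA using Nat.le_induction with
  | base =>
    refine ⟨fun i _ => b i, ?_, ?_⟩
    · unfold wnorm
      simp
    · intro R _ h _
      simp
  | succ A hA ih =>
    obtain ⟨e, hen, her⟩ := ih
    set S : Finset (ℕ × ℕ × ℕ) := range (r + 1) ×ˢ range A ×ˢ range (r + 1) with hS
    have hmS : ∀ x ∈ S, x.1 ≤ r ∧ x.2.1 < A ∧ x.2.2 ≤ r := by
      intro x hx
      rw [hS, mem_product, mem_product, mem_range, mem_range, mem_range] at hx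
      omega
    refine ⟨fun a t => ∑ x ∈ S, (e x.1 x.2.1 * b x.2.2) *
      (fun a t => if t < x.2.1 + 2 then e1 x.1 x.2.2 x.2.1 a t else 0) a t, ?_, ?_⟩
    · refine (wnorm_lin d r (A + 1) S (fun x => e x.1 x.2.1 * b x.2.2)
        (fun x a t => if t < x.2.1 + 2 then e1 x.1 x.2.2 x.2.1 a t else 0)).trans ?_
      have hstep : ∀ x ∈ S, |e x.1 x.2.1 * b x.2.2| * wnorm d r (A + 1)
          (fun a t => if t < x.2.1 + 2 then e1 x.1 x.2.2 x.2.1 a t else 0) ≤
          ((A : ℤ) + 1) * d * (|b x.2.2| * (|e x.1 x.2.1| * (d : ℤ) ^ x.2.1)) := by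
        intro x hx
        obtain ⟨hx1, hx2, hx3⟩ := hmS x hx
        rw [wnorm_ext d r (x.2.1 + 2) (A + 1) (by omega)]
        have h3 := (he1 x.1 x.2.2 x.2.1 hx1 hx3).1
        have h4 : ((x.2.1 : ℤ) + 2) * (d : ℤ) ^ (x.2.1 + 1) ≤
            ((A : ℤ) + 1) * (d : ℤ) ^ (x.2.1 + 1) := by
          have h5 : (x.2.1 : ℤ) + 2 ≤ (A : ℤ) + 1 := by
            have : (x.2.1 : ℤ) + 1 ≤ A := by exact_mod_cast hx2
            linarith
          exact mul_le_mul_of_nonneg_right h5 (by positivity)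
        calc |e x.1 x.2.1 * b x.2.2| * wnorm d r (x.2.1 + 2) (e1 x.1 x.2.2 x.2.1)
            ≤ |e x.1 x.2.1 * b x.2.2| * (((A : ℤ) + 1) * (d : ℤ) ^ (x.2.1 + 1)) :=
              mul_le_mul_of_nonneg_left (h3.trans h4) (abs_nonneg _)
          _ = ((A : ℤ) + 1) * d * (|b x.2.2| * (|e x.1 x.2.1| * (d : ℤ) ^ x.2.1)) := by
              rw [abs_mul, pow_succ]
              ring
      refine (Finset.sum_le_sum hstep).trans ?_
      have hsum : ∑ x ∈ S, ((A : ℤ) + 1) * d * (|b x.2.2| * (|e x.1 x.2.1| * (d : ℤ) ^ x.2.1)) =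
          ((A : ℤ) + 1) * d * ((∑ j ∈ range (r + 1), |b j|) * wnorm d r A e) := by
        rw [← Finset.mul_sum, hS, Finset.sum_product]
        congr 1
        unfold wnorm
        rw [Finset.mul_sum]
        refine Finset.sum_congr rfl fun i _ => ?_
        rw [Finset.sum_product, Finset.mul_sum]
        refine Finset.sum_congr rfl fun s _ => ?_
        rw [Finset.sum_mul]
      rw [hsum]
      have hb : 0 ≤ ∑ j ∈ range (r + 1), |b j| := Finset.sum_nonneg fun j _ => abs_nonneg _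
      have h6 : (∑ j ∈ range (r + 1), |b j|) * wnorm d r A e ≤ (∑ j ∈ range (r + 1), |b j|) *
          ((∑ j ∈ range (r + 1), |b j|) ^ A * (A ! : ℤ) * (d : ℤ) ^ (A - 1)) :=
        mul_le_mul_of_nonneg_left hen hb
      have h7 : ((A : ℤ) + 1) * d * ((∑ j ∈ range (r + 1), |b j|) * wnorm d r A e) ≤
          ((A : ℤ) + 1) * d * ((∑ j ∈ range (r + 1), |b j|) *
          ((∑ j ∈ range (r + 1), |b j|) ^ A * (A ! : ℤ) * (d : ℤ) ^ (A - 1))) :=
        mul_le_mul_of_nonneg_left h6 (by positivity)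
      refine h7.trans (le_of_eq ?_)
      obtain ⟨A', rfl⟩ : ∃ A', A = A' + 1 := ⟨A - 1, by omega⟩
      rw [Nat.add_sub_cancel, Nat.add_sub_cancel, Nat.factorial_succ (A' + 1)]
      push_cast
      ring
    · intro R _ h hh
      rw [pow_succ, her R h hh]
      have hprod : ∀ x ∈ S, ((e x.1 x.2.1 * b x.2.2 : ℤ) : R) *
          (∑ a ∈ range (r + 1), ∑ t ∈ range (A + 1),
            ((if t < x.2.1 + 2 then e1 x.1 x.2.2 x.2.1 a t else 0 : ℤ) : R) * h a ^ (t + 1)) =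
          ((e x.1 x.2.1 : ℤ) : R) * h x.1 ^ (x.2.1 + 1) * ((b x.2.2 : R) * h x.2.2) := by
        intro x hx
        obtain ⟨hx1, hx2, hx3⟩ := hmS x hx
        rw [sum_ext r (x.2.1 + 2) (A + 1) (by omega), ← (he1 x.1 x.2.2 x.2.1 hx1 hx3).2 R h hh]
        push_cast
        ring
      have hL : (∑ i ∈ range (r + 1), ∑ s ∈ range A, (e i s : R) * h i ^ (s + 1)) *
          ∑ j ∈ range (r + 1), (b j : R) * h j =
          ∑ x ∈ S, ((e x.1 x.2.1 : ℤ) : R) * h x.1 ^ (x.2.1 + 1) *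
            ((b x.2.2 : R) * h x.2.2) := by
        rw [hS, Finset.sum_product, Finset.sum_mul]
        refine Finset.sum_congr rfl fun i _ => ?_
        rw [Finset.sum_product, Finset.sum_mul]
        refine Finset.sum_congr rfl fun s _ => ?_
        rw [Finset.mul_sum]
      rw [hL, ← Finset.sum_congr rfl hprod]
      have hR : ∀ a t : ℕ, (((∑ x ∈ S, (e x.1 x.2.1 * b x.2.2) *
          (if t < x.2.1 + 2 then e1 x.1 x.2.2 x.2.1 a t else 0) : ℤ)) : R) * h a ^ (t + 1) =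
          ∑ x ∈ S, ((e x.1 x.2.1 * b x.2.2 : ℤ) : R) *
            (((if t < x.2.1 + 2 then e1 x.1 x.2.2 x.2.1 a t else 0 : ℤ) : R) * h a ^ (t + 1)) := by
        intro a t
        rw [Int.cast_sum, Finset.sum_mul]
        refine Finset.sum_congr rfl fun x _ => ?_
        rw [Int.cast_mul]
        ring
      simp only [hR]
      calc ∑ x ∈ S, ((e x.1 x.2.1 * b x.2.2 : ℤ) : R) *
          (∑ a ∈ range (r + 1), ∑ t ∈ range (A + 1),
            ((if t < x.2.1 + 2 then e1 x.1 x.2.2 x.2.1 a t else 0 : ℤ) : R) * h a ^ (t + 1))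
          = ∑ x ∈ S, ∑ a ∈ range (r + 1), ∑ t ∈ range (A + 1),
            ((e x.1 x.2.1 * b x.2.2 : ℤ) : R) *
            (((if t < x.2.1 + 2 then e1 x.1 x.2.2 x.2.1 a t else 0 : ℤ) : R) * h a ^ (t + 1)) := by
            refine Finset.sum_congr rfl fun x _ => ?_
            rw [Finset.mul_sum]
            refine Finset.sum_congr rfl fun a _ => ?_
            rw [Finset.mul_sum]
        _ = ∑ a ∈ range (r + 1), ∑ x ∈ S, ∑ t ∈ range (A + 1),
            ((e x.1 x.2.1 * b x.2.2 : ℤ) : R) *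
            (((if t < x.2.1 + 2 then e1 x.1 x.2.2 x.2.1 a t else 0 : ℤ) : R) * h a ^ (t + 1)) :=
            Finset.sum_comm
        _ = _ := Finset.sum_congr rfl fun a _ => Finset.sum_comm

end Pool.Agent.Work.MP_f1a024_nt.HP
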