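import Mathlib
import Pool.Agent.Work.MP_f1a024_nt.HP.Stmts

set_option autoImplicit false

/-!
Item EZ0 of the block [f1a024 HP]: the polynomials `E_i` add up to 0.
-/

namespace Pool.Agent.Work.MP_f1a024_nt.HP

open Real Polynomial MeasureTheory Finset Filter Topology
open scoped Nat

namespace I_EZ0

lemma coeff_pow (c : ℤ) (m k : ℕ) :
    ((C c - X) ^ m : ℤ[X]).coeff k = (-1) ^ k * (m.choose k : ℤ) * c ^ (m - k) := by
  have h1 : (C c - X : ℤ[X]) = C (-1) * (X + C (-c)) := by
    simp only [map_neg, map_one]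
    ring
  rw [h1, mul_pow, ← C_pow, coeff_C_mul, coeff_X_add_C_pow]
  rcases le_or_gt k m with hk | hk
  · obtain ⟨j, rfl⟩ := Nat.exists_eq_add_of_le hk
    have h2 : (-1 : ℤ) ^ j * (-1) ^ j = 1 := by
      rw [← mul_pow]
      norm_num
    rw [Nat.add_sub_cancel_left, pow_add, neg_pow c]
    linear_combination ((-1 : ℤ) ^ k * c ^ j * ((k + j).choose k : ℤ)) * h2
  · rw [Nat.choose_eq_zero_of_lt hk]
    simp

end I_EZ0

theorem EZ0_pf : S_EZ0 := by
  intro r A n c hPF hA hn
  ext a
  rw [finsetSum_coeff, coeff_zero]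
  rcases le_or_gt a n with ha | ha
  · have hmom := hPF.mom (n - a) (by omega)
    have h1 : ∀ i ∈ range (r + 1), (Ez A n c i).coeff a =
        (-1) ^ a * (n.choose a : ℤ) *
          ∑ s ∈ range A, c i s * ((n - a).choose s : ℤ) * (i : ℤ) ^ (n - a - s) := by
      intro i _
      rw [Ez, finsetSum_coeff, Finset.mul_sum]
      refine Finset.sum_congr rfl fun s hs => ?_
      rw [Finset.mem_range] at hs
      rw [coeff_C_mul, I_EZ0.coeff_pow]
      have h2 : (n.choose s : ℤ) * ((n - s).choose a : ℤ) =
          (n.choose a : ℤ) * ((n - a).choose s : ℤ) := by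
        rcases le_or_gt (s + a) n with h3 | h3
        · have h4 := Nat.choose_mul (n := n) (k := s + a) (s := s) (by omega)
          have h5 := Nat.choose_mul (n := n) (k := s + a) (s := a) (by omega)
          rw [Nat.add_sub_cancel_left] at h4
          rw [Nat.add_sub_cancel, ← Nat.choose_symm_add] at h5
          exact_mod_cast h4.symm.trans h5
        · rw [Nat.choose_eq_zero_of_lt (show n - s < a by omega),
            Nat.choose_eq_zero_of_lt (show n - a < s by omega)]
          simp
      have h5 : n - s - a = n - a - s := by omega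
      rw [h5]
      linear_combination ((-1 : ℤ) ^ a * c i s * (i : ℤ) ^ (n - a - s)) * h2
    rw [Finset.sum_congr rfl h1, ← Finset.mul_sum, hmom, mul_zero]
  · refine Finset.sum_eq_zero fun i _ => ?_
    rw [Ez, finsetSum_coeff]
    refine Finset.sum_eq_zero fun s hs => ?_
    rw [coeff_C_mul, I_EZ0.coeff_pow, Nat.choose_eq_zero_of_lt (show n - s < a by omega)]
    simp

end Pool.Agent.Work.MP_f1a024_nt.HP
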