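import Mathlib
import Pool.Agent.Work.MP_f1a024_nt.HP.Stmts
import Pool.Agent.Work.MP_f1a024_nt.HP.I_FOU

set_option autoImplicit false

/-!
Item FEX of the block [f1a024 HP] (helper48).
-/

namespace Pool.Agent.Work.MP_f1a024_nt.HP

open Real Polynomial MeasureTheory Finset Filter Topology
open scoped Nat

namespace I_FEX

lemma evr_cont (p : ℤ[X]) : Continuous (evr p) := (p.map (Int.castRingHom ℝ)).continuous

lemma evr_int (p : ℤ[X]) (m : ℤ) : evr p (m : ℝ) = ((p.eval m : ℤ) : ℝ) := by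
  unfold evr
  rw [eval_intCast_map]
  simp

lemma evr_mul (p q : ℤ[X]) (x : ℝ) : evr (p * q) x = evr p x * evr q x := by
  unfold evr
  rw [Polynomial.map_mul, eval_mul]

/-- Integrability on all intervals `[0, i]`, `i <= r`. -/
def II (r : ℕ) (g : ℝ → ℝ) : Prop :=
  ∀ i ∈ range (r + 1), IntervalIntegrable g volume 0 (i : ℝ)

lemma II.mulE {r A n : ℕ} {c : ℕ → ℕ → ℤ} {g : ℝ → ℝ} (hg : II r g) {i : ℕ}
    (hi : i ∈ range (r + 1)) :
    IntervalIntegrable (fun x => evr (Ez A n c i) x * g x) volume 0 (i : ℝ) :=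
  (hg i hi).continuousOn_mul (evr_cont _).continuousOn

lemma JJ_add (r A n : ℕ) (c : ℕ → ℕ → ℤ) {g h : ℝ → ℝ} (hg : II r g) (hh : II r h) :
    JJ r A n c (fun x => g x + h x) = JJ r A n c g + JJ r A n c h := by
  unfold JJ
  rw [← Finset.sum_add_distrib]
  refine Finset.sum_congr rfl (fun i hi => ?_)
  rw [← intervalIntegral.integral_add (hg.mulE hi) (hh.mulE hi)]
  congr 1
  funext x
  ring

lemma JJ_smul (r A n : ℕ) (c : ℕ → ℕ → ℤ) (a : ℝ) (g : ℝ → ℝ) :
    JJ r A n c (fun x => a * g x) = a * JJ r A n c g := by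
  unfold JJ
  rw [Finset.mul_sum]
  refine Finset.sum_congr rfl (fun i _ => ?_)
  rw [← intervalIntegral.integral_const_mul]
  congr 1
  funext x
  ring

lemma II.add {r : ℕ} {g h : ℝ → ℝ} (hg : II r g) (hh : II r h) : II r (fun x => g x + h x) :=
  fun i hi => (hg i hi).add (hh i hi)

lemma II.smul {r : ℕ} {g : ℝ → ℝ} (a : ℝ) (hg : II r g) : II r (fun x => a * g x) :=
  fun i hi => (hg i hi).const_mul a

lemma II_zero (r : ℕ) : II r (fun _ => 0) := fun i _ => by simp

lemma JJ_zero (r A n : ℕ) (c : ℕ → ℕ → ℤ) : JJ r A n c (fun _ => 0) = 0 := by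
  unfold JJ
  simp

lemma II_sum {r : ℕ} (f : ℕ → ℝ → ℝ) (hf : ∀ m, II r (f m)) (M : ℕ) :
    II r (fun x => ∑ m ∈ range M, f m x) := by
  induction M with
  | zero => simpa using II_zero r
  | succ M ih =>
    simp only [Finset.sum_range_succ]
    exact ih.add (hf M)

lemma JJ_sum (r A n : ℕ) (c : ℕ → ℕ → ℤ) (f : ℕ → ℝ → ℝ) (hf : ∀ m, II r (f m)) (M : ℕ) :
    JJ r A n c (fun x => ∑ m ∈ range M, f m x) = ∑ m ∈ range M, JJ r A n c (f m) := by
  induction M with
  | zero => simpa using JJ_zero r A n c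
  | succ M ih =>
    simp only [Finset.sum_range_succ]
    rw [JJ_add r A n c (II_sum f hf M) (hf M), ih]

/-- The terms are integrable. -/
lemma II_term (h3 : S_QEV) (r K : ℕ) (m : ℤ) :
    II r (fun x => evr (Qz r K) x / (x - m)) := by
  intro i hi
  have hir : (i : ℝ) ≤ r := by
    have := Finset.mem_range.mp hi
    exact_mod_cast Nat.lt_succ_iff.mp this
  by_cases hm : 0 ≤ m ∧ m ≤ r
  · have hz : (Qz r K).eval m = 0 := (h3 r K).2.1 m (by omega) (by omega)
    obtain ⟨P, hP⟩ := dvd_iff_isRoot.mpr (show (Qz r K).IsRoot m from hz)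
    have hc : IntervalIntegrable (fun x => evr P x) volume 0 (i : ℝ) :=
      (evr_cont P).intervalIntegrable _ _
    refine hc.congr_ae ?_
    have hne : ∀ᵐ x : ℝ ∂(volume.restrict (Set.uIoc (0:ℝ) i)), x ≠ (m : ℝ) := by
      refine ae_restrict_of_ae ?_
      have := measure_singleton (μ := (volume : Measure ℝ)) (m : ℝ)
      rw [ae_iff]
      simpa using this
    filter_upwards [hne] with x hx
    have hx' : x - (m : ℝ) ≠ 0 := sub_ne_zero.mpr hx
    have e1 : evr (X - C m) x = x - m := by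
      unfold evr
      simp
    rw [hP, evr_mul, e1]
    field_simp
  · refine ContinuousOn.intervalIntegrable ?_
    refine ContinuousOn.div (evr_cont _).continuousOn (by fun_prop) ?_
    intro x hx
    rw [Set.uIcc_of_le (Nat.cast_nonneg i)] at hx
    intro he
    have he' : x = (m : ℝ) := by linarith
    apply hm
    constructor
    · have : (0:ℝ) ≤ m := he' ▸ hx.1
      exact_mod_cast this
    · have : (m:ℝ) ≤ r := by rw [← he']; exact hx.2.trans hir
      exact_mod_cast this

/-- `Q pi / sin(pi x)` is integrable. -/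
lemma II_sin (h3 : S_QEV) (r K : ℕ) :
    II r (fun x => evr (Qz r K) x * (π / sin (π * x))) := by
  have key : ∀ i : ℕ, i ≤ r →
      IntervalIntegrable (fun x => evr (Qz r K) x / sin (π * x)) volume 0 (i : ℝ) := by
    intro i
    induction i with
    | zero => intro _; simp
    | succ i ih =>
      intro hi
      push_cast
      refine (ih (by omega)).trans ?_
      refine I_FOU.intervalIntegrable_unit ((Qz r K).map (Int.castRingHom ℝ)) i ?_ ?_
      · have h := evr_int (Qz r K) i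
        rw [(h3 r K).2.1 i (by omega) (by omega)] at h
        simpa [evr] using h
      · have h := evr_int (Qz r K) (i + 1)
        rw [(h3 r K).2.1 (i + 1) (by omega) (by omega)] at h
        push_cast at h
        simpa [evr] using h
  intro i hi
  have h := (key i (Nat.lt_succ_iff.mp (Finset.mem_range.mp hi))).const_mul π
  refine h.congr ?_
  intro x _
  simp only
  ring

/-- The partial sums of the partial fraction series. -/
noncomputable def PS (M : ℕ) (x : ℝ) : ℝ :=
  1 / x + ∑ m ∈ range M, (-1 : ℝ) ^ (m + 1) * (1 / (x - (m + 1)) + 1 / (x + (m + 1)))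

/-- `Q` times the partial sums in the form needed. -/
lemma PS_eq (r K M : ℕ) (x : ℝ) :
    evr (Qz r K) x * PS M x = evr (Qz r K) x / (x - ((0 : ℤ) : ℝ)) +
      ∑ m ∈ range M, ((-1 : ℝ) ^ (m + 1) * (evr (Qz r K) x / (x - (((m + 1 : ℕ) : ℤ) : ℝ)) +
        evr (Qz r K) x / (x - ((-((m + 1 : ℕ) : ℤ) : ℤ) : ℝ)))) := by
  unfold PS
  rw [mul_add, Finset.mul_sum]
  congr 1
  · simp [div_eq_mul_inv]
  · refine Finset.sum_congr rfl (fun m _ => ?_)
    push_cast
    rw [sub_neg_eq_add]
    ring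

lemma II_PS (h3 : S_QEV) (r K M : ℕ) : II r (fun x => evr (Qz r K) x * PS M x) := by
  simp_rw [PS_eq]
  refine (II_term h3 r K 0).add (II_sum _ (fun m => ?_) M)
  exact ((II_term h3 r K _).add (II_term h3 r K _)).smul _

/-- The value of `JJ (Q * partial sum)`. -/
lemma JJ_PS (h2 : S_TRM) (h3 : S_QEV) (r A n K : ℕ) (c : ℕ → ℕ → ℤ) (hc : PF r A c) (hr : 1 ≤ r)
    (hAn : A ≤ n) (hne : Even n) (hAe : Even A) (hc1 : n + (r + 2 * K + 1) + 2 ≤ r * A) (M : ℕ) :
    JJ r A n c (fun x => evr (Qz r K) x * PS M x) =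
      -((dd r : ℝ) ^ (A - 1) * (SS r A n K M + SS r A n K (M + r))) := by
  obtain ⟨t1, t2, t3⟩ := h2 r A n K c hc hr hAn hc1
  simp_rw [PS_eq]
  rw [JJ_add r A n c (II_term h3 r K 0) (II_sum _ (fun m =>
    ((II_term h3 r K _).add (II_term h3 r K _)).smul _) M), t1 0 (by omega) (by omega), zero_add,
    JJ_sum r A n c _ (fun m => ((II_term h3 r K _).add (II_term h3 r K _)).smul _)]
  have e1 : ∀ m ∈ range M, JJ r A n c (fun x => (-1 : ℝ) ^ (m + 1) *
      (evr (Qz r K) x / (x - (((m + 1 : ℕ) : ℤ) : ℝ)) +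
        evr (Qz r K) x / (x - ((-((m + 1 : ℕ) : ℤ) : ℤ) : ℝ)))) =
      -((dd r : ℝ) ^ (A - 1)) * (if r + K < m + 1 then (-1 : ℝ) ^ (m + 1) *
        aa r A n K (m + 1) else 0) +
      -((dd r : ℝ) ^ (A - 1)) * (if K < m + 1 then (-1 : ℝ) ^ (r + (m + 1)) *
        aa r A n K (r + (m + 1)) else 0) := by
    intro m _
    rw [JJ_smul, JJ_add r A n c (II_term h3 r K _) (II_term h3 r K _), mul_add]
    congr 1
    · split_ifs with h
      · have := t2 (m + 1) h
        rw [show (fun x : ℝ => evr (Qz r K) x / (x - (((m + 1 : ℕ) : ℤ) : ℝ))) =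
          (fun x : ℝ => evr (Qz r K) x / (x - ((m + 1 : ℕ) : ℝ))) by
            funext x; push_cast; rfl, this]
        ring
      · rw [t1 _ (by omega) (by omega)]
        ring
    · split_ifs with h
      · have := t3 (m + 1) h
        have hpar : (-1 : ℝ) ^ (r + 1 + n + (r + 1) * A) = (-1) ^ (r + 1) := by
          have he : Even (n + (r + 1) * A) := hne.add (hAe.mul_left _)
          rw [show r + 1 + n + (r + 1) * A = (r + 1) + (n + (r + 1) * A) by ring, pow_add,
            he.neg_one_pow, mul_one]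
        rw [show (fun x : ℝ => evr (Qz r K) x / (x - ((-((m + 1 : ℕ) : ℤ) : ℤ) : ℝ))) =
          (fun x : ℝ => evr (Qz r K) x / (x + ((m + 1 : ℕ) : ℝ))) by
            funext x; push_cast; rw [sub_neg_eq_add], this, hpar]
        rw [pow_add (-1 : ℝ) r (m + 1), pow_succ (-1 : ℝ) r]
        ring
      · rw [t1 _ (by omega) (by omega)]
        ring
  rw [Finset.sum_congr rfl e1, Finset.sum_add_distrib, ← Finset.mul_sum, ← Finset.mul_sum]
  have e2 : ∑ m ∈ range M, (if r + K < m + 1 then (-1 : ℝ) ^ (m + 1) *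
      aa r A n K (m + 1) else 0) = SS r A n K M := by
    unfold SS
    rw [← Finset.sum_filter]
    refine Finset.sum_nbij (fun m => m + 1) ?_ ?_ ?_ ?_
    · intro m hm
      simp only [Finset.mem_filter, Finset.mem_range, Finset.mem_Ico] at hm ⊢
      omega
    · intro a _ b _ hab
      simpa using hab
    · intro m hm
      simp only [Finset.coe_filter, Finset.mem_range, Finset.coe_Ico, Set.mem_Ico] at hm ⊢
      refine ⟨m - 1, ?_, ?_⟩
      · simp only [Set.mem_setOf_eq]
        omega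
      · simp only
        omega
    · intro m _
      rfl
  have e3 : ∑ m ∈ range M, (if K < m + 1 then (-1 : ℝ) ^ (r + (m + 1)) *
      aa r A n K (r + (m + 1)) else 0) = SS r A n K (M + r) := by
    unfold SS
    rw [← Finset.sum_filter]
    refine Finset.sum_nbij (fun m => r + (m + 1)) ?_ ?_ ?_ ?_
    · intro m hm
      simp only [Finset.mem_filter, Finset.mem_range, Finset.mem_Ico] at hm ⊢
      omega
    · intro a _ b _ hab
      simp only at hab
      omega
    · intro m hm
      simp only [Finset.coe_filter, Finset.mem_range, Finset.coe_Ico, Set.mem_Ico] at hm ⊢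
      refine ⟨m - r - 1, ?_, ?_⟩
      · simp only [Set.mem_setOf_eq]
        omega
      · simp only
        omega
    · intro m _
      rfl
  rw [e2, e3]
  ring

/-- Error bound. -/
lemma error (h1 : S_SPF) (h3 : S_QEV) (r A n K : ℕ) (c : ℕ → ℕ → ℤ) :
    ∃ B : ℝ, ∀ M : ℕ, 1 ≤ M → 2 * r ≤ M →
      |JJ r A n c (fun x => evr (Qz r K) x * PS M x) - FF r A n K c| ≤ B / M := by
  have hb : ∀ i : ℕ, ∃ B : ℝ, ∀ x ∈ Set.Icc (0:ℝ) r, ‖evr (Ez A n c i) x * evr (Qz r K) x‖ ≤ B :=
    fun i => isCompact_Icc.exists_bound_of_continuousOn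
      ((evr_cont _).mul (evr_cont _)).continuousOn
  choose B hB using hb
  refine ⟨∑ i ∈ range (r + 1), (B i * (3 * r)) * |(i : ℝ) - 0|, ?_⟩
  intro M hM1 hM
  have hM0 : (0:ℝ) < M := by exact_mod_cast hM1
  unfold FF JJ
  rw [← Finset.sum_sub_distrib, Finset.sum_div]
  refine (Finset.abs_sum_le_sum_abs _ _).trans (Finset.sum_le_sum (fun i hi => ?_))
  have hir : (i : ℝ) ≤ r := by
    have := Finset.mem_range.mp hi
    exact_mod_cast Nat.lt_succ_iff.mp this
  rw [← intervalIntegral.integral_sub ((II_PS h3 r K M).mulE hi) ((II_sin h3 r K).mulE hi),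
    ← Real.norm_eq_abs]
  have hB0 : 0 ≤ B i := (norm_nonneg _).trans (hB i 0 ⟨le_rfl, Nat.cast_nonneg _⟩)
  have hae : ∀ᵐ x : ℝ ∂volume, x ∈ Set.uIoc (0:ℝ) i →
      ‖evr (Ez A n c i) x * (evr (Qz r K) x * PS M x) -
        evr (Ez A n c i) x * (evr (Qz r K) x * (π / sin (π * x)))‖ ≤
        B i * (3 * r) / M := by
    have hne : ∀ᵐ x : ℝ ∂volume, ∀ k : ℤ, x ≠ (k : ℝ) := by
      rw [ae_all_iff]
      intro k
      have := measure_singleton (μ := (volume : Measure ℝ)) (k : ℝ)
      rw [ae_iff]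
      simpa using this
    filter_upwards [hne] with x hx hxi
    rw [Set.uIoc_of_le (Nat.cast_nonneg i)] at hxi
    have hx0 : 0 ≤ x := hxi.1.le
    have hxr : x ≤ r := hxi.2.trans hir
    have hMr : 2 * (r : ℝ) ≤ M := by exact_mod_cast hM
    have hs := h1 x M hM1 (by rw [abs_of_nonneg hx0]; linarith) hx
    rw [abs_of_nonneg hx0, abs_sub_comm] at hs
    have e1 : evr (Ez A n c i) x * (evr (Qz r K) x * PS M x) -
        evr (Ez A n c i) x * (evr (Qz r K) x * (π / sin (π * x))) =
        (evr (Ez A n c i) x * evr (Qz r K) x) * (PS M x - π / sin (π * x)) := by ring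
    rw [e1, norm_mul]
    have e2 : ‖PS M x - π / sin (π * x)‖ ≤ 3 * r / M := by
      rw [Real.norm_eq_abs]
      unfold PS
      refine hs.trans ?_
      gcongr
    calc ‖evr (Ez A n c i) x * evr (Qz r K) x‖ * ‖PS M x - π / sin (π * x)‖
        ≤ B i * (3 * r / M) := mul_le_mul (hB i x ⟨hx0, hxr⟩) e2 (norm_nonneg _) hB0
      _ = B i * (3 * r) / M := by ring
  refine (intervalIntegral.norm_integral_le_of_norm_le_const_ae hae).trans (le_of_eq ?_)
  ring

end I_FEX

open I_FEX in
/-- FEX. -/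
theorem FEX_pf (h1 : S_SPF) (h2 : S_TRM) (h3 : S_QEV) : S_FEX := by
  intro r A n K c hc hr hAn hne hAe hc1
  obtain ⟨B, hB⟩ := error h1 h3 r A n K c
  rw [tendsto_iff_norm_sub_tendsto_zero]
  refine squeeze_zero' (Eventually.of_forall (fun _ => norm_nonneg _)) ?_
    (tendsto_const_div_atTop_nhds_zero_nat B)
  filter_upwards [eventually_ge_atTop 1, eventually_ge_atTop (2 * r)] with M hM1 hM2
  rw [← JJ_PS h2 h3 r A n K c hc hr hAn hne hAe hc1 M, Real.norm_eq_abs]
  exact hB M hM1 hM2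

end Pool.Agent.Work.MP_f1a024_nt.HP
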