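import Mathlib
import Pool.Agent.Work.MP_f1a024_nt.HP.Stmts

set_option autoImplicit false

/-!
# Item FNZ
-/

namespace Pool.Agent.Work.MP_f1a024_nt.HP

open Real Polynomial MeasureTheory Finset Filter Topology
open scoped Nat

theorem FNZ_pf (h1 : S_FEX) (h2 : S_ALT) (h3 : S_DEC) : S_FNZ := by
  intro r A n K c hPF hr hA hAn hn hAe hx hy
  obtain ⟨hd1, hd2, hd3⟩ := h3 r A n K hr hx hy
  obtain ⟨S, hS, hS0, hSa⟩ := h2 (aa r A n K) (r + K + 1) hd1 hd2
  have hlim := h1 r A n K c hPF hr hAn hn hAe hx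
  have hS1 : Tendsto (SS r A n K) atTop (𝓝 S) := hS
  have hS2 : Tendsto (fun M : ℕ => SS r A n K (M + r)) atTop (𝓝 S) :=
    hS1.comp (tendsto_add_atTop_nat r)
  have hlim2 : Tendsto (fun M : ℕ => -((dd r : ℝ) ^ (A - 1) * (SS r A n K M + SS r A n K (M + r))))
      atTop (𝓝 (-((dd r : ℝ) ^ (A - 1) * (S + S)))) :=
    ((hS1.add hS2).const_mul _).neg
  have heq : FF r A n K c = -((dd r : ℝ) ^ (A - 1) * (S + S)) :=
    tendsto_nhds_unique hlim hlim2
  have hdd : (0 : ℝ) < (dd r : ℝ) ^ (A - 1) := by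
    refine pow_pos ?_ _
    have : 0 < dd r := Nat.lcmUpto_pos r
    exact_mod_cast this
  constructor
  · rw [heq]
    have : S + S ≠ 0 := by
      intro h
      exact hS0 (by linarith)
    exact neg_ne_zero.2 (mul_ne_zero hdd.ne' this)
  · rw [heq, abs_neg, abs_mul, abs_of_pos hdd]
    have h4 : |S + S| = 2 * |S| := by
      rw [← two_mul, abs_mul, abs_of_pos (by norm_num : (0 : ℝ) < 2)]
    rw [h4]
    have h5 : |S| ≤ ((r + 2 * K + 1)! : ℝ) * (r + K + 1 : ℝ) ^ (n + 1) *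
      ((r : ℝ) / (r + K + 1)) ^ (r * A) := hSa.trans hd3
    have h6 := mul_le_mul_of_nonneg_left h5 hdd.le
    unfold FB
    linarith

end Pool.Agent.Work.MP_f1a024_nt.HP
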