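import Mathlib
import Pool.Agent.Work.MP_f1a024_nt.HP.Stmts

set_option autoImplicit false

namespace Pool.Agent.Work.MP_f1a024_nt.HP

open Real Polynomial MeasureTheory Finset Filter Topology
open scoped Nat

namespace I_GBD

lemma lam_pos {k : ℕ} (hk : 2 ≤ k) : 0 < OddG.lam k := by
  unfold OddG.lam
  refine (OddG.summable_odd k hk).tsum_pos (fun i => by positivity) 0 (by norm_num)

lemma lam_le {k : ℕ} (hk : 2 ≤ k) : OddG.lam k ≤ 2 := by
  have h1 := hasSum_zeta_two
  have h2 : HasSum (fun n : ℕ => 1 / ((n : ℝ) + 1) ^ 2) (π ^ 2 / 6) := by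
    have := (hasSum_nat_add_iff' (f := fun n : ℕ => 1 / (n : ℝ) ^ 2) 1).2 h1
    simpa using this
  have h3 : OddG.lam k ≤ π ^ 2 / 6 := by
    rw [← h2.tsum_eq]
    unfold OddG.lam
    refine (OddG.summable_odd k hk).tsum_le_tsum (fun i => ?_) h2.summable
    have hi : (0 : ℝ) ≤ i := Nat.cast_nonneg i
    apply one_div_le_one_div_of_le (by positivity)
    calc ((i : ℝ) + 1) ^ 2 ≤ (2 * (i : ℝ) + 1) ^ 2 := by
          apply pow_le_pow_left₀ (by positivity)
          linarith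
      _ ≤ (2 * (i : ℝ) + 1) ^ k := by
          apply pow_le_pow_right₀ _ hk
          linarith
  have h4 : π < 3.15 := pi_lt_d2
  have h5 : 0 < π := pi_pos
  nlinarith

end I_GBD

open I_GBD in
theorem GBD_pf : S_GBD := by
  intro k hk
  have h1 := lam_pos hk
  have h2 := lam_le hk
  have hf : (0 : ℝ) < k ! := by exact_mod_cast Nat.factorial_pos k
  have hp : (1 : ℝ) ≤ π ^ k := one_le_pow₀ (by linarith [pi_gt_three])
  unfold OddG.G
  refine ⟨by positivity, ?_⟩
  rw [div_le_iff₀ (by positivity)]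
  calc 4 * (k ! : ℝ) * OddG.lam k ≤ 4 * (k ! : ℝ) * 2 := by gcongr
    _ = 8 * (k ! : ℝ) * 1 := by ring
    _ ≤ 8 * (k ! : ℝ) * π ^ k := by gcongr

end Pool.Agent.Work.MP_f1a024_nt.HP
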