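import Mathlib
import Pool.Agent.Work.MP_f1a024_nt.HP.Stmts

set_option autoImplicit false

/-!
Item HIN: the integral `H(z)` converges; reflection of `Psi`.
-/

namespace Pool.Agent.Work.MP_f1a024_nt.HP

open Real Polynomial MeasureTheory Finset Filter Topology
open scoped Nat

namespace I_HIN

theorem prod_pos {r : ℕ} {y : ℝ} (hy : (r : ℝ) < y) : 0 < ∏ i ∈ range (r + 1), (y - i) := by
  refine Finset.prod_pos fun i hi => ?_
  have : (i : ℝ) ≤ r := by exact_mod_cast Nat.lt_succ_iff.1 (Finset.mem_range.1 hi)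
  linarith

theorem prod_ge {r : ℕ} {y : ℝ} (hy : (r : ℝ) < y) :
    (y - r) ^ (r + 1) ≤ ∏ i ∈ range (r + 1), (y - i) := by
  have h : ∏ _i ∈ range (r + 1), (y - r) ≤ ∏ i ∈ range (r + 1), (y - i) := by
    refine Finset.prod_le_prod (fun i _ => by linarith) fun i hi => ?_
    have : (i : ℝ) ≤ r := by exact_mod_cast Nat.lt_succ_iff.1 (Finset.mem_range.1 hi)
    linarith
  simpa using h

theorem prod_reflect (r : ℕ) (t : ℝ) :
    ∏ i ∈ range (r + 1), ((r : ℝ) - t - i) = (-1) ^ (r + 1) * ∏ i ∈ range (r + 1), (t - i) := by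
  rw [← Finset.prod_range_reflect]
  have h : ∀ i ∈ range (r + 1), ((r : ℝ) - t - ((r + 1 - 1 - i : ℕ) : ℝ)) = (-1) * (t - i) := by
    intro i hi
    have hi' : i ≤ r := Nat.lt_succ_iff.1 (Finset.mem_range.1 hi)
    rw [Nat.add_sub_cancel, Nat.cast_sub hi']
    ring
  rw [Finset.prod_congr rfl h, Finset.prod_mul_distrib]
  simp

end I_HIN

open I_HIN in
/-- HIN -/
theorem HIN_pf : S_HIN := by
  intro r A n hr hn
  refine ⟨fun z hz => ?_, fun t => ?_⟩
  · obtain ⟨e, he⟩ : ∃ e, (r + 1) * A = n + 2 + e := ⟨(r + 1) * A - (n + 2), by omega⟩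
    have hε : 0 < z - r := by linarith
    have hcont : ContinuousOn (fun y => (y - z) ^ n * Psi r A y) (Set.Ioi z) := by
      refine ContinuousOn.mul (by fun_prop) ?_
      unfold Psi
      refine ContinuousOn.pow (ContinuousOn.div continuousOn_const ?_ ?_) A
      · exact continuousOn_finsetProd _ fun i _ => by fun_prop
      · intro y hy
        exact (prod_pos (lt_trans hz hy)).ne'
    have hint : IntegrableOn (fun y : ℝ => ((r ! : ℝ) ^ A * ((z - r) ^ e)⁻¹) * (y + -(r : ℝ)) ^ (-2 : ℝ))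
        (Set.Ioi z) := by
      refine (integrableOn_add_rpow_Ioi_of_lt (by norm_num) ?_).const_mul _
      linarith
    refine Integrable.mono' hint (hcont.aestronglyMeasurable measurableSet_Ioi) ?_
    refine (ae_restrict_iff' measurableSet_Ioi).2 (Eventually.of_forall fun y hy => ?_)
    have hy' : z < y := hy
    have hyr : 0 < y - r := by linarith
    have hP := prod_pos (lt_trans hz hy')
    have hpos : 0 ≤ (y - z) ^ n * Psi r A y := by
      unfold Psi
      have : 0 ≤ y - z := by linarith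
      positivity
    rw [Real.norm_of_nonneg hpos]
    have h1 : Psi r A y ≤ (r ! : ℝ) ^ A / (y - r) ^ ((r + 1) * A) := by
      unfold Psi
      rw [div_pow, pow_mul]
      refine div_le_div_of_nonneg_left (by positivity) (by positivity) ?_
      exact pow_le_pow_left₀ (by positivity) (prod_ge (lt_trans hz hy')) A
    have h2 : (y - z) ^ n ≤ (y - r) ^ n := pow_le_pow_left₀ (by linarith) (by linarith) n
    have h3 : (z - r) ^ e ≤ (y - r) ^ e := pow_le_pow_left₀ hε.le (by linarith) e
    have h4 : (y + -(r : ℝ)) ^ (-2 : ℝ) = ((y - r) ^ 2)⁻¹ := by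
      rw [← sub_eq_add_neg, Real.rpow_neg hyr.le]
      norm_cast
    rw [h4]
    calc (y - z) ^ n * Psi r A y ≤ (y - r) ^ n * ((r ! : ℝ) ^ A / (y - r) ^ ((r + 1) * A)) := by
          refine mul_le_mul h2 h1 ?_ (by positivity)
          unfold Psi
          positivity
      _ = (r ! : ℝ) ^ A * ((y - r) ^ e)⁻¹ * ((y - r) ^ 2)⁻¹ := by
          rw [he, pow_add, pow_add]
          field_simp
      _ ≤ (r ! : ℝ) ^ A * ((z - r) ^ e)⁻¹ * ((y - r) ^ 2)⁻¹ := by
          refine mul_le_mul_of_nonneg_right ?_ (by positivity)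
          refine mul_le_mul_of_nonneg_left ?_ (by positivity)
          exact inv_anti₀ (by positivity) h3
  · unfold Psi
    rw [prod_reflect, pow_mul, ← mul_pow]
    congr 1
    rw [div_mul_eq_div_div, div_eq_mul_inv (r ! : ℝ)]
    have : ((-1 : ℝ) ^ (r + 1))⁻¹ = (-1) ^ (r + 1) := by
      rw [← inv_pow]
      norm_num
    rw [this]
    ring

end Pool.Agent.Work.MP_f1a024_nt.HP
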