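import Mathlib
import Pool.Agent.Work.MP_f1a024_nt.HP.Stmts

set_option autoImplicit false

/-!
Item JHR of the block [f1a024 HP]: `JJ(1/(t-x)) = d^(A-1) H(t)` for `t > r`.
-/

namespace Pool.Agent.Work.MP_f1a024_nt.HP

open Real Polynomial MeasureTheory Finset Filter Topology
open scoped Nat

namespace I_JHR

/-- the antiderivative of the kernel -/
theorem deriv_aux (n : ℕ) (t x : ℝ) (hx : x < t) (y : ℝ) (hy : t ≤ y) :
    HasDerivAt (fun y : ℝ => ((y - t) / (y - x)) ^ (n + 1) / ((n + 1) * (t - x)))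
      ((y - t) ^ n / (y - x) ^ (n + 2)) y := by
  have h1 : y - x ≠ 0 := by
    have : 0 < y - x := by linarith
    exact this.ne'
  have h2 : t - x ≠ 0 := by
    have : 0 < t - x := by linarith
    exact this.ne'
  have h3 : HasDerivAt (fun y : ℝ => (y - t) / (y - x))
      ((1 * (y - x) - (y - t) * 1) / (y - x) ^ 2) y :=
    ((hasDerivAt_id y).sub_const t).fun_div ((hasDerivAt_id y).sub_const x) h1
  have h4 := (h3.fun_pow (n + 1)).div_const (((n : ℝ) + 1) * (t - x))
  have h5 : ((n : ℝ) + 1) ≠ 0 := by positivity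
  refine h4.congr_deriv ?_
  rw [Nat.add_sub_cancel, div_pow]
  push_cast
  field_simp
  ring

theorem lim_aux (n : ℕ) (t x : ℝ) :
    Tendsto (fun y : ℝ => ((y - t) / (y - x)) ^ (n + 1) / ((n + 1) * (t - x))) atTop
      (𝓝 (1 / ((n + 1) * (t - x)))) := by
  have h1 : Tendsto (fun y : ℝ => (t - x) / (y - x)) atTop (𝓝 0) := by
    have h2 : Tendsto (fun y : ℝ => y - x) atTop atTop :=
      tendsto_atTop_add_const_right atTop (-x) tendsto_id
    exact h2.const_div_atTop (t - x)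
  have h3 : Tendsto (fun y : ℝ => 1 - (t - x) / (y - x)) atTop (𝓝 (1 - 0)) := h1.const_sub 1
  have h4 : Tendsto (fun y : ℝ => (y - t) / (y - x)) atTop (𝓝 1) := by
    rw [sub_zero] at h3
    refine h3.congr' ?_
    filter_upwards [eventually_gt_atTop x] with y hy
    have h5 : y - x ≠ 0 := (sub_pos.2 hy).ne'
    field_simp
    ring
  have h5 := (h4.pow (n + 1)).div_const (((n : ℝ) + 1) * (t - x))
  rw [one_pow] at h5
  exact h5

theorem ker (n : ℕ) (t x : ℝ) (hx : x < t) :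
    IntegrableOn (fun y : ℝ => (y - t) ^ n / (y - x) ^ (n + 2)) (Set.Ioi t) ∧
    ∫ y in Set.Ioi t, (y - t) ^ n / (y - x) ^ (n + 2) = 1 / ((n + 1) * (t - x)) := by
  have hpos : ∀ y ∈ Set.Ioi t, 0 ≤ (y - t) ^ n / (y - x) ^ (n + 2) := by
    intro y hy
    have h1 : t < y := hy
    have h2 : 0 ≤ y - t := by linarith
    have h3 : 0 ≤ y - x := by linarith
    positivity
  have hd : ∀ y ∈ Set.Ici t, HasDerivAt
      (fun y : ℝ => ((y - t) / (y - x)) ^ (n + 1) / ((n + 1) * (t - x)))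
      ((y - t) ^ n / (y - x) ^ (n + 2)) y := fun y hy => deriv_aux n t x hx y hy
  refine ⟨integrableOn_Ioi_deriv_of_nonneg' hd hpos (lim_aux n t x), ?_⟩
  rw [integral_Ioi_of_hasDerivAt_of_nonneg' hd hpos (lim_aux n t x)]
  rw [sub_self, zero_div, zero_pow (Nat.succ_ne_zero n), zero_div, sub_zero]

/-- integrability on the product -/
theorem integ (n : ℕ) (t ρ : ℝ) (hρ : ρ < t) (b : ℝ) (E f : ℝ → ℝ) (hE : Continuous E)
    (hf : Continuous f) (hle : ∀ x ∈ Set.Ioc 0 b, f x ≤ ρ) :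
    Integrable (fun p : ℝ × ℝ => E p.1 * ((p.2 - t) ^ n / (p.2 - f p.1) ^ (n + 2)))
      ((volume.restrict (Set.Ioc 0 b)).prod (volume.restrict (Set.Ioi t))) := by
  have h1 : Integrable (fun x => |E x|) (volume.restrict (Set.Ioc 0 b)) := by
    have : IntegrableOn (fun x => |E x|) (Set.Icc 0 b) :=
      (hE.abs).continuousOn.integrableOn_compact isCompact_Icc
    exact this.mono_set Set.Ioc_subset_Icc_self
  have h2 : Integrable (fun y : ℝ => (y - t) ^ n / (y - ρ) ^ (n + 2))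
      (volume.restrict (Set.Ioi t)) := (ker n t ρ hρ).1
  have h3 := h1.mul_prod h2
  refine h3.mono' ?_ ?_
  · apply Measurable.aestronglyMeasurable
    have e1 : Measurable E := hE.measurable
    have e2 : Measurable f := hf.measurable
    fun_prop
  · rw [Measure.prod_restrict]
    refine ae_restrict_of_forall_mem (measurableSet_Ioc.prod measurableSet_Ioi) ?_
    intro p hp
    have hx : f p.1 ≤ ρ := hle p.1 hp.1
    have hy : t < p.2 := hp.2
    have g1 : 0 < p.2 - ρ := by linarith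
    have g2 : p.2 - ρ ≤ p.2 - f p.1 := by linarith
    have g3 : 0 ≤ p.2 - t := by linarith
    rw [norm_mul, Real.norm_eq_abs, Real.norm_eq_abs]
    refine mul_le_mul_of_nonneg_left ?_ (abs_nonneg _)
    rw [abs_of_nonneg (by
      have : 0 ≤ p.2 - f p.1 := by linarith
      positivity)]
    refine div_le_div_of_nonneg_left (by positivity) (by positivity) ?_
    exact pow_le_pow_left₀ g1.le g2 _

theorem swap (n : ℕ) (t ρ : ℝ) (hρ : ρ < t) (b : ℝ) (hb : 0 ≤ b) (E f : ℝ → ℝ)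
    (hE : Continuous E) (hf : Continuous f) (hle : ∀ x ∈ Set.Ioc 0 b, f x ≤ ρ) :
    IntegrableOn (fun y => (y - t) ^ n * ∫ x in (0 : ℝ)..b, E x * (1 / (y - f x) ^ (n + 2)))
      (Set.Ioi t) ∧
    ∫ x in (0 : ℝ)..b, E x * (1 / (t - f x)) =
      (n + 1) * ∫ y in Set.Ioi t, (y - t) ^ n *
        ∫ x in (0 : ℝ)..b, E x * (1 / (y - f x) ^ (n + 2)) := by
  have hint := integ n t ρ hρ b E f hE hf hle
  have hin : ∀ y : ℝ, ∫ x in Set.Ioc 0 b, E x * ((y - t) ^ n / (y - f x) ^ (n + 2)) =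
      (y - t) ^ n * ∫ x in (0 : ℝ)..b, E x * (1 / (y - f x) ^ (n + 2)) := by
    intro y
    rw [intervalIntegral.integral_of_le hb, ← integral_const_mul]
    refine integral_congr_ae (Eventually.of_forall fun x => ?_)
    show E x * ((y - t) ^ n / (y - f x) ^ (n + 2)) =
      (y - t) ^ n * (E x * (1 / (y - f x) ^ (n + 2)))
    ring
  constructor
  · have h1 := hint.integral_prod_right
    refine h1.congr (Eventually.of_forall fun y => ?_)
    exact hin y
  · have h2 := integral_integral_swap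
      (f := fun x y => E x * ((y - t) ^ n / (y - f x) ^ (n + 2))) hint
    have h3 : ∫ x in Set.Ioc 0 b, ∫ y in Set.Ioi t, E x * ((y - t) ^ n / (y - f x) ^ (n + 2)) =
        (1 / ((n : ℝ) + 1)) * ∫ x in Set.Ioc 0 b, E x * (1 / (t - f x)) := by
      rw [← integral_const_mul]
      refine setIntegral_congr_fun measurableSet_Ioc fun x hx => ?_
      show ∫ y in Set.Ioi t, E x * ((y - t) ^ n / (y - f x) ^ (n + 2)) =
        (1 / ((n : ℝ) + 1)) * (E x * (1 / (t - f x)))
      have hlt : f x < t := lt_of_le_of_lt (hle x hx) hρ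
      rw [integral_const_mul, (ker n t (f x) hlt).2]
      have e1 : t - f x ≠ 0 := (sub_pos.2 hlt).ne'
      have e2 : ((n : ℝ) + 1) ≠ 0 := by positivity
      field_simp
    rw [h3] at h2
    simp only [hin] at h2
    rw [← h2, intervalIntegral.integral_of_le hb]
    have e2 : ((n : ℝ) + 1) ≠ 0 := by positivity
    field_simp

theorem evr_cont (p : ℤ[X]) : Continuous (evr p) := by
  unfold evr
  exact (p.map (Int.castRingHom ℝ)).continuous

/-- Fubini for `JJ`. -/
theorem JJ_swap (r A n : ℕ) (c : ℕ → ℕ → ℤ) (t : ℝ) (ht : (r : ℝ) < t) (f : ℝ → ℝ)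
    (hf : Continuous f) (hle : ∀ x : ℝ, 0 ≤ x → x ≤ r → f x ≤ r) :
    JJ r A n c (fun x => 1 / (t - f x)) =
      (n + 1) * ∫ y in Set.Ioi t, (y - t) ^ n * JJ r A n c (fun x => 1 / (y - f x) ^ (n + 2)) := by
  have hs : ∀ i ∈ range (r + 1),
      IntegrableOn (fun y => (y - t) ^ n *
        ∫ x in (0 : ℝ)..(i : ℝ), evr (Ez A n c i) x * (1 / (y - f x) ^ (n + 2))) (Set.Ioi t) ∧
      ∫ x in (0 : ℝ)..(i : ℝ), evr (Ez A n c i) x * (1 / (t - f x)) =
        (n + 1) * ∫ y in Set.Ioi t, (y - t) ^ n *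
          ∫ x in (0 : ℝ)..(i : ℝ), evr (Ez A n c i) x * (1 / (y - f x) ^ (n + 2)) := by
    intro i hi
    have hir : (i : ℝ) ≤ r := by
      have := Finset.mem_range.1 hi
      exact_mod_cast (by omega : i ≤ r)
    exact swap n t r ht i (Nat.cast_nonneg i) _ f (evr_cont _) hf
      (fun x hx => hle x hx.1.le (hx.2.trans hir))
  unfold JJ
  rw [Finset.sum_congr rfl fun i hi => (hs i hi).2]
  rw [← Finset.mul_sum]
  congr 1
  rw [← integral_finsetSum _ fun i hi => (hs i hi).1]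
  refine integral_congr_ae (Eventually.of_forall fun y => ?_)
  show ∑ i ∈ range (r + 1), (y - t) ^ n *
      ∫ x in (0 : ℝ)..(i : ℝ), evr (Ez A n c i) x * (1 / (y - f x) ^ (n + 2)) =
    (y - t) ^ n * ∑ i ∈ range (r + 1),
      ∫ x in (0 : ℝ)..(i : ℝ), evr (Ez A n c i) x * (1 / (y - f x) ^ (n + 2))
  rw [Finset.mul_sum]

end I_JHR

theorem JHR_pf (h1 : S_JK) : S_JHR := by
  intro r A n c hPF hr hAn hn t ht
  have h2 := I_JHR.JJ_swap r A n c t ht (fun x => x) continuous_id (fun x _ hx => hx)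
  rw [h2, HH, ← integral_const_mul, ← integral_const_mul]
  refine setIntegral_congr_fun measurableSet_Ioi fun y hy => ?_
  have hy' : (r : ℝ) < y := lt_trans ht hy
  show ((n : ℝ) + 1) * ((y - t) ^ n * JJ r A n c (fun x => 1 / (y - x) ^ (n + 2))) =
    (dd r : ℝ) ^ (A - 1) * ((y - t) ^ n * Psi r A y)
  rw [h1 r A n c hPF hAn (by omega) y (Or.inr hy')]
  have e2 : ((n : ℝ) + 1) ≠ 0 := by positivity
  field_simp

end Pool.Agent.Work.MP_f1a024_nt.HP
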