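import Mathlib
import Pool.Agent.Work.MP_f1a024_nt.HP.I_JHR

set_option autoImplicit false

/-!
Item JHL of the block [f1a024 HP]: `JJ(1/(x-t)) = (-1)^(n+(r+1)A) d^(A-1) H(r-t)` for `t < 0`
(the Fubini lemma of I_JHR.lean with the reflection `x -> r - x`).
-/

namespace Pool.Agent.Work.MP_f1a024_nt.HP

open Real Polynomial MeasureTheory Finset Filter Topology
open scoped Nat

namespace I_JHL

theorem JJ_smul (r A n : ℕ) (c : ℕ → ℕ → ℤ) (a : ℝ) (g : ℝ → ℝ) :
    JJ r A n c (fun x => a * g x) = a * JJ r A n c g := by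
  unfold JJ
  rw [Finset.mul_sum]
  refine Finset.sum_congr rfl fun i _ => ?_
  rw [← intervalIntegral.integral_const_mul]
  congr 1
  funext x
  ring

theorem JJ_congr (r A n : ℕ) (c : ℕ → ℕ → ℤ) (g h : ℝ → ℝ) (hgh : ∀ x, g x = h x) :
    JJ r A n c g = JJ r A n c h := by
  rw [funext hgh]

end I_JHL

theorem JHL_pf (h1 : S_JK) (h2 : S_HIN) : S_JHL := by
  intro r A n c hPF hr hAn hn t ht
  have hrt : (r : ℝ) < r - t := by linarith
  have h3 := I_JHR.JJ_swap r A n c (r - t) hrt (fun x => r - x) (by fun_prop)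
    (fun x hx _ => by linarith)
  have h4 : JJ r A n c (fun x => 1 / (x - t)) = JJ r A n c (fun x => 1 / ((r - t) - (r - x))) := by
    refine I_JHL.JJ_congr r A n c _ _ fun x => ?_
    show 1 / (x - t) = 1 / ((r - t) - (r - x))
    congr 1
    ring
  rw [h4, h3, HH, ← integral_const_mul, ← integral_const_mul, ← integral_const_mul]
  refine setIntegral_congr_fun measurableSet_Ioi fun y hy => ?_
  have hy' : (r : ℝ) < y := lt_trans hrt hy
  have hneg : (r : ℝ) - y < 0 := by linarith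
  show ((n : ℝ) + 1) * ((y - (r - t)) ^ n * JJ r A n c (fun x => 1 / (y - (r - x)) ^ (n + 2))) =
    (-1) ^ (n + (r + 1) * A) * ((dd r : ℝ) ^ (A - 1) * ((y - (r - t)) ^ n * Psi r A y))
  have h5 : JJ r A n c (fun x => 1 / (y - (r - x)) ^ (n + 2)) =
      JJ r A n c (fun x => (-1 : ℝ) ^ n * (1 / ((r - y) - x) ^ (n + 2))) := by
    refine I_JHL.JJ_congr r A n c _ _ fun x => ?_
    have e1 : y - ((r : ℝ) - x) = (-1) * ((r - y) - x) := by ring
    rw [e1, mul_pow, pow_add, one_div, one_div, mul_inv]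
    have e2 : ((-1 : ℝ) ^ n * (-1) ^ 2)⁻¹ = (-1) ^ n := by
      rw [neg_one_sq, mul_one]
      rcases neg_one_pow_eq_or ℝ n with h | h
      · rw [h]; norm_num
      · rw [h]; norm_num
    rw [e2]
  have h6 := h1 r A n c hPF hAn (by omega) (r - y) (Or.inl hneg)
  have h7 := (h2 r A n hr hn).2 y
  rw [h5, I_JHL.JJ_smul, h6, h7]
  have e2 : ((n : ℝ) + 1) ≠ 0 := by positivity
  rw [pow_add]
  field_simp

end Pool.Agent.Work.MP_f1a024_nt.HP
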