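import Mathlib
import Pool.Agent.Work.MP_f1a024_nt.HP.Stmts

set_option autoImplicit false

/-!
Item JK of the block [f1a024 HP] (helper76).
-/

namespace Pool.Agent.Work.MP_f1a024_nt.HP

open Real Polynomial MeasureTheory Finset Filter Topology
open scoped Nat

namespace JKaux

/-- Primitive of `(n+1) C(n,s) (i-x)^(n-s)/(t-x)^(n+2)`. -/
noncomputable def F (i t : ℝ) (s n : ℕ) (x : ℝ) : ℝ :=
  ∑ b ∈ range (n + 1), (b.choose s : ℝ) * (i - x) ^ (b - s) / (t - x) ^ (b + 1)

lemma term_deriv (i t x : ℝ) (c : ℝ) (k m : ℕ) (h : t - x ≠ 0) :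
    HasDerivAt (fun x : ℝ => c * (i - x) ^ k / (t - x) ^ (m + 1))
      (c * (-(k * (i - x) ^ (k - 1)) / (t - x) ^ (m + 1) +
        (m + 1) * (i - x) ^ k / (t - x) ^ (m + 2))) x := by
  have h1 : HasDerivAt (fun x : ℝ => i - x) (-1) x := by
    simpa using (hasDerivAt_id x).const_sub i
  have h2 : HasDerivAt (fun x : ℝ => t - x) (-1) x := by
    simpa using (hasDerivAt_id x).const_sub t
  have h3 := (h1.pow k).const_mul c
  have h4 := h2.pow (m + 1)
  have h5 := h3.div h4 (pow_ne_zero _ h)
  refine h5.congr_deriv ?_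
  simp only [Pi.pow_apply, Nat.add_sub_cancel, Nat.cast_add, Nat.cast_one]
  field_simp
  ring

lemma F_deriv (i t : ℝ) (s : ℕ) (x : ℝ) (h : t - x ≠ 0) (n : ℕ) :
    HasDerivAt (F i t s n)
      ((n + 1) * (n.choose s : ℝ) * ((i - x) ^ (n - s) * (1 / (t - x) ^ (n + 2)))) x := by
  induction n with
  | zero =>
    have h0 := term_deriv i t x ((Nat.choose 0 s : ℕ) : ℝ) (0 - s) 0 h
    have e : F i t s 0 = fun x : ℝ => ((Nat.choose 0 s : ℕ) : ℝ) * (i - x) ^ (0 - s) /
        (t - x) ^ (0 + 1) := by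
      funext y
      simp [F]
    rw [e]
    refine h0.congr_deriv ?_
    simp
  | succ n ih =>
    have h0 := term_deriv i t x (((n + 1).choose s : ℕ) : ℝ) (n + 1 - s) (n + 1) h
    have e : F i t s (n + 1) = fun x : ℝ => F i t s n x +
        (((n + 1).choose s : ℕ) : ℝ) * (i - x) ^ (n + 1 - s) / (t - x) ^ (n + 1 + 1) := by
      funext y
      simp only [F]
      rw [sum_range_succ]
    rw [e]
    refine (ih.add h0).congr_deriv ?_
    rcases Nat.lt_or_ge (n + 1) s with hs | hs
    · rw [Nat.choose_eq_zero_of_lt hs, Nat.choose_eq_zero_of_lt (by omega : n < s)]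
      simp
    · rcases Nat.eq_or_lt_of_le hs with hs' | hs'
      · rw [← hs', Nat.choose_self, Nat.sub_self, hs', Nat.choose_eq_zero_of_lt (by omega : n < n + 1)]
        simp
        ring
      · have hsn : s ≤ n := by omega
        have hsub : n + 1 - s = (n - s) + 1 := by omega
        have hch : ((n : ℝ) + 1) * (n.choose s : ℝ) =
            ((n + 1).choose s : ℝ) * (((n - s : ℕ) : ℝ) + 1) := by
          have h1 := Nat.choose_mul_succ_eq n s
          rw [hsub] at h1
          have h2 : ((n.choose s * (n + 1) : ℕ) : ℝ) = (((n + 1).choose s * (n - s + 1) : ℕ) : ℝ) := by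
            rw [h1]
          push_cast at h2
          linarith
        rw [hsub]
        simp only [Nat.add_sub_cancel]
        push_cast
        rw [hch]
        have e2 : (t - x) ^ (n + 1 + 1) = (t - x) ^ (n + 2) := rfl
        have e3 : (t - x) ^ (n + 1 + 2) = (t - x) ^ (n + 2) * (t - x) := by
          rw [← pow_succ]
        rw [e2, e3]
        have ht1 : (t - x) ^ (n + 2) ≠ 0 := pow_ne_zero _ h
        field_simp
        ring

lemma F_end (i t : ℝ) (s n : ℕ) (hs : s ≤ n) : F i t s n i = 1 / (t - i) ^ (s + 1) := by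
  unfold F
  rw [Finset.sum_eq_single s]
  · simp
  · intro b _ hb
    rcases Nat.lt_or_ge b s with h | h
    · rw [Nat.choose_eq_zero_of_lt h]; simp
    · have : b - s ≠ 0 := by omega
      simp [this]
  · intro h
    exact absurd (mem_range.2 (by omega)) h

lemma key (i t : ℝ) (s n : ℕ) (hs : s ≤ n) (h : ∀ x ∈ Set.uIcc (0 : ℝ) i, t - x ≠ 0) :
    (n.choose s : ℝ) * ∫ x in (0 : ℝ)..i, ((i - x) ^ (n - s) * (1 / (t - x) ^ (n + 2))) =
      (1 / (t - i) ^ (s + 1) -
        ∑ b ∈ range (n + 1), (b.choose s : ℝ) * i ^ (b - s) / t ^ (b + 1)) / (n + 1) := by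
  have hint : IntervalIntegrable (fun x : ℝ => (n + 1) * (n.choose s : ℝ) *
      ((i - x) ^ (n - s) * (1 / (t - x) ^ (n + 2)))) volume 0 i := by
    apply ContinuousOn.intervalIntegrable
    refine ContinuousOn.mul continuousOn_const (ContinuousOn.mul (by fun_prop) ?_)
    refine ContinuousOn.div continuousOn_const (by fun_prop) ?_
    intro x hx
    exact pow_ne_zero _ (h x hx)
  have h1 := intervalIntegral.integral_eq_sub_of_hasDerivAt
    (fun x hx => F_deriv i t s x (h x hx) n) hint
  rw [F_end i t s n hs, intervalIntegral.integral_const_mul] at h1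
  have h2 : F i t s n 0 = ∑ b ∈ range (n + 1), (b.choose s : ℝ) * i ^ (b - s) / t ^ (b + 1) := by
    simp [F]
  rw [h2] at h1
  rw [← h1]
  field_simp

end JKaux

theorem JK : S_JK := by
  intro r A n c hPF hAn hn t ht
  have hne : ∀ i ∈ range (r + 1), ∀ x ∈ Set.uIcc (0 : ℝ) (i : ℝ), t - x ≠ 0 := by
    intro i hi x hx
    rw [Set.uIcc_of_le (Nat.cast_nonneg i)] at hx
    have hir : (i : ℝ) ≤ r := by
      have := mem_range.1 hi
      exact_mod_cast (by omega : i ≤ r)
    rcases ht with ht | ht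
    · have := hx.1
      intro h0
      linarith
    · have := hx.2
      intro h0
      linarith
  have hti : ∀ i ∈ range (r + 1), t ≠ (i : ℝ) := by
    intro i hi h0
    exact hne i hi (i : ℝ) (by simp) (by rw [h0]; ring)
  have hpsi := hPF.rat t hti
  have hterm : ∀ i ∈ range (r + 1),
      ∫ x in (0 : ℝ)..(i : ℝ), evr (Ez A n c i) x * (1 / (t - x) ^ (n + 2)) =
      (∑ s ∈ range A, (c i s : ℝ) * (1 / (t - i) ^ (s + 1) -
        ∑ b ∈ range (n + 1), (b.choose s : ℝ) * (i : ℝ) ^ (b - s) / t ^ (b + 1))) / (n + 1) := by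
    intro i hi
    have e1 : ∀ x : ℝ, evr (Ez A n c i) x * (1 / (t - x) ^ (n + 2)) =
        ∑ s ∈ range A, (c i s : ℝ) * ((n.choose s : ℝ) *
          (((i : ℝ) - x) ^ (n - s) * (1 / (t - x) ^ (n + 2)))) := by
      intro x
      unfold evr Ez
      rw [Polynomial.map_sum, Polynomial.eval_finsetSum, Finset.sum_mul]
      apply Finset.sum_congr rfl
      intro s _
      simp
      ring
    simp_rw [e1]
    rw [intervalIntegral.integral_finsetSum]
    · rw [Finset.sum_div]
      apply Finset.sum_congr rfl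
      intro s hs
      have hsA := mem_range.1 hs
      rw [intervalIntegral.integral_const_mul, intervalIntegral.integral_const_mul,
        JKaux.key (i : ℝ) t s n (by omega) (hne i hi)]
      ring
    · intro s _
      apply ContinuousOn.intervalIntegrable
      refine ContinuousOn.mul continuousOn_const (ContinuousOn.mul continuousOn_const
        (ContinuousOn.mul (by fun_prop) ?_))
      refine ContinuousOn.div continuousOn_const (by fun_prop) ?_
      intro x hx
      exact pow_ne_zero _ (hne i hi x hx)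
  have hzero : ∑ i ∈ range (r + 1), ∑ s ∈ range A, (c i s : ℝ) *
      ∑ b ∈ range (n + 1), (b.choose s : ℝ) * (i : ℝ) ^ (b - s) / t ^ (b + 1) = 0 := by
    have e2 : ∑ i ∈ range (r + 1), ∑ s ∈ range A, (c i s : ℝ) *
        ∑ b ∈ range (n + 1), (b.choose s : ℝ) * (i : ℝ) ^ (b - s) / t ^ (b + 1) =
        ∑ b ∈ range (n + 1), (∑ i ∈ range (r + 1), ∑ s ∈ range A,
          (c i s : ℝ) * (b.choose s : ℝ) * (i : ℝ) ^ (b - s)) / t ^ (b + 1) := by
      simp_rw [Finset.mul_sum, Finset.sum_div]
      have e3 : ∀ i ∈ range (r + 1), ∑ s ∈ range A, ∑ b ∈ range (n + 1),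
          (c i s : ℝ) * ((b.choose s : ℝ) * (i : ℝ) ^ (b - s) / t ^ (b + 1)) =
          ∑ b ∈ range (n + 1), ∑ s ∈ range A,
          (c i s : ℝ) * ((b.choose s : ℝ) * (i : ℝ) ^ (b - s) / t ^ (b + 1)) := by
        intro i _
        rw [Finset.sum_comm]
      rw [Finset.sum_congr rfl e3, Finset.sum_comm]
      refine Finset.sum_congr rfl fun b _ => Finset.sum_congr rfl fun i _ =>
        Finset.sum_congr rfl fun s _ => ?_
      ring
    rw [e2]
    apply Finset.sum_eq_zero
    intro b hb
    have hm := hPF.mom b (by have := mem_range.1 hb; omega)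
    have hm' : ∑ i ∈ range (r + 1), ∑ s ∈ range A,
          (c i s : ℝ) * (b.choose s : ℝ) * (i : ℝ) ^ (b - s) = 0 := by
      exact_mod_cast hm
    rw [hm', zero_div]
  unfold JJ
  rw [Finset.sum_congr rfl hterm, ← Finset.sum_div, hpsi]
  congr 1
  simp_rw [mul_sub, Finset.sum_sub_distrib]
  rw [hzero, sub_zero]
  refine Finset.sum_congr rfl fun i _ => Finset.sum_congr rfl fun s _ => ?_
  ring

end Pool.Agent.Work.MP_f1a024_nt.HP
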