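import Mathlib
import Pool.Agent.Work.MP_f1a024_nt.HP.Stmts

set_option autoImplicit false

/-!
Item JP: `JJ` kills polynomials of small degree.
-/

namespace Pool.Agent.Work.MP_f1a024_nt.HP

open Real Polynomial MeasureTheory Finset Filter Topology
open scoped Nat

theorem I_JP.beta0 (t : ℝ) (m : ℕ) :
    ∫ x in (0 : ℝ)..t, (t - x) ^ m * x ^ 0 = t ^ (m + 1) / (m + 1) := by
  have hd : ∀ x ∈ Set.uIcc 0 t, HasDerivAt (fun x : ℝ => -((t - x) ^ (m + 1) / (m + 1)))
      ((t - x) ^ m * x ^ 0) x := by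
    intro x _
    have h1 : HasDerivAt (fun x : ℝ => t - x) (-1) x := by
      simpa using (hasDerivAt_id x).const_sub t
    have h2 := ((h1.fun_pow (m + 1)).div_const ((m : ℝ) + 1)).fun_neg
    refine h2.congr_deriv ?_
    have hm : (m : ℝ) + 1 ≠ 0 := by positivity
    push_cast
    field_simp
  rw [intervalIntegral.integral_eq_sub_of_hasDerivAt hd
    (Continuous.intervalIntegrable (by fun_prop) _ _)]
  simp

theorem I_JP.step (t : ℝ) (m a : ℕ) :
    ((m : ℝ) + 1) * ∫ x in (0 : ℝ)..t, (t - x) ^ m * x ^ (a + 1) =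
      ((a : ℝ) + 1) * ∫ x in (0 : ℝ)..t, (t - x) ^ (m + 1) * x ^ a := by
  have hd : ∀ x ∈ Set.uIcc 0 t, HasDerivAt (fun x : ℝ => (t - x) ^ (m + 1) * x ^ (a + 1))
      (((a : ℝ) + 1) * ((t - x) ^ (m + 1) * x ^ a) -
        ((m : ℝ) + 1) * ((t - x) ^ m * x ^ (a + 1))) x := by
    intro x _
    have h1 : HasDerivAt (fun x : ℝ => t - x) (-1) x := by
      simpa using (hasDerivAt_id x).const_sub t
    have h2 := (h1.fun_pow (m + 1)).fun_mul ((hasDerivAt_id x).fun_pow (a + 1))
    refine h2.congr_deriv ?_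
    push_cast
    simp only [id_eq]
    ring
  have h3 := intervalIntegral.integral_eq_sub_of_hasDerivAt hd
    (Continuous.intervalIntegrable (by fun_prop) _ _)
  rw [intervalIntegral.integral_sub (Continuous.intervalIntegrable (by fun_prop) _ _)
    (Continuous.intervalIntegrable (by fun_prop) _ _),
    intervalIntegral.integral_const_mul, intervalIntegral.integral_const_mul] at h3
  simp at h3
  linarith

theorem I_JP.beta (t : ℝ) (a : ℕ) : ∀ m : ℕ,
    ∫ x in (0 : ℝ)..t, (t - x) ^ m * x ^ a =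
      t ^ (m + a + 1) * ((m ! : ℝ) * (a ! : ℝ)) / ((m + a + 1)! : ℝ) := by
  induction a with
  | zero =>
      intro m
      rw [I_JP.beta0]
      have h1 : ((m + 0 + 1)! : ℝ) = ((m : ℝ) + 1) * (m ! : ℝ) := by
        rw [Nat.add_zero, Nat.factorial_succ]; push_cast; ring
      rw [h1]
      have h2 : (m ! : ℝ) ≠ 0 := by positivity
      have h3 : (m : ℝ) + 1 ≠ 0 := by positivity
      simp only [Nat.factorial_zero, Nat.cast_one, mul_one, Nat.add_zero]
      field_simp
  | succ a ih =>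
      intro m
      have h1 := I_JP.step t m a
      rw [ih (m + 1)] at h1
      have h3 : (m : ℝ) + 1 ≠ 0 := by positivity
      have h4 : m + 1 + a + 1 = m + (a + 1) + 1 := by ring
      have h5 : ∫ x in (0 : ℝ)..t, (t - x) ^ m * x ^ (a + 1) =
          ((a : ℝ) + 1) * (t ^ (m + 1 + a + 1) * (((m + 1)! : ℝ) * (a ! : ℝ)) /
            ((m + 1 + a + 1)! : ℝ)) / ((m : ℝ) + 1) := by
        rw [eq_div_iff h3, mul_comm]
        exact h1
      rw [h5, h4, Nat.factorial_succ m, Nat.factorial_succ a]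
      push_cast
      field_simp

theorem I_JP.evr_Ez (A n : ℕ) (c : ℕ → ℕ → ℤ) (i : ℕ) (x : ℝ) :
    evr (Ez A n c i) x =
      ∑ s ∈ range A, ((n.choose s : ℝ) * (c i s : ℝ)) * ((i : ℝ) - x) ^ (n - s) := by
  unfold evr Ez
  rw [Polynomial.map_sum, Polynomial.eval_finsetSum]
  refine Finset.sum_congr rfl fun s _ => ?_
  simp

theorem I_JP.mono (r A n : ℕ) (c : ℕ → ℕ → ℤ) (hc : PF r A c) (hA : A ≤ n) (a : ℕ)
    (h : n + a + 2 < (r + 1) * A) : JJ r A n c (fun x => x ^ a) = 0 := by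
  have h1 : ∀ i ∈ range (r + 1), ∫ x in (0 : ℝ)..(i : ℝ), evr (Ez A n c i) x * x ^ a =
      ∑ s ∈ range A, (((n ! : ℝ) * (a ! : ℝ)) / ((n + a + 1)! : ℝ)) *
        ((c i s : ℝ) * (((n + a + 1).choose s : ℕ) : ℝ) * (i : ℝ) ^ (n + a + 1 - s)) := by
    intro i _
    have e1 : ∀ x : ℝ, evr (Ez A n c i) x * x ^ a =
        ∑ s ∈ range A, ((n.choose s : ℝ) * (c i s : ℝ)) * (((i : ℝ) - x) ^ (n - s) * x ^ a) := by
      intro x
      rw [I_JP.evr_Ez, Finset.sum_mul]
      exact Finset.sum_congr rfl fun s _ => by ring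
    simp_rw [e1]
    rw [intervalIntegral.integral_finsetSum fun s _ =>
      Continuous.intervalIntegrable (by fun_prop) _ _]
    refine Finset.sum_congr rfl fun s hs => ?_
    rw [intervalIntegral.integral_const_mul, I_JP.beta]
    have hs' : s ≤ n := (Finset.mem_range.1 hs).le.trans hA
    have e2 : n - s + a + 1 = n + a + 1 - s := by omega
    rw [e2]
    have e3 : (n.choose s : ℝ) = (n ! : ℝ) / ((s ! : ℝ) * ((n - s)! : ℝ)) := Nat.cast_choose ℝ hs'
    have e4 : (((n + a + 1).choose s : ℕ) : ℝ) =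
        ((n + a + 1)! : ℝ) / ((s ! : ℝ) * ((n + a + 1 - s)! : ℝ)) :=
      Nat.cast_choose ℝ (by omega)
    rw [e3, e4]
    have f1 : ((s)! : ℝ) ≠ 0 := by positivity
    have f2 : ((n - s)! : ℝ) ≠ 0 := by positivity
    have f3 : ((n + a + 1)! : ℝ) ≠ 0 := by positivity
    have f4 : ((n + a + 1 - s)! : ℝ) ≠ 0 := by positivity
    field_simp
  have h2 := hc.mom (n + a + 1) (by omega)
  have h3 : ∑ i ∈ range (r + 1), ∑ s ∈ range A,
      (c i s : ℝ) * (((n + a + 1).choose s : ℕ) : ℝ) * (i : ℝ) ^ (n + a + 1 - s) = 0 := by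
    exact_mod_cast h2
  unfold JJ
  rw [Finset.sum_congr rfl h1]
  simp_rw [← Finset.mul_sum]
  rw [h3, mul_zero]

theorem JP_pf : S_JP := by
  intro r A n c hc hA p hp
  have h1 : JJ r A n c (fun x => p.eval x) =
      ∑ a ∈ range (p.natDegree + 1), p.coeff a * JJ r A n c (fun x => x ^ a) := by
    unfold JJ
    simp_rw [Finset.mul_sum]
    rw [Finset.sum_comm]
    refine Finset.sum_congr rfl fun i _ => ?_
    have e1 : ∀ x : ℝ, evr (Ez A n c i) x * p.eval x =
        ∑ a ∈ range (p.natDegree + 1), p.coeff a * (evr (Ez A n c i) x * x ^ a) := by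
      intro x
      rw [Polynomial.eval_eq_sum_range, Finset.mul_sum]
      exact Finset.sum_congr rfl fun a _ => by ring
    simp_rw [e1]
    have hcont : ∀ a : ℕ, Continuous fun x : ℝ => p.coeff a * (evr (Ez A n c i) x * x ^ a) := by
      intro a
      have : Continuous fun x : ℝ => evr (Ez A n c i) x := by
        unfold evr; exact Polynomial.continuous _
      fun_prop
    rw [intervalIntegral.integral_finsetSum fun a _ => (hcont a).intervalIntegrable _ _]
    exact Finset.sum_congr rfl fun a _ => intervalIntegral.integral_const_mul _ _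
  rw [h1]
  refine Finset.sum_eq_zero fun a ha => ?_
  rw [I_JP.mono r A n c hc hA a ?_, mul_zero]
  have := Finset.mem_range.1 ha
  omega

end Pool.Agent.Work.MP_f1a024_nt.HP
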