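import Mathlib
import Pool.Agent.Work.MP_f1a024_nt.HP.Stmts

set_option autoImplicit false

namespace Pool.Agent.Work.MP_f1a024_nt.HP

open Real Polynomial MeasureTheory Finset Filter Topology
open scoped Nat

namespace I_LIO

variable {ι : Type} [DecidableEq ι]

/-- `sqrt (prod_(i in I) s_i)` as a product. -/
noncomputable def rt (s : ι → ℕ) (I : Finset ι) : ℝ := ∏ i ∈ I, √(s i : ℝ)

lemma rt_nonneg (s : ι → ℕ) (I : Finset ι) : 0 ≤ rt s I :=
  Finset.prod_nonneg fun _ _ => Real.sqrt_nonneg _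

lemma sqrt_prod_eq (s : ι → ℕ) (I : Finset ι) : √(∏ i ∈ I, (s i : ℝ)) = rt s I := by
  unfold rt
  induction I using Finset.induction_on with
  | empty => simp
  | insert a I ha ih =>
    rw [Finset.prod_insert ha, Finset.prod_insert ha, Real.sqrt_mul (by positivity), ih]

lemma rt_mul (s : ι → ℕ) (I J : Finset ι) :
    rt s I * rt s J = (∏ i ∈ I ∩ J, (s i : ℝ)) * rt s (symmDiff I J) := by
  unfold rt
  rw [← Finset.prod_union_inter]
  have h1 : I ∪ J = symmDiff I J ∪ (I ∩ J) := by
    ext i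
    simp only [Finset.mem_union, Finset.mem_symmDiff, Finset.mem_inter]
    tauto
  have h2 : Disjoint (symmDiff I J) (I ∩ J) := by
    rw [Finset.disjoint_left]
    intro i hi
    simp only [Finset.mem_symmDiff] at hi
    simp only [Finset.mem_inter]
    tauto
  rw [h1, Finset.prod_union h2]
  have h3 : ∏ i ∈ I ∩ J, (s i : ℝ) = (∏ i ∈ I ∩ J, √(s i : ℝ)) * ∏ i ∈ I ∩ J, √(s i : ℝ) := by
    rw [← Finset.prod_mul_distrib]
    apply Finset.prod_congr rfl
    intro i _
    rw [Real.mul_self_sqrt (by positivity)]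
  rw [h3]
  ring

/-- Coefficients of a product. -/
def mc (S : Finset ι) (s : ι → ℕ) (a b : Finset ι → ℤ) (K : Finset ι) : ℤ :=
  ∑ I ∈ S.powerset, a I * b (symmDiff I K) * ∏ i ∈ I ∩ symmDiff I K, (s i : ℤ)

lemma mul_expand (S : Finset ι) (s : ι → ℕ) (a b : Finset ι → ℤ) :
    (∑ I ∈ S.powerset, (a I : ℝ) * rt s I) * (∑ I ∈ S.powerset, (b I : ℝ) * rt s I) =
      ∑ K ∈ S.powerset, (mc S s a b K : ℝ) * rt s K := by
  rw [Finset.sum_mul_sum]
  have h1 : ∀ K ∈ S.powerset, (mc S s a b K : ℝ) * rt s K =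
      ∑ I ∈ S.powerset, (a I : ℝ) * rt s I * ((b (symmDiff I K) : ℝ) * rt s (symmDiff I K)) := by
    intro K _
    unfold mc
    push_cast
    rw [Finset.sum_mul]
    apply Finset.sum_congr rfl
    intro I _
    have h := rt_mul s I (symmDiff I K)
    rw [symmDiff_symmDiff_cancel_left] at h
    calc (a I : ℝ) * (b (symmDiff I K) : ℝ) * (∏ i ∈ I ∩ symmDiff I K, (s i : ℝ)) * rt s K
        = (a I : ℝ) * (b (symmDiff I K) : ℝ) * ((∏ i ∈ I ∩ symmDiff I K, (s i : ℝ)) * rt s K) := by
          ring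
      _ = (a I : ℝ) * rt s I * ((b (symmDiff I K) : ℝ) * rt s (symmDiff I K)) := by
          rw [← h]; ring
  rw [Finset.sum_congr rfl h1, Finset.sum_comm (s := S.powerset) (t := S.powerset)
    (f := fun K I => (a I : ℝ) * rt s I * ((b (symmDiff I K) : ℝ) * rt s (symmDiff I K)))]
  apply Finset.sum_congr rfl
  intro I hI
  rw [Finset.mem_powerset] at hI
  have hm : ∀ J ∈ S.powerset, symmDiff I J ∈ S.powerset := by
    intro J hJ
    rw [Finset.mem_powerset] at hJ ⊢
    intro i hi
    rw [Finset.mem_symmDiff] at hi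
    rcases hi with hi | hi
    · exact hI hi.1
    · exact hJ hi.1
  refine Finset.sum_nbij' (fun J => symmDiff I J) (fun J => symmDiff I J) hm hm ?_ ?_ ?_
  · intro J _; exact symmDiff_symmDiff_cancel_left I J
  · intro J _; exact symmDiff_symmDiff_cancel_left I J
  · intro J _
    simp only [symmDiff_symmDiff_cancel_left]

lemma mc_bound (S : Finset ι) (s : ι → ℕ) (a b : Finset ι → ℤ) (A B : ℝ)
    (hA : ∀ I ∈ S.powerset, |(a I : ℝ) * rt s I| ≤ A)
    (hB : ∀ I ∈ S.powerset, |(b I : ℝ) * rt s I| ≤ B)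
    (K : Finset ι) (hK : K ∈ S.powerset) :
    |(mc S s a b K : ℝ) * rt s K| ≤ 2 ^ S.card * (A * B) := by
  have hA0 : 0 ≤ A := le_trans (abs_nonneg _) (hA K hK)
  unfold mc
  push_cast
  rw [Finset.sum_mul]
  refine (Finset.abs_sum_le_sum_abs _ _).trans ?_
  have : ∀ I ∈ S.powerset, |(a I : ℝ) * (b (symmDiff I K) : ℝ) *
      (∏ i ∈ I ∩ symmDiff I K, (s i : ℝ)) * rt s K| ≤ A * B := by
    intro I hI
    have h := rt_mul s I (symmDiff I K)
    rw [symmDiff_symmDiff_cancel_left] at h
    have e : (a I : ℝ) * (b (symmDiff I K) : ℝ) * (∏ i ∈ I ∩ symmDiff I K, (s i : ℝ)) * rt s K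
        = ((a I : ℝ) * rt s I) * ((b (symmDiff I K) : ℝ) * rt s (symmDiff I K)) := by
      calc (a I : ℝ) * (b (symmDiff I K) : ℝ) * (∏ i ∈ I ∩ symmDiff I K, (s i : ℝ)) * rt s K
          = (a I : ℝ) * (b (symmDiff I K) : ℝ) *
            ((∏ i ∈ I ∩ symmDiff I K, (s i : ℝ)) * rt s K) := by ring
        _ = _ := by rw [← h]; ring
    rw [e, abs_mul]
    have hm : symmDiff I K ∈ S.powerset := by
      rw [Finset.mem_powerset] at hI hK ⊢
      intro i hi
      rw [Finset.mem_symmDiff] at hi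
      rcases hi with hi | hi
      · exact hI hi.1
      · exact hK hi.1
    exact mul_le_mul (hA I hI) (hB _ hm) (abs_nonneg _) hA0
  refine (Finset.sum_le_sum this).trans ?_
  rw [Finset.sum_const, nsmul_eq_mul, Finset.card_powerset]
  push_cast
  exact le_rfl

lemma sum_bound (S : Finset ι) (s : ι → ℕ) (a : Finset ι → ℤ) (A : ℝ)
    (hA : ∀ I ∈ S.powerset, |(a I : ℝ) * rt s I| ≤ A) :
    |∑ I ∈ S.powerset, (a I : ℝ) * rt s I| ≤ 2 ^ S.card * A := by
  refine (Finset.abs_sum_le_sum_abs _ _).trans ?_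
  refine (Finset.sum_le_sum hA).trans ?_
  rw [Finset.sum_const, nsmul_eq_mul, Finset.card_powerset]
  push_cast
  exact le_rfl

lemma main (s : ι → ℕ) (S : Finset ι) : ∀ (x : Finset ι → ℤ) (Y : ℝ), 1 ≤ Y →
    (∀ I ∈ S.powerset, |(x I : ℝ) * rt s I| ≤ Y) →
    (∑ I ∈ S.powerset, (x I : ℝ) * rt s I) ≠ 0 →
    1 ≤ |∑ I ∈ S.powerset, (x I : ℝ) * rt s I| * ((4 : ℝ) ^ S.card * Y) ^ (2 ^ S.card - 1) := by
  induction S using Finset.induction_on with
  | empty =>
    intro x Y hY _ hne
    simp only [Finset.powerset_empty, Finset.sum_singleton, Finset.card_empty, pow_zero,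
      le_refl, Nat.sub_self, mul_one] at hne ⊢
    have h1 : rt s (∅ : Finset ι) = 1 := by simp [rt]
    rw [h1, mul_one] at hne ⊢
    have h2 : x ∅ ≠ 0 := by
      intro h; apply hne; rw [h]; simp
    have h3 : 1 ≤ |x ∅| := Int.one_le_abs h2
    have h4 : ((1 : ℤ) : ℝ) ≤ ((|x ∅| : ℤ) : ℝ) := by exact_mod_cast h3
    rw [Int.cast_abs] at h4
    simpa using h4
  | insert a S ha ih =>
    intro x Y hY hx hne
    have hcard : (insert a S).card = S.card + 1 := Finset.card_insert_of_notMem ha
    set c := S.card with hc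
    have hsplit : ∀ f : Finset ι → ℝ, ∑ I ∈ (insert a S).powerset, f I =
        ∑ I ∈ S.powerset, f I + ∑ I ∈ S.powerset, f (insert a I) := by
      intro f; exact Finset.sum_powerset_insert ha f
    have hrt : ∀ I ∈ S.powerset, rt s (insert a I) = √(s a : ℝ) * rt s I := by
      intro I hI
      have : a ∉ I := fun h => ha ((Finset.mem_powerset.mp hI) h)
      unfold rt
      rw [Finset.prod_insert this]
    set y : Finset ι → ℤ := fun I => x (insert a I) with hy
    set u : ℝ := ∑ I ∈ S.powerset, (x I : ℝ) * rt s I with hu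
    set v' : ℝ := ∑ I ∈ S.powerset, (y I : ℝ) * rt s I with hv'
    set q : ℝ := √(s a : ℝ) with hq
    have hq2 : q * q = (s a : ℝ) := Real.mul_self_sqrt (by positivity)
    have hq0 : 0 ≤ q := Real.sqrt_nonneg _
    have hbeta : ∑ I ∈ (insert a S).powerset, (x I : ℝ) * rt s I = u + q * v' := by
      rw [hsplit, hv', Finset.mul_sum]
      congr 1
      apply Finset.sum_congr rfl
      intro I hI
      rw [hrt I hI]
      ring
    have hxS : ∀ I ∈ S.powerset, |(x I : ℝ) * rt s I| ≤ Y := by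
      intro I hI
      apply hx
      rw [Finset.mem_powerset] at hI ⊢
      exact hI.trans (Finset.subset_insert _ _)
    have hyS : ∀ I ∈ S.powerset, q * |(y I : ℝ) * rt s I| ≤ Y := by
      intro I hI
      have h := hx (insert a I) (by
        rw [Finset.mem_powerset] at hI ⊢
        exact Finset.insert_subset_insert a hI)
      rw [hrt I hI] at h
      calc q * |(y I : ℝ) * rt s I| = |q * ((y I : ℝ) * rt s I)| := by
            rw [abs_mul q, abs_of_nonneg hq0]
        _ = |(x (insert a I) : ℝ) * (q * rt s I)| := by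
            rw [hy]; congr 1; ring
        _ ≤ Y := h
    rw [hbeta] at hne ⊢
    rw [hcard]
    have hY0 : 0 < Y := by linarith
    have h4 : (1 : ℝ) ≤ 4 ^ c := one_le_pow₀ (by norm_num)
    by_cases hb : u - q * v' = 0
    · -- beta = 2 u
      have hb2 : u + q * v' = 2 * u := by linarith
      have hne2 : ∑ I ∈ S.powerset, (((fun I => 2 * x I) I : ℤ) : ℝ) * rt s I ≠ 0 := by
        have : ∑ I ∈ S.powerset, (((fun I => 2 * x I) I : ℤ) : ℝ) * rt s I = 2 * u := by
          rw [hu, Finset.mul_sum]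
          apply Finset.sum_congr rfl
          intro I _
          push_cast
          ring
        rw [this, ← hb2]
        exact hne
      have h := ih (fun I => 2 * x I) (2 * Y) (by linarith) (by
        intro I hI
        have := hxS I hI
        push_cast
        rw [mul_assoc, abs_mul, abs_of_pos (by norm_num : (0 : ℝ) < 2)]
        linarith) hne2
      have e : ∑ I ∈ S.powerset, (((fun I => 2 * x I) I : ℤ) : ℝ) * rt s I = u + q * v' := by
        rw [hb2, hu, Finset.mul_sum]
        apply Finset.sum_congr rfl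
        intro I _
        push_cast
        ring
      rw [e] at h
      refine h.trans ?_
      apply mul_le_mul_of_nonneg_left _ (abs_nonneg _)
      have h5 : (4 : ℝ) ^ c * (2 * Y) ≤ 4 ^ (c + 1) * Y := by
        rw [pow_succ]; nlinarith
      have h6 : (1 : ℝ) ≤ 4 ^ (c + 1) * Y := by
        have : (1 : ℝ) ≤ 4 ^ (c + 1) := one_le_pow₀ (by norm_num)
        nlinarith
      calc ((4 : ℝ) ^ c * (2 * Y)) ^ (2 ^ c - 1) ≤ (4 ^ (c + 1) * Y) ^ (2 ^ c - 1) :=
            pow_le_pow_left₀ (by positivity) h5 _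
        _ ≤ (4 ^ (c + 1) * Y) ^ (2 ^ (c + 1) - 1) := by
            apply pow_le_pow_right₀ h6
            have : 2 ^ c ≤ 2 ^ (c + 1) := Nat.pow_le_pow_right (by norm_num) (by omega)
            omega
    · -- beta beta'
      set z : Finset ι → ℤ := fun K => mc S s x x K - (s a : ℤ) * mc S s y y K with hz
      have hprod : ∑ K ∈ S.powerset, (z K : ℝ) * rt s K = (u + q * v') * (u - q * v') := by
        have e1 := mul_expand S s x x
        have e2 := mul_expand S s y y
        have : (u + q * v') * (u - q * v') = u * u - (s a : ℝ) * (v' * v') := by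
          rw [← hq2]; ring
        rw [this, hu, hv', e1, e2, Finset.mul_sum, ← Finset.sum_sub_distrib]
        apply Finset.sum_congr rfl
        intro K _
        rw [hz]
        push_cast
        ring
      have hne2 : ∑ K ∈ S.powerset, (z K : ℝ) * rt s K ≠ 0 := by
        rw [hprod]
        exact mul_ne_zero hne hb
      have hzb : ∀ K ∈ S.powerset, |(z K : ℝ) * rt s K| ≤ 2 ^ (c + 1) * Y ^ 2 := by
        intro K hK
        have b1 := mc_bound S s x x Y Y hxS hxS K hK
        have b2 : (s a : ℝ) * |(mc S s y y K : ℝ) * rt s K| ≤ 2 ^ c * (Y * Y) := by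
          rcases eq_or_lt_of_le hq0 with hq00 | hqpos
          · rw [← hq2, ← hq00]
            simp only [mul_zero, zero_mul]
            positivity
          · have hyS' : ∀ I ∈ S.powerset, |(y I : ℝ) * rt s I| ≤ Y / q := by
              intro I hI
              rw [le_div_iff₀ hqpos, mul_comm]
              exact hyS I hI
            have b3 := mc_bound S s y y (Y / q) (Y / q) hyS' hyS' K hK
            calc (s a : ℝ) * |(mc S s y y K : ℝ) * rt s K|
                ≤ (s a : ℝ) * (2 ^ c * (Y / q * (Y / q))) :=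
                  mul_le_mul_of_nonneg_left b3 (by positivity)
              _ = 2 ^ c * (Y * Y) := by
                  rw [← hq2]
                  field_simp
        have e : (z K : ℝ) * rt s K = (mc S s x x K : ℝ) * rt s K -
            (s a : ℝ) * ((mc S s y y K : ℝ) * rt s K) := by
          rw [hz]; push_cast; ring
        rw [e]
        refine (abs_sub _ _).trans ?_
        rw [abs_mul (s a : ℝ), abs_of_nonneg (by positivity : (0 : ℝ) ≤ (s a : ℝ))]
        calc _ ≤ 2 ^ c * (Y * Y) + 2 ^ c * (Y * Y) := add_le_add b1 b2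
          _ = 2 ^ (c + 1) * Y ^ 2 := by ring
      have h2c : (1 : ℝ) ≤ 2 ^ (c + 1) := one_le_pow₀ (by norm_num)
      have h := ih z (2 ^ (c + 1) * Y ^ 2) (by nlinarith) hzb hne2
      rw [hprod, abs_mul] at h
      have hb' : |u - q * v'| ≤ 2 ^ (c + 1) * Y := by
        have b1 := sum_bound S s x Y hxS
        have b2 : |q * v'| ≤ 2 ^ c * Y := by
          rw [abs_mul q, abs_of_nonneg hq0]
          rcases eq_or_lt_of_le hq0 with hq00 | hqpos
          · rw [← hq00]
            simp only [zero_mul]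
            positivity
          · have hyS' : ∀ I ∈ S.powerset, |(y I : ℝ) * rt s I| ≤ Y / q := by
              intro I hI
              rw [le_div_iff₀ hqpos, mul_comm]
              exact hyS I hI
            have b3 := sum_bound S s y (Y / q) hyS'
            calc q * |v'| ≤ q * (2 ^ c * (Y / q)) := mul_le_mul_of_nonneg_left b3 hq0
              _ = 2 ^ c * Y := by field_simp
        refine (abs_sub _ _).trans ?_
        calc |u| + |q * v'| ≤ 2 ^ c * Y + 2 ^ c * Y := add_le_add b1 b2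
          _ = 2 ^ (c + 1) * Y := by ring
      refine h.trans ?_
      have hexp : 2 ^ (c + 1) - 1 = 2 * (2 ^ c - 1) + 1 := by
        have : 1 ≤ 2 ^ c := Nat.one_le_two_pow
        rw [pow_succ]; omega
      have hR : ((4 : ℝ) ^ (c + 1) * Y) ^ (2 * (2 ^ c - 1) + 1) =
          ((4 ^ (c + 1) * Y) ^ 2) ^ (2 ^ c - 1) * (4 ^ (c + 1) * Y) := by
        rw [← pow_mul, ← pow_succ]
      rw [hexp, hR, mul_assoc]
      apply mul_le_mul_of_nonneg_left _ (abs_nonneg _)
      have h24 : (2 : ℝ) ^ (c + 1) ≤ 4 ^ (c + 1) := pow_le_pow_left₀ (by norm_num) (by norm_num) _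
      have h7 : (4 : ℝ) ^ c * (2 ^ (c + 1) * Y ^ 2) ≤ (4 ^ (c + 1) * Y) ^ 2 := by
        have h8 : (4 : ℝ) ^ c ≤ 4 ^ (c + 1) := pow_le_pow_right₀ (by norm_num) (by omega)
        calc (4 : ℝ) ^ c * (2 ^ (c + 1) * Y ^ 2) ≤ 4 ^ (c + 1) * (4 ^ (c + 1) * Y ^ 2) := by
              gcongr
          _ = (4 ^ (c + 1) * Y) ^ 2 := by ring
      calc |u - q * v'| * (4 ^ c * (2 ^ (c + 1) * Y ^ 2)) ^ (2 ^ c - 1)
          ≤ (2 ^ (c + 1) * Y) * ((4 ^ (c + 1) * Y) ^ 2) ^ (2 ^ c - 1) := by
            gcongr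
        _ ≤ ((4 ^ (c + 1) * Y) ^ 2) ^ (2 ^ c - 1) * (4 ^ (c + 1) * Y) := by
            rw [mul_comm]
            gcongr

end I_LIO

theorem LIO_pf : S_LIO := by
  intro c s x Y hY hx hne
  have h1 : ∀ I : Finset (Fin c), √(∏ i ∈ I, (s i : ℝ)) = I_LIO.rt s I := fun I =>
    I_LIO.sqrt_prod_eq s I
  simp only [h1] at hx hne ⊢
  have h := I_LIO.main s (Finset.univ : Finset (Fin c)) x Y hY (fun I _ => hx I)
  rw [Finset.powerset_univ] at h
  have h2 := h hne
  rw [Finset.card_univ, Fintype.card_fin] at h2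
  exact h2

end Pool.Agent.Work.MP_f1a024_nt.HP
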