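import Mathlib
import Pool.Agent.Work.MP_f1a024_nt.HP.Stmts

set_option autoImplicit false

/-!
Item MAIN of the block [f1a024 HP] (helper48).
-/

namespace Pool.Agent.Work.MP_f1a024_nt.HP

open Real Polynomial MeasureTheory Finset Filter Topology
open scoped Nat

namespace I_MAIN

/-- The odd `k >= 3` in the window `[N-L, N]`. -/
def W (N L : ℕ) : Finset ℕ := (range (N + 1)).filter (fun k => Odd k ∧ 3 ≤ k ∧ N ≤ k + L)

lemma card_W (N L : ℕ) (hL1 : 1 ≤ L) (hLN : L ≤ N) : (W N L).card ≤ L := by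
  have hsub : W N L ⊆ (Finset.Icc (N - L) N).erase (if Odd N then N - 1 else N) := by
    intro k hk
    simp only [W, Finset.mem_filter, Finset.mem_range] at hk
    obtain ⟨hk1, hk2, hk3, hk4⟩ := hk
    rw [Finset.mem_erase, Finset.mem_Icc]
    refine ⟨?_, by omega, by omega⟩
    split_ifs with h
    · intro he
      rcases hk2 with ⟨u, hu⟩
      rcases h with ⟨v, hv⟩
      omega
    · intro he
      exact h (he ▸ hk2)
  refine (Finset.card_le_card hsub).trans ?_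
  rw [Finset.card_erase_of_mem, Nat.card_Icc]
  · omega
  · rw [Finset.mem_Icc]
    split_ifs <;> omega

lemma PB_one (r A n K : ℕ) : 1 ≤ PB r A n K := by
  unfold PB
  have h1 : (1:ℝ) ≤ (r + K + 1 : ℝ) ^ (r + 2 * K + 1) := one_le_pow₀ (by
    have : (0:ℝ) ≤ r := Nat.cast_nonneg _
    have : (0:ℝ) ≤ K := Nat.cast_nonneg _
    linarith)
  have h2 : (1:ℝ) ≤ 2 ^ n := one_le_pow₀ (by norm_num)
  have h3 : (1:ℝ) ≤ (dd r : ℝ) ^ (A - 1) := one_le_pow₀ (by
    exact_mod_cast Nat.lcmUpto_pos r)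
  have h4 : (1:ℝ) ≤ ((2 : ℝ) ^ r) ^ A := one_le_pow₀ (one_le_pow₀ (by norm_num))
  have h5 : (1:ℝ) ≤ (A ! : ℝ) := by exact_mod_cast Nat.factorial_pos A
  exact one_le_mul_of_one_le_of_one_le (one_le_mul_of_one_le_of_one_le h1 h2)
    (one_le_mul_of_one_le_of_one_le (one_le_mul_of_one_le_of_one_le h3 h4) h5)

/-- Collecting terms with the same square class. -/
lemma collect (c J : ℕ) (s : Fin c → ℕ) (I : ℕ → Finset (Fin c)) (y : ℕ → ℤ) :
    ∑ I' : Finset (Fin c), ((∑ j ∈ range J, if I j = I' then y j else 0 : ℤ) : ℝ) *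
      √(∏ i ∈ I', (s i : ℝ)) =
    ∑ j ∈ range J, (y j : ℝ) * √(∏ i ∈ I j, (s i : ℝ)) := by
  classical
  have e1 : ∀ I' : Finset (Fin c), ((∑ j ∈ range J, if I j = I' then y j else 0 : ℤ) : ℝ) *
      √(∏ i ∈ I', (s i : ℝ)) =
      ∑ j ∈ range J, (if I j = I' then (y j : ℝ) * √(∏ i ∈ I j, (s i : ℝ)) else 0) := by
    intro I'
    push_cast
    rw [Finset.sum_mul]
    refine Finset.sum_congr rfl (fun j _ => ?_)
    split_ifs with h
    · rw [h]
    · simp
  rw [Finset.sum_congr rfl (fun I' _ => e1 I'), Finset.sum_comm]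
  refine Finset.sum_congr rfl (fun j _ => ?_)
  rw [Finset.sum_ite_eq]
  simp

lemma collect_bound (c J : ℕ) (s : Fin c → ℕ) (I : ℕ → Finset (Fin c)) (y : ℕ → ℤ)
    (I' : Finset (Fin c)) :
    |((∑ j ∈ range J, if I j = I' then y j else 0 : ℤ) : ℝ) * √(∏ i ∈ I', (s i : ℝ))| ≤
    ∑ j ∈ range J, |(y j : ℝ) * √(∏ i ∈ I j, (s i : ℝ))| := by
  classical
  have e1 : ((∑ j ∈ range J, if I j = I' then y j else 0 : ℤ) : ℝ) *
      √(∏ i ∈ I', (s i : ℝ)) =
      ∑ j ∈ range J, (if I j = I' then (y j : ℝ) * √(∏ i ∈ I j, (s i : ℝ)) else 0) := by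
    push_cast
    rw [Finset.sum_mul]
    refine Finset.sum_congr rfl (fun j _ => ?_)
    split_ifs with h
    · rw [h]
    · simp
  rw [e1]
  refine (Finset.abs_sum_le_sum_abs _ _).trans (Finset.sum_le_sum (fun j _ => ?_))
  split_ifs with h
  · exact le_rfl
  · rw [abs_zero]; exact abs_nonneg _

end I_MAIN

open I_MAIN in
/-- MAIN. -/
theorem MAIN_pf (h1 : S_PFX) (h2 : S_FNZ) (h3 : S_FRM) (h4 : S_PPW) (h5 : S_GBD) (h6 : S_LIO)
    (h7 : S_NUM) : S_MAIN := by
  classical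
  intro c
  obtain ⟨κ, C, hκ, hC, hnum⟩ := h7 c
  refine ⟨κ, C, hκ, hC, ?_⟩
  intro N L hN hLN hNL M hM hMN δ hδ s
  by_contra hcon
  have hδ0 : 0 < δ := lt_of_lt_of_le (exp_pos _) hδ
  have hex : ∀ n : ℕ, ∃ (I : Finset (Fin c)) (a : ℤ) (b : ℕ), 1 ≤ b ∧
      (b : ℝ) ≤ Real.exp (κ * L) ∧ (Odd n → 3 ≤ n → N ≤ n + L → n ≤ N →
        (b : ℝ) * (M : ℝ) ^ n * OddG.G n = δ * a * √(∏ i ∈ I, (s i : ℝ))) := by
    intro n
    by_cases hn : Odd n ∧ 3 ≤ n ∧ N ≤ n + L ∧ n ≤ N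
    · by_contra hne
      refine hcon ⟨n, hn.1, hn.2.1, hn.2.2.1, hn.2.2.2, ?_⟩
      intro I a b hb1 hb2 he
      exact hne ⟨I, a, b, hb1, hb2, fun _ _ _ _ => he⟩
    · refine ⟨∅, 0, 1, le_rfl, ?_, ?_⟩
      · push_cast
        exact Real.one_le_exp (by positivity)
      · intro a1 a2 a3 a4
        exact absurd ⟨a1, a2, a3, a4⟩ hn
  choose I a b hb1 hb2 heq using hex
  obtain ⟨r, A, n, K, hr, hA, hAn, hne, hAe, hc1, hc2, hc3, hc4, hfin⟩ :=
    hnum N L hN hLN hNL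
  obtain ⟨cc, hcc⟩ := h1 r A hr hA
  have hL1 : 1 ≤ L := by omega
  -- the denominator
  set D : ℕ := ∏ k ∈ W N L, 2 * k * b k with hD
  set q : ℕ := r + 2 * K + 1 with hq
  have hWmem : ∀ k, k ∈ W N L ↔ (k ≤ N ∧ Odd k ∧ 3 ≤ k ∧ N ≤ k + L) := by
    intro k
    simp only [W, Finset.mem_filter, Finset.mem_range, Nat.lt_succ_iff]
  have hDpos : 0 < D := by
    rw [hD]
    refine Finset.prod_pos (fun k hk => ?_)
    have hk' := (hWmem k).mp hk
    have hbk := hb1 k
    exact Nat.mul_pos (Nat.mul_pos two_pos (by omega)) (by omega)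
  have hN0 : (2:ℝ) ≤ N := by exact_mod_cast hN
  have hDle : (D : ℝ) ≤ (2 * N : ℝ) ^ L * Real.exp (κ * L ^ 2) := by
    have e1 : (D : ℝ) ≤ ∏ k ∈ W N L, ((2 * N : ℝ) * Real.exp (κ * L)) := by
      rw [hD]
      push_cast
      refine Finset.prod_le_prod (fun k _ => by positivity) (fun k hk => ?_)
      have hk' := (hWmem k).mp hk
      have hkN : (k : ℝ) ≤ N := by exact_mod_cast hk'.1
      have := hb2 k
      gcongr
    rw [Finset.prod_const] at e1
    refine e1.trans ?_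
    have e2 : (1:ℝ) ≤ (2 * N : ℝ) * Real.exp (κ * L) :=
      one_le_mul_of_one_le_of_one_le (by linarith) (Real.one_le_exp (by positivity))
    refine (pow_le_pow_right₀ e2 (card_W N L hL1 hLN)).trans (le_of_eq ?_)
    rw [mul_pow, ← Real.exp_nat_mul]
    congr 2
    ring
  -- the multiplier
  have hM0 : (1:ℝ) ≤ M := by exact_mod_cast hM
  have hMN' : (M : ℝ) ^ N ≤ Real.exp (κ * L ^ 2) := by
    rw [← Real.exp_log (by positivity : (0:ℝ) < (M : ℝ) ^ N), Real.log_pow]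
    exact Real.exp_le_exp.mpr hMN
  have hδ' : 1 / δ ≤ Real.exp (κ * L ^ 2) := by
    rw [div_le_iff₀ hδ0]
    calc (1:ℝ) = Real.exp (κ * L ^ 2) * Real.exp (-(κ * L ^ 2)) := by
          rw [← Real.exp_add]; simp
      _ ≤ Real.exp (κ * L ^ 2) * δ := by gcongr
  set Z : ℝ := (D : ℝ) * (M : ℝ) ^ N / δ with hZ
  set Z' : ℝ := (2 * N : ℝ) ^ L * Real.exp (3 * κ * L ^ 2) with hZ'
  have hZpos : 0 < Z := by
    have : (0:ℝ) < D := by exact_mod_cast hDpos
    positivity
  have hZle : Z ≤ Z' := by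
    have e1 : Z = (D : ℝ) * (M : ℝ) ^ N * (1 / δ) := by rw [hZ]; ring
    rw [e1]
    calc (D : ℝ) * (M : ℝ) ^ N * (1 / δ) ≤
        ((2 * N : ℝ) ^ L * Real.exp (κ * L ^ 2)) * Real.exp (κ * L ^ 2) *
          Real.exp (κ * L ^ 2) := by
          have h0 : (0:ℝ) ≤ 1 / δ := by positivity
          gcongr
      _ = Z' := by
          rw [hZ', mul_assoc, mul_assoc, ← Real.exp_add, ← Real.exp_add]
          congr 2
          ring
  -- the integers
  set J : ℕ := n + q + 1 with hJ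
  set y : ℕ → ℤ := fun j => if 2 * j + 1 ∈ W N L then
    (-1) ^ j * pp r A n K cc j * ((∏ k ∈ (W N L).erase (2 * j + 1), 2 * k * b k : ℕ) : ℤ) *
      (M : ℤ) ^ (N - (2 * j + 1)) * a (2 * j + 1) else 0 with hy
  have hterm : ∀ j ∈ range J,
      (-1 : ℝ) ^ j * (pp r A n K cc j : ℝ) * (OddG.G (2 * j + 1) / (2 * (2 * j + 1))) * Z =
      (y j : ℝ) * √(∏ i ∈ I (2 * j + 1), (s i : ℝ)) := by
    intro j hj
    by_cases hjW : 2 * j + 1 ∈ W N L
    · have hjm := (hWmem _).mp hjW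
      have hE := heq (2 * j + 1) hjm.2.1 hjm.2.2.1 hjm.2.2.2 hjm.1
      have hDfac : (D : ℝ) = (2 * (2 * j + 1 : ℝ) * b (2 * j + 1)) *
          ((∏ k ∈ (W N L).erase (2 * j + 1), 2 * k * b k : ℕ) : ℝ) := by
        rw [hD, ← Finset.mul_prod_erase (W N L) (fun k => 2 * k * b k) hjW]
        push_cast
        ring
      have hMfac : (M : ℝ) ^ N = (M : ℝ) ^ (2 * j + 1) * (M : ℝ) ^ (N - (2 * j + 1)) := by
        rw [← pow_add]
        congr 1
        omega
      have hyj : (y j : ℝ) = (-1) ^ j * (pp r A n K cc j : ℝ) *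
          ((∏ k ∈ (W N L).erase (2 * j + 1), 2 * k * b k : ℕ) : ℝ) *
          (M : ℝ) ^ (N - (2 * j + 1)) * a (2 * j + 1) := by
        rw [hy]
        simp only [if_pos hjW]
        push_cast
        ring
      rw [hyj, hZ, hDfac, hMfac]
      have hk0 : (2 * (2 * (j:ℝ) + 1)) ≠ 0 := by positivity
      have e1 : (-1 : ℝ) ^ j * (pp r A n K cc j : ℝ) *
          (OddG.G (2 * j + 1) / (2 * (2 * j + 1))) *
          ((2 * (2 * j + 1 : ℝ) * b (2 * j + 1)) *
          ((∏ k ∈ (W N L).erase (2 * j + 1), 2 * k * b k : ℕ) : ℝ) *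
          ((M : ℝ) ^ (2 * j + 1) * (M : ℝ) ^ (N - (2 * j + 1))) / δ) =
          (-1 : ℝ) ^ j * (pp r A n K cc j : ℝ) *
          ((∏ k ∈ (W N L).erase (2 * j + 1), 2 * k * b k : ℕ) : ℝ) *
          (M : ℝ) ^ (N - (2 * j + 1)) *
          (((b (2 * j + 1) : ℝ) * (M : ℝ) ^ (2 * j + 1) * OddG.G (2 * j + 1)) / δ) := by
        field_simp
      rw [e1, hE]
      field_simp
    · have hy0 : y j = 0 := by rw [hy]; simp only [if_neg hjW]
      have hp0 : pp r A n K cc j = 0 := by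
        by_contra hp
        apply hjW
        rw [hWmem]
        have w := h4 r A n K cc hcc hA hAn j
        have w1 : n + 3 ≤ 2 * j + 1 + A := by
          by_contra hlt
          exact hp (w.1 (by omega))
        have w2 : 2 * j + 1 ≤ n + q + 1 := by
          by_contra hlt
          exact hp (w.2.1 (by omega))
        refine ⟨by omega, ⟨j, rfl⟩, by omega, by omega⟩
      rw [hy0, hp0]
      simp
  -- the small number
  have hF := h2 r A n K cc hcc hr hA hAn hne hAe hc1 hc2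
  have hFR := h3 r A n K cc hcc hr hAn hc1
  set β : ℝ := ∑ I' : Finset (Fin c),
    ((∑ j ∈ range J, if I (2 * j + 1) = I' then y j else 0 : ℤ) : ℝ) *
      √(∏ i ∈ I', (s i : ℝ)) with hβ
  have hβF : β = FF r A n K cc * Z / π := by
    rw [hβ, collect c J s (fun j => I (2 * j + 1)) y, ← Finset.sum_congr rfl hterm,
      ← Finset.sum_mul, hFR]
    have hpi : (π : ℝ) ≠ 0 := pi_ne_zero
    rw [hJ, hq]
    field_simp
  have hβ0 : β ≠ 0 := by
    rw [hβF]
    exact div_ne_zero (mul_ne_zero hF.1 hZpos.ne') pi_ne_zero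
  have hβle : |β| ≤ 2 * FB r A n K * Z' := by
    rw [hβF, abs_div, abs_mul, abs_of_pos hZpos, abs_of_pos pi_pos]
    have hpi : (1:ℝ) ≤ π := by linarith [pi_gt_three]
    calc |FF r A n K cc| * Z / π ≤ |FF r A n K cc| * Z := div_le_self (by positivity) hpi
      _ ≤ (2 * FB r A n K) * Z' := by
          have := hF.2
          have h0 : 0 ≤ |FF r A n K cc| := abs_nonneg _
          gcongr
          exact h0.trans this
  set Y : ℝ := 8 * (N : ℝ) ^ (N + 1) * PB r A n K * Z' with hY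
  have hPB := PB_one r A n K
  have hZ'1 : 1 ≤ Z' := by
    rw [hZ']
    exact one_le_mul_of_one_le_of_one_le (one_le_pow₀ (by linarith))
      (Real.one_le_exp (by positivity))
  have hNpow : (1:ℝ) ≤ (N : ℝ) ^ (N + 1) := one_le_pow₀ (by linarith)
  have hY1 : 1 ≤ Y := by
    rw [hY]
    refine one_le_mul_of_one_le_of_one_le (one_le_mul_of_one_le_of_one_le
      (one_le_mul_of_one_le_of_one_le (by norm_num) hNpow) hPB) hZ'1
  have hcomp : ∀ I' : Finset (Fin c),
      |((∑ j ∈ range J, if I (2 * j + 1) = I' then y j else 0 : ℤ) : ℝ) *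
        √(∏ i ∈ I', (s i : ℝ))| ≤ Y := by
    intro I'
    refine (collect_bound c J s (fun j => I (2 * j + 1)) y I').trans ?_
    have hb : ∀ j ∈ range J, |(y j : ℝ) * √(∏ i ∈ I (2 * j + 1), (s i : ℝ))| ≤
        8 * (N : ℝ) ^ N * PB r A n K * Z' := by
      intro j hj
      by_cases hjW : 2 * j + 1 ∈ W N L
      · have hjm := (hWmem _).mp hjW
        rw [← hterm j hj, abs_mul, abs_mul, abs_mul, abs_of_pos hZpos, abs_pow, abs_neg, abs_one,
          one_pow, one_mul]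
        have hG := h5 (2 * j + 1) (by omega)
        have hk1 : (1:ℝ) ≤ 2 * (2 * j + 1) := by
          have : (0:ℝ) ≤ j := Nat.cast_nonneg j
          linarith
        have g1 : |OddG.G (2 * j + 1) / (2 * (2 * j + 1))| ≤ 8 * (N : ℝ) ^ N := by
          rw [abs_of_nonneg (by have := hG.1; positivity)]
          refine (div_le_self hG.1.le hk1).trans (hG.2.trans ?_)
          have : ((2 * j + 1)! : ℝ) ≤ (N : ℝ) ^ N := by
            have e1 : (2 * j + 1)! ≤ N ! := Nat.factorial_le hjm.1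
            have e2 : N ! ≤ N ^ N := Nat.factorial_le_pow N
            exact_mod_cast e1.trans e2
          gcongr
        have g2 := (h4 r A n K cc hcc hA hAn j).2.2
        calc |(pp r A n K cc j : ℝ)| * |OddG.G (2 * j + 1) / (2 * (2 * j + 1))| * Z
            ≤ PB r A n K * (8 * (N : ℝ) ^ N) * Z' := by gcongr
          _ = 8 * (N : ℝ) ^ N * PB r A n K * Z' := by ring
      · have hy0 : y j = 0 := by rw [hy]; simp only [if_neg hjW]
        rw [hy0]
        simp only [Int.cast_zero, zero_mul, abs_zero]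
        positivity
    refine (Finset.sum_le_sum hb).trans ?_
    rw [Finset.sum_const, Finset.card_range, nsmul_eq_mul]
    have hJN : (J : ℝ) ≤ N := by
      have : J ≤ N := by omega
      exact_mod_cast this
    calc (J : ℝ) * (8 * (N : ℝ) ^ N * PB r A n K * Z') ≤
        (N : ℝ) * (8 * (N : ℝ) ^ N * PB r A n K * Z') := by gcongr
      _ = Y := by rw [hY, pow_succ]; ring
  have hlio := h6 c s _ Y hY1 hcomp (hβ ▸ hβ0)
  rw [← hβ] at hlio
  have h8 : |β| * ((4 : ℝ) ^ c * Y) ^ (2 ^ c - 1) ≤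
      2 * FB r A n K * Z' * ((4 : ℝ) ^ c * Y) ^ (2 ^ c - 1) := by
    have : 0 ≤ ((4 : ℝ) ^ c * Y) ^ (2 ^ c - 1) := by positivity
    gcongr
  exact absurd (hlio.trans h8) (not_le.mpr hfin)

end Pool.Agent.Work.MP_f1a024_nt.HP
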