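import Mathlib
import Pool.Agent.Work.MP_f1a024_nt.HP.Stmts

set_option autoImplicit false

/-!
# Item PFX of the block [f1a024 HP]: the array of partial fraction coefficients
-/

namespace Pool.Agent.Work.MP_f1a024_nt.HP

open Real Polynomial MeasureTheory Finset Filter Topology
open scoped Nat

namespace I_PFX

/-- `m_ij = d/(i-j)` -/
def mm (d : ℕ) (i j : ℕ) : ℤ := (d : ℤ) / ((i : ℤ) - j)

theorem mm_abs (d i j : ℕ) : |mm d i j| ≤ (d : ℤ) := by
  have := Int.abs_ediv_le_abs (d : ℤ) ((i : ℤ) - j)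
  simpa [mm] using this

theorem dd_pos (r : ℕ) : 1 ≤ dd r := Nat.lcmUpto_pos r

theorem mm_mul (r i j : ℕ) (hi : i ≤ r) (hj : j ≤ r) (hij : i ≠ j) :
    mm (dd r) i j * ((i : ℤ) - j) = (dd r : ℤ) := by
  unfold mm
  apply Int.ediv_mul_cancel
  rw [← Int.natAbs_dvd_natAbs]
  rw [Int.natAbs_natCast]
  have h1 : ((i : ℤ) - j).natAbs ∈ Finset.Icc 1 r := by
    rw [Finset.mem_Icc]
    omega
  exact Finset.dvd_lcm (f := id) h1

/-! ### power series -/

/-- `1/(1-iX)` -/
noncomputable def gs (i : ℕ) : PowerSeries ℤ :=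
  PowerSeries.rescale (i : ℤ) (PowerSeries.mk 1)

theorem gs_inv (i : ℕ) : gs i * (1 - (i : PowerSeries ℤ) * PowerSeries.X) = 1 := by
  have h := congrArg (PowerSeries.rescale (i : ℤ)) (PowerSeries.mk_one_mul_one_sub_eq_one ℤ)
  rw [map_mul, map_sub, map_one, PowerSeries.rescale_X] at h
  simpa [gs] using h

theorem coeff_gs_pow (i s n : ℕ) :
    PowerSeries.coeff n (gs i ^ (s + 1)) = (i : ℤ) ^ n * ((s + n).choose s : ℤ) := by
  unfold gs
  rw [← map_pow, PowerSeries.mk_one_pow_eq_mk_choose_add, PowerSeries.coeff_rescale,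
    PowerSeries.coeff_mk]

/-- `h_i = d X/(1-iX)` -/
noncomputable def hs (d i : ℕ) : PowerSeries ℤ := (d : PowerSeries ℤ) * PowerSeries.X * gs i

theorem hs_mul (r i j : ℕ) (hi : i ≤ r) (hj : j ≤ r) (hij : i ≠ j) :
    hs (dd r) i * hs (dd r) j =
      ((mm (dd r) i j : ℤ) : PowerSeries ℤ) * (hs (dd r) i - hs (dd r) j) := by
  have h1 := gs_inv i
  have h2 := gs_inv j
  have h3 : ((mm (dd r) i j : ℤ) : PowerSeries ℤ) * ((i : PowerSeries ℤ) - (j : PowerSeries ℤ)) =
      (dd r : PowerSeries ℤ) := by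
    have := congrArg (Int.cast : ℤ → PowerSeries ℤ) (mm_mul r i j hi hj hij)
    push_cast at this
    exact this
  have h4 : gs i - gs j = gs i * gs j * ((i : PowerSeries ℤ) - (j : PowerSeries ℤ)) *
      PowerSeries.X := by
    linear_combination (gs j) * h1 - (gs i) * h2
  unfold hs
  calc (dd r : PowerSeries ℤ) * PowerSeries.X * gs i * ((dd r : PowerSeries ℤ) * PowerSeries.X * gs j)
      = (dd r : PowerSeries ℤ) * (dd r : PowerSeries ℤ) * PowerSeries.X * PowerSeries.X *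
        (gs i * gs j) := by ring
    _ = (((mm (dd r) i j : ℤ) : PowerSeries ℤ) * ((i : PowerSeries ℤ) - (j : PowerSeries ℤ))) *
        (dd r : PowerSeries ℤ) * PowerSeries.X * PowerSeries.X * (gs i * gs j) := by rw [h3]
    _ = ((mm (dd r) i j : ℤ) : PowerSeries ℤ) * (dd r : PowerSeries ℤ) * PowerSeries.X *
        (gs i * gs j * ((i : PowerSeries ℤ) - (j : PowerSeries ℤ)) * PowerSeries.X) := by ring
    _ = ((mm (dd r) i j : ℤ) : PowerSeries ℤ) * (dd r : PowerSeries ℤ) * PowerSeries.X *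
        (gs i - gs j) := by rw [h4]
    _ = _ := by ring

theorem coeff_hs_pow (d i s b : ℕ) :
    PowerSeries.coeff (b + 1) (hs d i ^ (s + 1)) =
      (d : ℤ) ^ (s + 1) * ((b.choose s : ℤ) * (i : ℤ) ^ (b - s)) := by
  have h0 : hs d i ^ (s + 1) = PowerSeries.C ((d : ℤ) ^ (s + 1)) *
      (PowerSeries.X ^ (s + 1) * gs i ^ (s + 1)) := by
    unfold hs
    rw [mul_pow, mul_pow, map_pow, mul_assoc]
    congr 2
  rw [h0, PowerSeries.coeff_C_mul]
  congr 1
  rw [PowerSeries.coeff_X_pow_mul']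
  split_ifs with h
  · have h1 : s ≤ b := by omega
    rw [show b + 1 - (s + 1) = b - s by omega, coeff_gs_pow, Nat.add_sub_cancel' h1, mul_comm]
  · rw [Nat.choose_eq_zero_of_lt (by omega)]
    simp

theorem sum_hs_dvd (h3 : S_BAM) (r d : ℕ) :
    (PowerSeries.X : PowerSeries ℤ) ^ (r + 1) ∣
      ∑ j ∈ range (r + 1), ((bb r j : ℤ) : PowerSeries ℤ) * hs d j := by
  rw [PowerSeries.X_pow_dvd_iff]
  intro m hm
  rcases m with _ | b
  · rw [map_sum]
    refine Finset.sum_eq_zero fun j _ => ?_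
    rw [PowerSeries.coeff_zero_eq_constantCoeff_apply]
    simp [hs]
  · rw [map_sum]
    have h4 : ∀ j ∈ range (r + 1), PowerSeries.coeff (b + 1)
        (((bb r j : ℤ) : PowerSeries ℤ) * hs d j) = (d : ℤ) * (bb r j * (j : ℤ) ^ b) := by
      intro j _
      have h5 := coeff_hs_pow d j 0 b
      simp only [zero_add, pow_one, Nat.choose_zero_right, Nat.cast_one, one_mul,
        Nat.sub_zero] at h5
      have h6 : ((bb r j : ℤ) : PowerSeries ℤ) = PowerSeries.C (bb r j) := by simp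
      rw [h6, PowerSeries.coeff_C_mul, h5]
      ring
    rw [Finset.sum_congr rfl h4, ← Finset.mul_sum, h3 r b (by omega), mul_zero]

end I_PFX

open I_PFX in
/-- **Item PFX.** -/
theorem PFX_pf (h1 : S_EX2) (h2 : S_BAS) (h3 : S_BAM) : S_PFX := by
  intro r A hr hA
  set d := dd r with hd
  have hd1 : 1 ≤ d := dd_pos r
  have hdZ : (d : ℤ) ≠ 0 := by
    have : 0 < d := hd1
    exact_mod_cast this.ne'
  have hdR : (d : ℝ) ≠ 0 := by
    have : 0 < d := hd1
    exact_mod_cast this.ne'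
  obtain ⟨e, he1, he2⟩ := h1 r d (mm d) (bb r) hd1 (mm_abs d) A hA
  refine ⟨fun i s => e i s * (d : ℤ) ^ s, ?_, ?_, ?_⟩
  · -- rat
    intro t ht
    have hti : ∀ i, i ≤ r → t - (i : ℝ) ≠ 0 := fun i hi =>
      sub_ne_zero.2 (ht i (Finset.mem_range.2 (by omega)))
    have h4 := he2 ℝ (fun i => (d : ℝ) / (t - i)) (by
      intro i j hi hj hij
      have h5 : ((mm d i j : ℤ) : ℝ) * ((i : ℝ) - j) = (d : ℝ) := by
        have := congrArg (Int.cast : ℤ → ℝ) (mm_mul r i j hi hj hij)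
        push_cast at this
        exact this
      have h6 := hti i hi
      have h7 := hti j hj
      have h8 : (d : ℝ) / (t - i) - (d : ℝ) / (t - j) =
          (d : ℝ) * ((i : ℝ) - j) / ((t - i) * (t - j)) := by
        field_simp
        ring
      rw [h8]
      rw [show ((mm d i j : ℤ) : ℝ) * ((d : ℝ) * ((i : ℝ) - j) / ((t - i) * (t - j))) =
        (((mm d i j : ℤ) : ℝ) * ((i : ℝ) - j)) * (d : ℝ) / ((t - i) * (t - j)) by ring, h5]
      field_simp)
    have h9 : ∑ j ∈ range (r + 1), (bb r j : ℝ) * ((d : ℝ) / (t - j)) =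
        (d : ℝ) * ((r ! : ℝ) / ∏ i ∈ range (r + 1), (t - i)) := by
      rw [h2 r t ht, Finset.mul_sum]
      refine Finset.sum_congr rfl fun j _ => ?_
      ring
    rw [h9, mul_pow] at h4
    have h10 : (d : ℝ) ^ A = (d : ℝ) * (d : ℝ) ^ (A - 1) := by
      rw [← pow_succ']
      congr 1
      omega
    have h11 : ∑ i ∈ range (r + 1), ∑ s ∈ range A, (e i s : ℝ) * ((d : ℝ) / (t - i)) ^ (s + 1) =
        (d : ℝ) * ∑ i ∈ range (r + 1), ∑ s ∈ range A,
          (((e i s * (d : ℤ) ^ s : ℤ)) : ℝ) / (t - i) ^ (s + 1) := by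
      rw [Finset.mul_sum]
      refine Finset.sum_congr rfl fun i _ => ?_
      rw [Finset.mul_sum]
      refine Finset.sum_congr rfl fun s _ => ?_
      rw [div_pow]
      push_cast
      ring
    rw [h11, h10, mul_assoc] at h4
    exact mul_left_cancel₀ hdR h4
  · -- mom
    intro b hb
    have h4 := he2 (PowerSeries ℤ) (hs d) (fun i j hi hj hij => hs_mul r i j hi hj hij)
    have h5 : (PowerSeries.X : PowerSeries ℤ) ^ ((r + 1) * A) ∣
        (∑ j ∈ range (r + 1), ((bb r j : ℤ) : PowerSeries ℤ) * hs d j) ^ A := by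
      rw [pow_mul]
      exact pow_dvd_pow_of_dvd (sum_hs_dvd h3 r d) A
    have h6 := (PowerSeries.X_pow_dvd_iff.1 h5) (b + 1) hb
    rw [h4, map_sum] at h6
    have h7 : ∀ i ∈ range (r + 1), PowerSeries.coeff (b + 1)
        (∑ s ∈ range A, ((e i s : ℤ) : PowerSeries ℤ) * hs d i ^ (s + 1)) =
        (d : ℤ) * ∑ s ∈ range A, e i s * (d : ℤ) ^ s * (b.choose s : ℤ) * (i : ℤ) ^ (b - s) := by
      intro i _
      rw [map_sum, Finset.mul_sum]
      refine Finset.sum_congr rfl fun s _ => ?_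
      have h8 : ((e i s : ℤ) : PowerSeries ℤ) = PowerSeries.C (e i s) := by simp
      rw [h8, PowerSeries.coeff_C_mul, coeff_hs_pow]
      ring
    rw [Finset.sum_congr rfl h7, ← Finset.mul_sum] at h6
    exact (mul_eq_zero.1 h6).resolve_left hdZ
  · -- nrm
    have h4 : ∑ i ∈ range (r + 1), ∑ s ∈ range A, |e i s * (d : ℤ) ^ s| = wnorm d r A e := by
      unfold wnorm
      refine Finset.sum_congr rfl fun i _ => Finset.sum_congr rfl fun s _ => ?_
      rw [abs_mul, abs_of_nonneg (by positivity : (0 : ℤ) ≤ (d : ℤ) ^ s)]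
    have h5 : ∑ j ∈ range (r + 1), |bb r j| = (2 : ℤ) ^ r := by
      have h6 : ∀ j ∈ range (r + 1), |bb r j| = (r.choose j : ℤ) := by
        intro j _
        unfold bb
        rw [abs_mul, abs_pow, abs_neg, abs_one, one_pow, one_mul]
        exact abs_of_nonneg (by positivity)
      rw [Finset.sum_congr rfl h6]
      exact_mod_cast Nat.sum_range_choose r
    rw [h4]
    rw [h5] at he1
    calc wnorm d r A e ≤ ((2 : ℤ) ^ r) ^ A * (A ! : ℤ) * (d : ℤ) ^ (A - 1) := he1
      _ = (d : ℤ) ^ (A - 1) * ((2 : ℤ) ^ r) ^ A * (A ! : ℤ) := by ring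

end Pool.Agent.Work.MP_f1a024_nt.HP
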