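import Mathlib
import Pool.Agent.Work.MP_f1a024_nt.HP.Stmts

set_option autoImplicit false

/-!
# Item PPW: the integers `p_j`
-/

namespace Pool.Agent.Work.MP_f1a024_nt.HP

open Real Polynomial MeasureTheory Finset Filter Topology
open scoped Nat

namespace I_PPW

theorem coeff_bound (B : ℤ) (hB : 0 ≤ B) (a : ℕ → ℤ) (s : Finset ℕ) (ha : ∀ j ∈ s, |a j| ≤ B) :
    ∀ m : ℕ, |(∏ j ∈ s, (X + C (a j) : ℤ[X])).coeff m| ≤ (B + 1) ^ s.card := by
  classical
  induction s using Finset.induction_on with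
  | empty =>
    intro m
    rw [Finset.prod_empty, coeff_one, Finset.card_empty, pow_zero]
    split_ifs <;> simp
  | insert j s hj ih =>
    intro m
    have ih' := ih fun k hk => ha k (Finset.mem_insert_of_mem hk)
    rw [Finset.prod_insert hj, Finset.card_insert_of_notMem hj, add_mul, coeff_add, coeff_C_mul]
    have hpos : (0 : ℤ) ≤ (B + 1) ^ s.card := by positivity
    have h1 : |(X * ∏ k ∈ s, (X + C (a k) : ℤ[X])).coeff m| ≤ (B + 1) ^ s.card := by
      cases m with
      | zero =>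
        rw [coeff_X_mul_zero, abs_zero]
        exact hpos
      | succ m =>
        rw [coeff_X_mul]
        exact ih' m
    have h2 : |a j * (∏ k ∈ s, (X + C (a k) : ℤ[X])).coeff m| ≤ B * (B + 1) ^ s.card := by
      rw [abs_mul]
      exact mul_le_mul (ha j (Finset.mem_insert_self _ _)) (ih' m) (abs_nonneg _) hB
    calc _ ≤ |(X * ∏ k ∈ s, (X + C (a k) : ℤ[X])).coeff m| +
          |a j * (∏ k ∈ s, (X + C (a k) : ℤ[X])).coeff m| := abs_add_le _ _
      _ ≤ (B + 1) ^ s.card + B * (B + 1) ^ s.card := add_le_add h1 h2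
      _ = (B + 1) ^ (s.card + 1) := by ring

/-- The shifted polynomial `Q(x+i)`. -/
theorem taylor_Q (r K i : ℕ) : taylor (i : ℤ) (Qz r K) =
    ∏ j ∈ range (r + 2 * K + 1), (X + C ((i : ℤ) + K - j)) := by
  unfold Qz
  rw [taylor_apply, Polynomial.prod_comp]
  refine Finset.prod_congr rfl fun j _ => ?_
  simp only [sub_comp, add_comp, X_comp, C_comp, C_add, C_sub]
  ring

theorem taylor_E (A n : ℕ) (c : ℕ → ℕ → ℤ) (i : ℕ) : taylor (i : ℤ) (Ez A n c i) =
    ∑ s ∈ range A, C ((n.choose s : ℤ) * c i s * (-1) ^ (n - s)) * X ^ (n - s) := by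
  unfold Ez
  rw [map_sum]
  refine Finset.sum_congr rfl fun s _ => ?_
  rw [taylor_mul, taylor_C, taylor_pow, map_sub, taylor_C, taylor_X, C_mul (a := _ * c i s)]
  have : (C (i : ℤ) - (X + C (i : ℤ)) : ℤ[X]) = C (-1) * X := by
    rw [C_neg, C_1]
    ring
  rw [this, mul_pow, ← C_pow]
  ring

theorem main_coeff (r A n K j : ℕ) (c : ℕ → ℕ → ℤ) (i : ℕ) :
    (hasseDeriv (2 * j) (Qz r K * Ez A n c i)).eval (i : ℤ) =
      ∑ s ∈ range A, ((n.choose s : ℤ) * c i s * (-1) ^ (n - s)) *
        (if n - s ≤ 2 * j then (taylor (i : ℤ) (Qz r K)).coeff (2 * j - (n - s)) else 0) := by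
  rw [← taylor_coeff, taylor_mul, taylor_E, Finset.mul_sum, finsetSum_coeff]
  refine Finset.sum_congr rfl fun s _ => ?_
  rw [mul_left_comm, coeff_C_mul, coeff_mul_X_pow']

theorem zero_coeff (r K i : ℕ) (hi : i ≤ r) : (taylor (i : ℤ) (Qz r K)).coeff 0 = 0 := by
  rw [taylor_Q, coeff_zero_eq_eval_zero, eval_prod]
  refine Finset.prod_eq_zero (i := i + K) (Finset.mem_range.2 (by omega)) ?_
  simp

theorem bound (r K i m : ℕ) (hi : i ≤ r) :
    |(taylor (i : ℤ) (Qz r K)).coeff m| ≤ ((r : ℤ) + K + 1) ^ (r + 2 * K + 1) := by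
  rw [taylor_Q]
  have h := coeff_bound ((r : ℤ) + K) (by positivity) (fun j => (i : ℤ) + K - j)
    (range (r + 2 * K + 1)) (fun j hj => by
      rw [Finset.mem_range] at hj
      rw [abs_le]
      constructor <;> omega) m
  rwa [Finset.card_range] at h

end I_PPW

open I_PPW in
theorem PPW_pf (h1 : S_QEV) : S_PPW := by
  intro r A n K c hPF hA hAn j
  refine ⟨fun h => ?_, fun h => ?_, ?_⟩
  · unfold pp
    rw [neg_eq_zero]
    refine Finset.sum_eq_zero fun i hi => ?_
    have hir : i ≤ r := Nat.lt_succ_iff.1 (Finset.mem_range.1 hi)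
    rw [main_coeff, Finset.sum_eq_zero, mul_zero]
    intro s hs
    rw [Finset.mem_range] at hs
    split_ifs with hle
    · have h0 : 2 * j - (n - s) = 0 := by omega
      rw [h0, zero_coeff r K i hir, mul_zero]
    · rw [mul_zero]
  · unfold pp
    rw [neg_eq_zero]
    refine Finset.sum_eq_zero fun i hi => ?_
    rw [main_coeff, Finset.sum_eq_zero, mul_zero]
    intro s hs
    rw [Finset.mem_range] at hs
    split_ifs with hle
    · rw [coeff_eq_zero_of_natDegree_lt, mul_zero]
      rw [natDegree_taylor, (h1 r K).1]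
      omega
    · rw [mul_zero]
  · have hz : |pp r A n K c j| ≤ ((r : ℤ) + K + 1) ^ (r + 2 * K + 1) * 2 ^ n *
        ((dd r : ℤ) ^ (A - 1) * ((2 : ℤ) ^ r) ^ A * (A ! : ℤ)) := by
      have hQ0 : (0 : ℤ) ≤ ((r : ℤ) + K + 1) ^ (r + 2 * K + 1) := by positivity
      unfold pp
      rw [abs_neg]
      calc _ ≤ ∑ i ∈ range (r + 1), |(-1) ^ i *
              (hasseDeriv (2 * j) (Qz r K * Ez A n c i)).eval (i : ℤ)| :=
            Finset.abs_sum_le_sum_abs _ _
        _ ≤ ∑ i ∈ range (r + 1), ∑ s ∈ range A,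
              (((r : ℤ) + K + 1) ^ (r + 2 * K + 1) * 2 ^ n) * |c i s| := by
            refine Finset.sum_le_sum fun i hi => ?_
            have hir : i ≤ r := Nat.lt_succ_iff.1 (Finset.mem_range.1 hi)
            rw [abs_mul, abs_pow, abs_neg, abs_one, one_pow, one_mul, main_coeff]
            refine (Finset.abs_sum_le_sum_abs _ _).trans (Finset.sum_le_sum fun s hs => ?_)
            rw [abs_mul, abs_mul, abs_mul, abs_pow, abs_neg, abs_one, one_pow, mul_one]
            have hc : |(n.choose s : ℤ)| ≤ 2 ^ n := by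
              rw [abs_of_nonneg (Int.natCast_nonneg _)]
              exact_mod_cast Nat.choose_le_two_pow n s
            have hq : |if n - s ≤ 2 * j then (taylor (i : ℤ) (Qz r K)).coeff (2 * j - (n - s))
                else 0| ≤ ((r : ℤ) + K + 1) ^ (r + 2 * K + 1) := by
              split_ifs
              · exact bound r K i _ hir
              · rw [abs_zero]
                exact hQ0
            calc |(n.choose s : ℤ)| * |c i s| * _ ≤
                (2 ^ n * |c i s|) * ((r : ℤ) + K + 1) ^ (r + 2 * K + 1) :=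
                  mul_le_mul (mul_le_mul_of_nonneg_right hc (abs_nonneg _)) hq (abs_nonneg _)
                    (by positivity)
              _ = _ := by ring
        _ = (((r : ℤ) + K + 1) ^ (r + 2 * K + 1) * 2 ^ n) *
              ∑ i ∈ range (r + 1), ∑ s ∈ range A, |c i s| := by
            simp only [Finset.mul_sum]
        _ ≤ _ := mul_le_mul_of_nonneg_left hPF.nrm (by positivity)
    unfold PB
    have hz' : ((|pp r A n K c j| : ℤ) : ℝ) ≤ ((((r : ℤ) + K + 1) ^ (r + 2 * K + 1) * 2 ^ n *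
        ((dd r : ℤ) ^ (A - 1) * ((2 : ℤ) ^ r) ^ A * (A ! : ℤ)) : ℤ) : ℝ) := by
      exact_mod_cast hz
    push_cast at hz'
    exact hz'

end Pool.Agent.Work.MP_f1a024_nt.HP
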