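import Mathlib
import Pool.Agent.Work.MP_f1a024_nt.HP.Stmts

set_option autoImplicit false

namespace Pool.Agent.Work.MP_f1a024_nt.HP

open Real Polynomial MeasureTheory Finset Filter Topology
open scoped Nat

namespace I_PSB

theorem fact_eq (r : ℕ) : ∏ i ∈ range r, ((r : ℝ) - i) = (r ! : ℝ) := by
  rw [← Finset.prod_range_add_one_eq_factorial]
  push_cast
  rw [← Finset.prod_range_reflect]
  refine Finset.prod_congr rfl ?_
  intro i hi
  have hi' : i < r := Finset.mem_range.1 hi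
  have h1 : ((r - 1 - i : ℕ) : ℝ) = (r : ℝ) - 1 - i := by
    rw [Nat.cast_sub (by omega), Nat.cast_sub (by omega)]
    push_cast
    ring
  rw [h1]
  ring

theorem base_bound (r : ℕ) (hr : 1 ≤ r) (t : ℝ) (ht : (r : ℝ) + 1 ≤ t) :
    0 < (r ! : ℝ) / ∏ i ∈ range (r + 1), (t - i) ∧
      (r ! : ℝ) / ∏ i ∈ range (r + 1), (t - i) ≤ ((r : ℝ) / t) ^ r := by
  have hr0 : (1 : ℝ) ≤ (r : ℝ) := by exact_mod_cast hr
  have ht0 : 0 < t := by linarith
  have hpos : ∀ i ∈ range (r + 1), 0 < t - (i : ℝ) := by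
    intro i hi
    have hi' : i ≤ r := Nat.lt_succ_iff.1 (Finset.mem_range.1 hi)
    have : (i : ℝ) ≤ (r : ℝ) := by exact_mod_cast hi'
    linarith
  have hP : 0 < ∏ i ∈ range (r + 1), (t - (i : ℝ)) := Finset.prod_pos hpos
  have hf : (0 : ℝ) < (r ! : ℝ) := by exact_mod_cast Nat.factorial_pos r
  refine ⟨div_pos hf hP, ?_⟩
  rw [div_le_iff₀ hP, Finset.prod_range_succ, ← fact_eq]
  have h1 : ∏ i ∈ range r, ((r : ℝ) - i) ≤ ∏ i ∈ range r, ((r : ℝ) / t * (t - i)) := by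
    refine Finset.prod_le_prod ?_ ?_
    · intro i hi
      have hi' : i < r := Finset.mem_range.1 hi
      have : (i : ℝ) ≤ (r : ℝ) := by exact_mod_cast hi'.le
      linarith
    · intro i hi
      have hi' : i < r := Finset.mem_range.1 hi
      have h2 : (r : ℝ) / t * (t - i) = r - (r : ℝ) / t * i := by
        field_simp
      rw [h2]
      have h3 : (r : ℝ) / t ≤ 1 := by
        rw [div_le_one ht0]
        linarith
      have h4 : (r : ℝ) / t * i ≤ 1 * i :=
        mul_le_mul_of_nonneg_right h3 (Nat.cast_nonneg i)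
      linarith
  have h5 : ∏ i ∈ range r, ((r : ℝ) / t * (t - i)) =
      ((r : ℝ) / t) ^ r * ∏ i ∈ range r, (t - (i : ℝ)) := by
    rw [Finset.prod_mul_distrib, Finset.prod_const, Finset.card_range]
  have h6 : 0 < ∏ i ∈ range r, (t - (i : ℝ)) := by
    refine Finset.prod_pos ?_
    intro i hi
    exact hpos i (Finset.mem_range.2 (by have := Finset.mem_range.1 hi; omega))
  have h7 : 0 ≤ ((r : ℝ) / t) ^ r * (∏ i ∈ range r, (t - (i : ℝ))) := by positivity
  calc ∏ i ∈ range r, ((r : ℝ) - i) ≤ ((r : ℝ) / t) ^ r * (∏ i ∈ range r, (t - (i : ℝ))) := by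
        rw [← h5]; exact h1
    _ = ((r : ℝ) / t) ^ r * (∏ i ∈ range r, (t - (i : ℝ))) * 1 := by ring
    _ ≤ ((r : ℝ) / t) ^ r * (∏ i ∈ range r, (t - (i : ℝ))) * (t - r) :=
        mul_le_mul_of_nonneg_left (by linarith) h7
    _ = ((r : ℝ) / t) ^ r * ((∏ i ∈ range r, (t - (i : ℝ))) * (t - r)) := by ring

end I_PSB

theorem PSB_pf : S_PSB := by
  intro r A hr t ht
  obtain ⟨h1, h2⟩ := I_PSB.base_bound r hr t ht
  unfold Psi
  refine ⟨pow_pos h1 A, ?_⟩
  rw [pow_mul]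
  exact pow_le_pow_left₀ h1.le h2 A

end Pool.Agent.Work.MP_f1a024_nt.HP
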