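import Mathlib
import Pool.Agent.Work.MP_f1a024_nt.HP.Stmts

set_option autoImplicit false

/-!
Item RAT of the block [f1a024 HP].
-/

namespace Pool.Agent.Work.MP_f1a024_nt.HP

open Real Polynomial MeasureTheory Finset Filter Topology
open scoped Nat

namespace I_RAT

/-- the product is positive to the right of `r` -/
lemma prod_pos (r : ℕ) (t : ℝ) (ht : (r : ℝ) < t) : 0 < ∏ i ∈ range (r + 1), (t - i) := by
  refine Finset.prod_pos fun i hi => ?_
  have h1 : (i : ℝ) ≤ r := by exact_mod_cast Nat.lt_succ_iff.1 (Finset.mem_range.1 hi)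
  linarith

lemma Psi_pos (r A : ℕ) (t : ℝ) (ht : (r : ℝ) < t) : 0 < Psi r A t := by
  unfold Psi
  have h1 := prod_pos r t ht
  positivity

lemma Psi_scale (r A : ℕ) (z w : ℝ) (hz : (r : ℝ) + 1 ≤ z) (hw : 1 < w) :
    Psi r A ((z + 1) * w) ≤ (z / (z + 1)) ^ ((r + 1) * A) * Psi r A (z * w) := by
  have hr : (0 : ℝ) ≤ r := Nat.cast_nonneg r
  have hz0 : 0 < z := by linarith
  have hz1 : 0 < z + 1 := by linarith
  have hzw : (r : ℝ) < z * w := by nlinarith
  have hzw' : (r : ℝ) < (z + 1) * w := by nlinarith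
  have hP := prod_pos r _ hzw
  have hP' := prod_pos r _ hzw'
  have hrho : 0 < z / (z + 1) := by positivity
  have hrho1 : z / (z + 1) ≤ 1 := by
    rw [div_le_one hz1]
    linarith
  have h1 : ∏ i ∈ range (r + 1), (z * w - i) ≤
      (z / (z + 1)) ^ (r + 1) * ∏ i ∈ range (r + 1), ((z + 1) * w - i) := by
    have h2 : (z / (z + 1)) ^ (r + 1) = ∏ i ∈ range (r + 1), (z / (z + 1)) := by
      rw [Finset.prod_const, Finset.card_range]
    rw [h2, ← Finset.prod_mul_distrib]
    refine Finset.prod_le_prod (fun i hi => ?_) (fun i hi => ?_)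
    · have h3 : (i : ℝ) ≤ r := by exact_mod_cast Nat.lt_succ_iff.1 (Finset.mem_range.1 hi)
      linarith
    · have h3 : z / (z + 1) * ((z + 1) * w - i) = z * w - z / (z + 1) * i := by
        field_simp
      rw [h3]
      have h4 : z / (z + 1) * i ≤ i := by
        have : (0 : ℝ) ≤ i := Nat.cast_nonneg i
        nlinarith
      linarith
  unfold Psi
  rw [pow_mul, ← mul_pow]
  have hf : (0 : ℝ) < (r ! : ℝ) := by exact_mod_cast Nat.factorial_pos r
  refine pow_le_pow_left₀ (by positivity) ?_ A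
  rw [mul_div_assoc', div_le_div_iff₀ hP' hP]
  calc (r ! : ℝ) * ∏ i ∈ range (r + 1), (z * w - i)
      ≤ (r ! : ℝ) * ((z / (z + 1)) ^ (r + 1) * ∏ i ∈ range (r + 1), ((z + 1) * w - i)) :=
        mul_le_mul_of_nonneg_left h1 hf.le
    _ = (z / (z + 1)) ^ (r + 1) * (r ! : ℝ) * ∏ i ∈ range (r + 1), ((z + 1) * w - i) := by ring

/-- substitution `y = z w` -/
lemma HH_subst (r A n : ℕ) (z : ℝ) (hz : 0 < z) :
    HH r A n z = z ^ (n + 1) * ∫ w in Set.Ioi (1 : ℝ), (w - 1) ^ n * Psi r A (z * w) := by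
  have h1 := MeasureTheory.integral_comp_mul_left_Ioi
    (fun y : ℝ => (y - z) ^ n * Psi r A y) 1 hz
  rw [mul_one] at h1
  have h2 : ∫ w in Set.Ioi (1 : ℝ), (z * w - z) ^ n * Psi r A (z * w) =
      z ^ n * ∫ w in Set.Ioi (1 : ℝ), (w - 1) ^ n * Psi r A (z * w) := by
    rw [← MeasureTheory.integral_const_mul]
    congr 1
    funext w
    have h3 : z * w - z = z * (w - 1) := by ring
    rw [h3, mul_pow]
    ring
  rw [h2, smul_eq_mul] at h1
  unfold HH
  have h4 : ∫ y in Set.Ioi z, (y - z) ^ n * Psi r A y =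
      z * (z⁻¹ * ∫ y in Set.Ioi z, (y - z) ^ n * Psi r A y) := by
    rw [← mul_assoc, mul_inv_cancel₀ hz.ne', one_mul]
  rw [h4, ← h1]
  ring

lemma subst_integrable (r A n : ℕ) (z : ℝ) (hz : 0 < z)
    (h : IntegrableOn (fun y => (y - z) ^ n * Psi r A y) (Set.Ioi z)) :
    IntegrableOn (fun w => (w - 1) ^ n * Psi r A (z * w)) (Set.Ioi 1) := by
  have h1 := (MeasureTheory.integrableOn_Ioi_comp_mul_left_iff
    (fun y : ℝ => (y - z) ^ n * Psi r A y) 1 hz).2 (by rw [mul_one]; exact h)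
  have h2 := h1.const_mul ((z ^ n)⁻¹)
  refine (integrableOn_congr_fun (fun w _ => ?_) measurableSet_Ioi).1 h2
  have h3 : z * w - z = z * (w - 1) := by ring
  have h4 : z ^ n ≠ 0 := pow_ne_zero _ hz.ne'
  change (z ^ n)⁻¹ * ((z * w - z) ^ n * Psi r A (z * w)) = _
  rw [h3, mul_pow]
  field_simp

lemma bound3 (a e : ℕ) (he : e + 2 ≤ a) (z : ℝ) (hz : 0 < z) (ρ : ℝ) (hρ : 0 ≤ ρ) :
    IntegrableOn (fun y : ℝ => y ^ e * (ρ / y) ^ a) (Set.Ioi z) ∧
    ∫ y in Set.Ioi z, y ^ e * (ρ / y) ^ a ≤ z ^ (e + 1) * (ρ / z) ^ a := by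
  have hlt : (e : ℝ) - a < -1 := by
    have : (e : ℝ) + 2 ≤ a := by exact_mod_cast he
    linarith
  have hc : ∀ y ∈ Set.Ioi z, ρ ^ a * y ^ ((e : ℝ) - a) = y ^ e * (ρ / y) ^ a := by
    intro y hy
    have hy0 : 0 < y := lt_trans hz hy
    rw [Real.rpow_sub hy0, Real.rpow_natCast, Real.rpow_natCast, div_pow]
    ring
  have hi : IntegrableOn (fun y : ℝ => ρ ^ a * y ^ ((e : ℝ) - a)) (Set.Ioi z) :=
    (integrableOn_Ioi_rpow_of_lt hlt hz).const_mul _
  refine ⟨(integrableOn_congr_fun hc measurableSet_Ioi).1 hi, ?_⟩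
  rw [← setIntegral_congr_fun measurableSet_Ioi hc, MeasureTheory.integral_const_mul,
    integral_Ioi_rpow_of_lt hlt hz]
  have h1 : z ^ ((e : ℝ) - a + 1) = z ^ (e + 1) / z ^ a := by
    have : (e : ℝ) - a + 1 = ((e + 1 : ℕ) : ℝ) - (a : ℕ) := by
      push_cast
      ring
    rw [this, Real.rpow_sub hz, Real.rpow_natCast, Real.rpow_natCast]
  rw [h1, div_pow]
  have he' : (e : ℝ) + 2 ≤ a := by exact_mod_cast he
  have h2 : (1 : ℝ) ≤ -((e : ℝ) - a + 1) := by linarith
  have h3 : -(z ^ (e + 1) / z ^ a) / ((e : ℝ) - a + 1) =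
      (z ^ (e + 1) / z ^ a) / (-((e : ℝ) - a + 1)) := by
    rw [neg_div, div_neg]
  rw [h3]
  have h4 : (z ^ (e + 1) / z ^ a) / (-((e : ℝ) - a + 1)) ≤ z ^ (e + 1) / z ^ a :=
    div_le_self (by positivity) h2
  calc ρ ^ a * ((z ^ (e + 1) / z ^ a) / (-((e : ℝ) - a + 1)))
      ≤ ρ ^ a * (z ^ (e + 1) / z ^ a) := mul_le_mul_of_nonneg_left h4 (by positivity)
    _ = z ^ (e + 1) * (ρ ^ a / z ^ a) := by ring

end I_RAT

open I_RAT in
/-- RAT: positivity, ratio and size of `H`. -/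
theorem RAT_pf (h1 : S_PSB) (h2 : S_HIN) : S_RAT := by
  intro r A n hr hn z hz
  have hr0 : (0 : ℝ) ≤ r := Nat.cast_nonneg r
  have hrz : (r : ℝ) < z := by linarith
  have hrz1 : (r : ℝ) < z + 1 := by linarith
  have hz0 : 0 < z := by linarith
  have hz1 : 0 < z + 1 := by linarith
  have hn' : n + 2 ≤ (r + 1) * A := by nlinarith
  obtain ⟨hint, -⟩ := h2 r A n hr hn'
  have hiz := hint z hrz
  have hiz1 := hint (z + 1) hrz1
  refine ⟨?_, ?_, ?_⟩
  · unfold HH
    rw [setIntegral_pos_iff_support_of_nonneg_ae]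
    · have hsub : Set.Ioi z ⊆ Function.support (fun y => (y - z) ^ n * Psi r A y) ∩ Set.Ioi z := by
        intro y hy
        refine ⟨?_, hy⟩
        have hy' : z < y := hy
        have e1 : 0 < (y - z) ^ n := pow_pos (by linarith) n
        have e2 := Psi_pos r A y (by linarith)
        exact (mul_pos e1 e2).ne'
      refine lt_of_lt_of_le ?_ (measure_mono hsub)
      rw [Real.volume_Ioi]
      exact ENNReal.coe_lt_top
    · refine (ae_restrict_iff' measurableSet_Ioi).2 (Eventually.of_forall fun y hy => ?_)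
      have hy' : z < y := hy
      have e1 : 0 < (y - z) ^ n := pow_pos (by linarith) n
      have e2 := Psi_pos r A y (by linarith)
      exact (mul_pos e1 e2).le
    · exact hiz
  · rw [HH_subst r A n z hz0, HH_subst r A n (z + 1) hz1]
    have hI := subst_integrable r A n z hz0 hiz
    have hI1 := subst_integrable r A n (z + 1) hz1 hiz1
    have hle : ∫ w in Set.Ioi (1 : ℝ), (w - 1) ^ n * Psi r A ((z + 1) * w) ≤
        (z / (z + 1)) ^ ((r + 1) * A) *
          ∫ w in Set.Ioi (1 : ℝ), (w - 1) ^ n * Psi r A (z * w) := by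
      rw [← MeasureTheory.integral_const_mul]
      refine setIntegral_mono_on hI1 (hI.const_mul _) measurableSet_Ioi fun w hw => ?_
      have hw' : 1 < w := hw
      have e1 : 0 ≤ (w - 1) ^ n := pow_nonneg (by linarith) n
      have e2 := mul_le_mul_of_nonneg_left (Psi_scale r A z w hz hw') e1
      calc (w - 1) ^ n * Psi r A ((z + 1) * w)
          ≤ (w - 1) ^ n * ((z / (z + 1)) ^ ((r + 1) * A) * Psi r A (z * w)) := e2
        _ = (z / (z + 1)) ^ ((r + 1) * A) * ((w - 1) ^ n * Psi r A (z * w)) := by ring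
    obtain ⟨d, hd⟩ := Nat.exists_eq_add_of_le hn'
    have hexp : (r + 1) * A - n - 1 = d + 1 := by omega
    have hexp' : (r + 1) * A = (n + 1) + (d + 1) := by omega
    rw [hexp]
    rw [hexp'] at hle
    set J := ∫ w in Set.Ioi (1 : ℝ), (w - 1) ^ n * Psi r A (z * w) with hJ
    calc (z + 1) ^ (n + 1) * ∫ w in Set.Ioi (1 : ℝ), (w - 1) ^ n * Psi r A ((z + 1) * w)
        ≤ (z + 1) ^ (n + 1) * ((z / (z + 1)) ^ ((n + 1) + (d + 1)) * J) :=
          mul_le_mul_of_nonneg_left hle (by positivity)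
      _ = (z / (z + 1)) ^ (d + 1) * (z ^ (n + 1) * J) := by
          have e1 : (z + 1) ^ (n + 1) * (z / (z + 1)) ^ (n + 1) = z ^ (n + 1) := by
            rw [← mul_pow, mul_div_cancel₀ z hz1.ne']
          rw [pow_add (z / (z + 1)) (n + 1) (d + 1), ← e1]
          ring
  · have hb := bound3 (r * A) n hn z hz0 r hr0
    refine le_trans ?_ hb.2
    unfold HH
    refine setIntegral_mono_on hiz hb.1 measurableSet_Ioi fun y hy => ?_
    have hy' : z < y := hy
    have e1 := (h1 r A hr y (by linarith)).2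
    have e2 := (h1 r A hr y (by linarith)).1
    refine mul_le_mul (pow_le_pow_left₀ (by linarith) (by linarith) n) e1 e2.le ?_
    exact pow_nonneg (by linarith) n

end Pool.Agent.Work.MP_f1a024_nt.HP
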