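import Mathlib
import Pool.Agent.Work.MP_f1a024_nt.HP.Stmts

set_option autoImplicit false

/-!
Item RES of the block [f1a024 HP] (helper48).
-/

namespace Pool.Agent.Work.MP_f1a024_nt.HP

open Real Polynomial MeasureTheory Finset Filter Topology
open scoped Nat

/-- RES: from `G n` to `t(n)`. -/
theorem RES_pf (h1 : S_MAIN) : S_RES := by
  intro c
  obtain ⟨κ, C, hκ, hC, hmain⟩ := h1 c
  refine ⟨κ, C, hκ, hC, ?_⟩
  intro N L hN hL hNL M hM hMN δ hδ s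
  obtain ⟨n, hodd, hn3, hn1, hn2, hn⟩ := hmain N L hN hL hNL M hM hMN δ hδ s
  refine ⟨n, hodd, hn3, hn1, hn2, ?_⟩
  intro I a b hb1 hb2 heq
  have hδ0 : 0 < δ := lt_of_lt_of_le (exp_pos _) hδ
  have hz0 : riemannZeta n ≠ 0 := riemannZeta_ne_zero_of_one_le_re (by simp; omega)
  have hz2 : riemannZeta (2 * n) ≠ 0 := riemannZeta_ne_zero_of_one_le_re (by
    simp
    have : (3:ℝ) ≤ n := by exact_mod_cast hn3
    linarith)
  have hch : ((2 * n).choose n : ℂ) ≠ 0 := by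
    exact_mod_cast (Nat.choose_pos (by omega : n ≤ 2 * n)).ne'
  have hT : riemannZeta (2 * n) / riemannZeta n ^ 2 * ((2 * n).choose n : ℂ) ≠ 0 :=
    mul_ne_zero (div_ne_zero hz2 (pow_ne_zero _ hz0)) hch
  have hl := OddG.link n (by omega) hodd
  have e1 : riemannZeta (2 * n) / riemannZeta n ^ 2 * ((2 * n).choose n : ℂ) *
      (((δ : ℂ) * a) ^ 2 * ∏ i ∈ I, (s i : ℂ)) =
      riemannZeta (2 * n) / riemannZeta n ^ 2 * ((2 * n).choose n : ℂ) *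
      ((b : ℂ) * (M : ℂ) ^ n * ((OddG.G n : ℝ) : ℂ)) ^ 2 := by
    rw [← mul_assoc, heq, mul_pow ((b : ℂ) * (M : ℂ) ^ n), mul_left_comm, hl]
    ring
  have e2 := mul_left_cancel₀ hT e1
  have e3 : (δ * a) ^ 2 * ∏ i ∈ I, (s i : ℝ) = ((b : ℝ) * (M : ℝ) ^ n * OddG.G n) ^ 2 := by
    exact_mod_cast e2
  have hP : 0 ≤ ∏ i ∈ I, (s i : ℝ) := Finset.prod_nonneg (fun i _ => Nat.cast_nonneg _)
  have e4 : (δ * |(a : ℝ)| * √(∏ i ∈ I, (s i : ℝ))) ^ 2 =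
      ((b : ℝ) * (M : ℝ) ^ n * OddG.G n) ^ 2 := by
    rw [← e3, mul_pow, mul_pow, mul_pow, sq_abs, Real.sq_sqrt hP]
  rcases sq_eq_sq_iff_eq_or_eq_neg.mp e4 with h4 | h4
  · refine hn I |a| b hb1 hb2 ?_
    push_cast
    exact h4.symm
  · refine hn I (-|a|) b hb1 hb2 ?_
    push_cast
    linarith

end Pool.Agent.Work.MP_f1a024_nt.HP
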