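import Pool.Agent.Work.MP_f1a024_nt.HP.Stmts

/-!
# Item SPF of the block [f1a024 HP]: partial fractions of `π / sin (π x)` with an error bound
-/

set_option autoImplicit false

namespace Pool.Agent.Work.MP_f1a024_nt.HP

open Real Finset Filter Topology

namespace I_SPF

/-- The pair of terms `1/(x-(n+1)) + 1/(x+(n+1))`. -/
noncomputable def a (x : ℝ) (n : ℕ) : ℝ := 1 / (x - (n + 1)) + 1 / (x + (n + 1))

lemma mem_ic {x : ℝ} (hx : ∀ k : ℤ, x ≠ (k : ℝ)) : (x : ℂ) ∈ Complex.integerComplement := by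
  rw [Complex.integerComplement, Set.mem_compl_iff, Set.mem_range]
  rintro ⟨k, hk⟩
  exact hx k (by exact_mod_cast hk.symm)

lemma hasSum_a {x : ℝ} (hx : ∀ k : ℤ, x ≠ (k : ℝ)) :
    HasSum (a x) (π * Real.cot (π * x) - 1 / x) := by
  rw [← Complex.hasSum_ofReal]
  have h := (summable_cotTerm (mem_ic hx)).hasSum
  have h2 := cot_series_rep' (mem_ic hx)
  simp only [cotTerm] at h
  rw [← h2] at h
  convert h using 1
  · funext n
    simp [a]
  · push_cast
    rfl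

lemma hasSum_odd {x : ℝ} (hx : ∀ k : ℤ, x ≠ (k : ℝ)) :
    HasSum (fun n => a x (2 * n + 1)) ((π * Real.cot (π * (x / 2)) - 2 / x) / 2) := by
  have hx2 : ∀ k : ℤ, x / 2 ≠ (k : ℝ) := fun k hk => hx (2 * k) (by push_cast; linarith)
  have h := (hasSum_a hx2).div_const 2
  have hx0 : x ≠ 0 := fun h => hx 0 (by simpa using h)
  have hf : (fun n => a (x / 2) n / 2) = fun n => a x (2 * n + 1) := by
    funext n
    simp only [a]
    push_cast
    have e1 : 1 / (x / 2 - (n + 1)) / 2 = 1 / (x - (2 * (n : ℝ) + 1 + 1)) := by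
      rw [div_div]
      congr 1
      ring
    have e2 : 1 / (x / 2 + (n + 1)) / 2 = 1 / (x + (2 * (n : ℝ) + 1 + 1)) := by
      rw [div_div]
      congr 1
      ring
    rw [add_div, e1, e2]
  have hv : (π * Real.cot (π * (x / 2)) - 1 / (x / 2)) / 2 =
      (π * Real.cot (π * (x / 2)) - 2 / x) / 2 := by
    rw [one_div_div]
  rw [hv, hf] at h
  exact h

lemma hasSum_alt {x : ℝ} (hx : ∀ k : ℤ, x ≠ (k : ℝ)) :
    HasSum (fun n : ℕ => (-1 : ℝ) ^ (n + 1) * a x n) (π / sin (π * x) - 1 / x) := by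
  have hT := hasSum_a hx
  have hE := hasSum_odd hx
  have hsO : Summable (fun n : ℕ => a x (2 * n)) :=
    hT.summable.comp_injective (fun m n h => by simpa using h)
  have hO := hsO.hasSum
  have hTE := HasSum.even_add_odd hO hE
  have heq := hT.unique hTE
  have h1 : HasSum (fun n : ℕ => (-1 : ℝ) ^ (2 * n + 1) * a x (2 * n))
      (-∑' n : ℕ, a x (2 * n)) := by
    have hf : (fun n : ℕ => (-1 : ℝ) ^ (2 * n + 1) * a x (2 * n)) = fun n => -(a x (2 * n)) := by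
      funext n
      rw [pow_succ, pow_mul]
      simp
    rw [hf]
    exact hO.neg
  have h2 : HasSum (fun n : ℕ => (-1 : ℝ) ^ (2 * n + 1 + 1) * a x (2 * n + 1))
      ((π * Real.cot (π * (x / 2)) - 2 / x) / 2) := by
    have hf : (fun n : ℕ => (-1 : ℝ) ^ (2 * n + 1 + 1) * a x (2 * n + 1)) =
        fun n => a x (2 * n + 1) := by
      funext n
      rw [show 2 * n + 1 + 1 = 2 * (n + 1) by ring, pow_mul]
      simp
    rw [hf]
    exact hE
  have h3 := HasSum.even_add_odd (f := fun n : ℕ => (-1 : ℝ) ^ (n + 1) * a x n) h1 h2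
  convert h3 using 1
  have hsin : sin (π * x) ≠ 0 := by
    rw [Real.sin_ne_zero_iff]
    intro k hk
    refine hx k ?_
    have := Real.pi_pos.ne'
    have h : π * (k : ℝ) = π * x := by linarith
    exact (mul_left_cancel₀ this h).symm
  have hx0 : x ≠ 0 := fun h => hx 0 (by simpa using h)
  have hs2 : sin (π * x) = 2 * sin (π * (x / 2)) * cos (π * (x / 2)) := by
    rw [← Real.sin_two_mul]
    congr 1
    ring
  have hc2 : cos (π * x) = 2 * cos (π * (x / 2)) ^ 2 - 1 := by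
    rw [← Real.cos_two_mul]
    congr 1
    ring
  have hsh : sin (π * (x / 2)) ≠ 0 := fun h => hsin (by rw [hs2, h]; ring)
  have hch : cos (π * (x / 2)) ≠ 0 := fun h => hsin (by rw [hs2, h]; ring)
  have hO' : ∑' n : ℕ, a x (2 * n) = π * Real.cot (π * x) - 1 / x -
      (π * Real.cot (π * (x / 2)) - 2 / x) / 2 := by linarith
  rw [hO', Real.cot_eq_cos_div_sin, Real.cot_eq_cos_div_sin, hc2, hs2]
  generalize sin (π * (x / 2)) = s at hsh
  generalize cos (π * (x / 2)) = c at hch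
  field_simp
  ring

lemma abs_a_le {x : ℝ} {M n : ℕ} (hM : 1 ≤ M) (hxM : 2 * |x| ≤ M) (hn : M ≤ n) :
    |a x n| ≤ 8 / 3 * |x| * (1 / (n : ℝ) - 1 / ((n : ℝ) + 1)) := by
  have hn' : (M : ℝ) ≤ n := by exact_mod_cast hn
  have hM' : (1 : ℝ) ≤ M := by exact_mod_cast hM
  have hn0 : (0 : ℝ) < n := by linarith
  have hx1 : 2 * |x| < n + 1 := by linarith
  have hle := abs_le.1 (le_refl |x|)
  have hm : x - (n + 1) ≠ 0 := by
    intro h
    linarith
  have hp : x + (n + 1) ≠ 0 := by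
    intro h
    linarith
  have hsq : x ^ 2 ≤ ((n : ℝ) + 1) ^ 2 / 4 := by
    have : |x| ^ 2 ≤ (((n : ℝ) + 1) / 2) ^ 2 := by
      apply pow_le_pow_left₀ (abs_nonneg x)
      linarith
    rw [sq_abs] at this
    nlinarith
  have hden : 3 / 4 * ((n : ℝ) + 1) ^ 2 ≤ ((n : ℝ) + 1) ^ 2 - x ^ 2 := by nlinarith
  have hden0 : 0 < ((n : ℝ) + 1) ^ 2 - x ^ 2 := by
    have : 0 < ((n : ℝ) + 1) ^ 2 := by positivity
    linarith
  have he : a x n = -(2 * x / (((n : ℝ) + 1) ^ 2 - x ^ 2)) := by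
    rw [a, div_add_div _ _ hm hp, ← neg_div_neg_eq, neg_div]
    congr 1
    rw [show -((x - ((n : ℝ) + 1)) * (x + (n + 1))) = ((n : ℝ) + 1) ^ 2 - x ^ 2 by ring]
    rw [show 1 * (x + ((n : ℝ) + 1)) + (x - (n + 1)) * 1 = 2 * x by ring]
  rw [he, abs_neg, abs_div, abs_of_pos hden0, abs_mul, abs_two]
  have h1 : (1 : ℝ) / n - 1 / (n + 1) = 1 / (n * (n + 1)) := by
    field_simp
    ring
  rw [h1]
  have h2 : 2 * |x| / (((n : ℝ) + 1) ^ 2 - x ^ 2) ≤ 2 * |x| / (3 / 4 * ((n : ℝ) + 1) ^ 2) :=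
    div_le_div_of_nonneg_left (by positivity) (by positivity) hden
  have h3 : 2 * |x| / (3 / 4 * ((n : ℝ) + 1) ^ 2) = 8 / 3 * |x| * (1 / ((n : ℝ) + 1) ^ 2) := by
    field_simp
    ring
  have h4 : 1 / ((n : ℝ) + 1) ^ 2 ≤ 1 / (n * (n + 1)) :=
    one_div_le_one_div_of_le (by positivity) (by nlinarith)
  have h5 : 8 / 3 * |x| * (1 / ((n : ℝ) + 1) ^ 2) ≤ 8 / 3 * |x| * (1 / ((n : ℝ) * (n + 1))) :=
    mul_le_mul_of_nonneg_left h4 (by positivity)
  linarith

lemma tel {M N : ℕ} (h : M ≤ N) : ∑ n ∈ Ico M N, (1 / (n : ℝ) - 1 / ((n : ℝ) + 1)) =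
    1 / (M : ℝ) - 1 / (N : ℝ) := by
  induction N, h using Nat.le_induction with
  | base => simp
  | succ N hN ih =>
    rw [Finset.sum_Ico_succ_top hN, ih]
    push_cast
    ring

end I_SPF

open I_SPF in
/-- SPF. -/
theorem SPF_pf : S_SPF := by
  intro x M hM hxM hx
  have hS := (hasSum_alt hx).tendsto_sum_nat
  have hbound : ∀ N, M ≤ N → |(∑ n ∈ range N, (-1 : ℝ) ^ (n + 1) * a x n) -
      ∑ n ∈ range M, (-1 : ℝ) ^ (n + 1) * a x n| ≤ 3 * |x| / M := by
    intro N hN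
    rw [← Finset.sum_Ico_eq_sub _ hN]
    have hM' : (0 : ℝ) < M := by exact_mod_cast hM
    have hN' : (0 : ℝ) < N := by exact_mod_cast (lt_of_lt_of_le hM hN)
    calc |∑ n ∈ Ico M N, (-1 : ℝ) ^ (n + 1) * a x n|
        ≤ ∑ n ∈ Ico M N, |(-1 : ℝ) ^ (n + 1) * a x n| := Finset.abs_sum_le_sum_abs _ _
      _ ≤ ∑ n ∈ Ico M N, 8 / 3 * |x| * (1 / (n : ℝ) - 1 / ((n : ℝ) + 1)) := by
          refine Finset.sum_le_sum fun n hn => ?_
          rw [abs_mul, abs_pow, abs_neg, abs_one, one_pow, one_mul]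
          exact abs_a_le hM hxM (Finset.mem_Ico.1 hn).1
      _ = 8 / 3 * |x| * (1 / (M : ℝ) - 1 / N) := by
          rw [← Finset.mul_sum, tel hN]
      _ ≤ 8 / 3 * |x| * (1 / (M : ℝ)) := by
          refine mul_le_mul_of_nonneg_left ?_ (by positivity)
          have : 0 < 1 / (N : ℝ) := by positivity
          linarith
      _ ≤ 3 * |x| / M := by
          rw [mul_one_div]
          refine div_le_div_of_nonneg_right ?_ hM'.le
          nlinarith [abs_nonneg x]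
  have hlim : Tendsto (fun N : ℕ => |(∑ n ∈ range N, (-1 : ℝ) ^ (n + 1) * a x n) -
      ∑ n ∈ range M, (-1 : ℝ) ^ (n + 1) * a x n|) atTop
      (𝓝 |(π / sin (π * x) - 1 / x) - ∑ n ∈ range M, (-1 : ℝ) ^ (n + 1) * a x n|) :=
    (hS.sub_const _).abs
  have h := le_of_tendsto hlim (eventually_atTop.2 ⟨M, hbound⟩)
  have he : π / sin (π * x) - (1 / x + ∑ m ∈ range M,
      (-1 : ℝ) ^ (m + 1) * (1 / (x - (m + 1)) + 1 / (x + (m + 1)))) =
      (π / sin (π * x) - 1 / x) - ∑ n ∈ range M, (-1 : ℝ) ^ (n + 1) * a x n := by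
    simp only [a]
    ring
  rw [he]
  exact h

end Pool.Agent.Work.MP_f1a024_nt.HP
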