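import Mathlib
import Pool.Agent.Work.MP_f1a024_nt.HP.Stmts

set_option autoImplicit false

namespace Pool.Agent.Work.MP_f1a024_nt.HP

open Real Polynomial MeasureTheory Finset Filter Topology
open scoped Nat

namespace I_TRM

lemma JJ_lin (r A n : ℕ) (c : ℕ → ℕ → ℤ) (g h : ℝ → ℝ) (p : ℝ[X]) (q m0 : ℝ)
    (hh : ContinuousOn h (Set.Icc 0 (r : ℝ)))
    (hg : ∀ x : ℝ, x ≠ m0 → g x = p.eval x + q * h x) :
    JJ r A n c g = JJ r A n c (fun x => p.eval x) + q * JJ r A n c h := by
  unfold JJ
  rw [Finset.mul_sum, ← Finset.sum_add_distrib]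
  apply Finset.sum_congr rfl
  intro i hi
  have hir : (i : ℝ) ≤ r := by
    have : i ≤ r := by
      have := Finset.mem_range.mp hi
      omega
    exact_mod_cast this
  have hi0 : (0 : ℝ) ≤ i := Nat.cast_nonneg i
  have hE : Continuous (fun x => evr (Ez A n c i) x) := by
    unfold evr
    exact Polynomial.continuous _
  have hsub : Set.uIcc (0 : ℝ) (i : ℝ) ⊆ Set.Icc 0 (r : ℝ) := by
    rw [Set.uIcc_of_le hi0]
    exact Set.Icc_subset_Icc le_rfl hir
  have hi1 : IntervalIntegrable (fun x => evr (Ez A n c i) x * p.eval x) volume 0 (i : ℝ) :=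
    (hE.mul (Polynomial.continuous p)).intervalIntegrable _ _
  have hi2 : IntervalIntegrable (fun x => evr (Ez A n c i) x * h x) volume 0 (i : ℝ) :=
    (hE.continuousOn.mul (hh.mono hsub)).intervalIntegrable
  have e1 : ∫ x in (0 : ℝ)..(i : ℝ), evr (Ez A n c i) x * g x =
      ∫ x in (0 : ℝ)..(i : ℝ), (evr (Ez A n c i) x * p.eval x +
        q * (evr (Ez A n c i) x * h x)) := by
    apply intervalIntegral.integral_congr_ae
    have hne : ∀ᵐ x : ℝ ∂volume, x ≠ m0 := by
      rw [ae_iff]
      simp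
    filter_upwards [hne] with x hx _
    rw [hg x hx]
    ring
  rw [e1, intervalIntegral.integral_add hi1 (hi2.const_mul q),
    intervalIntegral.integral_const_mul]

lemma exP (r K : ℕ) (h4 : S_QEV) (m : ℤ) :
    ∃ P : ℝ[X], P.natDegree = r + 2 * K ∧ ∀ x : ℝ, x ≠ (m : ℝ) →
      evr (Qz r K) x / (x - m) = P.eval x + (((Qz r K).eval m : ℤ) : ℝ) * (1 / (x - m)) := by
  set R : ℝ[X] := (Qz r K).map (Int.castRingHom ℝ) with hR
  have hdeg : R.natDegree = r + 2 * K + 1 := by
    rw [hR, Polynomial.natDegree_map_eq_of_injective (RingHom.injective_int _)]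
    exact (h4 r K).1
  obtain ⟨P, hP⟩ := Polynomial.X_sub_C_dvd_sub_C_eval (a := (m : ℝ)) (p := R)
  have hdeg2 : (R - C (R.eval (m : ℝ))).natDegree = r + 2 * K + 1 := by
    rw [Polynomial.natDegree_sub_C, hdeg]
  have hP0 : P ≠ 0 := by
    intro h
    rw [h, mul_zero] at hP
    rw [hP] at hdeg2
    simp at hdeg2
  refine ⟨P, ?_, ?_⟩
  · rw [hP, Polynomial.natDegree_mul (Polynomial.X_sub_C_ne_zero _) hP0,
      Polynomial.natDegree_X_sub_C] at hdeg2
    omega
  · intro x hx
    have hx' : x - (m : ℝ) ≠ 0 := sub_ne_zero.mpr hx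
    have h1 : R.eval x - R.eval (m : ℝ) = (x - m) * P.eval x := by
      have := congrArg (Polynomial.eval x) hP
      simpa using this
    have h2 : R.eval (m : ℝ) = (((Qz r K).eval m : ℤ) : ℝ) := by
      rw [hR, Polynomial.eval_intCast_map]
      simp
    have h3 : evr (Qz r K) x = R.eval x := rfl
    rw [h3, ← h2]
    field_simp
    linarith

end I_TRM

theorem TRM_pf (h1 : S_JP) (h2 : S_JHR) (h3 : S_JHL) (h4 : S_QEV) : S_TRM := by
  intro r A n K c hc hr hA hn
  have hq := h4 r K
  have hJP : ∀ P : ℝ[X], P.natDegree = r + 2 * K → JJ r A n c (fun x => P.eval x) = 0 := by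
    intro P hP
    apply h1 r A n c hc hA
    rw [hP]
    nlinarith
  have hn2 : n + 2 ≤ (r + 1) * A := by nlinarith
  refine ⟨?_, ?_, ?_⟩
  · intro m hm1 hm2
    obtain ⟨P, hP1, hP2⟩ := I_TRM.exP r K h4 m
    have hz : (Qz r K).eval m = 0 := hq.2.1 m hm1 hm2
    have := I_TRM.JJ_lin r A n c (fun x => evr (Qz r K) x / (x - m)) (fun _ => (0 : ℝ)) P 0 m
      continuousOn_const (by
        intro x hx
        rw [hP2 x hx, hz]
        simp)
    rw [this, hJP P hP1]
    simp
  · intro m hm
    obtain ⟨P, hP1, hP2⟩ := I_TRM.exP r K h4 (m : ℤ)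
    have hmr : (r : ℝ) < m := by
      have : r < m := by omega
      exact_mod_cast this
    have := I_TRM.JJ_lin r A n c (fun x => evr (Qz r K) x / (x - m))
      (fun x => 1 / ((m : ℝ) - x)) P (-(((Qz r K).eval (m : ℤ) : ℤ) : ℝ)) m
      (by
        apply ContinuousOn.div continuousOn_const (by fun_prop)
        intro x hx
        have := hx.2
        linarith)
      (by
        intro x hx
        have h := hP2 x (by simpa using hx)
        rw [Int.cast_natCast] at h
        rw [h]
        have hx1 : x - (m : ℝ) ≠ 0 := sub_ne_zero.mpr hx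
        have hx2 : (m : ℝ) - x ≠ 0 := sub_ne_zero.mpr (Ne.symm hx)
        have e : 1 / ((m : ℝ) - x) = -(1 / (x - m)) := by
          rw [← neg_sub x (m : ℝ), one_div_neg_eq_neg_one_div]
        rw [e]
        ring)
    rw [this, hJP P hP1, h2 r A n c hc hr hA hn2 m hmr]
    have h5 : evr (Qz r K) (m : ℝ) = (((Qz r K).eval (m : ℤ) : ℤ) : ℝ) := by
      unfold evr
      have := Polynomial.eval_intCast_map (Int.castRingHom ℝ) (Qz r K) (m : ℤ)
      rw [Int.cast_natCast] at this
      rw [this]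
      simp
    unfold aa
    rw [h5]
    ring
  · intro m hm
    obtain ⟨P, hP1, hP2⟩ := I_TRM.exP r K h4 (-(m : ℤ))
    have hm0 : (0 : ℝ) < m := by
      have : 0 < m := by omega
      exact_mod_cast this
    have := I_TRM.JJ_lin r A n c (fun x => evr (Qz r K) x / (x + m))
      (fun x => 1 / (x - (-(m : ℝ)))) P (((Qz r K).eval (-(m : ℤ)) : ℤ) : ℝ) (-(m : ℝ))
      (by
        apply ContinuousOn.div continuousOn_const (by fun_prop)
        intro x hx
        have := hx.1
        have : 0 < x - (-(m : ℝ)) := by linarith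
        exact this.ne')
      (by
        intro x hx
        have h := hP2 x (by push_cast; exact hx)
        push_cast at h
        rw [sub_neg_eq_add] at h
        rw [h, sub_neg_eq_add])
    rw [this, hJP P hP1, h3 r A n c hc hr hA hn2 (-(m : ℝ)) (by linarith)]
    have h6 : (Qz r K).eval (-(m : ℤ)) = (-1) ^ (r + 1) * (Qz r K).eval ((r : ℤ) + m) := by
      have := hq.2.2.2 ((r : ℤ) + m)
      rw [← this]
      congr 1
      ring
    have h5 : evr (Qz r K) ((r + m : ℕ) : ℝ) = (((Qz r K).eval ((r : ℤ) + m) : ℤ) : ℝ) := by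
      unfold evr
      have := Polynomial.eval_intCast_map (Int.castRingHom ℝ) (Qz r K) ((r : ℤ) + m)
      push_cast at this ⊢
      rw [this]
      simp
    unfold aa
    rw [h5, h6]
    push_cast
    rw [sub_neg_eq_add, pow_add (-1 : ℝ) (r + 1 + n), pow_add (-1 : ℝ) (r + 1) n, pow_add (-1 : ℝ) n]
    ring

end Pool.Agent.Work.MP_f1a024_nt.HP
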