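import Mathlib
import Pool.Agent.Work.MP_f1a024_nt.HP.I_ALT
import Pool.Agent.Work.MP_f1a024_nt.HP.I_BAM
import Pool.Agent.Work.MP_f1a024_nt.HP.I_BAS
import Pool.Agent.Work.MP_f1a024_nt.HP.I_DEC
import Pool.Agent.Work.MP_f1a024_nt.HP.I_EX1
import Pool.Agent.Work.MP_f1a024_nt.HP.I_EX2
import Pool.Agent.Work.MP_f1a024_nt.HP.I_EZ0
import Pool.Agent.Work.MP_f1a024_nt.HP.I_FEX
import Pool.Agent.Work.MP_f1a024_nt.HP.I_FNZ
import Pool.Agent.Work.MP_f1a024_nt.HP.I_FOU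
import Pool.Agent.Work.MP_f1a024_nt.HP.I_FRM
import Pool.Agent.Work.MP_f1a024_nt.HP.I_GBD
import Pool.Agent.Work.MP_f1a024_nt.HP.I_HIN
import Pool.Agent.Work.MP_f1a024_nt.HP.I_JHL
import Pool.Agent.Work.MP_f1a024_nt.HP.I_JHR
import Pool.Agent.Work.MP_f1a024_nt.HP.I_JK
import Pool.Agent.Work.MP_f1a024_nt.HP.I_JP
import Pool.Agent.Work.MP_f1a024_nt.HP.I_LIO
import Pool.Agent.Work.MP_f1a024_nt.HP.I_MAIN
import Pool.Agent.Work.MP_f1a024_nt.HP.I_NUM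
import Pool.Agent.Work.MP_f1a024_nt.HP.I_PFX
import Pool.Agent.Work.MP_f1a024_nt.HP.I_PPW
import Pool.Agent.Work.MP_f1a024_nt.HP.I_PSB
import Pool.Agent.Work.MP_f1a024_nt.HP.I_QEV
import Pool.Agent.Work.MP_f1a024_nt.HP.I_RAT
import Pool.Agent.Work.MP_f1a024_nt.HP.I_RES
import Pool.Agent.Work.MP_f1a024_nt.HP.I_SPF
import Pool.Agent.Work.MP_f1a024_nt.HP.I_TRM

set_option autoImplicit false

/-!
Assembly of the block [f1a024 HP] (captain helper48).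
-/

namespace Pool.Agent.Work.MP_f1a024_nt.HP

theorem PFX_ok : S_PFX := PFX_pf (EX2_pf EX1_pf) BAS_pf BAM_pf

theorem JHR_ok : S_JHR := JHR_pf JK

theorem JHL_ok : S_JHL := JHL_pf JK HIN_pf

theorem RAT_ok : S_RAT := RAT_pf PSB_pf HIN_pf

theorem DEC_ok : S_DEC := DEC_pf RAT_ok QEV_pf

theorem TRM_ok : S_TRM := TRM_pf JP_pf JHR_ok JHL_ok QEV_pf

theorem FEX_ok : S_FEX := FEX_pf SPF_pf TRM_ok QEV_pf

theorem FNZ_ok : S_FNZ := FNZ_pf FEX_ok ALT_pf DEC_ok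

theorem FRM_ok : S_FRM := FRM_pf FOU_pf EZ0_pf QEV_pf

theorem PPW_ok : S_PPW := PPW_pf QEV_pf

theorem MAIN_ok : S_MAIN := MAIN_pf PFX_ok FNZ_ok FRM_ok PPW_ok GBD_pf LIO_pf NUM_pf

theorem RES_ok : S_RES := RES_pf MAIN_ok

end Pool.Agent.Work.MP_f1a024_nt.HP
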