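import Mathlib
import Pool.Agent.Work.MP_f1a024_nt.HP.Stmts2

set_option autoImplicit false

/-!
Item AL2: lower bound for an alternating sum of a strictly decreasing sequence.
-/

namespace Pool.Agent.Work.MP_f1a024_nt.HP

open Real Polynomial MeasureTheory Finset Filter Topology
open scoped Nat

theorem AL2_pf : S_AL2 := by
  intro a R S ha hS
  have hanti : Antitone (fun k : ℕ => a (R + k)) :=
    antitone_nat_of_succ_le fun k => (ha (R + k) (by omega)).2.le
  have h1 : Tendsto (fun n : ℕ => R + n - 1) atTop atTop := by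
    refine tendsto_atTop_mono (fun n => ?_) (tendsto_sub_atTop_nat 1)
    omega
  have h2 := (hS.comp h1).const_mul ((-1 : ℝ) ^ R)
  have hl : Tendsto (fun n : ℕ => ∑ i ∈ range n, (-1 : ℝ) ^ i * a (R + i)) atTop
      (𝓝 ((-1) ^ R * S)) := by
    refine h2.congr' ?_
    filter_upwards [eventually_ge_atTop 1] with n hn
    simp only [Function.comp_apply]
    have h3 : R + n - 1 + 1 = R + n := by omega
    rw [h3, Finset.sum_Ico_eq_sum_range, Finset.mul_sum, Nat.add_sub_cancel_left]
    refine Finset.sum_congr rfl fun i _ => ?_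
    have h4 : ((-1 : ℝ) ^ R) * (-1) ^ R = 1 := by
      rw [← pow_add, ← two_mul, pow_mul]
      norm_num
    rw [pow_add, ← mul_assoc, ← mul_assoc, h4, one_mul]
  have hlo := hanti.alternating_series_le_tendsto hl 1
  have hlo' : a R - a (R + 1) ≤ (-1) ^ R * S := by
    simpa [Finset.sum_range_succ, sub_eq_add_neg] using hlo
  refine hlo'.trans ((le_abs_self _).trans (le_of_eq ?_))
  rw [abs_mul, abs_pow, abs_neg, abs_one, one_pow, one_mul]

end Pool.Agent.Work.MP_f1a024_nt.HP
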