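import Mathlib
import Pool.Agent.Work.MP_f1a024_nt.HP.Stmts2

set_option autoImplicit false

/-! Item DIR: simultaneous approximation in projective form. -/

namespace Pool.Agent.Work.MP_f1a024_nt.HP

open Real Polynomial MeasureTheory Finset Filter Topology
open scoped Nat

namespace I_DIR

theorem floor_lt_Q {Q : ℕ} (hQ : 1 ≤ Q) (y : ℝ) : ⌊(Q : ℝ) * Int.fract y⌋₊ < Q := by
  have hQ' : (0 : ℝ) < Q := by exact_mod_cast hQ
  have h0 := Int.fract_nonneg y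
  have h1 := Int.fract_lt_one y
  rw [Nat.floor_lt (by positivity)]
  nlinarith

theorem abs_fract_sub_le {Q : ℕ} (hQ : 1 ≤ Q) (y z : ℝ)
    (h : ⌊(Q : ℝ) * Int.fract y⌋₊ = ⌊(Q : ℝ) * Int.fract z⌋₊) :
    |Int.fract y - Int.fract z| ≤ 1 / Q := by
  have hQ' : (0 : ℝ) < Q := by exact_mod_cast hQ
  have hy0 : 0 ≤ (Q : ℝ) * Int.fract y := mul_nonneg hQ'.le (Int.fract_nonneg y)
  have hz0 : 0 ≤ (Q : ℝ) * Int.fract z := mul_nonneg hQ'.le (Int.fract_nonneg z)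
  have h1 := Nat.floor_le hy0
  have h2 := Nat.lt_floor_add_one ((Q : ℝ) * Int.fract y)
  have h3 := Nat.floor_le hz0
  have h4 := Nat.lt_floor_add_one ((Q : ℝ) * Int.fract z)
  rw [← h] at h3 h4
  rw [le_div_iff₀ hQ']
  have h5 : |Int.fract y - Int.fract z| * Q = |(Q : ℝ) * Int.fract y - Q * Int.fract z| := by
    rw [← mul_sub, abs_mul, abs_of_pos hQ', mul_comm]
  rw [h5, abs_le]
  constructor <;> linarith

theorem core {m Q : ℕ} (hQ : 1 ≤ Q) (θ : Fin m → ℝ) (i1 : Fin m) :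
    ∃ t : ℕ, 1 ≤ t ∧ t ≤ Q ^ (m - 1) ∧ ∀ i, i ≠ i1 → ∃ x : ℤ, |(x : ℝ) - t * θ i| ≤ 1 / Q := by
  classical
  let f : Fin (Q ^ (m - 1) + 1) → ({i : Fin m // i ≠ i1} → Fin Q) := fun t i =>
    ⟨⌊(Q : ℝ) * Int.fract ((t.val : ℝ) * θ i.1)⌋₊, floor_lt_Q hQ _⟩
  have hcard : Fintype.card ({i : Fin m // i ≠ i1} → Fin Q) <
      Fintype.card (Fin (Q ^ (m - 1) + 1)) := by
    have h1 : Fintype.card {i : Fin m // i ≠ i1} = m - 1 := by
      rw [Fintype.card_subtype_compl]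
      simp
    rw [Fintype.card_fun, h1, Fintype.card_fin, Fintype.card_fin]
    exact Nat.lt_succ_self _
  obtain ⟨t1, t2, hne, heq⟩ := Fintype.exists_ne_map_eq_of_card_lt f hcard
  have key : ∀ t1 t2 : Fin (Q ^ (m - 1) + 1), t1.val < t2.val → f t1 = f t2 →
      ∃ t : ℕ, 1 ≤ t ∧ t ≤ Q ^ (m - 1) ∧ ∀ i, i ≠ i1 →
        ∃ x : ℤ, |(x : ℝ) - t * θ i| ≤ 1 / Q := by
    intro t1 t2 hlt he
    refine ⟨t2.val - t1.val, by omega, by have := t2.isLt; omega, ?_⟩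
    intro i hi
    refine ⟨⌊(t2.val : ℝ) * θ i⌋ - ⌊(t1.val : ℝ) * θ i⌋, ?_⟩
    have h1 := congrArg Fin.val (congrFun he ⟨i, hi⟩)
    have h2 := abs_fract_sub_le hQ _ _ h1
    have h3 : ((⌊(t2.val : ℝ) * θ i⌋ - ⌊(t1.val : ℝ) * θ i⌋ : ℤ) : ℝ) -
        ((t2.val - t1.val : ℕ) : ℝ) * θ i =
        Int.fract ((t1.val : ℝ) * θ i) - Int.fract ((t2.val : ℝ) * θ i) := by
      rw [Nat.cast_sub hlt.le, Int.cast_sub]
      unfold Int.fract
      ring
    rw [h3]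
    exact h2
  rcases lt_or_gt_of_ne (fun h => hne (Fin.ext h) : t1.val ≠ t2.val) with h | h
  · exact key t1 t2 h heq
  · exact key t2 t1 h heq.symm

end I_DIR

theorem DIR_pf : S_DIR := by
  classical
  intro m Q hm hQ ω hω
  obtain ⟨i0, hi0⟩ := hω
  obtain ⟨i1, -, hi1⟩ := Finset.exists_max_image (Finset.univ : Finset (Fin m))
    (fun i => |ω i|) ⟨i0, Finset.mem_univ _⟩
  have h1 : ω i1 ≠ 0 := by
    intro h
    have := hi1 i0 (Finset.mem_univ _)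
    rw [h, abs_zero] at this
    exact hi0 (abs_nonpos_iff.mp this)
  obtain ⟨t, ht1, ht2, hx⟩ := I_DIR.core hQ (fun i => ω i / ω i1) i1
  choose! x hx using hx
  have hQ' : (0 : ℝ) < Q := by exact_mod_cast hQ
  refine ⟨fun i => if i = i1 then (t : ℤ) else x i, t / ω i1, ?_, ?_, ?_⟩
  · intro h
    have := congrFun h i1
    simp only [if_true, Pi.zero_apply] at this
    omega
  · intro i
    by_cases hi : i = i1
    · subst hi
      simp only [if_true]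
      rw [div_mul_cancel₀ _ h1]
      simp
    · simp only [if_neg hi]
      have := hx i hi
      have e : (t : ℝ) / ω i1 * ω i = t * (ω i / ω i1) := by ring
      rw [e]
      exact this
  · intro i
    have h2 : |ω i| ≤ |ω i1| := hi1 i (Finset.mem_univ _)
    have h3 : 0 < |ω i1| := abs_pos.mpr h1
    rw [abs_mul, abs_div, Nat.abs_cast, div_mul_eq_mul_div, div_le_iff₀ h3]
    have h4 : (t : ℝ) ≤ (Q : ℝ) ^ (m - 1) := by exact_mod_cast ht2
    exact mul_le_mul h4 h2 (abs_nonneg _) (by positivity)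

end Pool.Agent.Work.MP_f1a024_nt.HP
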