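import Mathlib
import Pool.Agent.Work.MP_f1a024_nt.HP.Stmts2
import Pool.Agent.Work.MP_f1a024_nt.HP.I_DEC

set_option autoImplicit false

/-!
# Item LOW: lower bound for the small number `F`
-/

namespace Pool.Agent.Work.MP_f1a024_nt.HP

open Real Polynomial MeasureTheory Finset Filter Topology
open scoped Nat

namespace I_LOW

/-- the ratio `a_(R+1)/a_R` is at most `2/3` -/
lemma ratio (q R e : ℕ) (H H' D D' : ℝ) (hR : 1 ≤ R) (hq : 1 ≤ q) (he : 2 * (q * R) + 1 ≤ e)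
    (hH : 0 < H) (hD : 0 < D) (hD' : D' = (1 + (q : ℝ)) * D)
    (hH' : H' ≤ ((R : ℝ) / ((R : ℝ) + 1)) ^ e * H) : 3 * (D' * H') ≤ 2 * (D * H) := by
  have hR0 : (0 : ℝ) < R := by
    have : 0 < R := hR
    exact_mod_cast this
  have hq1 : (1 : ℝ) ≤ q := by exact_mod_cast hq
  have hbern : 1 + (e : ℝ) * (1 / R) ≤ (1 + 1 / (R : ℝ)) ^ e := by
    apply one_add_mul_le_pow
    have : (0 : ℝ) ≤ 1 / R := by positivity
    linarith
  have he' : 2 * (q : ℝ) ≤ (e : ℝ) * (1 / R) := by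
    rw [mul_one_div, le_div_iff₀ hR0]
    have : 2 * q * R ≤ e := by
      have : 2 * q * R = 2 * (q * R) := by ring
      omega
    exact_mod_cast this
  have hx : (1 : ℝ) + 1 / R = ((R : ℝ) + 1) / R := by
    field_simp
  rw [hx] at hbern
  have hprod : ((R : ℝ) / (R + 1)) ^ e * (((R : ℝ) + 1) / R) ^ e = 1 := by
    rw [← mul_pow]
    have : (R : ℝ) / (R + 1) * (((R : ℝ) + 1) / R) = 1 := by
      field_simp
    rw [this, one_pow]
  have hpos : (0 : ℝ) < ((R : ℝ) / (R + 1)) ^ e := by positivity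
  have h1 : (1 + 2 * (q : ℝ)) * ((R : ℝ) / (R + 1)) ^ e ≤ 1 := by
    calc (1 + 2 * (q : ℝ)) * ((R : ℝ) / (R + 1)) ^ e
        ≤ (((R : ℝ) + 1) / R) ^ e * ((R : ℝ) / (R + 1)) ^ e :=
          mul_le_mul_of_nonneg_right (by linarith) hpos.le
      _ = 1 := by rw [mul_comm]; exact hprod
  have h2 : 3 * ((1 + (q : ℝ)) * ((R : ℝ) / (R + 1)) ^ e) ≤ 2 := by
    have h3 : 3 * (1 + (q : ℝ)) ≤ 2 * (1 + 2 * (q : ℝ)) := by linarith
    calc 3 * ((1 + (q : ℝ)) * ((R : ℝ) / (R + 1)) ^ e)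
        = (3 * (1 + (q : ℝ))) * ((R : ℝ) / (R + 1)) ^ e := by ring
      _ ≤ (2 * (1 + 2 * (q : ℝ))) * ((R : ℝ) / (R + 1)) ^ e :=
          mul_le_mul_of_nonneg_right h3 hpos.le
      _ = 2 * ((1 + 2 * (q : ℝ)) * ((R : ℝ) / (R + 1)) ^ e) := by ring
      _ ≤ 2 * 1 := by linarith
      _ = 2 := by ring
  have hD'0 : 0 < D' := by
    rw [hD']; positivity
  calc 3 * (D' * H') ≤ 3 * (D' * (((R : ℝ) / (R + 1)) ^ e * H)) := by
        have := mul_le_mul_of_nonneg_left hH' hD'0.le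
        linarith
    _ = (3 * ((1 + (q : ℝ)) * ((R : ℝ) / (R + 1)) ^ e)) * (D * H) := by rw [hD']; ring
    _ ≤ 2 * (D * H) := mul_le_mul_of_nonneg_right h2 (mul_pos hD hH).le

end I_LOW

theorem LOW_pf (h1 : S_FEX) (h2 : S_AL2) (h3 : S_DEC) (h4 : S_RAT) (h5 : S_QEV) (h6 : S_HLB)
    (h7 : S_ALT) : S_LOW := by
  intro r A n K c hPF hr hA hAn hn hAe hx hy
  have hy' : (r + 2 * K + 1) * (r + K + 1) + n + 2 ≤ (r + 1) * A := by omega
  obtain ⟨hd1, hd2, -⟩ := h3 r A n K hr hx hy'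
  obtain ⟨S, hS, -, -⟩ := h7 (aa r A n K) (r + K + 1) hd1 hd2
  have hlim := h1 r A n K c hPF hr hAn hn hAe hx
  have hS1 : Tendsto (SS r A n K) atTop (𝓝 S) := hS
  have hS2 : Tendsto (fun M : ℕ => SS r A n K (M + r)) atTop (𝓝 S) :=
    hS1.comp (tendsto_add_atTop_nat r)
  have hlim2 : Tendsto (fun M : ℕ => -((dd r : ℝ) ^ (A - 1) * (SS r A n K M + SS r A n K (M + r))))
      atTop (𝓝 (-((dd r : ℝ) ^ (A - 1) * (S + S)))) :=
    ((hS1.add hS2).const_mul _).neg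
  have heq : FF r A n K c = -((dd r : ℝ) ^ (A - 1) * (S + S)) :=
    tendsto_nhds_unique hlim hlim2
  have hdd : (1 : ℝ) ≤ (dd r : ℝ) ^ (A - 1) := by
    refine one_le_pow₀ ?_
    have : 1 ≤ dd r := Nat.lcmUpto_pos r
    exact_mod_cast this
  have hF : 2 * |S| ≤ |FF r A n K c| := by
    rw [heq, abs_neg, abs_mul, abs_of_pos (lt_of_lt_of_le one_pos hdd), ← two_mul, abs_mul,
      abs_of_pos (by norm_num : (0 : ℝ) < 2)]
    have h8 : 0 ≤ 2 * |S| := by positivity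
    nlinarith
  have hAL := h2 (aa r A n K) (r + K + 1) S hd1 hS
  have hn2 : n + 2 ≤ r * A := by omega
  have hrat := h4 r A n hr hn2
  have hz : (r : ℝ) + 1 ≤ ((r + K + 1 : ℕ) : ℝ) := by
    have : r + 1 ≤ r + K + 1 := by omega
    exact_mod_cast this
  have hr1 := hrat _ hz
  have e1 := I_DEC.evQ h5 r K (r + K + 1) le_rfl
  have e2 := I_DEC.evQ h5 r K (r + K + 1 + 1) (by omega)
  have hRK : r + K + 1 + K = r + 2 * K + 1 := by ring
  have hRK' : r + K + 1 + 1 + K = r + 2 * K + 1 + 1 := by ring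
  rw [hRK, Nat.descFactorial_self] at e1
  rw [hRK'] at e2
  have hs : (((r + 2 * K + 1 + 1).descFactorial (r + 2 * K + 1) : ℕ) : ℝ) =
      (1 + ((r + 2 * K + 1 : ℕ) : ℝ)) * (((r + 2 * K + 1)! : ℕ) : ℝ) := by
    have h9 := Nat.succ_descFactorial (r + 2 * K + 1) (r + 2 * K + 1)
    rw [Nat.descFactorial_self] at h9
    have h10 : r + 2 * K + 1 + 1 - (r + 2 * K + 1) = 1 := by omega
    rw [h10, one_mul] at h9
    rw [h9]
    push_cast
    ring
  have hfac : (1 : ℝ) ≤ (((r + 2 * K + 1)! : ℕ) : ℝ) := by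
    have : 1 ≤ (r + 2 * K + 1)! := Nat.factorial_pos _
    exact_mod_cast this
  have hrt := I_LOW.ratio (r + 2 * K + 1) (r + K + 1) ((r + 1) * A - n - 1)
    (HH r A n ((r + K + 1 : ℕ) : ℝ)) (HH r A n ((r + K + 1 + 1 : ℕ) : ℝ))
    (((r + 2 * K + 1)! : ℕ) : ℝ) (((r + 2 * K + 1 + 1).descFactorial (r + 2 * K + 1) : ℕ) : ℝ)
    (by omega) (by omega) (by omega) hr1.1 (lt_of_lt_of_le one_pos hfac) hs (by
      have := hr1.2.1
      push_cast at this ⊢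
      exact this)
  have hH1 : HH r A n ((r + K + 1 : ℕ) : ℝ) ≤ aa r A n K (r + K + 1) := by
    unfold aa
    rw [e1]
    have := hr1.1
    nlinarith
  have hrt' : 3 * aa r A n K (r + K + 1 + 1) ≤ 2 * aa r A n K (r + K + 1) := by
    unfold aa
    rw [e1, e2]
    exact hrt
  have hn3 : n + 2 ≤ (r + 1) * A := by omega
  have hHLB := h6 r A n hr hn3 _ hz
  have hFL : FL r A n K = ((r ! : ℝ) / (3 * ((r + K + 1 : ℕ) : ℝ)) ^ (r + 1)) ^ A *
      ((r + K + 1 : ℕ) : ℝ) ^ (n + 1) / 2 := by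
    unfold FL
    push_cast
    rfl
  rw [hFL]
  have hpos := hr1.1
  linarith

end Pool.Agent.Work.MP_f1a024_nt.HP
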