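import Mathlib
import Pool.Agent.Work.MP_f1a024_nt.HP.Stmts2
import Pool.Agent.Work.MP_f1a024_nt.HP.I_MAIN

set_option autoImplicit false

/-!
Item MA2 of the block [f1a024 HP] (helper48).
-/

namespace Pool.Agent.Work.MP_f1a024_nt.HP

open Real Polynomial MeasureTheory Finset Filter Topology
open scoped Nat

namespace I_MA2

open I_MAIN (W)

lemma mem_W (N L k : ℕ) : k ∈ W N L ↔ (k ≤ N ∧ Odd k ∧ 3 ≤ k ∧ N ≤ k + L) := by
  simp only [W, Finset.mem_filter, Finset.mem_range, Nat.lt_succ_iff]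

/-- The common denominator. -/
def Dn (N L : ℕ) (b : ℕ → ℕ) : ℕ := ∏ k ∈ W N L, 2 * k * b k

/-- The cofactor. -/
def Dk (N L : ℕ) (b : ℕ → ℕ) (k : ℕ) : ℕ := ∏ k' ∈ (W N L).erase k, 2 * k' * b k'

lemma Dn_eq (N L : ℕ) (b : ℕ → ℕ) (k : ℕ) (hk : k ∈ W N L) :
    Dn N L b = 2 * k * b k * Dk N L b k := by
  unfold Dn Dk
  rw [← Finset.mul_prod_erase (W N L) (fun k => 2 * k * b k) hk]

lemma Dn_pos (N L : ℕ) (b : ℕ → ℕ) (hb : ∀ k, 1 ≤ b k) : 0 < Dn N L b := by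
  refine Finset.prod_pos (fun k hk => ?_)
  have hk' := (mem_W N L k).mp hk
  have hbk := hb k
  exact Nat.mul_pos (Nat.mul_pos two_pos (by omega)) (by omega)

lemma Dk_le (N L : ℕ) (b : ℕ → ℕ) (hb : ∀ k, 1 ≤ b k) (k : ℕ) (hk : k ∈ W N L) :
    Dk N L b k ≤ Dn N L b := by
  rw [Dn_eq N L b k hk]
  have hk' := (mem_W N L k).mp hk
  have hbk := hb k
  exact Nat.le_mul_of_pos_left _ (Nat.mul_pos (Nat.mul_pos two_pos (by omega)) (by omega))

lemma Dn_le (N L : ℕ) (b : ℕ → ℕ) (κ : ℝ) (hκ : 0 < κ) (hN : 2 ≤ N) (hL1 : 1 ≤ L) (hLN : L ≤ N)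
    (hb : ∀ k, (b k : ℝ) ≤ Real.exp (κ * L)) :
    (Dn N L b : ℝ) ≤ (2 * N : ℝ) ^ L * Real.exp (κ * L ^ 2) := by
  have hN0 : (2:ℝ) ≤ N := by exact_mod_cast hN
  have e1 : (Dn N L b : ℝ) ≤ ∏ k ∈ W N L, ((2 * N : ℝ) * Real.exp (κ * L)) := by
    unfold Dn
    push_cast
    refine Finset.prod_le_prod (fun k _ => by positivity) (fun k hk => ?_)
    have hk' := (mem_W N L k).mp hk
    have hkN : (k : ℝ) ≤ N := by exact_mod_cast hk'.1
    have := hb k
    gcongr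
  rw [Finset.prod_const] at e1
  refine e1.trans ?_
  have e2 : (1:ℝ) ≤ (2 * N : ℝ) * Real.exp (κ * L) :=
    one_le_mul_of_one_le_of_one_le (by linarith) (Real.one_le_exp (by positivity))
  refine (pow_le_pow_right₀ e2 (I_MAIN.card_W N L hL1 hLN)).trans (le_of_eq ?_)
  rw [mul_pow, ← Real.exp_nat_mul]
  congr 2
  ring

/-- The integer coefficients. -/
noncomputable def Pc (r A n K N L M : ℕ) (c : ℕ → ℕ → ℤ) (b : ℕ → ℕ) (k : ℕ) : ℤ :=
  (-1) ^ ((k - 1) / 2) * pp r A n K c ((k - 1) / 2) * (Dk N L b k : ℤ) * (M : ℤ) ^ (N - k)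

lemma beta_eq (h3 : S_FRM) (h4 : S_PPW) (r A n K N L M : ℕ) (c : ℕ → ℕ → ℤ) (hc : PF r A c)
    (hr : 1 ≤ r) (hA : 1 ≤ A) (hAn : A ≤ n) (hc1 : n + (r + 2 * K + 1) + 2 ≤ r * A)
    (hc3 : n + (r + 2 * K + 1) + 1 ≤ N) (hc4 : N + A ≤ n + 3 + L) (b : ℕ → ℕ) :
    ∑ k ∈ W N L, (Pc r A n K N L M c b k : ℝ) * ((b k : ℝ) * (M : ℝ) ^ k * OddG.G k) =
      FF r A n K c * (((Dn N L b : ℝ) * (M : ℝ) ^ N) / π) := by
  classical
  set q : ℕ := r + 2 * K + 1 with hq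
  have hFR := h3 r A n K c hc hr hAn hc1
  set t : ℕ → ℝ := fun j => (-1 : ℝ) ^ j * (pp r A n K c j : ℝ) *
    (OddG.G (2 * j + 1) / (2 * (2 * j + 1))) with ht
  have hzero : ∀ j, 2 * j + 1 ∉ W N L → t j = 0 := by
    intro j hj
    have hp0 : pp r A n K c j = 0 := by
      by_contra hp
      apply hj
      rw [mem_W]
      have w := h4 r A n K c hc hA hAn j
      have w1 : n + 3 ≤ 2 * j + 1 + A := by
        by_contra hlt
        exact hp (w.1 (by omega))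
      have w2 : 2 * j + 1 ≤ n + q + 1 := by
        by_contra hlt
        exact hp (w.2.1 (by omega))
      refine ⟨by omega, ⟨j, rfl⟩, by omega, by omega⟩
    simp only [ht, hp0]
    simp
  have hsub : ∑ j ∈ range (n + q + 1), t j = ∑ j ∈ range N, t j := by
    refine Finset.sum_subset (Finset.range_subset_range.mpr (by omega)) ?_
    intro j _ hj2
    rw [Finset.mem_range, not_lt] at hj2
    have hp0 : pp r A n K c j = 0 := (h4 r A n K c hc hA hAn j).2.1 (by omega)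
    simp only [ht, hp0]
    simp
  have hW : ∑ j ∈ range N, t j = ∑ k ∈ W N L, t ((k - 1) / 2) := by
    rw [← Finset.sum_filter_add_sum_filter_not (range N) (fun j => 2 * j + 1 ∈ W N L)]
    have z : ∑ j ∈ (range N).filter (fun j => ¬ (2 * j + 1 ∈ W N L)), t j = 0 :=
      Finset.sum_eq_zero (fun j hj => hzero j (Finset.mem_filter.mp hj).2)
    rw [z, add_zero]
    refine Finset.sum_nbij' (fun j => 2 * j + 1) (fun k => (k - 1) / 2) ?_ ?_ ?_ ?_ ?_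
    · intro j hj
      exact (Finset.mem_filter.mp hj).2
    · intro k hk
      have hk' := (mem_W N L k).mp hk
      rcases hk'.2.1 with ⟨u, hu⟩
      have e1 : (k - 1) / 2 = u := by omega
      rw [Finset.mem_filter, Finset.mem_range, e1, ← hu]
      exact ⟨by omega, hk⟩
    · intro j _
      omega
    · intro k hk
      have hk' := (mem_W N L k).mp hk
      rcases hk'.2.1 with ⟨u, hu⟩
      omega
    · intro j _
      congr 1
      omega
  rw [hFR, hsub, hW]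
  have hpi : (π : ℝ) ≠ 0 := pi_ne_zero
  have e0 : π * (∑ k ∈ W N L, t ((k - 1) / 2)) * (((Dn N L b : ℝ) * (M : ℝ) ^ N) / π) =
      ∑ k ∈ W N L, t ((k - 1) / 2) * ((Dn N L b : ℝ) * (M : ℝ) ^ N) := by
    rw [← Finset.sum_mul]
    field_simp
  rw [e0]
  refine Finset.sum_congr rfl (fun k hk => ?_)
  have hk' := (mem_W N L k).mp hk
  rcases hk'.2.1 with ⟨u, hu⟩
  have e1 : (k - 1) / 2 = u := by omega
  have hMfac : (M : ℝ) ^ N = (M : ℝ) ^ k * (M : ℝ) ^ (N - k) := by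
    rw [← pow_add]
    congr 1
    omega
  have hDr : (Dn N L b : ℝ) = 2 * (k : ℝ) * b k * Dk N L b k := by
    rw [Dn_eq N L b k hk]
    push_cast
    ring
  rw [hMfac, hDr]
  simp only [ht, Pc, e1]
  push_cast
  rw [← hu]
  have hk0 : (k : ℝ) ≠ 0 := by
    have : 0 < k := by omega
    positivity
  have hku : (2 * (u : ℝ) + 1) = k := by rw [hu]; push_cast; ring
  rw [hku]
  field_simp

lemma Pc_bound (h4 : S_PPW) (r A n K N L M : ℕ) (c : ℕ → ℕ → ℤ) (hc : PF r A c)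
    (hA : 1 ≤ A) (hAn : A ≤ n) (b : ℕ → ℕ) (hb : ∀ k, 1 ≤ b k) (hM : 1 ≤ M) (Z : ℝ)
    (hZ : (Dn N L b : ℝ) * (M : ℝ) ^ N ≤ Z) (hL1 : 1 ≤ L) (hLN : L ≤ N) :
    ∑ k ∈ W N L, |(Pc r A n K N L M c b k : ℝ)| ≤ N * PB r A n K * Z := by
  have hPB := I_MAIN.PB_one r A n K
  have hM1 : (1:ℝ) ≤ M := by exact_mod_cast hM
  have hD0 : (0:ℝ) ≤ (Dn N L b : ℝ) := Nat.cast_nonneg _
  have hZ0 : 0 ≤ Z := le_trans (by positivity) hZ
  have hterm : ∀ k ∈ W N L, |(Pc r A n K N L M c b k : ℝ)| ≤ PB r A n K * Z := by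
    intro k hk
    unfold Pc
    push_cast
    rw [abs_mul, abs_mul, abs_mul, abs_pow, abs_neg, abs_one, one_pow, one_mul]
    have g1 := (h4 r A n K c hc hA hAn ((k - 1) / 2)).2.2
    have g2 : |(Dk N L b k : ℝ)| ≤ (Dn N L b : ℝ) := by
      rw [abs_of_nonneg (Nat.cast_nonneg _)]
      exact_mod_cast Dk_le N L b hb k hk
    have g3 : |(M : ℝ) ^ (N - k)| ≤ (M : ℝ) ^ N := by
      rw [abs_of_nonneg (by positivity)]
      exact pow_le_pow_right₀ hM1 (Nat.sub_le _ _)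
    calc |(pp r A n K c ((k - 1) / 2) : ℝ)| * |(Dk N L b k : ℝ)| * |(M : ℝ) ^ (N - k)|
        ≤ PB r A n K * (Dn N L b : ℝ) * (M : ℝ) ^ N := by gcongr
      _ = PB r A n K * ((Dn N L b : ℝ) * (M : ℝ) ^ N) := by ring
      _ ≤ PB r A n K * Z := by gcongr
  refine (Finset.sum_le_sum hterm).trans ?_
  rw [Finset.sum_const, nsmul_eq_mul]
  have hcard : ((W N L).card : ℝ) ≤ N := by
    exact_mod_cast (I_MAIN.card_W N L hL1 hLN).trans hLN
  calc ((W N L).card : ℝ) * (PB r A n K * Z) ≤ N * (PB r A n K * Z) := by gcongr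
    _ = N * PB r A n K * Z := by ring

/-- Lower bound for `G k`. -/
lemma G_low (k : ℕ) (hk : 2 ≤ k) : 4 / π ^ k ≤ OddG.G k := by
  have h1 : 1 ≤ OddG.lam k := by
    unfold OddG.lam
    have hs := OddG.summable_odd k hk
    have := hs.le_tsum 0 (fun i _ => by positivity)
    simpa using this
  have h2 : (1:ℝ) ≤ (k.factorial : ℝ) := by exact_mod_cast Nat.factorial_pos k
  unfold OddG.G
  have hpi : 0 < π ^ k := by positivity
  rw [div_le_div_iff_of_pos_right hpi]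
  nlinarith

end I_MA2

open I_MA2 in
/-- MA2. -/
theorem MA2_pf (h1 : S_PFX) (h2 : S_FNZ) (h2' : S_LOW) (h3 : S_FRM) (h4 : S_PPW) (h5 : S_GBD)
    (h6 : S_RED) (h7 : S_NES) (h8 : S_NU2) : S_MA2 := by
  classical
  intro m N L M κ hκ hm hN hLN hNL hM hMN ω
  by_contra hcon
  have hκ0 : 0 < κ := by rw [hκ]; exact exp_pos _
  have hex : ∀ n : ℕ, ∃ (a : Fin m → ℤ) (b : ℕ),
      (∀ i, |(a i : ℝ)| ≤ Real.exp (κ * (L : ℝ) ^ 2)) ∧ 1 ≤ b ∧
      (b : ℝ) ≤ Real.exp (κ * L) ∧ (Odd n → 3 ≤ n → N ≤ n + L → n ≤ N →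
        (b : ℝ) * (M : ℝ) ^ n * OddG.G n = ∑ i, (a i : ℝ) * ω i) := by
    intro n
    by_cases hn : Odd n ∧ 3 ≤ n ∧ N ≤ n + L ∧ n ≤ N
    · by_contra hne
      refine hcon ⟨n, hn.1, hn.2.1, hn.2.2.1, hn.2.2.2, ?_⟩
      intro a b ha hb1 hb2 he
      exact hne ⟨a, b, ha, hb1, hb2, fun _ _ _ _ => he⟩
    · refine ⟨fun _ => 0, 1, ?_, le_rfl, ?_, ?_⟩
      · intro i
        simp only [Int.cast_zero, abs_zero]
        exact (exp_pos _).le
      · push_cast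
        exact Real.one_le_exp (by positivity)
      · intro a1 a2 a3 a4
        exact absurd ⟨a1, a2, a3, a4⟩ hn
  choose a b ha hb1 hb2 heq using hex
  obtain ⟨r, A0, J, n, K, Q, hr, hA0, hAn, hne, hAe, hQ, hc1, hc2, hc3, hc4, d0, d1, d2, d3, d4⟩ :=
    h8 m N L κ hκ hm hN hLN hNL
  have hL1 : 1 ≤ L := by omega
  have hN0 : (2:ℝ) ≤ N := by exact_mod_cast hN
  have hN4 : 4 ≤ N := by omega
  have hL1r : (1:ℝ) ≤ L := by exact_mod_cast hL1
  have hM0 : (1:ℝ) ≤ M := by exact_mod_cast hM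
  -- arrays
  have hcex : ∀ j : ℕ, ∃ c : ℕ → ℕ → ℤ, PF r (A0 + 2 * j) c := fun j => h1 r _ hr (by omega)
  choose cc hcc using hcex
  -- the parameters for every `j <= J`
  have hmono : ∀ j, r * A0 ≤ r * (A0 + 2 * j) := fun j => Nat.mul_le_mul_left _ (by omega)
  have hmono' : ∀ j, (r + 1) * A0 ≤ (r + 1) * (A0 + 2 * j) :=
    fun j => Nat.mul_le_mul_left _ (by omega)
  have hAj : ∀ j, Even (A0 + 2 * j) := fun j => hAe.add (even_two_mul j)
  have q1 : ∀ j, n + (r + 2 * K + 1) + 2 ≤ r * (A0 + 2 * j) := fun j => hc1.trans (hmono j)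
  have q2 : ∀ j, 2 * ((r + 2 * K + 1) * (r + K + 1)) + n + 2 ≤ (r + 1) * (A0 + 2 * j) :=
    fun j => hc2.trans (hmono' j)
  have q3 : ∀ j, (r + 2 * K + 1) * (r + K + 1) + n + 2 ≤ (r + 1) * (A0 + 2 * j) := by
    intro j
    have := q2 j
    omega
  -- `F`
  have hF : ∀ j ≤ J, FF r (A0 + 2 * j) n K (cc j) ≠ 0 ∧
      |FF r (A0 + 2 * j) n K (cc j)| ≤ 2 * FB r (A0 + 2 * j) n K := fun j hj =>
    h2 r (A0 + 2 * j) n K (cc j) (hcc j) hr (by omega) (by omega) hne (hAj j) (q1 j) (q3 j)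
  have hFl : ∀ j ≤ J, FL r (A0 + 2 * j) n K ≤ |FF r (A0 + 2 * j) n K (cc j)| := fun j hj =>
    h2' r (A0 + 2 * j) n K (cc j) (hcc j) hr (by omega) (by omega) hne (hAj j) (q1 j) (q2 j)
  -- the multiplier
  set W' := I_MAIN.W N L with hW'
  set Z : ℝ := (Dn N L b : ℝ) * (M : ℝ) ^ N with hZ
  have hMN' : (M : ℝ) ^ N ≤ Real.exp (κ * L ^ 2) := by
    rw [← Real.exp_log (by positivity : (0:ℝ) < (M : ℝ) ^ N), Real.log_pow]
    exact Real.exp_le_exp.mpr hMN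
  have hZle : Z ≤ ZB N L κ := by
    have e1 := Dn_le N L b κ hκ0 hN hL1 hLN hb2
    unfold ZB
    calc Z ≤ ((2 * N : ℝ) ^ L * Real.exp (κ * L ^ 2)) * Real.exp (κ * L ^ 2) := by
          rw [hZ]
          gcongr
      _ = _ := by
          rw [mul_assoc, ← Real.exp_add]
          congr 2
          ring
  have hZ1 : 1 ≤ Z := by
    have e1 : (1:ℝ) ≤ (Dn N L b : ℝ) := by exact_mod_cast Dn_pos N L b hb1
    exact one_le_mul_of_one_le_of_one_le e1 (one_le_pow₀ hM0)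
  have hZpi : 0 < Z / π := by positivity
  -- the forms
  set g : ℕ → ℝ := fun k => (b k : ℝ) * (M : ℝ) ^ k * OddG.G k with hg
  set P : ℕ → ℕ → ℤ := fun j k => Pc r (A0 + 2 * j) n K N L M (cc j) b k with hP
  have hβ : ∀ j ≤ J, ∑ k ∈ W', (P j k : ℝ) * g k = FF r (A0 + 2 * j) n K (cc j) * (Z / π) :=
    fun j hj => beta_eq h3 h4 r (A0 + 2 * j) n K N L M (cc j) (hcc j) hr (by omega) (by omega)
      (q1 j) hc3 (by omega) b
  have hH : ∀ j ≤ J, ∑ k ∈ W', |(P j k : ℝ)| ≤ N * PB r (A0 + 2 * j) n K * ZB N L κ :=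
    fun j hj => Pc_bound h4 r (A0 + 2 * j) n K N L M (cc j) (hcc j) (by omega) (by omega) b hb1 hM
      (ZB N L κ) hZle hL1 hLN
  have hgW : ∀ k ∈ W', g k = ∑ i, (a k i : ℝ) * ω i := by
    intro k hk
    have hk' := (mem_W N L k).mp hk
    exact heq k hk'.2.1 hk'.2.2.1 hk'.2.2.2 hk'.1
  have hgb : ∀ k ∈ W', 1 / (N : ℝ) ^ N ≤ g k ∧
      g k ≤ 8 * (N : ℝ) ^ N * Real.exp (2 * (κ * L ^ 2)) := by
    intro k hk
    have hk' := (mem_W N L k).mp hk
    have hG := h5 k (by omega)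
    have hbk : (1:ℝ) ≤ b k := by exact_mod_cast hb1 k
    have hMk : (1:ℝ) ≤ (M : ℝ) ^ k := one_le_pow₀ hM0
    constructor
    · have e1 := G_low k (by omega)
      have e2 : 1 / (N : ℝ) ^ N ≤ 4 / π ^ k := by
        rw [div_le_div_iff₀ (by positivity) (by positivity)]
        have e3 : π ^ k ≤ (N : ℝ) ^ N := by
          have hpi4 : π ≤ (N : ℝ) := by
            have : (4:ℝ) ≤ N := by exact_mod_cast hN4
            linarith [pi_lt_four]
          calc π ^ k ≤ (N : ℝ) ^ k := by gcongr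
            _ ≤ (N : ℝ) ^ N := pow_le_pow_right₀ (by linarith) hk'.1
        nlinarith [pow_pos pi_pos k]
      have e4 : OddG.G k ≤ g k := by
        rw [hg]
        simp only
        have : (1:ℝ) ≤ (b k : ℝ) * (M : ℝ) ^ k := one_le_mul_of_one_le_of_one_le hbk hMk
        nlinarith [hG.1]
      linarith
    · have e1 : (b k : ℝ) ≤ Real.exp (κ * L ^ 2) := by
        refine (hb2 k).trans (Real.exp_le_exp.mpr ?_)
        have : (L : ℝ) ≤ (L : ℝ) ^ 2 := by nlinarith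
        gcongr
      have e2 : (M : ℝ) ^ k ≤ Real.exp (κ * L ^ 2) :=
        (pow_le_pow_right₀ hM0 hk'.1).trans hMN'
      have e3 : OddG.G k ≤ 8 * (N : ℝ) ^ N := by
        refine hG.2.trans ?_
        have : (k ! : ℝ) ≤ (N : ℝ) ^ N := by
          have f1 : k ! ≤ N ! := Nat.factorial_le hk'.1
          have f2 : N ! ≤ N ^ N := Nat.factorial_le_pow N
          exact_mod_cast f1.trans f2
        gcongr
      have hG0 := hG.1.le
      calc g k ≤ Real.exp (κ * L ^ 2) * Real.exp (κ * L ^ 2) * (8 * (N : ℝ) ^ N) := by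
            rw [hg]
            simp only
            gcongr
        _ = 8 * (N : ℝ) ^ N * Real.exp (2 * (κ * L ^ 2)) := by
            rw [two_mul, Real.exp_add]
            ring
  -- `W'` is nonempty
  have hNN : (0:ℝ) < 1 / (N : ℝ) ^ N := by positivity
  have hWne : W'.Nonempty := by
    rcases Nat.even_or_odd N with h | h
    · refine ⟨N - 1, (mem_W N L _).mpr ⟨by omega, ?_, by omega, by omega⟩⟩
      rcases h with ⟨u, hu⟩
      exact ⟨u - 1, by omega⟩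
    · exact ⟨N, (mem_W N L _).mpr ⟨le_rfl, h, by omega, by omega⟩⟩
  obtain ⟨k0, hk0⟩ := hWne
  obtain ⟨m', hm'1, hm'm, a', ω', ga', ba', rk⟩ :=
    h6 m W' a ω g (Real.exp (κ * (L : ℝ) ^ 2)) hgW (fun k _ i => ha k i)
      ⟨k0, hk0, (hNN.trans_le (hgb k0 hk0).1).ne'⟩
  have hmm : (m' : ℝ) ≤ m := by exact_mod_cast hm'm
  have hQ1 : (1:ℝ) ≤ Q := by exact_mod_cast hQ
  have hB0 : 0 < Real.exp (κ * (L : ℝ) ^ 2) := exp_pos _
  have hZB : 0 ≤ ZB N L κ := by linarith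
  have hPB0 : ∀ j, 0 ≤ PB r (A0 + 2 * j) n K := fun j => by
    have := I_MAIN.PB_one r (A0 + 2 * j) n K
    linarith
  refine h7 m' J Q W' a' ω' g P (fun j => N * PB r (A0 + 2 * j) n K * ZB N L κ)
    (Real.exp (κ * (L : ℝ) ^ 2)) (1 / (N : ℝ) ^ N)
    (8 * (N : ℝ) ^ N * Real.exp (2 * (κ * L ^ 2))) hm'1 hQ ⟨k0, hk0⟩ hNN hB0 ga' ba' rk hgb hH
    ?_ ?_ ?_ ?_ ?_
  · refine le_trans ?_ d0
    gcongr
  · refine lt_of_le_of_lt ?_ d1
    rw [hβ J le_rfl, abs_mul, abs_of_pos hZpi]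
    have hpow : (Q : ℝ) ^ (m' - 1) ≤ (Q : ℝ) ^ (m - 1) :=
      pow_le_pow_right₀ hQ1 (by omega)
    have hFJ := (hF J le_rfl).2
    have hZπ : Z / π ≤ ZB N L κ := by
      refine (div_le_self (by linarith) ?_).trans hZle
      linarith [pi_gt_three]
    have hF0 : 0 ≤ |FF r (A0 + 2 * J) n K (cc J)| := abs_nonneg _
    have hFB0 : 0 ≤ 2 * FB r (A0 + 2 * J) n K := hF0.trans hFJ
    gcongr
  · have e1 : FL r A0 n K / 4 ≤ |∑ k ∈ W', (P 0 k : ℝ) * g k| := by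
      rw [hβ 0 (Nat.zero_le _), abs_mul, abs_of_pos hZpi]
      have hF0 := hFl 0 (Nat.zero_le _)
      simp only [Nat.mul_zero, Nat.add_zero] at hF0 ⊢
      have hZ4 : 1 / 4 ≤ Z / π := by
        rw [div_le_div_iff₀ (by norm_num) pi_pos]
        nlinarith [pi_lt_four]
      have hab : 0 ≤ |FF r A0 n K (cc 0)| := abs_nonneg _
      calc FL r A0 n K / 4 ≤ |FF r A0 n K (cc 0)| * (1 / 4) := by linarith
        _ ≤ |FF r A0 n K (cc 0)| * (Z / π) := by gcongr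
    refine lt_of_le_of_lt ?_ (lt_of_lt_of_le d2 e1)
    simp only [Nat.mul_zero, Nat.add_zero]
    have h0 := hPB0 0
    simp only [Nat.mul_zero, Nat.add_zero] at h0
    gcongr
  · intro j hj
    rw [hβ j (by omega), hβ (j + 1) hj, abs_mul, abs_mul, abs_of_pos hZpi]
    have e1 := d3 j hj
    have e2 := (hF j (by omega)).2
    have e3 := hFl (j + 1) hj
    have e4 : m' * Real.exp (κ * (L : ℝ) ^ 2) *
        (N * PB r (A0 + 2 * (j + 1)) n K * ZB N L κ) / Q *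
        (2 * |FF r (A0 + 2 * j) n K (cc j)|) < |FF r (A0 + 2 * (j + 1)) n K (cc (j + 1))| := by
      refine lt_of_le_of_lt ?_ (lt_of_lt_of_le e1 e3)
      have h0 := hPB0 (j + 1)
      gcongr
    calc m' * Real.exp (κ * (L : ℝ) ^ 2) *
        (N * PB r (A0 + 2 * (j + 1)) n K * ZB N L κ) / Q *
        (2 * (|FF r (A0 + 2 * j) n K (cc j)| * (Z / π)))
        = (m' * Real.exp (κ * (L : ℝ) ^ 2) *
        (N * PB r (A0 + 2 * (j + 1)) n K * ZB N L κ) / Q *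
        (2 * |FF r (A0 + 2 * j) n K (cc j)|)) * (Z / π) := by ring
      _ < |FF r (A0 + 2 * (j + 1)) n K (cc (j + 1))| * (Z / π) :=
          mul_lt_mul_of_pos_right e4 hZpi
  · intro j hj
    refine le_trans ?_ (d4 j hj)
    have h0 := hPB0 j
    gcongr

end Pool.Agent.Work.MP_f1a024_nt.HP
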