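import Mathlib
import Pool.Agent.Work.MP_f1a024_nt.HP.Stmts2

set_option autoImplicit false

/-!
Item NES of the block [f1a024 HP] (helper76): a linear independence criterion of Nesterenko type.
-/

namespace Pool.Agent.Work.MP_f1a024_nt.HP

open Real Polynomial MeasureTheory Finset Filter Topology
open scoped Nat

theorem NES_pf (h1 : S_DIR) : S_NES := by
  intro m J Q W a ω g P H B gm gM hm hQ hW hgm hB hg ha hrank hgb hH hc0 hc1 hc2 hc3 hc4
  have hQ0 : (0 : ℝ) < Q := by exact_mod_cast hQ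
  obtain ⟨k1, hk1⟩ := hW
  -- ω is not zero
  have hω : ∃ i, ω i ≠ 0 := by
    by_contra hcon
    push Not at hcon
    have := (hgb k1 hk1).1
    rw [hg k1 hk1] at this
    simp [hcon] at this
    linarith
  obtain ⟨x, lam, hx0, hxl, hlam⟩ := h1 m Q hm hQ ω hω
  set y : ℕ → ℤ := fun k => ∑ i, a k i * x i with hy
  have hmB : (m : ℝ) * B / Q ≤ 1 / 2 := by
    rw [div_le_iff₀ hQ0]
    linarith
  -- closeness
  have hclose : ∀ k ∈ W, |(y k : ℝ) - lam * g k| ≤ m * B / Q := by
    intro k hk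
    have e1 : (y k : ℝ) - lam * g k = ∑ i, (a k i : ℝ) * ((x i : ℝ) - lam * ω i) := by
      rw [hg k hk, hy]
      push_cast
      rw [Finset.mul_sum, ← Finset.sum_sub_distrib]
      refine Finset.sum_congr rfl fun i _ => ?_
      ring
    rw [e1]
    refine (Finset.abs_sum_le_sum_abs _ _).trans ?_
    have e2 : ∀ i ∈ (Finset.univ : Finset (Fin m)), |(a k i : ℝ) * ((x i : ℝ) - lam * ω i)| ≤ B / Q := by
      intro i _
      rw [abs_mul]
      calc |(a k i : ℝ)| * |(x i : ℝ) - lam * ω i| ≤ B * (1 / Q) :=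
            mul_le_mul (ha k hk i) (hxl i) (abs_nonneg _) hB.le
        _ = B / Q := by ring
    refine (Finset.sum_le_sum e2).trans ?_
    rw [Finset.sum_const, Finset.card_univ, Fintype.card_fin, nsmul_eq_mul]
    exact le_of_eq (by ring)
  -- full rank
  obtain ⟨k0, hk0, hyk0⟩ : ∃ k ∈ W, y k ≠ 0 := by
    by_contra hcon
    push Not at hcon
    apply hx0
    have h2 : (fun i => (x i : ℝ)) = (0 : Fin m → ℝ) := by
      apply hrank
      intro k hk
      have h3 := hcon k hk
      have h4 : ((y k : ℤ) : ℝ) = 0 := by rw [h3]; simp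
      rw [hy] at h4
      push_cast at h4
      rw [← h4]
      refine Finset.sum_congr rfl fun i _ => ?_
      ring
    funext i
    have h5 := congrFun h2 i
    simp only [Pi.zero_apply] at h5 ⊢
    exact_mod_cast h5
  have hgpos : ∀ k ∈ W, 0 < g k := fun k hk => hgm.trans_le (hgb k hk).1
  have hgM : 0 < gM := (hgpos k1 hk1).trans_le (hgb k1 hk1).2
  have hylow : (1 : ℝ) ≤ |(y k0 : ℝ)| := by
    have : (1 : ℤ) ≤ |y k0| := Int.one_le_abs hyk0
    exact_mod_cast this
  have hl1 : 1 / 2 ≤ |lam| * gM := by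
    have h2 := hclose k0 hk0
    have h3 : |(y k0 : ℝ)| ≤ |(y k0 : ℝ) - lam * g k0| + |lam * g k0| := by
      have := abs_add_le ((y k0 : ℝ) - lam * g k0) (lam * g k0)
      simpa using this
    have h4 : |lam * g k0| ≤ |lam| * gM := by
      rw [abs_mul, abs_of_pos (hgpos k0 hk0)]
      exact mul_le_mul_of_nonneg_left (hgb k0 hk0).2 (abs_nonneg _)
    linarith
  have hlpos : 0 < |lam| := by
    by_contra hcon
    have : |lam| = 0 := le_antisymm (not_lt.1 hcon) (abs_nonneg _)
    rw [this] at hl1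
    linarith
  have hl2 : |lam| * gm ≤ m * B * (Q : ℝ) ^ (m - 1) := by
    have h2 : |lam| * gm ≤ |lam * g k1| := by
      rw [abs_mul, abs_of_pos (hgpos k1 hk1)]
      exact mul_le_mul_of_nonneg_left (hgb k1 hk1).1 (abs_nonneg _)
    refine h2.trans ?_
    have e1 : lam * g k1 = ∑ i, (a k1 i : ℝ) * (lam * ω i) := by
      rw [hg k1 hk1, Finset.mul_sum]
      refine Finset.sum_congr rfl fun i _ => ?_
      ring
    rw [e1]
    refine (Finset.abs_sum_le_sum_abs _ _).trans ?_
    have e2 : ∀ i ∈ (Finset.univ : Finset (Fin m)), |(a k1 i : ℝ) * (lam * ω i)| ≤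
        B * (Q : ℝ) ^ (m - 1) := by
      intro i _
      rw [abs_mul]
      exact mul_le_mul (ha k1 hk1 i) (hlam i) (abs_nonneg _) hB.le
    refine (Finset.sum_le_sum e2).trans ?_
    rw [Finset.sum_const, Finset.card_univ, Fintype.card_fin, nsmul_eq_mul]
    exact le_of_eq (by ring)
  -- the linear forms
  set β : ℕ → ℝ := fun j => ∑ k ∈ W, (P j k : ℝ) * g k with hβ
  set Y : ℕ → ℤ := fun j => ∑ k ∈ W, P j k * y k with hY
  have hHn : ∀ j ≤ J, 0 ≤ H j := fun j hj =>
    (Finset.sum_nonneg fun k _ => abs_nonneg _).trans (hH j hj)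
  have hYb : ∀ j ≤ J, |(Y j : ℝ) - lam * β j| ≤ m * B * H j / Q := by
    intro j hj
    have e1 : (Y j : ℝ) - lam * β j = ∑ k ∈ W, (P j k : ℝ) * ((y k : ℝ) - lam * g k) := by
      rw [hY, hβ]
      push_cast
      rw [Finset.mul_sum, ← Finset.sum_sub_distrib]
      refine Finset.sum_congr rfl fun i _ => ?_
      ring
    rw [e1]
    refine (Finset.abs_sum_le_sum_abs _ _).trans ?_
    have e2 : ∀ k ∈ W, |(P j k : ℝ) * ((y k : ℝ) - lam * g k)| ≤ |(P j k : ℝ)| * (m * B / Q) := by
      intro k hk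
      rw [abs_mul]
      exact mul_le_mul_of_nonneg_left (hclose k hk) (abs_nonneg _)
    refine (Finset.sum_le_sum e2).trans ?_
    rw [← Finset.sum_mul]
    have h3 : 0 ≤ (m : ℝ) * B / Q := by positivity
    calc (∑ k ∈ W, |(P j k : ℝ)|) * (m * B / Q) ≤ H j * (m * B / Q) :=
          mul_le_mul_of_nonneg_right (hH j hj) h3
      _ = m * B * H j / Q := by ring
  have hJ : |lam * β J| < 1 / 2 := by
    rw [abs_mul]
    have h2 : |lam| * gm * |β J| ≤ m * B * (Q : ℝ) ^ (m - 1) * |β J| :=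
      mul_le_mul_of_nonneg_right hl2 (abs_nonneg _)
    have h3 : |lam| * gm * |β J| < gm / 2 := h2.trans_lt hc1
    have h4 : gm * (|lam| * |β J|) < gm * (1 / 2) := by linarith
    exact lt_of_mul_lt_mul_left h4 hgm.le
  have hex : ∃ j, |lam * β j| < 1 / 2 := ⟨J, hJ⟩
  classical
  set j := Nat.find hex with hj
  have hjs : |lam * β j| < 1 / 2 := Nat.find_spec hex
  have hjJ : j ≤ J := Nat.find_min' hex hJ
  have hbig : m * B * H j / Q < |lam * β j| := by
    have hpe : 0 ≤ m * B * H j / Q := by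
      have := hHn j hjJ
      positivity
    rcases Nat.eq_zero_or_pos j with h0 | hpos
    · rw [h0] at hpe ⊢
      have h2 : m * B * H 0 / Q * (2 * gM) < |β 0| := hc2
      rw [abs_mul]
      have h3 : |lam| * (m * B * H 0 / Q * (2 * gM)) < |lam| * |β 0| :=
        mul_lt_mul_of_pos_left h2 hlpos
      have h4 : m * B * H 0 / Q * 1 ≤ m * B * H 0 / Q * (2 * (|lam| * gM)) :=
        mul_le_mul_of_nonneg_left (by linarith) hpe
      calc m * B * H 0 / Q = m * B * H 0 / Q * 1 := by ring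
        _ ≤ m * B * H 0 / Q * (2 * (|lam| * gM)) := h4
        _ = |lam| * (m * B * H 0 / Q * (2 * gM)) := by ring
        _ < |lam| * |β 0| := h3
    · obtain ⟨i, hi⟩ : ∃ i, j = i + 1 := ⟨j - 1, by omega⟩
      have hprev : ¬ |lam * β i| < 1 / 2 := Nat.find_min hex (by omega)
      have hprev' : 1 / 2 ≤ |lam| * |β i| := by
        rw [← abs_mul]
        exact not_lt.1 hprev
      rw [hi] at hpe hjJ ⊢
      have h2 : m * B * H (i + 1) / Q * (2 * |β i|) < |β (i + 1)| := hc3 i hjJ
      rw [abs_mul]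
      have h3 : |lam| * (m * B * H (i + 1) / Q * (2 * |β i|)) < |lam| * |β (i + 1)| :=
        mul_lt_mul_of_pos_left h2 hlpos
      have h4 : m * B * H (i + 1) / Q * 1 ≤ m * B * H (i + 1) / Q * (2 * (|lam| * |β i|)) :=
        mul_le_mul_of_nonneg_left (by linarith) hpe
      calc m * B * H (i + 1) / Q = m * B * H (i + 1) / Q * 1 := by ring
        _ ≤ m * B * H (i + 1) / Q * (2 * (|lam| * |β i|)) := h4
        _ = |lam| * (m * B * H (i + 1) / Q * (2 * |β i|)) := by ring
        _ < |lam| * |β (i + 1)| := h3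
  have hYj := hYb j hjJ
  have hY0 : Y j ≠ 0 := by
    intro h0
    rw [h0] at hYj
    simp only [Int.cast_zero, zero_sub, abs_neg] at hYj
    linarith
  have hY1 : (1 : ℝ) ≤ |(Y j : ℝ)| := by
    have : (1 : ℤ) ≤ |Y j| := Int.one_le_abs hY0
    exact_mod_cast this
  have hY2 : |(Y j : ℝ)| ≤ |(Y j : ℝ) - lam * β j| + |lam * β j| := by
    have := abs_add_le ((Y j : ℝ) - lam * β j) (lam * β j)
    simpa using this
  have hY3 := hc4 j hjJ
  linarith

end Pool.Agent.Work.MP_f1a024_nt.HP
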