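import Mathlib
import Pool.Agent.Work.MP_f1a024_nt.HP.Stmts

set_option autoImplicit false

/-!
Item NUM of the block [f1a024 HP]: choice of the parameters.
-/

namespace Pool.Agent.Work.MP_f1a024_nt.HP

open Real Polynomial MeasureTheory Finset Filter Topology
open scoped Nat

namespace I_NUM

lemma pow_self_eq (N : ℕ) (hN : 1 ≤ N) : (N : ℝ) ^ N = Real.exp (N * Real.log N) := by
  have h : (0 : ℝ) < N := by exact_mod_cast hN
  rw [Real.exp_nat_mul, Real.exp_log h]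

lemma pow_le_E (a k N : ℕ) (ha : a ≤ N) (hk : k ≤ N) (hN : 1 ≤ N) :
    (a : ℝ) ^ k ≤ Real.exp (N * Real.log N) := by
  rw [← pow_self_eq N hN]
  have h1 : (a : ℝ) ^ k ≤ (N : ℝ) ^ k := by
    have : (a : ℝ) ≤ N := by exact_mod_cast ha
    gcongr
  have h2 : (N : ℝ) ^ k ≤ (N : ℝ) ^ N :=
    pow_le_pow_right₀ (by exact_mod_cast hN) hk
  exact h1.trans h2

lemma fact_le_E (a N : ℕ) (ha : a ≤ N) (hN : 1 ≤ N) :
    ((a ! : ℕ) : ℝ) ≤ Real.exp (N * Real.log N) := by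
  have h : ((a ! : ℕ) : ℝ) ≤ (a : ℝ) ^ a := by
    exact_mod_cast Nat.factorial_le_pow a
  exact h.trans (pow_le_E a a N ha ha hN)

lemma dd_le (r : ℕ) : (dd r : ℝ) ≤ Real.exp (6 * r) := by
  have h1 : Chebyshev.psi (r : ℝ) ≤ (Real.log 4 + 4) * r :=
    Chebyshev.psi_le_const_mul_self (by positivity)
  rw [Chebyshev.psi_eq_log_lcmUpto] at h1
  have hpos : (0 : ℝ) < (dd r : ℝ) := by
    have : 0 < Nat.lcmUpto r := Nat.lcmUpto_pos r
    exact_mod_cast this
  have h4 : Real.log 4 ≤ 2 := by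
    have : Real.log 4 = 2 * Real.log 2 := by
      rw [show (4 : ℝ) = 2 ^ 2 by norm_num, Real.log_pow]; norm_num
    rw [this]
    have := Real.log_two_lt_d9
    linarith
  have h2 : Real.log (dd r : ℝ) ≤ 6 * r := by
    have h3 : (Real.log 4 + 4) * (r : ℝ) ≤ 6 * r := by
      have : (0 : ℝ) ≤ r := by positivity
      nlinarith
    exact h1.trans h3
  calc (dd r : ℝ) = Real.exp (Real.log (dd r : ℝ)) := (Real.exp_log hpos).symm
    _ ≤ Real.exp (6 * r) := Real.exp_le_exp.mpr h2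

lemma dd_pow_le (r A : ℕ) : (dd r : ℝ) ^ (A - 1) ≤ Real.exp (6 * ((r : ℝ) * A)) := by
  have h1 : (1 : ℝ) ≤ (dd r : ℝ) := by
    have : 0 < Nat.lcmUpto r := Nat.lcmUpto_pos r
    exact_mod_cast this
  calc (dd r : ℝ) ^ (A - 1) ≤ (dd r : ℝ) ^ A := pow_le_pow_right₀ h1 (Nat.sub_le _ _)
    _ ≤ (Real.exp (6 * r)) ^ A := by
        have := dd_le r
        gcongr
    _ = Real.exp (6 * ((r : ℝ) * A)) := by
        rw [← Real.exp_nat_mul]; congr 1; ring

lemma FB_le (r A n K N x P : ℕ) (hr : 1 ≤ r) (hK : K = x * r) (hq : r + 2 * K + 1 ≤ N)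
    (hn : n + 1 ≤ N) (hN : 1 ≤ N) (hx : Real.exp (7 * P) ≤ x) :
    FB r A n K ≤ Real.exp (2 * (N * Real.log N) + (6 - 7 * P) * ((r : ℝ) * A)) := by
  have hr' : (0 : ℝ) < r := by exact_mod_cast hr
  have hR : r + K + 1 ≤ N := by omega
  have e1 := dd_pow_le r A
  have e2 := fact_le_E (r + 2 * K + 1) N hq hN
  have e3 := pow_le_E (r + K + 1) (n + 1) N hR hn hN
  have e4 : ((r : ℝ) / (r + K + 1)) ^ (r * A) ≤ Real.exp (-(7 * P * ((r : ℝ) * A))) := by
    have h1 : (r : ℝ) / (r + K + 1) ≤ Real.exp (-(7 * P)) := by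
      rw [Real.exp_neg, ← one_div, div_le_div_iff₀ (by positivity) (Real.exp_pos _)]
      have hK' : (K : ℝ) = x * r := by rw [hK]; push_cast; ring
      rw [hK']
      nlinarith [Real.exp_pos (7 * (P : ℝ))]
    calc ((r : ℝ) / (r + K + 1)) ^ (r * A) ≤ (Real.exp (-(7 * P))) ^ (r * A) := by
          gcongr
      _ = Real.exp (-(7 * P * ((r : ℝ) * A))) := by
          rw [← Real.exp_nat_mul]; congr 1; push_cast; ring
  unfold FB
  have e3' : ((r : ℝ) + K + 1) ^ (n + 1) ≤ Real.exp (N * Real.log N) := by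
    have := e3
    push_cast at this
    exact this
  calc (dd r : ℝ) ^ (A - 1) * (((r + 2 * K + 1)! : ℝ) * (r + K + 1 : ℝ) ^ (n + 1) *
    ((r : ℝ) / (r + K + 1)) ^ (r * A)) ≤ Real.exp (6 * ((r : ℝ) * A)) *
      (Real.exp (N * Real.log N) * Real.exp (N * Real.log N) *
        Real.exp (-(7 * P * ((r : ℝ) * A)))) := by
        gcongr
    _ = _ := by
        rw [← Real.exp_add, ← Real.exp_add, ← Real.exp_add]; congr 1; ring

lemma PB_le (r A n K N : ℕ) (hq : r + 2 * K + 1 ≤ N) (hA : A ≤ N)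
    (hn : n + 1 ≤ N) (hN : 2 ≤ N) :
    PB r A n K ≤ Real.exp (3 * (N * Real.log N) + 7 * ((r : ℝ) * A)) := by
  have hR : r + K + 1 ≤ N := by omega
  have e1 := dd_pow_le r A
  have e2 := fact_le_E A N hA (by omega)
  have e3 := pow_le_E (r + K + 1) (r + 2 * K + 1) N hR hq (by omega)
  have e4 := pow_le_E 2 n N hN (by omega) (by omega)
  have e5 : ((2 : ℝ) ^ r) ^ A ≤ Real.exp ((r : ℝ) * A) := by
    have h1 : (2 : ℝ) ≤ Real.exp 1 := by
      have := Real.add_one_le_exp (1 : ℝ)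
      linarith
    calc ((2 : ℝ) ^ r) ^ A ≤ ((Real.exp 1) ^ r) ^ A := by gcongr
      _ = Real.exp ((r : ℝ) * A) := by
        rw [← pow_mul, ← Real.exp_nat_mul]; congr 1; push_cast; ring
  have e3' : ((r : ℝ) + K + 1) ^ (r + 2 * K + 1) ≤ Real.exp (N * Real.log N) := by
    have := e3
    push_cast at this
    exact this
  have e4' : (2 : ℝ) ^ n ≤ Real.exp (N * Real.log N) := by
    have := e4
    push_cast at this
    exact this
  unfold PB
  calc (r + K + 1 : ℝ) ^ (r + 2 * K + 1) * 2 ^ n *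
      ((dd r : ℝ) ^ (A - 1) * ((2 : ℝ) ^ r) ^ A * (A ! : ℝ))
      ≤ Real.exp (N * Real.log N) * Real.exp (N * Real.log N) *
        (Real.exp (6 * ((r : ℝ) * A)) * Real.exp ((r : ℝ) * A) * Real.exp (N * Real.log N)) := by
        gcongr
    _ = _ := by
        rw [← Real.exp_add, ← Real.exp_add, ← Real.exp_add, ← Real.exp_add]; congr 1; ring

lemma Z_le (N L : ℕ) (κ : ℝ) (hL : L ≤ N) (hN : 2 ≤ N) :
    (2 * N : ℝ) ^ L * Real.exp (3 * κ * L ^ 2) ≤
      Real.exp (2 * (N * Real.log N) + 3 * κ * L ^ 2) := by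
  have e1 := pow_le_E N L N le_rfl hL (by omega)
  have e2 := pow_le_E 2 L N hN hL (by omega)
  have e2' : (2 : ℝ) ^ L ≤ Real.exp (N * Real.log N) := by
    have := e2
    push_cast at this
    exact this
  calc (2 * N : ℝ) ^ L * Real.exp (3 * κ * L ^ 2)
      = (2 : ℝ) ^ L * (N : ℝ) ^ L * Real.exp (3 * κ * L ^ 2) := by rw [mul_pow]
    _ ≤ Real.exp (N * Real.log N) * Real.exp (N * Real.log N) * Real.exp (3 * κ * L ^ 2) := by
        gcongr
    _ = _ := by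
        rw [← Real.exp_add, ← Real.exp_add]; congr 1; ring

lemma last_ineq (r A n K N L x c : ℕ) (κ : ℝ) (hr : 1 ≤ r) (hK : K = x * r)
    (hq : r + 2 * K + 1 ≤ N) (hA : A ≤ N) (hn : n + 1 ≤ N) (hN : 4 ≤ N) (hL : L ≤ N)
    (hc : 2 * c ≤ N)
    (hx : Real.exp (7 * (2 ^ c : ℕ)) ≤ x)
    (hfin : 11 * (2 : ℝ) ^ c * (N * Real.log N) + 3 * (2 : ℝ) ^ c * κ * L ^ 2 < (r : ℝ) * A) :
    2 * FB r A n K * ((2 * N : ℝ) ^ L * Real.exp (3 * κ * L ^ 2)) *
        ((4 : ℝ) ^ c * (8 * (N : ℝ) ^ (N + 1) * PB r A n K *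
          ((2 * N : ℝ) ^ L * Real.exp (3 * κ * L ^ 2)))) ^ (2 ^ c - 1) < 1 := by
  have hFB := FB_le r A n K N x (2 ^ c) hr hK hq hn (by omega) hx
  have hPB := PB_le r A n K N hq hA hn (by omega)
  have hZ := Z_le N L κ hL (by omega)
  set E : ℝ := N * Real.log N with hE
  set U : ℝ := (r : ℝ) * A with hU
  set V : ℝ := 3 * κ * (L : ℝ) ^ 2 with hV
  have hNN : (N : ℝ) ^ (N + 1) ≤ Real.exp (2 * E) := by
    have e1 := pow_le_E N N N le_rfl le_rfl (by omega)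
    have e2 := pow_le_E N 1 N le_rfl (by omega) (by omega)
    rw [← hE] at e1 e2
    calc (N : ℝ) ^ (N + 1) = (N : ℝ) ^ N * (N : ℝ) ^ 1 := by rw [pow_add]
      _ ≤ Real.exp E * Real.exp E := by gcongr
      _ = _ := by rw [← Real.exp_add]; congr 1; ring
  have h2 : (2 : ℝ) ≤ Real.exp E := by
    have := pow_le_E 2 1 N (by omega) (by omega) (by omega)
    push_cast at this
    simpa using this
  have h8 : (8 : ℝ) ≤ Real.exp E := by
    have := pow_le_E 2 3 N (by omega) (by omega) (by omega)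
    push_cast at this
    norm_num at this
    exact this
  have h4 : (4 : ℝ) ^ c ≤ Real.exp E := by
    have := pow_le_E 2 (2 * c) N (by omega) hc (by omega)
    push_cast at this
    rw [pow_mul] at this
    norm_num at this
    exact this
  have hFB0 : 0 ≤ FB r A n K := by
    unfold FB; positivity
  have hPB0 : 0 ≤ PB r A n K := by
    unfold PB; positivity
  have hY : (4 : ℝ) ^ c * (8 * (N : ℝ) ^ (N + 1) * PB r A n K *
          ((2 * N : ℝ) ^ L * Real.exp V)) ≤ Real.exp (9 * E + 7 * U + V) := by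
    calc (4 : ℝ) ^ c * (8 * (N : ℝ) ^ (N + 1) * PB r A n K *
          ((2 * N : ℝ) ^ L * Real.exp V))
        ≤ Real.exp E * (Real.exp E * Real.exp (2 * E) * Real.exp (3 * E + 7 * U) *
          Real.exp (2 * E + V)) := by gcongr
      _ = _ := by
        rw [← Real.exp_add, ← Real.exp_add, ← Real.exp_add, ← Real.exp_add]; congr 1; ring
  have hX : 2 * FB r A n K * ((2 * N : ℝ) ^ L * Real.exp V) ≤
      Real.exp (5 * E + (6 - 7 * (2 ^ c : ℕ)) * U + V) := by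
    calc 2 * FB r A n K * ((2 * N : ℝ) ^ L * Real.exp V)
        ≤ Real.exp E * Real.exp (2 * E + (6 - 7 * (2 ^ c : ℕ)) * U) *
          Real.exp (2 * E + V) := by gcongr
      _ = _ := by
        rw [← Real.exp_add, ← Real.exp_add]; congr 1; ring
  have hY0 : 0 ≤ (4 : ℝ) ^ c * (8 * (N : ℝ) ^ (N + 1) * PB r A n K *
          ((2 * N : ℝ) ^ L * Real.exp V)) := by positivity
  have hcast : (((2 ^ c - 1 : ℕ)) : ℝ) = (2 : ℝ) ^ c - 1 := by
    have : 1 ≤ 2 ^ c := Nat.one_le_two_pow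
    push_cast [this]
    ring
  calc 2 * FB r A n K * ((2 * N : ℝ) ^ L * Real.exp V) *
        ((4 : ℝ) ^ c * (8 * (N : ℝ) ^ (N + 1) * PB r A n K *
          ((2 * N : ℝ) ^ L * Real.exp V))) ^ (2 ^ c - 1)
      ≤ Real.exp (5 * E + (6 - 7 * (2 ^ c : ℕ)) * U + V) *
        (Real.exp (9 * E + 7 * U + V)) ^ (2 ^ c - 1) := by
        gcongr
    _ = Real.exp ((5 * E + (6 - 7 * (2 ^ c : ℕ)) * U + V) +
        ((2 : ℝ) ^ c - 1) * (9 * E + 7 * U + V)) := by
        rw [← Real.exp_nat_mul, ← Real.exp_add, hcast]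
    _ < 1 := by
        rw [Real.exp_lt_one_iff]
        have hE0 : 0 ≤ E := by
          rw [hE]
          have : 0 ≤ Real.log N := Real.log_natCast_nonneg N
          positivity
        have hp : (1 : ℝ) ≤ (2 : ℝ) ^ c := one_le_pow₀ (by norm_num)
        push_cast
        nlinarith

lemma params (N L x P : ℕ) (hx1 : 1 ≤ x) (hP : 1 ≤ P) (hN : 2 ≤ N) (hL : L ≤ N)
    (h : (400 * P * (64 * (1 + x) ^ 2) : ℝ) * (N * Real.log N) ≤ (L : ℝ) ^ 2) :
    200 * P * (64 * (1 + x) ^ 2) ≤ L ∧ 200 * P * (64 * (1 + x) ^ 2) * N ≤ L ^ 2 := by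
  have hlog : (1 : ℝ) / 2 ≤ Real.log N := by
    have h2 : Real.log 2 ≤ Real.log N := Real.log_le_log (by norm_num) (by exact_mod_cast hN)
    have := Real.log_two_gt_d9
    linarith
  have hN0 : (0 : ℝ) < N := by
    have : 0 < N := by omega
    exact_mod_cast this
  have hE : (N : ℝ) / 2 ≤ N * Real.log N := by nlinarith
  have h1 : (200 * P * (64 * (1 + x) ^ 2) : ℝ) * N ≤ (L : ℝ) ^ 2 := by
    have h3 : (0 : ℝ) ≤ 400 * P * (64 * (1 + x) ^ 2) := by positivity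
    have h4 := mul_le_mul_of_nonneg_left hE h3
    linarith
  have h2 : 200 * P * (64 * (1 + x) ^ 2) * N ≤ L ^ 2 := by exact_mod_cast h1
  refine ⟨?_, h2⟩
  by_contra hlt
  push Not at hlt
  have h5 : L * L < 200 * P * (64 * (1 + x) ^ 2) * N := by
    rcases Nat.eq_zero_or_pos L with h0 | h0
    · subst h0
      have : 0 < 200 * P * (64 * (1 + x) ^ 2) * N := by positivity
      simpa using this
    · calc L * L < 200 * P * (64 * (1 + x) ^ 2) * L := by
            exact Nat.mul_lt_mul_of_pos_right hlt h0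
        _ ≤ 200 * P * (64 * (1 + x) ^ 2) * N := Nat.mul_le_mul_left _ hL
  have h6 : L ^ 2 = L * L := by ring
  omega

lemma main_params (N L x P : ℕ) (hx1 : 1 ≤ x) (hP : 1 ≤ P) (hN : 2 ≤ N) (hL : L ≤ N)
    (h1 : 200 * P * (64 * (1 + x) ^ 2) ≤ L) (h2 : 200 * P * (64 * (1 + x) ^ 2) * N ≤ L ^ 2) :
    ∃ r A n : ℕ, 1 ≤ r ∧ 1 ≤ A ∧ A ≤ n ∧ Even n ∧ Even A ∧
      n + (r + 2 * (x * r) + 1) + 2 ≤ r * A ∧
      (r + 2 * (x * r) + 1) * (r + x * r + 1) + n + 2 ≤ (r + 1) * A ∧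
      n + (r + 2 * (x * r) + 1) + 1 ≤ N ∧ N + A ≤ n + 3 + L ∧
      L ^ 2 ≤ 8 * (64 * (1 + x) ^ 2) * (r * A) := by
  set T : ℕ := 64 * (1 + x) ^ 2 with hT
  have hT1 : 256 ≤ T := by
    rw [hT]
    have : 2 ^ 2 ≤ (1 + x) ^ 2 := Nat.pow_le_pow_left (by omega) 2
    omega
  have hL1 : 200 * T ≤ L := by
    calc 200 * T ≤ 200 * P * T := by nlinarith
      _ ≤ L := h1
  have hN1 : 200 * T * N ≤ L ^ 2 := by
    calc 200 * T * N ≤ 200 * P * T * N := by
          have : T * N ≤ P * (T * N) := Nat.le_mul_of_pos_left _ hP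
          nlinarith
      _ ≤ L ^ 2 := h2
  obtain ⟨r, hr⟩ : ∃ r, r = L / T := ⟨_, rfl⟩
  obtain ⟨A, hA⟩ : ∃ A, A = 2 * (L / 4) := ⟨_, rfl⟩
  have hr1 : T * r ≤ L := by rw [hr]; exact Nat.mul_div_le L T
  have hr2 : L < T * r + T := by
    rw [hr]
    have := Nat.lt_mul_div_succ L (show 0 < T by omega)
    rw [Nat.mul_add, Nat.mul_one] at this
    exact this
  have hr0 : 1 ≤ r := by
    by_contra hcon
    have : r = 0 := by omega
    subst this
    omega
  have hTr : L ≤ 2 * (T * r) := by omega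
  have hA1 : 2 * A ≤ L := by omega
  have hA2 : L < 2 * A + 4 := by omega
  have hq : r + 2 * (x * r) + 1 ≤ 2 * ((1 + x) * r) := by nlinarith
  have hR : r + x * r + 1 ≤ 2 * ((1 + x) * r) := by nlinarith
  have hq2 : 64 * ((1 + x) * r) ≤ L := by
    calc 64 * ((1 + x) * r) ≤ 64 * ((1 + x) * ((1 + x) * r)) := by
          have : (1 + x) * r ≤ (1 + x) * ((1 + x) * r) := Nat.le_mul_of_pos_left _ (by omega)
          omega
      _ = T * r := by rw [hT]; ring
      _ ≤ L := hr1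
  obtain ⟨q, hqd⟩ : ∃ q, q = r + 2 * (x * r) + 1 := ⟨_, rfl⟩
  have hqL : 32 * q ≤ L := by rw [hqd]; omega
  obtain ⟨n, hn⟩ : ∃ n, n = 2 * ((N - q - 1) / 2) := ⟨_, rfl⟩
  have hrA : L ^ 2 ≤ 8 * T * (r * A) := by
    have h3 : L * L ≤ (2 * (T * r)) * (4 * A) := Nat.mul_le_mul hTr (by omega)
    nlinarith
  have hNrA : N + 1 ≤ r * A := by
    by_contra hcon
    push Not at hcon
    have h5 : 8 * T * (r * A) ≤ 8 * T * N := Nat.mul_le_mul_left _ (by omega)
    have h6 : 8 * T * N < 200 * T * N := by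
      have : 0 < T * N := by positivity
      nlinarith
    omega
  refine ⟨r, A, n, hr0, by omega, by omega, ⟨(N - q - 1) / 2, by omega⟩, ⟨L / 4, by omega⟩,
    ?_, ?_, ?_, ?_, hrA⟩
  · rw [← hqd]; omega
  · rw [← hqd]
    have h3 : q * (r + x * r + 1) ≤ (2 * ((1 + x) * r)) * (2 * ((1 + x) * r)) :=
      Nat.mul_le_mul (by omega) hR
    have h4 : 16 * ((2 * ((1 + x) * r)) * (2 * ((1 + x) * r))) = T * r * r := by
      rw [hT]; ring
    have h5 : T * r * r ≤ L * r := Nat.mul_le_mul_right _ hr1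
    have h6 : 16 * N ≤ 3 * (L * r) := by
      by_contra hcon
      push Not at hcon
      have h7 : 3 * (T * (L * r)) < 16 * (T * N) := by
        have := Nat.mul_lt_mul_of_pos_left hcon (show 0 < T by omega)
        nlinarith
      have h8 : L * L ≤ 2 * (T * r) * L := Nat.mul_le_mul_right _ hTr
      have h9 : 200 * (T * N) ≤ L * L := by nlinarith
      nlinarith
    have h7 : L * r ≤ 4 * (r * A) := by
      have : L ≤ 4 * A := by omega
      have := Nat.mul_le_mul_right r this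
      nlinarith
    have h8 : n + 2 ≤ N := by omega
    have h9 : (r + 1) * A = r * A + A := by ring
    rw [h9]
    omega
  · rw [← hqd]; omega
  · omega

end I_NUM

theorem NUM_pf : S_NUM := by
  intro c
  obtain ⟨x, hx⟩ : ∃ x : ℕ, x = ⌈Real.exp (7 * ((2 ^ c : ℕ) : ℝ))⌉₊ := ⟨_, rfl⟩
  have hxe : Real.exp (7 * ((2 ^ c : ℕ) : ℝ)) ≤ x := by rw [hx]; exact Nat.le_ceil _
  have hx1 : 1 ≤ x := by
    rw [hx]; exact Nat.one_le_ceil_iff.mpr (Real.exp_pos _)
  have hP : 1 ≤ 2 ^ c := Nat.one_le_two_pow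
  have hPr : (1 : ℝ) ≤ (2 : ℝ) ^ c := by exact_mod_cast hP
  refine ⟨1 / (48 * (2 : ℝ) ^ c * (64 * (1 + x) ^ 2)), 400 * (2 : ℝ) ^ c * (64 * (1 + x) ^ 2),
    by positivity, by positivity, ?_⟩
  intro N L hN hL h
  have h' : (400 * ((2 ^ c : ℕ) : ℝ) * (64 * (1 + x) ^ 2) : ℝ) * (N * Real.log N) ≤
      (L : ℝ) ^ 2 := by
    push_cast; exact h
  obtain ⟨h1, h2⟩ := I_NUM.params N L x (2 ^ c) hx1 hP hN hL h'
  obtain ⟨r, A, n, hr, hA, hAn, hne, hAe, g1, g2, g3, g4, g5⟩ :=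
    I_NUM.main_params N L x (2 ^ c) hx1 hP hN hL h1 h2
  refine ⟨r, A, n, x * r, hr, hA, hAn, hne, hAe, g1, g2, g3, g4, ?_⟩
  have hbig : 200 * 2 ^ c ≤ L := by
    have : 200 * 2 ^ c * 1 ≤ 200 * 2 ^ c * (64 * (1 + x) ^ 2) :=
      Nat.mul_le_mul_left _ (by nlinarith [Nat.one_le_pow 2 (1 + x) (by omega)])
    omega
  have hc : 2 * c ≤ N := by
    have := Nat.lt_two_pow_self (n := c)
    omega
  refine I_NUM.last_ineq r A n (x * r) N L x c _ hr rfl (by omega) (by omega) (by omega)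
    (by omega) hL hc hxe ?_
  have g5' : (L : ℝ) ^ 2 ≤ 8 * (64 * (1 + x) ^ 2) * (r * A) := by exact_mod_cast g5
  have hLpos : (0 : ℝ) < (L : ℝ) ^ 2 := by
    have : 0 < L := by omega
    have : (0 : ℝ) < L := by exact_mod_cast this
    positivity
  set T : ℝ := 64 * (1 + (x : ℝ)) ^ 2 with hT
  have hT0 : 0 < T := by rw [hT]; positivity
  set P : ℝ := (2 : ℝ) ^ c with hPd
  have hP0 : 0 < P := by linarith
  have e1 : 11 * P * (N * Real.log N) ≤ 11 * (L : ℝ) ^ 2 / (400 * T) := by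
    rw [le_div_iff₀ (by positivity)]
    nlinarith
  have e2 : 3 * P * (1 / (48 * P * T)) * (L : ℝ) ^ 2 = (L : ℝ) ^ 2 / (16 * T) := by
    field_simp
    ring
  have e3 : (L : ℝ) ^ 2 / (8 * T) ≤ (r : ℝ) * A := by
    rw [div_le_iff₀ (by positivity)]
    nlinarith
  rw [e2]
  have e4 : 11 * (L : ℝ) ^ 2 / (400 * T) + (L : ℝ) ^ 2 / (16 * T) < (L : ℝ) ^ 2 / (8 * T) := by
    have : (L : ℝ) ^ 2 / (8 * T) - (11 * (L : ℝ) ^ 2 / (400 * T) + (L : ℝ) ^ 2 / (16 * T)) =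
        (L : ℝ) ^ 2 / T * (14 / 400) := by
      field_simp
      ring
    have h5 : 0 < (L : ℝ) ^ 2 / T * (14 / 400) := by positivity
    linarith
  linarith

end Pool.Agent.Work.MP_f1a024_nt.HP
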