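import Mathlib
import Pool.Agent.Work.MP_f1a024_nt.HP.Stmts2
import Pool.Agent.Work.MP_f1a024_nt.HP.I_NUM

set_option autoImplicit false

/-!
Item NU2 of the block [f1a024 HP], part 2: choice of the parameters for the dimension version.
-/

namespace Pool.Agent.Work.MP_f1a024_nt.HP

open Real Polynomial MeasureTheory Finset Filter Topology
open scoped Nat

namespace I_NU2

open I_NUM

lemma nat_le_E (a N : ℕ) (ha : a ≤ N) (hN : 1 ≤ N) :
    (a : ℝ) ≤ Real.exp (N * Real.log N) := by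
  have := pow_le_E a 1 N ha hN hN
  simpa using this

lemma fact_ge (r : ℕ) : ((r : ℝ) / Real.exp 1) ^ r ≤ (r ! : ℝ) := by
  have h := Real.pow_div_factorial_le_exp (r : ℝ) (by positivity) r
  have hf : (0 : ℝ) < (r ! : ℝ) := by exact_mod_cast Nat.factorial_pos r
  rw [div_le_iff₀ hf] at h
  rw [div_pow, ← Real.exp_nat_mul, div_le_iff₀ (Real.exp_pos _)]
  have e : ((r : ℝ) * 1) = r := by ring
  rw [e]
  linarith [mul_comm (Real.exp (r : ℝ)) (r ! : ℝ)]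

lemma FL_ge (r A n K N x : ℕ) (l : ℝ) (hr : 1 ≤ r) (hK : K = x * r) (hR : 3 * (r + K + 1) ≤ N)
    (hA : A ≤ N) (hN : 2 ≤ N) (hl : 2 ≤ l) (hx : (x : ℝ) ≤ Real.exp l + 1) :
    Real.exp (-(2 * (N * Real.log N)) - (l + 3) * ((r : ℝ) * A)) ≤ FL r A n K := by
  have hr' : (1 : ℝ) ≤ r := by exact_mod_cast hr
  set E : ℝ := N * Real.log N with hE
  set R : ℝ := (r : ℝ) + K + 1 with hRd
  have hR1 : 1 ≤ R := by
    have : (0 : ℝ) ≤ K := by positivity
    linarith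
  have hRr : 3 * R * Real.exp 1 ≤ Real.exp (l + 3) * r := by
    have hK' : (K : ℝ) = x * r := by rw [hK]; push_cast; ring
    have h1 : R ≤ (Real.exp l + 3) * r := by
      rw [hRd, hK']
      nlinarith
    have h2 : 3 * (Real.exp l + 3) * Real.exp 1 ≤ Real.exp (l + 3) := by
      have e1 : Real.exp (l + 3) = Real.exp l * Real.exp 1 ^ 3 := by
        rw [Real.exp_add]
        congr 1
        rw [← Real.exp_nat_mul]
        norm_num
      rw [e1]
      have g1 := Real.exp_one_gt_d9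
      have g2 := Real.exp_one_lt_d9
      have g3 : (7 : ℝ) ≤ Real.exp l := by
        have e2 : Real.exp 2 ≤ Real.exp l := Real.exp_le_exp.mpr hl
        have e3 : Real.exp 2 = Real.exp 1 ^ 2 := by
          rw [← Real.exp_nat_mul]
          norm_num
        nlinarith
      have g4 : (7.3 : ℝ) ≤ Real.exp 1 ^ 2 := by nlinarith
      have g5 : 0 < Real.exp 1 := Real.exp_pos 1
      have g6 : 3 * (Real.exp l + 3) ≤ Real.exp l * Real.exp 1 ^ 2 := by nlinarith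
      calc 3 * (Real.exp l + 3) * Real.exp 1 ≤ Real.exp l * Real.exp 1 ^ 2 * Real.exp 1 :=
            mul_le_mul_of_nonneg_right g6 g5.le
        _ = _ := by ring
    calc 3 * R * Real.exp 1 ≤ 3 * ((Real.exp l + 3) * r) * Real.exp 1 := by
          have := Real.exp_pos 1
          gcongr
      _ = 3 * (Real.exp l + 3) * Real.exp 1 * r := by ring
      _ ≤ _ := by gcongr
  have e1 : Real.exp (-((l + 3) * ((r : ℝ) * A))) ≤ (((r : ℝ) / Real.exp 1 / (3 * R)) ^ r) ^ A := by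
    have h1 : Real.exp (-(l + 3)) ≤ (r : ℝ) / Real.exp 1 / (3 * R) := by
      rw [Real.exp_neg, ← one_div, div_div, div_le_div_iff₀ (Real.exp_pos _) (by positivity)]
      nlinarith
    calc Real.exp (-((l + 3) * ((r : ℝ) * A))) = (Real.exp (-(l + 3)) ^ r) ^ A := by
          rw [← pow_mul, ← Real.exp_nat_mul]; congr 1; push_cast; ring
      _ ≤ _ := by gcongr
  have e2 : (3 * R) ^ A ≤ Real.exp E := by
    have := pow_le_E (3 * (r + K + 1)) A N hR hA (by omega)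
    push_cast at this
    exact this
  have e3 : (1 : ℝ) ≤ R ^ (n + 1) := one_le_pow₀ hR1
  have e4 : (2 : ℝ) ≤ Real.exp E := by
    have := nat_le_E 2 N hN (by omega)
    push_cast at this
    exact this
  have e5 : (((r : ℝ) / Real.exp 1 / (3 * R)) ^ r) ^ A * ((3 * R) ^ A)⁻¹ ≤
      ((r ! : ℝ) / (3 * R) ^ (r + 1)) ^ A := by
    rw [← inv_pow, ← mul_pow]
    have h1 := fact_ge r
    have h2 : ((r : ℝ) / Real.exp 1 / (3 * R)) ^ r * (3 * R)⁻¹ ≤ (r ! : ℝ) / (3 * R) ^ (r + 1) := by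
      rw [div_pow _ (3 * R), pow_succ, ← div_eq_mul_inv, div_div]
      gcongr
    have h3 : 0 ≤ ((r : ℝ) / Real.exp 1 / (3 * R)) ^ r * (3 * R)⁻¹ := by positivity
    gcongr
  unfold FL
  rw [← hRd]
  have e6 : Real.exp (-E) ≤ ((3 * R) ^ A)⁻¹ := by
    rw [Real.exp_neg]
    exact inv_anti₀ (by positivity) e2
  have e7 : Real.exp (-E) ≤ R ^ (n + 1) / 2 := by
    rw [Real.exp_neg]
    have h1 : (Real.exp E)⁻¹ ≤ 1 / 2 := by
      rw [inv_eq_one_div]
      exact one_div_le_one_div_of_le (by norm_num) e4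
    linarith
  calc Real.exp (-(2 * E) - (l + 3) * ((r : ℝ) * A))
      = Real.exp (-((l + 3) * ((r : ℝ) * A))) * Real.exp (-E) * Real.exp (-E) := by
        rw [← Real.exp_add, ← Real.exp_add]; congr 1; ring
    _ ≤ (((r : ℝ) / Real.exp 1 / (3 * R)) ^ r) ^ A * ((3 * R) ^ A)⁻¹ * (R ^ (n + 1) / 2) := by
        gcongr
    _ ≤ ((r ! : ℝ) / (3 * R) ^ (r + 1)) ^ A * (R ^ (n + 1) / 2) := by gcongr
    _ = _ := by ring

lemma ZB_le (N L : ℕ) (κ : ℝ) (hL : L ≤ N) (hN : 2 ≤ N) :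
    ZB N L κ ≤ Real.exp (2 * (N * Real.log N) + 2 * (κ * L ^ 2)) := by
  have e1 := pow_le_E N L N le_rfl hL (by omega)
  have e2 := pow_le_E 2 L N hN hL (by omega)
  have e2' : (2 : ℝ) ^ L ≤ Real.exp (N * Real.log N) := by
    have := e2
    push_cast at this
    exact this
  unfold ZB
  calc (2 * N : ℝ) ^ L * Real.exp (2 * (κ * L ^ 2))
      = (2 : ℝ) ^ L * (N : ℝ) ^ L * Real.exp (2 * (κ * L ^ 2)) := by rw [mul_pow]
    _ ≤ Real.exp (N * Real.log N) * Real.exp (N * Real.log N) * Real.exp (2 * (κ * L ^ 2)) := by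
        gcongr
    _ = _ := by
        rw [← Real.exp_add, ← Real.exp_add]; congr 1; ring

lemma kap_le (m x : ℕ) (hm : 1 ≤ m) (hx : (x : ℝ) ≤ Real.exp (7 * ((3 * m + 1 : ℕ) : ℝ)) + 1) :
    400 * (m : ℝ) * (1024 * m * (1 + x) ^ 2) ≤ Real.exp (70 * m) := by
  have hm' : (1 : ℝ) ≤ m := by exact_mod_cast hm
  have g1 := Real.exp_one_gt_d9
  have hexp14 : (1000000 : ℝ) ≤ Real.exp 14 := by
    have e : Real.exp 14 = Real.exp 1 ^ 14 := by
      rw [← Real.exp_nat_mul]; norm_num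
    rw [e]
    calc (1000000 : ℝ) ≤ (2.7 : ℝ) ^ 14 := by norm_num
      _ ≤ Real.exp 1 ^ 14 := by
        apply pow_le_pow_left₀ (by norm_num)
        linarith
  have h1 : (1 : ℝ) + x ≤ 11 / 10 * Real.exp (21 * m + 7) := by
    have e : (7 * ((3 * m + 1 : ℕ) : ℝ)) = 21 * m + 7 := by push_cast; ring
    rw [e] at hx
    have h2 : (20 : ℝ) ≤ Real.exp (21 * m + 7) := by
      have : Real.exp 14 ≤ Real.exp (21 * m + 7) := Real.exp_le_exp.mpr (by linarith)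
      linarith
    linarith
  have h2 : ((1 : ℝ) + x) ^ 2 ≤ 121 / 100 * Real.exp (42 * m + 14) := by
    calc ((1 : ℝ) + x) ^ 2 ≤ (11 / 10 * Real.exp (21 * m + 7)) ^ 2 := by gcongr
      _ = _ := by
        rw [mul_pow, ← Real.exp_nat_mul]
        norm_num
        ring
  have h3 : 495616 * (m : ℝ) ^ 2 ≤ Real.exp (28 * m - 14) := by
    have h4 : (m : ℝ) ≤ Real.exp (14 * (m - 1)) := by
      have := Real.add_one_le_exp (14 * ((m : ℝ) - 1))
      linarith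
    have e : Real.exp (28 * m - 14) = Real.exp 14 * (Real.exp (14 * (m - 1))) ^ 2 := by
      rw [← Real.exp_nat_mul, ← Real.exp_add]
      congr 1
      push_cast
      ring
    rw [e]
    have h5 : (m : ℝ) ^ 2 ≤ (Real.exp (14 * (m - 1))) ^ 2 := by gcongr
    have h6 : (0 : ℝ) ≤ (m : ℝ) ^ 2 := by positivity
    nlinarith
  calc 400 * (m : ℝ) * (1024 * m * (1 + x) ^ 2) = 409600 * (m : ℝ) ^ 2 * (1 + x) ^ 2 := by ring
    _ ≤ 409600 * (m : ℝ) ^ 2 * (121 / 100 * Real.exp (42 * m + 14)) := by gcongr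
    _ = 495616 * (m : ℝ) ^ 2 * Real.exp (42 * m + 14) := by ring
    _ ≤ Real.exp (28 * m - 14) * Real.exp (42 * m + 14) := by gcongr
    _ = _ := by rw [← Real.exp_add]; congr 1; ring

/-- Size of `L`. -/
lemma params (N L B : ℕ) (hB : 1 ≤ B) (hN : 2 ≤ N) (hL : L ≤ N)
    (h : (400 * B : ℝ) * (N * Real.log N) ≤ (L : ℝ) ^ 2) :
    400 * B ≤ L ∧ 400 * B * N ≤ L ^ 2 := by
  have hN0 : (0 : ℝ) < N := by
    have : 0 < N := by omega
    exact_mod_cast this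
  have hB0 : (0 : ℝ) ≤ 400 * B := by positivity
  have key : ∀ c : ℕ, c * N ≤ L ^ 2 → 1 ≤ c → c ≤ L := by
    intro c hc hc1
    by_contra hlt
    push Not at hlt
    have h5 : L * L < c * N := by
      rcases Nat.eq_zero_or_pos L with h0 | h0
      · subst h0
        have : 0 < c * N := by positivity
        simpa using this
      · calc L * L < c * L := by
              exact Nat.mul_lt_mul_of_pos_right hlt h0
          _ ≤ c * N := Nat.mul_le_mul_left _ hL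
    have h6 : L ^ 2 = L * L := by ring
    omega
  have hlog : (1 : ℝ) / 2 ≤ Real.log N := by
    have h2 : Real.log 2 ≤ Real.log N := Real.log_le_log (by norm_num) (by exact_mod_cast hN)
    have := Real.log_two_gt_d9
    linarith
  have h1 : 200 * B * N ≤ L ^ 2 := by
    have hE : (N : ℝ) / 2 ≤ N * Real.log N := by nlinarith
    have h4 := mul_le_mul_of_nonneg_left hE hB0
    have : (200 * B : ℝ) * N ≤ (L : ℝ) ^ 2 := by linarith
    exact_mod_cast this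
  have h200 := key (200 * B) h1 (by omega)
  have hlog1 : (1 : ℝ) ≤ Real.log N := by
    have h2 : Real.log 3 ≤ Real.log N := by
      apply Real.log_le_log (by norm_num)
      have : 3 ≤ N := by omega
      exact_mod_cast this
    have h3 : (1 : ℝ) ≤ Real.log 3 := by
      rw [Real.le_log_iff_exp_le (by norm_num)]
      have := Real.exp_one_lt_d9
      linarith
    linarith
  have h2 : 400 * B * N ≤ L ^ 2 := by
    have hE : (N : ℝ) ≤ N * Real.log N := by nlinarith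
    have h4 := mul_le_mul_of_nonneg_left hE hB0
    have : (400 * B : ℝ) * N ≤ (L : ℝ) ^ 2 := by linarith
    exact_mod_cast this
  exact ⟨key (400 * B) h2 (by omega), h2⟩

lemma main_params (N L x m T : ℕ) (hm : 1 ≤ m) (hx1 : 1 ≤ x) (hT : T = 1024 * m * (1 + x) ^ 2)
    (hL : L ≤ N) (h1 : 400 * (m * T) ≤ L) (h2 : 400 * (m * T) * N ≤ L ^ 2) :
    ∃ r A0 J n : ℕ, 1 ≤ r ∧ 1 ≤ A0 ∧ A0 + 2 * J ≤ n ∧ Even n ∧ Even A0 ∧
      n + (r + 2 * (x * r) + 1) + 2 ≤ r * A0 ∧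
      2 * ((r + 2 * (x * r) + 1) * (r + x * r + 1)) + n + 2 ≤ (r + 1) * A0 ∧
      n + (r + 2 * (x * r) + 1) + 1 ≤ N ∧ N + (A0 + 2 * J) ≤ n + 3 + L ∧
      L ^ 2 ≤ 8 * T * (r * (A0 + 2 * J)) ∧ 8 * m * A0 ≤ A0 + 2 * J ∧ 3 * (r + x * r + 1) ≤ N ∧
      100 * m ≤ A0 + 2 * J := by
  have hTm : 4096 * m ≤ T := by
    rw [hT]
    have : 2 ^ 2 ≤ (1 + x) ^ 2 := Nat.pow_le_pow_left (by omega) 2
    nlinarith
  have hT1 : 4096 ≤ T := by omega
  have hmT : T ≤ m * T := Nat.le_mul_of_pos_left _ hm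
  have hL1 : 400 * T ≤ L := by omega
  obtain ⟨r, hr⟩ : ∃ r, r = L / T := ⟨_, rfl⟩
  have hr1 : T * r ≤ L := by rw [hr]; exact Nat.mul_div_le L T
  have hr2 : L < T * r + T := by
    rw [hr]
    have := Nat.lt_mul_div_succ L (show 0 < T by omega)
    rw [Nat.mul_add, Nat.mul_one] at this
    exact this
  have hr0 : 1 ≤ r := by
    by_contra hcon
    have : r = 0 := by omega
    subst this
    omega
  have hTr0 : T ≤ T * r := Nat.le_mul_of_pos_right _ hr0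
  have hTr : L ≤ 2 * (T * r) := by omega
  obtain ⟨a, ha⟩ : ∃ a, a = L / 4 := ⟨_, rfl⟩
  have ha1 : 4 * a ≤ L := by omega
  have ha2 : L < 4 * a + 4 := by omega
  obtain ⟨b, hb⟩ : ∃ b, b = 2 * a / (16 * m) := ⟨_, rfl⟩
  have hb1 : 16 * m * b ≤ 2 * a := by rw [hb]; exact Nat.mul_div_le _ _
  have hb2 : 2 * a < 16 * m * b + 16 * m := by
    rw [hb]
    have := Nat.lt_mul_div_succ (2 * a) (show 0 < 16 * m by omega)
    rw [Nat.mul_add, Nat.mul_one] at this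
    exact this
  have hba : b ≤ a := by
    have : 16 * b ≤ 16 * m * b := by nlinarith
    omega
  have hb0 : 1 ≤ b := by
    by_contra hcon
    have : b = 0 := by omega
    subst this
    omega
  have hmb : m ≤ m * b := Nat.le_mul_of_pos_right _ hb0
  have hLb : L ≤ 128 * (m * b) := by
    have e : 16 * m * b = 16 * (m * b) := by ring
    omega
  -- the sizes of `q` and `R`
  have hq : r + 2 * (x * r) + 1 ≤ 2 * ((1 + x) * r) := by nlinarith
  have hR : r + x * r + 1 ≤ 2 * ((1 + x) * r) := by nlinarith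
  have hTx : T * r = 1024 * (m * ((1 + x) * ((1 + x) * r))) := by rw [hT]; ring
  have hq1 : (1 + x) * r ≤ (1 + x) * ((1 + x) * r) := Nat.le_mul_of_pos_left _ (by omega)
  have hq1' : (1 + x) * ((1 + x) * r) ≤ m * ((1 + x) * ((1 + x) * r)) :=
    Nat.le_mul_of_pos_left _ hm
  have hq2 : 1024 * ((1 + x) * r) ≤ L := by omega
  obtain ⟨q, hqd⟩ : ∃ q, q = r + 2 * (x * r) + 1 := ⟨_, rfl⟩
  have hqL : 32 * q ≤ L := by rw [hqd]; omega
  obtain ⟨n, hn⟩ : ∃ n, n = 2 * ((N - q - 1) / 2) := ⟨_, rfl⟩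
  have hLL : L * L ≤ (2 * (T * r)) * (128 * (m * b)) := Nat.mul_le_mul hTr hLb
  have hNrA : 3 * N ≤ r * (2 * b) := by
    by_contra hcon
    push Not at hcon
    have e1 : (2 * (T * r)) * (128 * (m * b)) = 128 * (m * T) * (r * (2 * b)) := by ring
    have h5 : 128 * (m * T) * (r * (2 * b)) ≤ 128 * (m * T) * (3 * N) :=
      Nat.mul_le_mul_left _ hcon.le
    have e2 : 128 * (m * T) * (3 * N) = 384 * (m * T * N) := by ring
    have e3 : 400 * (m * T) * N = 400 * (m * T * N) := by ring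
    have e4 : L ^ 2 = L * L := by ring
    have h6 : 0 < m * T * N := by
      have : 0 < N := by omega
      positivity
    omega
  have hJ : 2 * b + 2 * (a - b) = 2 * a := by omega
  have hLa : L ≤ 8 * a := by omega
  refine ⟨r, 2 * b, a - b, n, hr0, by omega, by omega, ⟨(N - q - 1) / 2, by omega⟩, ⟨b, by omega⟩,
    ?_, ?_, ?_, ?_, ?_, ?_, ?_, ?_⟩
  · rw [← hqd]; omega
  · have h3 : q * (r + x * r + 1) ≤ (2 * ((1 + x) * r)) * (2 * ((1 + x) * r)) :=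
      Nat.mul_le_mul (by omega) hR
    have h4 : 256 * (m * ((2 * ((1 + x) * r)) * (2 * ((1 + x) * r)))) = T * r * r := by
      rw [hT]; ring
    have h5 : T * r * r ≤ L * r := Nat.mul_le_mul_right _ hr1
    have h6 : L * r ≤ 128 * (m * b) * r := Nat.mul_le_mul_right _ hLb
    have h7 : 4 * ((2 * ((1 + x) * r)) * (2 * ((1 + x) * r))) ≤ r * (2 * b) := by
      have h8 : 64 * (m * (4 * ((2 * ((1 + x) * r)) * (2 * ((1 + x) * r))))) ≤
          64 * (m * (r * (2 * b))) := by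
        have e1 : 64 * (m * (4 * ((2 * ((1 + x) * r)) * (2 * ((1 + x) * r))))) =
          256 * (m * ((2 * ((1 + x) * r)) * (2 * ((1 + x) * r)))) := by ring
        have e2 : 64 * (m * (r * (2 * b))) = 128 * (m * b) * r := by ring
        omega
      exact Nat.le_of_mul_le_mul_left (Nat.le_of_mul_le_mul_left h8 (by norm_num)) hm
    have h9 : (r + 1) * (2 * b) = r * (2 * b) + 2 * b := by ring
    rw [← hqd, h9]
    omega
  · rw [← hqd]; omega
  · rw [hJ]; omega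
  · rw [hJ]
    have h3 : L * L ≤ (2 * (T * r)) * (8 * a) := Nat.mul_le_mul hTr hLa
    calc L ^ 2 = L * L := by ring
      _ ≤ (2 * (T * r)) * (8 * a) := h3
      _ = 8 * T * (r * (2 * a)) := by ring
  · rw [hJ]
    calc 8 * m * (2 * b) = 16 * m * b := by ring
      _ ≤ 2 * a := hb1
  · omega
  · rw [hJ]; omega

lemma ineq_c1 (m N Q E U V l FB ZB : ℝ) (k : ℕ) (hk : (k : ℝ) = m - 1) (hm : 1 ≤ m)
    (hm' : m ≤ Real.exp E)
    (h2 : 2 ≤ Real.exp E) (hQ0 : 0 ≤ Q) (hQ : Q ≤ Real.exp (20 * U + 1))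
    (hF0 : 0 ≤ FB) (hF : FB ≤ Real.exp (2 * E + (6 - l) * U))
    (hZ0 : 0 ≤ ZB) (hZ : ZB ≤ Real.exp (2 * E + 2 * V)) (hN : N = Real.exp E)
    (hl : l = 21 * m + 7) (hfin : 8 * E + 3 * V + m < (m + 21) * U) :
    m * Real.exp V * Q ^ k * (2 * FB * ZB) < 1 / N / 2 := by
  have hR : Real.exp (-E) * Real.exp (-E) ≤ 1 / N / 2 := by
    rw [hN, one_div, ← Real.exp_neg, div_eq_mul_inv]
    have : Real.exp (-E) ≤ 2⁻¹ := by
      rw [Real.exp_neg]
      exact inv_anti₀ (by norm_num) h2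
    gcongr
  have hL : m * Real.exp V * Q ^ k * (2 * FB * ZB) ≤
      Real.exp E * Real.exp V * (Real.exp (20 * U + 1)) ^ k *
        (Real.exp E * Real.exp (2 * E + (6 - l) * U) * Real.exp (2 * E + 2 * V)) := by
    have : 0 ≤ m := by linarith
    gcongr
  refine lt_of_le_of_lt hL (lt_of_lt_of_le ?_ hR)
  rw [← Real.exp_nat_mul, ← Real.exp_add, ← Real.exp_add, ← Real.exp_add, ← Real.exp_add,
    ← Real.exp_add, ← Real.exp_add, Real.exp_lt_exp, hk, hl]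
  nlinarith

lemma ineq_c2 (m N M Q E U U0 V l PB ZB FL : ℝ) (_hm : 0 ≤ m) (hm' : m ≤ Real.exp E)
    (hN0 : 0 ≤ N) (hN' : N ≤ Real.exp E) (hM : M = Real.exp E)
    (h16 : 16 ≤ Real.exp E) (hQ : Real.exp (20 * U) ≤ Q)
    (hP0 : 0 ≤ PB) (hP : PB ≤ Real.exp (3 * E + 7 * U0))
    (hZ0 : 0 ≤ ZB) (hZ : ZB ≤ Real.exp (2 * E + 2 * V))
    (hF : Real.exp (-(2 * E) - (l + 3) * U0) ≤ FL)
    (hfin : 12 * E + 5 * V + (l + 10) * U0 < 20 * U) :
    m * Real.exp V * (N * PB * ZB) / Q * (2 * (8 * M * Real.exp (2 * V))) < FL / 4 := by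
  have hR : Real.exp (-(2 * E) - (l + 3) * U0) * Real.exp (-E) ≤ FL / 4 := by
    rw [div_eq_mul_inv]
    have : Real.exp (-E) ≤ 4⁻¹ := by
      rw [Real.exp_neg]
      exact inv_anti₀ (by norm_num) (by linarith)
    have : 0 ≤ FL := le_trans (Real.exp_pos _).le hF
    gcongr
  have hL : m * Real.exp V * (N * PB * ZB) / Q * (2 * (8 * M * Real.exp (2 * V))) ≤
      Real.exp E * Real.exp V * (Real.exp E * Real.exp (3 * E + 7 * U0) *
        Real.exp (2 * E + 2 * V)) / Real.exp (20 * U) *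
        (Real.exp E * Real.exp E * Real.exp (2 * V)) := by
    have e : 2 * (8 * M * Real.exp (2 * V)) = 16 * M * Real.exp (2 * V) := by ring
    have hM0 : 0 ≤ M := by rw [hM]; positivity
    rw [e]
    gcongr
    exact hM.le
  refine lt_of_le_of_lt hL (lt_of_lt_of_le ?_ hR)
  rw [div_eq_mul_inv, ← Real.exp_neg, ← Real.exp_add, ← Real.exp_add, ← Real.exp_add,
    ← Real.exp_add, ← Real.exp_add, ← Real.exp_add, ← Real.exp_add, ← Real.exp_add,
    ← Real.exp_add, Real.exp_lt_exp]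
  linarith

lemma ineq_c3 (m N Q E U U0 U1 V l PB ZB FB FL : ℝ) (_hm : 0 ≤ m) (hm' : m ≤ Real.exp E)
    (hN0 : 0 ≤ N) (hN' : N ≤ Real.exp E)
    (h16 : 16 ≤ Real.exp E) (hQ : Real.exp (20 * U) ≤ Q)
    (hP0 : 0 ≤ PB) (hP : PB ≤ Real.exp (3 * E + 7 * U1))
    (hZ0 : 0 ≤ ZB) (hZ : ZB ≤ Real.exp (2 * E + 2 * V))
    (hB0 : 0 ≤ FB) (hB : FB ≤ Real.exp (2 * E + (6 - l) * U0))
    (hF : Real.exp (-(2 * E) - (l + 3) * U1) ≤ FL)
    (hfin : 12 * E + 3 * V + (l + 10) * U1 + (6 - l) * U0 < 20 * U) :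
    m * Real.exp V * (N * PB * ZB) / Q * (2 * (2 * FB)) < FL := by
  have hL : m * Real.exp V * (N * PB * ZB) / Q * (2 * (2 * FB)) ≤
      Real.exp E * Real.exp V * (Real.exp E * Real.exp (3 * E + 7 * U1) *
        Real.exp (2 * E + 2 * V)) / Real.exp (20 * U) *
        (Real.exp E * Real.exp (2 * E + (6 - l) * U0)) := by
    have e : 2 * (2 * FB) = 4 * FB := by ring
    have h4 : 4 ≤ Real.exp E := by linarith
    rw [e]
    gcongr
  refine lt_of_le_of_lt hL (lt_of_lt_of_le ?_ hF)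
  rw [div_eq_mul_inv, ← Real.exp_neg, ← Real.exp_add, ← Real.exp_add, ← Real.exp_add,
    ← Real.exp_add, ← Real.exp_add, ← Real.exp_add, ← Real.exp_add, Real.exp_lt_exp]
  linarith

lemma ineq_c4 (m N Q E U U1 V PB ZB : ℝ) (_hm : 0 ≤ m) (hm' : m ≤ Real.exp E)
    (hN0 : 0 ≤ N) (hN' : N ≤ Real.exp E)
    (h16 : 16 ≤ Real.exp E) (hQ : Real.exp (20 * U) ≤ Q)
    (hP0 : 0 ≤ PB) (hP : PB ≤ Real.exp (3 * E + 7 * U1))
    (hZ0 : 0 ≤ ZB) (hZ : ZB ≤ Real.exp (2 * E + 2 * V))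
    (hfin : 8 * E + 3 * V + 7 * U1 ≤ 20 * U) :
    m * Real.exp V * (N * PB * ZB) / Q ≤ 1 / 2 := by
  have hL : m * Real.exp V * (N * PB * ZB) / Q ≤
      Real.exp E * Real.exp V * (Real.exp E * Real.exp (3 * E + 7 * U1) *
        Real.exp (2 * E + 2 * V)) / Real.exp (20 * U) := by
    gcongr
  have h2 : Real.exp (-E) ≤ 1 / 2 := by
    rw [Real.exp_neg, one_div]
    exact inv_anti₀ (by norm_num) (by linarith)
  refine le_trans hL (le_trans ?_ h2)
  rw [div_eq_mul_inv, ← Real.exp_neg, ← Real.exp_add, ← Real.exp_add, ← Real.exp_add,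
    ← Real.exp_add, ← Real.exp_add, Real.exp_le_exp]
  linarith

end I_NU2

theorem NU2_pf : S_NU2 := by
  intro m N L κ hκ hm hN hL h
  obtain ⟨x, hx⟩ : ∃ x : ℕ, x = ⌈Real.exp (7 * ((3 * m + 1 : ℕ) : ℝ))⌉₊ := ⟨_, rfl⟩
  have hxe : Real.exp (7 * ((3 * m + 1 : ℕ) : ℝ)) ≤ x := by rw [hx]; exact Nat.le_ceil _
  have hxe2 : (x : ℝ) ≤ Real.exp (7 * ((3 * m + 1 : ℕ) : ℝ)) + 1 := by
    rw [hx]; exact (Nat.ceil_lt_add_one (Real.exp_pos _).le).le
  have hx1 : 1 ≤ x := by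
    rw [hx]; exact Nat.one_le_ceil_iff.mpr (Real.exp_pos _)
  have hm' : (1 : ℝ) ≤ m := by exact_mod_cast hm
  obtain ⟨T, hT⟩ : ∃ T : ℕ, T = 1024 * m * (1 + x) ^ 2 := ⟨_, rfl⟩
  have hTr : (T : ℝ) = 1024 * m * (1 + x) ^ 2 := by rw [hT]; push_cast; ring
  have hkap := I_NU2.kap_le m x hm hxe2
  rw [← hTr] at hkap
  have hκ0 : 0 < κ := by rw [hκ]; exact Real.exp_pos _
  have hκT : 400 * ((m : ℝ) * T) * κ ≤ 1 := by
    have e : Real.exp (70 * (m : ℝ)) * κ = 1 := by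
      rw [hκ, ← Real.exp_add]
      simp
    calc 400 * ((m : ℝ) * T) * κ = 400 * (m : ℝ) * T * κ := by ring
      _ ≤ Real.exp (70 * (m : ℝ)) * κ := by gcongr
      _ = 1 := e
  have hT0 : (0 : ℝ) ≤ T := by positivity
  have hpar : (400 * ((m * T : ℕ) : ℝ)) * (N * Real.log N) ≤ (L : ℝ) ^ 2 := by
    push_cast
    have hL0 : (0 : ℝ) ≤ (L : ℝ) ^ 2 := by positivity
    calc 400 * ((m : ℝ) * T) * (N * Real.log N) ≤ 400 * ((m : ℝ) * T) * (κ * (L : ℝ) ^ 2) := by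
          gcongr
      _ = (400 * ((m : ℝ) * T) * κ) * (L : ℝ) ^ 2 := by ring
      _ ≤ 1 * (L : ℝ) ^ 2 := by gcongr
      _ = _ := by ring
  have hT1 : 1 ≤ T := by
    rw [hT]
    have : 0 < 1024 * m * (1 + x) ^ 2 := by positivity
    omega
  have hmT : 1 ≤ m * T := Nat.mul_pos hm hT1
  obtain ⟨hL1, hL2⟩ := I_NU2.params N L (m * T) hmT hN hL hpar
  obtain ⟨r, A0, J, n, hr, hA0, hAn, hne, hAe, g1, g2, g3, g4, g5, g6, g7, g8⟩ :=
    I_NU2.main_params N L x m T hm hx1 hT hL hL1 hL2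
  set E : ℝ := N * Real.log N with hE
  set V : ℝ := κ * (L : ℝ) ^ 2 with hV
  obtain ⟨U, hU⟩ : ∃ U : ℝ, U = (r : ℝ) * ((A0 + 2 * J : ℕ) : ℝ) := ⟨_, rfl⟩
  have hE0 : 0 ≤ E := by
    rw [hE]
    have : 0 ≤ Real.log N := Real.log_natCast_nonneg N
    positivity
  have hEV : E ≤ V := h
  have hr' : (1 : ℝ) ≤ r := by exact_mod_cast hr
  have hA1 : 100 * (m : ℝ) ≤ ((A0 + 2 * J : ℕ) : ℝ) := by exact_mod_cast g8
  have hUm : 100 * (m : ℝ) ≤ U := by
    rw [hU]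
    have : (0 : ℝ) ≤ ((A0 + 2 * J : ℕ) : ℝ) := by positivity
    nlinarith
  have hUV : 50 * (m : ℝ) * V ≤ U := by
    have g5' : (L : ℝ) ^ 2 ≤ 8 * T * (r * ((A0 + 2 * J : ℕ) : ℝ)) := by exact_mod_cast g5
    rw [← hU] at g5'
    have hU0 : 0 ≤ U := by linarith
    calc 50 * (m : ℝ) * V = 50 * m * κ * (L : ℝ) ^ 2 := by rw [hV]; ring
      _ ≤ 50 * m * κ * (8 * T * U) := by gcongr
      _ = (400 * ((m : ℝ) * T) * κ) * U := by ring
      _ ≤ 1 * U := by gcongr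
      _ = U := by ring
  have hV0 : 0 ≤ V := by linarith
  have hUV' : 50 * V ≤ U := by nlinarith
  have hN1 : 1 ≤ N := by omega
  have hmN : 16 * m ≤ N := by
    have : m * 1 ≤ m * T := Nat.mul_le_mul_left _ hT1
    omega
  have hmE : (m : ℝ) ≤ Real.exp E := I_NU2.nat_le_E m N (by omega) hN1
  have hNE : (N : ℝ) ≤ Real.exp E := I_NU2.nat_le_E N N le_rfl hN1
  have h16 : (16 : ℝ) ≤ Real.exp E := by
    have := I_NU2.nat_le_E 16 N (by omega) hN1
    push_cast at this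
    exact this
  have h2m : (2 : ℝ) * m ≤ Real.exp E := by
    have := I_NU2.nat_le_E (2 * m) N (by omega) hN1
    push_cast at this
    exact this
  have hNN : (N : ℝ) ^ N = Real.exp E := I_NUM.pow_self_eq N hN1
  obtain ⟨Q, hQ⟩ : ∃ Q : ℕ, Q = ⌈Real.exp (20 * U)⌉₊ := ⟨_, rfl⟩
  have hQ1 : Real.exp (20 * U) ≤ Q := by rw [hQ]; exact Nat.le_ceil _
  have hQ2 : (Q : ℝ) ≤ Real.exp (20 * U + 1) := by
    have h1 : (Q : ℝ) ≤ Real.exp (20 * U) + 1 := by
      rw [hQ]; exact (Nat.ceil_lt_add_one (Real.exp_pos _).le).le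
    have h2 : 1 ≤ Real.exp (20 * U) := Real.one_le_exp (by linarith)
    have h3 := Real.add_one_le_exp (1 : ℝ)
    rw [Real.exp_add]
    nlinarith
  have hQ0 : 1 ≤ Q := by rw [hQ]; exact Nat.one_le_ceil_iff.mpr (Real.exp_pos _)
  -- the bounds of the single factors
  have hl : (7 * ((3 * m + 1 : ℕ) : ℝ)) = 21 * m + 7 := by push_cast; ring
  have hZ := I_NU2.ZB_le N L κ hL hN
  rw [← hE, ← hV] at hZ
  have hZ0 : 0 ≤ ZB N L κ := by unfold ZB; positivity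
  have hFB : ∀ A : ℕ, FB r A n (x * r) ≤
      Real.exp (2 * E + (6 - (21 * m + 7)) * ((r : ℝ) * A)) := by
    intro A
    have := I_NUM.FB_le r A n (x * r) N x (3 * m + 1) hr rfl (by omega) (by omega) hN1 hxe
    rw [← hE, hl] at this
    exact this
  have hFB0 : ∀ A : ℕ, 0 ≤ FB r A n (x * r) := by
    intro A; unfold FB; positivity
  have hPB : ∀ A : ℕ, A ≤ N → PB r A n (x * r) ≤
      Real.exp (3 * E + 7 * ((r : ℝ) * A)) := by
    intro A hA
    exact I_NUM.PB_le r A n (x * r) N (by omega) hA (by omega) hN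
  have hPB0 : ∀ A : ℕ, 0 ≤ PB r A n (x * r) := by
    intro A; unfold PB; positivity
  have hFL : ∀ A : ℕ, A ≤ N → Real.exp (-(2 * E) - ((21 * m + 7) + 3) * ((r : ℝ) * A)) ≤
      FL r A n (x * r) := by
    intro A hA
    refine I_NU2.FL_ge r A n (x * r) N x (21 * m + 7) hr rfl g7 hA hN (by linarith) ?_
    rw [← hl]
    exact hxe2
  have hU0 : (r : ℝ) * A0 * (8 * m) ≤ U := by
    have g6' : 8 * (m : ℝ) * A0 ≤ ((A0 + 2 * J : ℕ) : ℝ) := by exact_mod_cast g6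
    rw [hU]
    calc (r : ℝ) * A0 * (8 * m) = r * (8 * m * A0) := by ring
      _ ≤ _ := by gcongr
  have hUj : ∀ j ≤ J, (r : ℝ) * ((A0 + 2 * j : ℕ) : ℝ) ≤ U := by
    intro j hj
    rw [hU]
    have : ((A0 + 2 * j : ℕ) : ℝ) ≤ ((A0 + 2 * J : ℕ) : ℝ) := by
      exact_mod_cast (by omega : A0 + 2 * j ≤ A0 + 2 * J)
    gcongr
  refine ⟨r, A0, J, n, x * r, Q, hr, hA0, hAn, hne, hAe, hQ0, g1, g2, g3, g4, ?_, ?_, ?_, ?_, ?_⟩
  · calc 2 * ((m : ℝ) * Real.exp V) = 2 * m * Real.exp V := by ring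
      _ ≤ Real.exp E * Real.exp V := by gcongr
      _ = Real.exp (E + V) := by rw [Real.exp_add]
      _ ≤ Real.exp (20 * U) := Real.exp_le_exp.mpr (by linarith)
      _ ≤ Q := hQ1
  · refine I_NU2.ineq_c1 m ((N : ℝ) ^ N) Q E U V (21 * m + 7) _ _ (m - 1)
      (by push_cast [hm]; ring) hm' hmE (by linarith) (by positivity) hQ2 (hFB0 _) ?_ hZ0 hZ hNN rfl ?_
    · rw [hU]; exact hFB _
    · nlinarith
  · refine I_NU2.ineq_c2 m N ((N : ℝ) ^ N) Q E U ((r : ℝ) * A0) V (21 * m + 7) _ _ _ (by positivity)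
      hmE (by positivity) hNE hNN h16 hQ1 (hPB0 _) (hPB A0 (by omega)) hZ0 hZ
      (hFL A0 (by omega)) ?_
    have : (21 * (m : ℝ) + 7 + 10) * ((r : ℝ) * A0) ≤ 5 * U := by
      have h0 : 0 ≤ (r : ℝ) * A0 := by positivity
      nlinarith
    linarith
  · intro j hj
    have hUe : (r : ℝ) * ((A0 + 2 * (j + 1) : ℕ) : ℝ) = (r : ℝ) * ((A0 + 2 * j : ℕ) : ℝ) + 2 * r := by
      push_cast; ring
    refine I_NU2.ineq_c3 m N Q E U ((r : ℝ) * ((A0 + 2 * j : ℕ) : ℝ))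
      ((r : ℝ) * ((A0 + 2 * (j + 1) : ℕ) : ℝ)) V (21 * m + 7) _ _ _ _ (by positivity)
      hmE (by positivity) hNE h16 hQ1 (hPB0 _) (hPB _ (by omega)) hZ0 hZ
      (hFB0 _) (hFB _) (hFL _ (by omega)) ?_
    have h1 := hUj j (by omega)
    rw [hUe]
    have h2 : 2 * (21 * (m : ℝ) + 17) * r ≤ 0.8 * U := by
      have h3 : 2 * (21 * (m : ℝ) + 17) ≤ 0.8 * ((A0 + 2 * J : ℕ) : ℝ) := by linarith
      rw [hU]
      calc 2 * (21 * (m : ℝ) + 17) * r ≤ 0.8 * ((A0 + 2 * J : ℕ) : ℝ) * r := by gcongr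
        _ = _ := by ring
    nlinarith
  · intro j hj
    refine I_NU2.ineq_c4 m N Q E U ((r : ℝ) * ((A0 + 2 * j : ℕ) : ℝ)) V _ _ (by positivity)
      hmE (by positivity) hNE h16 hQ1 (hPB0 _) (hPB _ (by omega)) hZ0 hZ ?_
    have h1 := hUj j hj
    linarith

end Pool.Agent.Work.MP_f1a024_nt.HP
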