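import Mathlib
import Pool.Agent.Work.MP_f1a024_nt.HP.Stmts2

set_option autoImplicit false

/-!
Item RE2 of the block [f1a024 HP] (helper48).
-/

namespace Pool.Agent.Work.MP_f1a024_nt.HP

open Real Polynomial MeasureTheory Finset Filter Topology
open scoped Nat

namespace I_RE2

/-- From the equation for `t(n)` to the equation for `G n`. -/
lemma key (n b : ℕ) (hn : 3 ≤ n) (hodd : Odd n) (S : ℝ)
    (h : riemannZeta (2 * n) / riemannZeta n ^ 2 * ((2 * n)! : ℂ) * (S : ℂ) ^ 2 =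
      2 ^ (2 * n - 1) * (bernoulli (2 * n) : ℂ) * b ^ 2) :
    (4 * (n ! : ℝ) * (2 ^ n - 1) * S) ^ 2 = ((b : ℝ) * 2 ^ n * OddG.G n) ^ 2 := by
  have hz0 : riemannZeta n ≠ 0 := riemannZeta_ne_zero_of_one_le_re (by simp; omega)
  have hz2 : riemannZeta (2 * n) ≠ 0 := riemannZeta_ne_zero_of_one_le_re (by
    simp
    have : (3:ℝ) ≤ n := by exact_mod_cast hn
    linarith)
  have hl := OddG.link n (by omega) hodd
  have hch : ((2 * n).choose n : ℂ) * (n.factorial : ℂ) ^ 2 = ((2 * n).factorial : ℂ) := by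
    have := Nat.choose_mul_factorial_mul_factorial (n := 2 * n) (k := n) (by omega)
    rw [show 2 * n - n = n by omega] at this
    rw [← this]
    push_cast
    ring
  have hfac : ((2 * n)! : ℂ) ≠ 0 := by exact_mod_cast (Nat.factorial_pos _).ne'
  have hT : riemannZeta (2 * n) / riemannZeta n ^ 2 * ((2 * n)! : ℂ) ≠ 0 :=
    mul_ne_zero (div_ne_zero hz2 (pow_ne_zero _ hz0)) hfac
  have h2n : ((2:ℂ)) ^ (2 * n - 1) * 2 = 2 ^ n * 2 ^ n := by
    rw [← pow_succ, ← pow_add]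
    congr 1
    omega
  have e1 : riemannZeta (2 * n) / riemannZeta n ^ 2 * ((2 * n)! : ℂ) *
      (4 * (n ! : ℂ) * (2 ^ n - 1) * (S : ℂ)) ^ 2 =
      riemannZeta (2 * n) / riemannZeta n ^ 2 * ((2 * n)! : ℂ) *
      ((b : ℂ) * 2 ^ n * ((OddG.G n : ℝ) : ℂ)) ^ 2 := by
    have l1 : riemannZeta (2 * n) / riemannZeta n ^ 2 * ((2 * n)! : ℂ) *
        (4 * (n ! : ℂ) * (2 ^ n - 1) * (S : ℂ)) ^ 2 =
        (riemannZeta (2 * n) / riemannZeta n ^ 2 * ((2 * n)! : ℂ) * (S : ℂ) ^ 2) *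
        (4 * (n ! : ℂ) * (2 ^ n - 1)) ^ 2 := by ring
    have l2 : riemannZeta (2 * n) / riemannZeta n ^ 2 * ((2 * n)! : ℂ) *
        ((b : ℂ) * 2 ^ n * ((OddG.G n : ℝ) : ℂ)) ^ 2 =
        (riemannZeta (2 * n) / riemannZeta n ^ 2 * ((2 * n).choose n : ℂ) *
          ((OddG.G n : ℝ) : ℂ) ^ 2) * (n ! : ℂ) ^ 2 * (b : ℂ) ^ 2 * (2 ^ n * 2 ^ n) := by
      rw [← hch]
      ring
    rw [l1, l2, h, hl, ← h2n]
    ring
  have e2 := mul_left_cancel₀ hT e1
  exact_mod_cast e2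

end I_RE2

open I_RE2 in
/-- RE2. -/
theorem RE2_pf (h1 : S_MA2) : S_RE2 := by
  intro m N L κ hκ hm hN hLN hNL ω
  have hκ0 : 0 < κ := by rw [hκ]; exact exp_pos _
  set κG : ℝ := Real.exp (-(70 * m)) with hκG
  have hm1 : (1:ℝ) ≤ m := by exact_mod_cast hm
  have h4κ : 4 * κ ≤ κG := by
    have e1 : κG = κ * Real.exp (2 * m) := by
      rw [hκG, hκ, ← Real.exp_add]
      congr 1
      ring
    have e2 : (4:ℝ) ≤ Real.exp (2 * m) := by
      have h1 : (2:ℝ) ≤ Real.exp m := by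
        have := Real.add_one_le_exp (m : ℝ)
        linarith
      have h2 : Real.exp (2 * (m:ℝ)) = Real.exp m * Real.exp m := by
        rw [← Real.exp_add]; congr 1; ring
      rw [h2]
      nlinarith
    rw [e1]
    nlinarith
  have hκκ : κ ≤ κG := by linarith
  have hN2 : (2:ℝ) ≤ N := by exact_mod_cast hN
  have hlog2 : Real.log 2 ≤ Real.log N := Real.log_le_log (by norm_num) hN2
  have hlogpos : 0 < Real.log 2 := Real.log_pos (by norm_num)
  have hL2 : (0:ℝ) ≤ (L : ℝ) ^ 2 := by positivity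
  have hGL : κ * (L : ℝ) ^ 2 ≤ κG * (L : ℝ) ^ 2 := by gcongr
  obtain ⟨n, hodd, hn3, hn1, hn2, hn⟩ := h1 m N L 2 κG hκG hm hN hLN (hNL.trans hGL) (by norm_num)
    (by
      push_cast
      refine le_trans ?_ (hNL.trans hGL)
      gcongr) ω
  refine ⟨n, hodd, hn3, hn1, hn2, ?_⟩
  intro a b ha hb1 hb2 heq
  have hcast : (∑ i, (a i : ℂ) * (ω i : ℂ)) = ((∑ i, (a i : ℝ) * ω i : ℝ) : ℂ) := by
    push_cast
    rfl
  rw [hcast] at heq
  have hk := key n b hn3 hodd _ heq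
  have hbG : (b : ℝ) ≤ Real.exp (κG * L) := by
    refine hb2.trans (Real.exp_le_exp.mpr ?_)
    gcongr
  -- the bound for the new coefficients
  have hfac : (n ! : ℝ) ≤ Real.exp (κ * (L : ℝ) ^ 2) := by
    have e1 : (n ! : ℝ) ≤ (N : ℝ) ^ N := by
      have h1 : n ! ≤ N ! := Nat.factorial_le hn2
      have h2 : N ! ≤ N ^ N := Nat.factorial_le_pow N
      exact_mod_cast h1.trans h2
    have e2 : (N : ℝ) ^ N = Real.exp (N * Real.log N) := by
      rw [Real.exp_nat_mul, Real.exp_log (by linarith)]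
    rw [e2] at e1
    exact e1.trans (Real.exp_le_exp.mpr hNL)
  have h2n : (2:ℝ) ^ n - 1 ≤ Real.exp (κ * (L : ℝ) ^ 2) := by
    have e1 : (2:ℝ) ^ n ≤ (N : ℝ) ^ N := by
      calc (2:ℝ) ^ n ≤ 2 ^ N := pow_le_pow_right₀ (by norm_num) hn2
        _ ≤ (N : ℝ) ^ N := by gcongr
    have e2 : (N : ℝ) ^ N = Real.exp (N * Real.log N) := by
      rw [Real.exp_nat_mul, Real.exp_log (by linarith)]
    rw [e2] at e1
    have := e1.trans (Real.exp_le_exp.mpr hNL)
    linarith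
  have h4 : (4:ℝ) ≤ Real.exp (κ * (L : ℝ) ^ 2) := by
    have e1 : (4:ℝ) = Real.exp (2 * Real.log 2) := by
      rw [two_mul, Real.exp_add, Real.exp_log (by norm_num)]
      norm_num
    rw [e1]
    refine Real.exp_le_exp.mpr (le_trans ?_ hNL)
    nlinarith
  have h2n0 : (0:ℝ) ≤ 2 ^ n - 1 := by
    have : (1:ℝ) ≤ 2 ^ n := one_le_pow₀ (by norm_num)
    linarith
  set c0 : ℤ := 4 * (n ! : ℤ) * (2 ^ n - 1) with hc0
  have hc0r : (c0 : ℝ) = 4 * (n ! : ℝ) * (2 ^ n - 1) := by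
    rw [hc0]
    push_cast
    ring
  have hc0nn : 0 ≤ (c0 : ℝ) := by rw [hc0r]; positivity
  have hbound : ∀ i, (c0 : ℝ) * |(a i : ℝ)| ≤ Real.exp (κG * (L : ℝ) ^ 2) := by
    intro i
    have hE0 : 0 ≤ Real.exp (κ * (L : ℝ) ^ 2) := (exp_pos _).le
    calc (c0 : ℝ) * |(a i : ℝ)| ≤
        (Real.exp (κ * (L : ℝ) ^ 2) * Real.exp (κ * (L : ℝ) ^ 2) * Real.exp (κ * (L : ℝ) ^ 2)) *
          Real.exp (κ * (L : ℝ) ^ 2) := by
          rw [hc0r]
          have := ha i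
          gcongr
      _ = Real.exp (4 * κ * (L : ℝ) ^ 2) := by
          rw [← Real.exp_add, ← Real.exp_add, ← Real.exp_add]
          congr 1
          ring
      _ ≤ Real.exp (κG * (L : ℝ) ^ 2) := by
          refine Real.exp_le_exp.mpr ?_
          gcongr
  rcases sq_eq_sq_iff_eq_or_eq_neg.mp hk with h5 | h5
  · refine hn (fun i => c0 * a i) b ?_ hb1 hbG ?_
    · intro i
      push_cast
      rw [abs_mul, abs_of_nonneg hc0nn]
      exact hbound i
    · push_cast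
      rw [← h5, ← hc0r, Finset.mul_sum]
      refine Finset.sum_congr rfl (fun i _ => ?_)
      ring
  · refine hn (fun i => -(c0 * a i)) b ?_ hb1 hbG ?_
    · intro i
      push_cast
      rw [abs_neg, abs_mul, abs_of_nonneg hc0nn]
      exact hbound i
    · push_cast
      have h6 : (b : ℝ) * 2 ^ n * OddG.G n =
          -(4 * (n ! : ℝ) * (2 ^ n - 1) * ∑ i, (a i : ℝ) * ω i) := by linarith
      rw [h6, ← hc0r, Finset.mul_sum, ← Finset.sum_neg_distrib]
      refine Finset.sum_congr rfl (fun i _ => ?_)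
      ring

end Pool.Agent.Work.MP_f1a024_nt.HP
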