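import Mathlib
import Pool.Agent.Work.MP_f1a024_nt.HP.Stmts2

set_option autoImplicit false

/-!
Item RED of the block [f1a024 HP] (helper76): reduction to full rank.
-/

namespace Pool.Agent.Work.MP_f1a024_nt.HP

open Real Polynomial MeasureTheory Finset Filter Topology
open scoped Nat

theorem RED_pf : S_RED := by
  intro m
  induction m with
  | zero =>
    intro W a ω g B hg _ hne
    obtain ⟨k, hk, h⟩ := hne
    exact absurd (by rw [hg k hk]; simp) h
  | succ m ih =>
    intro W a ω g B hg ha hne
    by_cases hfull : ∀ x : Fin (m + 1) → ℝ, (∀ k ∈ W, ∑ i, x i * (a k i : ℝ) = 0) → x = 0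
    · exact ⟨m + 1, Nat.succ_pos m, le_rfl, a, ω, hg, ha, hfull⟩
    · push Not at hfull
      obtain ⟨x, hx, hx0⟩ := hfull
      obtain ⟨i0, hi0⟩ : ∃ i, x i ≠ 0 := by
        by_contra hcon
        push Not at hcon
        exact hx0 (funext hcon)
      obtain ⟨m', h1, h2, a', ω', h3, h4, h5⟩ := ih W (fun k j => a k (i0.succAbove j))
        (fun j => ω (i0.succAbove j) - x (i0.succAbove j) / x i0 * ω i0) g B
        (by
          intro k hk
          have e1 := hg k hk
          rw [Fin.sum_univ_succAbove _ i0] at e1
          have e2 := hx k hk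
          rw [Fin.sum_univ_succAbove _ i0] at e2
          have e3 : ∑ j : Fin m, (a k (i0.succAbove j) : ℝ) *
              (ω (i0.succAbove j) - x (i0.succAbove j) / x i0 * ω i0) =
              ∑ j : Fin m, (a k (i0.succAbove j) : ℝ) * ω (i0.succAbove j) -
              ω i0 / x i0 * ∑ j : Fin m, x (i0.succAbove j) * (a k (i0.succAbove j) : ℝ) := by
            rw [Finset.mul_sum, ← Finset.sum_sub_distrib]
            refine Finset.sum_congr rfl fun j _ => ?_
            ring
          rw [e3]
          have e4 : ∑ j : Fin m, x (i0.succAbove j) * (a k (i0.succAbove j) : ℝ) =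
              -(x i0 * (a k i0 : ℝ)) := by linarith
          rw [e4, e1]
          field_simp
          ring)
        (fun k hk j => ha k hk _) hne
      exact ⟨m', h1, h2.trans (Nat.le_succ m), a', ω', h3, h4, h5⟩

end Pool.Agent.Work.MP_f1a024_nt.HP
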