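import Mathlib
import Pool.Agent.Work.MP_f1a024_nt.HP.Asm
import Pool.Agent.Work.MP_f1a024_nt.HP.I_AL2
import Pool.Agent.Work.MP_f1a024_nt.HP.I_DIR
import Pool.Agent.Work.MP_f1a024_nt.HP.I_LOW
import Pool.Agent.Work.MP_f1a024_nt.HP.I_MA2
import Pool.Agent.Work.MP_f1a024_nt.HP.I_NES
import Pool.Agent.Work.MP_f1a024_nt.HP.I_NU2
import Pool.Agent.Work.MP_f1a024_nt.HP.I_RE2
import Pool.Agent.Work.MP_f1a024_nt.HP.I_RED

set_option autoImplicit false

/-!
Assembly of the second part of the block [f1a024 HP] (captain helper48).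
-/

namespace Pool.Agent.Work.MP_f1a024_nt.HP

open Real Polynomial MeasureTheory Finset Filter Topology
open scoped Nat

/-- HLB. -/
theorem HLB_own (h1 : S_HIN) : S_HLB := by
  intro r A n hr hn z hz
  have hr0 : (0:ℝ) ≤ r := Nat.cast_nonneg r
  have hz0 : 0 < z := by linarith
  have hint := (h1 r A n hr hn).1 z (by linarith)
  have hprod : ∀ y : ℝ, z < y → 0 < ∏ i ∈ range (r + 1), (y - i) := by
    intro y hy
    refine Finset.prod_pos (fun i hi => ?_)
    have : (i : ℝ) ≤ r := by exact_mod_cast Nat.lt_succ_iff.mp (Finset.mem_range.mp hi)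
    linarith
  have hpsi : ∀ y : ℝ, z < y → 0 ≤ Psi r A y := by
    intro y hy
    unfold Psi
    have := hprod y hy
    positivity
  have hnn : ∀ y ∈ Set.Ioi z, 0 ≤ (y - z) ^ n * Psi r A y := by
    intro y hy
    have hy' : z < y := hy
    exact mul_nonneg (pow_nonneg (by linarith) _) (hpsi y hy')
  have hsub : Set.Ioc (2 * z) (3 * z) ⊆ Set.Ioi z := by
    intro y hy
    have := hy.1
    show z < y
    linarith
  have hpt : ∀ y ∈ Set.Ioc (2 * z) (3 * z),
      z ^ n * ((r ! : ℝ) / (3 * z) ^ (r + 1)) ^ A ≤ (y - z) ^ n * Psi r A y := by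
    intro y hy
    have hy1 := hy.1
    have hy2 := hy.2
    have hzy : z < y := by linarith
    have p1 : ∏ i ∈ range (r + 1), (y - i) ≤ (3 * z) ^ (r + 1) := by
      have : ∏ i ∈ range (r + 1), (y - (i : ℝ)) ≤ ∏ _i ∈ range (r + 1), (3 * z) := by
        refine Finset.prod_le_prod (fun i hi => ?_) (fun i hi => ?_)
        · have : (i : ℝ) ≤ r := by exact_mod_cast Nat.lt_succ_iff.mp (Finset.mem_range.mp hi)
          linarith
        · have : (0:ℝ) ≤ i := Nat.cast_nonneg i
          linarith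
      simpa using this
    have p2 : (r ! : ℝ) / (3 * z) ^ (r + 1) ≤ (r ! : ℝ) / ∏ i ∈ range (r + 1), (y - i) :=
      div_le_div_of_nonneg_left (Nat.cast_nonneg _) (hprod y hzy) p1
    unfold Psi
    have : (0:ℝ) ≤ (r ! : ℝ) / (3 * z) ^ (r + 1) := by positivity
    gcongr
    linarith
  calc ((r ! : ℝ) / (3 * z) ^ (r + 1)) ^ A * z ^ (n + 1)
      = ∫ _y in Set.Ioc (2 * z) (3 * z), z ^ n * ((r ! : ℝ) / (3 * z) ^ (r + 1)) ^ A := by
        rw [setIntegral_const]
        simp only [Measure.real, Real.volume_Ioc, smul_eq_mul]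
        rw [ENNReal.toReal_ofReal (by linarith)]
        ring
    _ ≤ ∫ y in Set.Ioc (2 * z) (3 * z), (y - z) ^ n * Psi r A y :=
        setIntegral_mono_on (integrableOn_const (by simp)) (hint.mono_set hsub) measurableSet_Ioc hpt
    _ ≤ HH r A n z := by
        unfold HH
        refine setIntegral_mono_set hint ?_ (Filter.Eventually.of_forall hsub)
        rw [EventuallyLE, ae_restrict_iff' measurableSet_Ioi]
        exact Filter.Eventually.of_forall hnn

theorem LOW_ok : S_LOW := LOW_pf FEX_ok AL2_pf DEC_ok RAT_ok QEV_pf (HLB_own HIN_pf) ALT_pf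

theorem NES_ok : S_NES := NES_pf DIR_pf

theorem MA2_ok : S_MA2 :=
  MA2_pf PFX_ok FNZ_ok LOW_ok FRM_ok PPW_ok GBD_pf RED_pf NES_ok NU2_pf

theorem RE2_ok : S_RE2 := RE2_pf MA2_ok

end Pool.Agent.Work.MP_f1a024_nt.HP
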