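import Mathlib
import Pool.Agent.Work.MP_f1a024_nt.HP.Stmts2

set_option autoImplicit false

/-!
Item HLB: lower bound for the integral `H(z)`.
-/

namespace Pool.Agent.Work.MP_f1a024_nt.HP

open Real Polynomial MeasureTheory Finset Filter Topology
open scoped Nat

namespace I_HLB

theorem prod_pos {r : ℕ} {y : ℝ} (hy : (r : ℝ) < y) : 0 < ∏ i ∈ range (r + 1), (y - i) := by
  refine Finset.prod_pos fun i hi => ?_
  have : (i : ℝ) ≤ r := by exact_mod_cast Nat.lt_succ_iff.1 (Finset.mem_range.1 hi)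
  linarith

theorem prod_le {r : ℕ} {y : ℝ} (hy : (r : ℝ) < y) :
    ∏ i ∈ range (r + 1), (y - i) ≤ y ^ (r + 1) := by
  have h : ∏ i ∈ range (r + 1), (y - i) ≤ ∏ _i ∈ range (r + 1), y := by
    refine Finset.prod_le_prod (fun i hi => ?_) fun i hi => ?_
    · have : (i : ℝ) ≤ r := by exact_mod_cast Nat.lt_succ_iff.1 (Finset.mem_range.1 hi)
      linarith
    · have : (0 : ℝ) ≤ i := Nat.cast_nonneg i
      linarith
  simpa using h

theorem psi_nonneg {r A : ℕ} {y : ℝ} (hy : (r : ℝ) < y) : 0 ≤ Psi r A y := by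
  unfold Psi
  have := prod_pos hy
  positivity

theorem psi_ge {r A : ℕ} {y w : ℝ} (hy : (r : ℝ) < y) (hw : y ≤ w) :
    ((r ! : ℝ) / w ^ (r + 1)) ^ A ≤ Psi r A y := by
  unfold Psi
  have hy0 : 0 < y := lt_of_le_of_lt (Nat.cast_nonneg r) hy
  have hw0 : 0 < w := lt_of_lt_of_le hy0 hw
  have h1 := prod_pos hy
  have h2 : ∏ i ∈ range (r + 1), (y - i) ≤ w ^ (r + 1) :=
    (prod_le hy).trans (pow_le_pow_left₀ hy0.le hw _)
  refine pow_le_pow_left₀ (by positivity) ?_ A
  exact div_le_div_of_nonneg_left (by positivity) h1 h2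

end I_HLB

open I_HLB in
/-- HLB -/
theorem HLB_pf (h1 : S_HIN) : S_HLB := by
  intro r A n hr hn z hz
  have hr0 : (0 : ℝ) ≤ r := Nat.cast_nonneg r
  have hz0 : 0 < z := by linarith
  have hzr : (r : ℝ) < z := by linarith
  have hint := (h1 r A n hr hn).1 z hzr
  have hsub : Set.Icc (2 * z) (3 * z) ⊆ Set.Ioi z := by
    intro y hy
    have := hy.1
    show z < y
    linarith
  have hnn : ∀ y ∈ Set.Ioi z, 0 ≤ (y - z) ^ n * Psi r A y := by
    intro y hy
    have hy' : z < y := hy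
    have : 0 ≤ y - z := by linarith
    exact mul_nonneg (pow_nonneg this n) (psi_nonneg (hzr.trans hy'))
  have h2 : ∫ y in Set.Icc (2 * z) (3 * z), (y - z) ^ n * Psi r A y ≤ HH r A n z := by
    unfold HH
    refine setIntegral_mono_set hint ?_ ?_
    · exact (ae_restrict_iff' measurableSet_Ioi).2 (Eventually.of_forall fun y hy => hnn y hy)
    · exact Eventually.of_forall fun y hy => hsub hy
  have h3 : ∫ _y in Set.Icc (2 * z) (3 * z), z ^ n * ((r ! : ℝ) / (3 * z) ^ (r + 1)) ^ A ≤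
      ∫ y in Set.Icc (2 * z) (3 * z), (y - z) ^ n * Psi r A y := by
    refine setIntegral_mono_on ?_ (hint.mono_set hsub) measurableSet_Icc ?_
    · exact integrableOn_const (by simp)
    · intro y hy
      have hy1 := hy.1
      have hy2 := hy.2
      have hpos : 0 ≤ ((r ! : ℝ) / (3 * z) ^ (r + 1)) ^ A := by positivity
      refine mul_le_mul ?_ ?_ hpos (pow_nonneg (by linarith) n)
      · exact pow_le_pow_left₀ hz0.le (by linarith) n
      · exact psi_ge (by linarith) hy2
  have h4 : ∫ _y in Set.Icc (2 * z) (3 * z), z ^ n * ((r ! : ℝ) / (3 * z) ^ (r + 1)) ^ A =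
      ((r ! : ℝ) / (3 * z) ^ (r + 1)) ^ A * z ^ (n + 1) := by
    rw [setIntegral_const, smul_eq_mul, Real.volume_real_Icc_of_le (by linarith)]
    ring
  linarith

end Pool.Agent.Work.MP_f1a024_nt.HP
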